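import Mathlib

/-!
# Product measures: approximation by cylinders and a zero-one law
-/

set_option autoImplicit false

namespace Pool.Agent.R987.Bern

open MeasureTheory ProbabilityTheory Set Filter Topology
open scoped ENNReal symmDiff

universe u v w

/-- The law of an iid family indexed by `ι` with one-site law `lam`. -/
noncomputable def iid (ι : Type u) {T : Type v} [MeasurableSpace T] (lam : Measure T) :
    Measure (ι → T) := Measure.infinitePi (fun _ : ι => lam)

section

variable {ι : Type u} {κ : Type w} {T : Type v} [MeasurableSpace T] (lam : Measure T)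
  [IsProbabilityMeasure lam]

instance : IsProbabilityMeasure (iid ι lam) := by unfold iid; infer_instance

theorem measurable_comp (f : κ → ι) : Measurable (fun x : ι → T => fun k => x (f k)) :=
  measurable_pi_lambda _ fun k => measurable_pi_apply (f k)

theorem map_comp (f : κ → ι) (hf : Function.Injective f) :
    (iid ι lam).map (fun x : ι → T => fun k => x (f k)) = iid κ lam := by
  unfold iid
  refine Measure.eq_infinitePi _ ?_
  intro s t ht
  classical
  have hm : MeasurableSet ((↑s : Set κ).pi t) :=
    MeasurableSet.pi s.countable_toSet fun i _ => ht i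
  rw [Measure.map_apply (measurable_comp f) hm]
  by_cases hk : Nonempty κ
  · set g := Function.invFun f with hg
    have hgf : ∀ k, g (f k) = k := Function.leftInverse_invFun hf
    have e : (fun x : ι → T => fun k => x (f k)) ⁻¹' ((↑s : Set κ).pi t) =
        ((↑(s.image f) : Set ι).pi (fun i => t (g i))) := by
      ext x
      simp only [Set.mem_preimage, Set.mem_pi, Finset.coe_image, Set.mem_image, Finset.mem_coe]
      constructor
      · rintro h _ ⟨i, hi, rfl⟩
        rw [hgf]
        exact h i hi
      · intro h i hi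
        have := h (f i) ⟨i, hi, rfl⟩
        rwa [hgf] at this
    rw [e, Measure.infinitePi_pi _ (fun i _ => ht (g i)), Finset.prod_image (fun a _ b _ h => hf h)]
    refine Finset.prod_congr rfl fun i _ => ?_
    rw [hgf]
  · have hs : s = ∅ := by
      ext k
      exact (hk ⟨k⟩).elim
    subst hs
    simp

/-- Approximation of measurable sets by finite dimensional ones. -/
theorem approx {A : Set (ι → T)} (hA : MeasurableSet A) {ε : ℝ≥0∞} (hε : 0 < ε) :
    ∃ (F : Finset ι) (S : Set (F → T)), MeasurableSet S ∧
      iid ι lam ((F.restrict ⁻¹' S) ∆ A) < ε := by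
  have h1 : IsSetRing (measurableCylinders (fun _ : ι => T)) := isSetRing_measurableCylinders
  obtain ⟨t, ht, ht2⟩ := exists_measure_symmDiff_lt_of_generateFrom_isSetRing
    (μ := iid ι lam) h1 ⟨{univ}, countable_singleton _, by
      rw [singleton_subset_iff]; exact univ_mem_measurableCylinders _, by simp⟩
      (generateFrom_measurableCylinders).symm hA hε
  obtain ⟨F, S, hS, rfl⟩ := (mem_measurableCylinders t).1 ht
  exact ⟨F, S, hS, ht2⟩

/-- Zero-one law: if for every finite set `F` of coordinates there are two random points `X`, `Y`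
with the iid law whose restrictions to `F` are independent and which are almost surely both in `A`
or both outside `A`, then `A` has probability `0` or `1`. -/
theorem zero_one {A : Set (ι → T)} (hA : MeasurableSet A)
    (h : ∀ F : Finset ι, ∃ (Ω : Type (max u v)) (_ : MeasurableSpace Ω) (P : Measure Ω)
      (X Y : Ω → ι → T), IsProbabilityMeasure P ∧ Measurable X ∧ Measurable Y ∧
      P.map X = iid ι lam ∧ P.map Y = iid ι lam ∧
      IndepFun (fun ω => F.restrict (X ω)) (fun ω => F.restrict (Y ω)) P ∧
      ∀ᵐ ω ∂P, X ω ∈ A ↔ Y ω ∈ A) :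
    iid ι lam A = 0 ∨ iid ι lam A = 1 := by
  set μ := iid ι lam with hμ
  have key : ∀ ε : ℝ, 0 < ε → |μ.real A - μ.real A ^ 2| ≤ 4 * ε := by
    intro ε hε
    obtain ⟨F, S, hS, hlt⟩ := approx lam hA (ENNReal.ofReal_pos.2 hε)
    obtain ⟨Ω, _, P, X, Y, hP, hX, hY, hXl, hYl, hind, hae⟩ := h F
    set C : Set (ι → T) := F.restrict ⁻¹' S with hC
    have hCm : MeasurableSet C := (Finset.measurable_restrict F) hS
    have hd : μ.real (C ∆ A) ≤ ε := by
      rw [measureReal_def]
      exact ENNReal.toReal_le_of_le_ofReal hε.le hlt.le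
    have hreal : ∀ (Z : Ω → ι → T), Measurable Z → P.map Z = μ → ∀ B, MeasurableSet B →
        P.real (Z ⁻¹' B) = μ.real B := by
      intro Z hZ hZl B hB
      rw [← hZl, measureReal_def, measureReal_def, Measure.map_apply hZ hB]
    have e1 : P.real (X ⁻¹' A ∩ Y ⁻¹' A) = μ.real A := by
      rw [← hreal X hX hXl A hA]
      apply measureReal_congr
      filter_upwards [hae] with ω hω
      apply propext
      change (X ω ∈ A ∧ Y ω ∈ A) ↔ X ω ∈ A
      tauto
    have e2 : P.real (X ⁻¹' C ∩ Y ⁻¹' C) = μ.real C ^ 2 := by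
      have h3 : P.real ((fun ω => F.restrict (X ω)) ⁻¹' S ∩ (fun ω => F.restrict (Y ω)) ⁻¹' S) =
          P.real ((fun ω => F.restrict (X ω)) ⁻¹' S) *
            P.real ((fun ω => F.restrict (Y ω)) ⁻¹' S) := by
        rw [measureReal_def, hind.measure_inter_preimage_eq_mul S S hS hS, ENNReal.toReal_mul]
        rfl
      have h4 : (fun ω => F.restrict (X ω)) ⁻¹' S = X ⁻¹' C := rfl
      have h5 : (fun ω => F.restrict (Y ω)) ⁻¹' S = Y ⁻¹' C := rfl
      rw [h4, h5, hreal X hX hXl C hCm, hreal Y hY hYl C hCm] at h3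
      rw [h3, sq]
    have e3 : |P.real (X ⁻¹' A ∩ Y ⁻¹' A) - P.real (X ⁻¹' C ∩ Y ⁻¹' C)| ≤ 2 * ε := by
      have hsub : ∀ B B' : Set Ω, MeasurableSet B → MeasurableSet B' →
          P.real B ≤ P.real B' + P.real (B \ B') := by
        intro B B' hB hB'
        calc P.real B ≤ P.real (B' ∪ (B \ B')) := measureReal_mono (by
              intro z hz; by_cases h : z ∈ B' <;> simp [h, hz])
          _ ≤ _ := measureReal_union_le _ _
      have hdX : P.real (X ⁻¹' (C ∆ A)) ≤ ε := by
        rw [hreal X hX hXl _ (hCm.symmDiff hA)]; exact hd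
      have hdY : P.real (Y ⁻¹' (C ∆ A)) ≤ ε := by
        rw [hreal Y hY hYl _ (hCm.symmDiff hA)]; exact hd
      have hU : P.real (X ⁻¹' (C ∆ A) ∪ Y ⁻¹' (C ∆ A)) ≤ 2 * ε := by
        refine (measureReal_union_le _ _).trans ?_
        linarith
      have m1 : MeasurableSet (X ⁻¹' A ∩ Y ⁻¹' A) := (hX hA).inter (hY hA)
      have m2 : MeasurableSet (X ⁻¹' C ∩ Y ⁻¹' C) := (hX hCm).inter (hY hCm)
      have s1 := hsub _ _ m1 m2
      have s2 := hsub _ _ m2 m1
      have t1 : P.real ((X ⁻¹' A ∩ Y ⁻¹' A) \ (X ⁻¹' C ∩ Y ⁻¹' C)) ≤ 2 * ε := by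
        refine (measureReal_mono ?_).trans hU
        intro ω hω
        simp only [Set.mem_sdiff, mem_inter_iff, mem_preimage, mem_union, Set.mem_symmDiff] at hω ⊢
        tauto
      have t2 : P.real ((X ⁻¹' C ∩ Y ⁻¹' C) \ (X ⁻¹' A ∩ Y ⁻¹' A)) ≤ 2 * ε := by
        refine (measureReal_mono ?_).trans hU
        intro ω hω
        simp only [Set.mem_sdiff, mem_inter_iff, mem_preimage, mem_union, Set.mem_symmDiff] at hω ⊢
        tauto
      rw [abs_le]
      constructor <;> linarith
    have e4 : |μ.real C - μ.real A| ≤ ε := by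
      have := abs_measureReal_sub_le_measureReal_symmDiff (μ := μ) hCm.nullMeasurableSet
        hA.nullMeasurableSet
      exact this.trans hd
    have c0 : 0 ≤ μ.real C := measureReal_nonneg
    have c1 : μ.real C ≤ 1 := measureReal_le_one
    have a0 : 0 ≤ μ.real A := measureReal_nonneg
    have a1 : μ.real A ≤ 1 := measureReal_le_one
    rw [e1, e2] at e3
    have e5 : |μ.real C ^ 2 - μ.real A ^ 2| ≤ 2 * ε := by
      have : μ.real C ^ 2 - μ.real A ^ 2 = (μ.real C - μ.real A) * (μ.real C + μ.real A) := by
        ring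
      rw [this, abs_mul]
      have h6 : |μ.real C + μ.real A| ≤ 2 := by rw [abs_of_nonneg (by linarith)]; linarith
      nlinarith [abs_nonneg (μ.real C - μ.real A), abs_nonneg (μ.real C + μ.real A)]
    have : μ.real A - μ.real A ^ 2 = (μ.real A - μ.real C ^ 2) + (μ.real C ^ 2 - μ.real A ^ 2) := by
      ring
    rw [this]
    refine (abs_add_le _ _).trans ?_
    linarith
  have h0 : μ.real A - μ.real A ^ 2 = 0 := by
    by_contra hne
    have hpos : 0 < |μ.real A - μ.real A ^ 2| := abs_pos.2 hne
    have := key (|μ.real A - μ.real A ^ 2| / 8) (by positivity)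
    linarith
  have h1 : μ.real A * (1 - μ.real A) = 0 := by linarith [h0, sq (μ.real A)]
  rcases mul_eq_zero.1 h1 with h2 | h2
  · left
    rwa [measureReal_def, ENNReal.toReal_eq_zero_iff, or_iff_left (measure_ne_top _ _)] at h2
  · right
    have h3 : (μ A).toReal = 1 := by rw [← measureReal_def]; linarith
    rw [← ENNReal.ofReal_toReal (measure_ne_top μ A), h3, ENNReal.ofReal_one]

/-- Independence of disjoint sets of coordinates. -/
theorem indep_coord [Countable ι] (F : Finset ι) (f : κ → ι) (h : ∀ k, f k ∉ F) (s : Finset κ) :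
    IndepFun (fun x : ι → T => F.restrict x) (fun x : ι → T => s.restrict (fun k => x (f k)))
      (iid ι lam) := by
  classical
  have h1 : iIndepFun (fun (i : ι) (x : ι → T) => x i) (iid ι lam) :=
    iIndepFun_infinitePi (P := fun _ : ι => lam) (X := fun _ : ι => (id : T → T))
      (fun _ => measurable_id)
  have hd : Disjoint F (s.image f) := by
    rw [Finset.disjoint_left]
    intro i hi hi2
    obtain ⟨k, _, rfl⟩ := Finset.mem_image.1 hi2
    exact h k hi
  have h2 := h1.indepFun_finset F (s.image f) hd (fun i => measurable_pi_apply i)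
  have h3 := h2.comp (φ := id) (ψ := fun z : (↥(s.image f) → T) =>
    fun k : s => z ⟨f k, Finset.mem_image_of_mem f k.2⟩) measurable_id
    (measurable_pi_lambda _ fun k => measurable_pi_apply _)
  exact h3

/-- Ergodicity: a measurable set which is almost invariant under a permutation of the coordinates
all of whose orbits are infinite has probability `0` or `1`. -/
theorem ergodic [Countable ι] (e : ι → ι) (he : Function.Injective e)
    (hw : ∀ F : Finset ι, ∃ n : ℕ, ∀ i ∈ F, e^[n] i ∉ F)
    {A : Set (ι → T)} (hA : MeasurableSet A)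
    (hinv : ∀ᵐ x ∂(iid ι lam), x ∈ A ↔ (fun i => x (e i)) ∈ A) :
    iid ι lam A = 0 ∨ iid ι lam A = 1 := by
  classical
  have hiter : ∀ n : ℕ, ∀ᵐ x ∂(iid ι lam), x ∈ A ↔ (fun i => x (e^[n] i)) ∈ A := by
    intro n
    induction n with
    | zero => exact Eventually.of_forall fun x => Iff.rfl
    | succ n ih =>
      have hmp : MeasurePreserving (fun x : ι → T => fun i => x (e^[n] i)) (iid ι lam)
          (iid ι lam) := ⟨measurable_comp _, map_comp lam _ (he.iterate n)⟩
      have h2 := hmp.quasiMeasurePreserving.ae hinv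
      filter_upwards [ih, h2] with x h3 h4
      rw [h3, h4]
      simp only [Function.iterate_succ_apply]
  refine zero_one lam hA fun F => ?_
  obtain ⟨n, hn⟩ := hw F
  have hmp : MeasurePreserving (fun x : ι → T => fun i => x (e^[n] i)) (iid ι lam)
      (iid ι lam) := ⟨measurable_comp _, map_comp lam _ (he.iterate n)⟩
  refine ⟨ι → T, inferInstance, iid ι lam, id, fun x => fun i => x (e^[n] i), inferInstance,
    measurable_id, hmp.1, Measure.map_id, hmp.2, ?_, hiter n⟩
  have h1 := indep_coord lam F (fun k : F => e^[n] k) (fun k => hn k k.2) Finset.univ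
  have h2 := h1.comp (φ := id) (ψ := fun z : (↥(Finset.univ : Finset F) → T) =>
    fun k : F => z ⟨k, Finset.mem_univ k⟩) measurable_id
    (measurable_pi_lambda _ fun k => measurable_pi_apply _)
  exact h2

end

end Pool.Agent.R987.Bern
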