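import Mathlib

/-!
# The BKR product (disjoint occurrence) and its parenthesisations
-/

set_option autoImplicit false

namespace Pool.Agent.R987.BKR

open Set

universe u v

/-- The cylinder `[x]_K`: all points which agree with `x` on the coordinates in `K`. -/
def cyl {ι : Type u} {S : Type v} (x : ι → S) (K : Finset ι) : Set (ι → S) :=
  {y | ∀ i ∈ K, y i = x i}

/-- The binary BKR product: `x` belongs to it if there are disjoint sets `K`, `L` of coordinates
with `[x]_K ⊆ A` and `[x]_L ⊆ B`. -/
def bkr {ι : Type u} {S : Type v} (A B : Set (ι → S)) : Set (ι → S) :=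
  {x | ∃ K L : Finset ι, Disjoint K L ∧ cyl x K ⊆ A ∧ cyl x L ⊆ B}

/-- The simultaneous `r`-fold BKR product: `x` belongs to it if there are pairwise disjoint sets
`K i` of coordinates with `[x]_(K i) ⊆ A i` for all `i`. -/
def simul {ι : Type u} {S : Type v} {r : ℕ} (A : Fin r → Set (ι → S)) : Set (ι → S) :=
  {x | ∃ K : Fin r → Finset ι, (∀ i j, i ≠ j → Disjoint (K i) (K j)) ∧ ∀ i, cyl x (K i) ⊆ A i}

/-- Parenthesisations of a word, i.e. full binary trees (the leaves are the letters of the word, in
this order). -/
inductive Bracketing : Type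
  | leaf : Bracketing
  | node : Bracketing → Bracketing → Bracketing

/-- The number of leaves: the length of the word. -/
def Bracketing.size : Bracketing → ℕ
  | .leaf => 1
  | .node l r => l.size + r.size

/-- The value of the parenthesisation `t` of the word `A k, A (k + 1), …` (of length `t.size`),
evaluated with the binary BKR product. -/
def val {ι : Type u} {S : Type v} (A : ℕ → Set (ι → S)) : Bracketing → ℕ → Set (ι → S)
  | .leaf, k => A k
  | .node l r, k => bkr (val A l k) (val A r (k + l.size))

section

variable {ι : Type u} {S : Type v}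

theorem Bracketing.size_pos (t : Bracketing) : 0 < t.size := by
  induction t with
  | leaf => exact Nat.one_pos
  | node l r ihl ihr => simp only [Bracketing.size]; omega

theorem self_mem_cyl (x : ι → S) (K : Finset ι) : x ∈ cyl x K := fun _ _ => rfl

theorem cyl_anti (x : ι → S) {K L : Finset ι} (h : K ⊆ L) : cyl x L ⊆ cyl x K :=
  fun _ hy i hi => hy i (h hi)

theorem bkr_subset_left (A B : Set (ι → S)) : bkr A B ⊆ A := by
  rintro x ⟨K, L, _, h1, _⟩
  exact h1 (self_mem_cyl x K)

theorem mem_bkr_iff [Fintype ι] [DecidableEq ι] (A B : Set (ι → S)) (x : ι → S) :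
    x ∈ bkr A B ↔ ∃ K : Finset ι, (∀ y ∈ cyl x K, y ∈ A) ∧ ∀ y ∈ cyl x Kᶜ, y ∈ B := by
  constructor
  · rintro ⟨K, L, hd, h1, h2⟩
    refine ⟨K, h1, fun y hy => h2 (cyl_anti x ?_ hy)⟩
    intro i hi
    rw [Finset.mem_compl]
    exact fun h => Finset.disjoint_left.1 hd h hi
  · rintro ⟨K, h1, h2⟩
    exact ⟨K, Kᶜ, disjoint_compl_right, h1, h2⟩

theorem bkr_univ [Fintype ι] (A : Set (ι → S)) : bkr A univ = A := by
  classical
  ext x
  rw [mem_bkr_iff]
  constructor
  · rintro ⟨K, h1, _⟩
    exact h1 x (self_mem_cyl x K)
  · intro hx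
    refine ⟨Finset.univ, fun y hy => ?_, fun _ _ => mem_univ _⟩
    have : y = x := funext fun i => hy i (Finset.mem_univ i)
    rwa [this]

theorem univ_bkr [Fintype ι] (A : Set (ι → S)) : bkr univ A = A := by
  classical
  ext x
  rw [mem_bkr_iff]
  constructor
  · rintro ⟨K, _, h1⟩
    exact h1 x (self_mem_cyl x _)
  · intro hx
    refine ⟨∅, fun _ _ => mem_univ _, fun y hy => ?_⟩
    have : y = x := funext fun i => hy i (by simp)
    rwa [this]

/-- The bracketing `t` of the letters `k, …, k + t.size - 1` joins the letters `a` and `b` before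
joining them with `c` (for `a < b < c` among these letters). -/
def leftFirst : Bracketing → ℕ → ℕ → ℕ → ℕ → Bool
  | .leaf, _, _, _, _ => true
  | .node l r, k, a, b, c =>
    if c < k + l.size then leftFirst l k a b c
    else if k + l.size ≤ a then leftFirst r (k + l.size) a b c
    else decide (b < k + l.size)

/-- The word in which all letters are neutral, except for the letters `a`, `b`, `c`. -/
def gad (G1 G2 G3 : Set (ι → S)) (a b c : ℕ) (m : ℕ) : Set (ι → S) :=
  if m = a then G1 else if m = b then G2 else if m = c then G3 else univ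

theorem val_gad [Fintype ι] (G1 G2 G3 : Set (ι → S)) {a b c : ℕ} (hab : a < b) (hbc : b < c)
    (t : Bracketing) : ∀ k : ℕ,
    (c < k ∨ k + t.size ≤ a → val (gad G1 G2 G3 a b c) t k = univ) ∧
    (k ≤ a → a < k + t.size → k + t.size ≤ b → val (gad G1 G2 G3 a b c) t k = G1) ∧
    (a < k → k ≤ b → b < k + t.size → k + t.size ≤ c → val (gad G1 G2 G3 a b c) t k = G2) ∧
    (b < k → k ≤ c → c < k + t.size → val (gad G1 G2 G3 a b c) t k = G3) ∧
    (a < k → k ≤ b → c < k + t.size → val (gad G1 G2 G3 a b c) t k = bkr G2 G3) ∧
    (k ≤ a → b < k + t.size → k + t.size ≤ c → val (gad G1 G2 G3 a b c) t k = bkr G1 G2) ∧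
    (k ≤ a → c < k + t.size → val (gad G1 G2 G3 a b c) t k =
      if leftFirst t k a b c = true then bkr (bkr G1 G2) G3 else bkr G1 (bkr G2 G3)) ∧
    (a < k → k + t.size ≤ b → val (gad G1 G2 G3 a b c) t k = univ) ∧
    (b < k → k + t.size ≤ c → val (gad G1 G2 G3 a b c) t k = univ) := by
  induction t with
  | leaf =>
    intro k
    simp only [Bracketing.size, val, gad]
    refine ⟨fun h => ?_, fun h1 h2 h3 => ?_, fun h1 h2 h3 h4 => ?_, fun h1 h2 h3 => ?_,
      fun h1 h2 h3 => ?_, fun h1 h2 h3 => ?_, fun h1 h2 => ?_, fun h1 h2 => ?_, fun h1 h2 => ?_⟩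
    · rw [if_neg (by omega), if_neg (by omega), if_neg (by omega)]
    · rw [if_pos (by omega)]
    · rw [if_neg (by omega), if_pos (by omega)]
    · rw [if_neg (by omega), if_neg (by omega), if_pos (by omega)]
    · omega
    · omega
    · omega
    · rw [if_neg (by omega), if_neg (by omega), if_neg (by omega)]
    · rw [if_neg (by omega), if_neg (by omega), if_neg (by omega)]
  | node l r ihl ihr =>
    intro k
    have hl := l.size_pos
    have hr := r.size_pos
    obtain ⟨l1, l2, l3, l4, l5, l6, l7, l8, l9⟩ := ihl k
    obtain ⟨r1, r2, r3, r4, r5, r6, r7, r8, r9⟩ := ihr (k + l.size)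
    have hs : (Bracketing.node l r).size = l.size + r.size := rfl
    have hv : val (gad G1 G2 G3 a b c) (.node l r) k =
      bkr (val (gad G1 G2 G3 a b c) l k) (val (gad G1 G2 G3 a b c) r (k + l.size)) := rfl
    rw [hs, hv]
    refine ⟨fun h => ?_, fun h1 h2 h3 => ?_, fun h1 h2 h3 h4 => ?_, fun h1 h2 h3 => ?_,
      fun h1 h2 h3 => ?_, fun h1 h2 h3 => ?_, fun h1 h2 => ?_, fun h1 h2 => ?_, fun h1 h2 => ?_⟩
    · rw [l1 (by omega), r1 (by omega), bkr_univ]
    · by_cases h : a < k + l.size
      · rw [l2 (by omega) (by omega) (by omega), r8 (by omega) (by omega), bkr_univ]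
      · rw [l1 (by omega), r2 (by omega) (by omega) (by omega), univ_bkr]
    · by_cases h : b < k + l.size
      · rw [l3 (by omega) (by omega) (by omega) (by omega), r9 (by omega) (by omega), bkr_univ]
      · rw [l8 (by omega) (by omega), r3 (by omega) (by omega) (by omega) (by omega), univ_bkr]
    · by_cases h : c < k + l.size
      · rw [l4 (by omega) (by omega) (by omega), r1 (by omega), bkr_univ]
      · rw [l9 (by omega) (by omega), r4 (by omega) (by omega) (by omega), univ_bkr]
    · by_cases h : c < k + l.size
      · rw [l5 (by omega) (by omega) (by omega), r1 (by omega), bkr_univ]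
      · by_cases h' : b < k + l.size
        · rw [l3 (by omega) (by omega) (by omega) (by omega), r4 (by omega) (by omega) (by omega)]
        · rw [l8 (by omega) (by omega), r5 (by omega) (by omega) (by omega), univ_bkr]
    · by_cases h : b < k + l.size
      · rw [l6 (by omega) (by omega) (by omega), r9 (by omega) (by omega), bkr_univ]
      · by_cases h' : a < k + l.size
        · rw [l2 (by omega) (by omega) (by omega), r3 (by omega) (by omega) (by omega) (by omega)]
        · rw [l1 (by omega), r6 (by omega) (by omega) (by omega), univ_bkr]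
    · by_cases h : c < k + l.size
      · rw [l7 (by omega) (by omega), r1 (by omega), bkr_univ, leftFirst, if_pos h]
      · by_cases h' : k + l.size ≤ a
        · rw [l1 (by omega), r7 (by omega) (by omega), univ_bkr, leftFirst, if_neg h, if_pos h']
        · rw [leftFirst, if_neg h, if_neg h']
          by_cases h'' : b < k + l.size
          · rw [l6 (by omega) (by omega) (by omega), r4 (by omega) (by omega) (by omega)]
            simp [h'']
          · rw [l2 (by omega) (by omega) (by omega), r5 (by omega) (by omega) (by omega)]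
            simp [h'']
    · rw [l8 (by omega) (by omega), r8 (by omega) (by omega), bkr_univ]
    · rw [l9 (by omega) (by omega), r9 (by omega) (by omega), bkr_univ]

/-- Different bracketings of the same length are separated by a triple of letters. -/
theorem exists_triple : ∀ (t t' : Bracketing) (k : ℕ), t.size = t'.size → t ≠ t' →
    ∃ a b c, k ≤ a ∧ a < b ∧ b < c ∧ c < k + t.size ∧
      leftFirst t k a b c ≠ leftFirst t' k a b c := by
  intro t
  induction t with
  | leaf =>
    intro t' k hs hne
    cases t' with
    | leaf => exact absurd rfl hne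
    | node l r =>
      have := l.size_pos
      have := r.size_pos
      simp only [Bracketing.size] at hs
      omega
  | node l r ihl ihr =>
    intro t' k hs hne
    have hl := l.size_pos
    have hr := r.size_pos
    cases t' with
    | leaf =>
      simp only [Bracketing.size] at hs
      omega
    | node l' r' =>
      have hl' := l'.size_pos
      have hr' := r'.size_pos
      simp only [Bracketing.size] at hs ⊢
      rcases lt_trichotomy l.size l'.size with h | h | h
      · refine ⟨k, k + l.size, k + l.size + r.size - 1, le_rfl, by omega, by omega, by omega, ?_⟩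
        simp only [leftFirst]
        rw [if_neg (by omega), if_neg (by omega), if_neg (by omega), if_neg (by omega)]
        have e1 : ¬ (k + l.size < k + l.size) := by omega
        have e2 : k + l.size < k + l'.size := by omega
        simp [e2]
      · by_cases hll : l = l'
        · subst hll
          have hrr : r ≠ r' := by
            rintro rfl
            exact hne rfl
          obtain ⟨a, b, c, h1, h2, h3, h4, h5⟩ := ihr r' (k + l.size) (by omega) hrr
          refine ⟨a, b, c, by omega, h2, h3, by omega, ?_⟩
          simp only [leftFirst]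
          rw [if_neg (by omega), if_pos (by omega), if_neg (by omega), if_pos (by omega)]
          exact h5
        · obtain ⟨a, b, c, h1, h2, h3, h4, h5⟩ := ihl l' k h hll
          refine ⟨a, b, c, h1, h2, h3, by omega, ?_⟩
          simp only [leftFirst]
          rw [if_pos (by omega), if_pos (by omega)]
          exact h5
      · refine ⟨k, k + l'.size, k + l.size + r.size - 1, le_rfl, by omega, by omega, by omega, ?_⟩
        simp only [leftFirst]
        rw [if_neg (by omega), if_neg (by omega), if_neg (by omega), if_neg (by omega)]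
        have e2 : k + l'.size < k + l.size := by omega
        simp [e2]

/-- The product of a family of sets over `T`, for disjoint copies of the coordinates. -/
def prodSet {T : Type*} (B : T → Set (ι → S)) : Set (T × ι → S) :=
  {x | ∀ τ, (fun i => x (τ, i)) ∈ B τ}

theorem bkr_prodSet {T : Type*} [Fintype T] [Fintype ι] (B C : T → Set (ι → S)) :
    bkr (prodSet B) (prodSet C) = prodSet fun τ => bkr (B τ) (C τ) := by
  classical
  have key : ∀ (x : T × ι → S) (K : Finset (T × ι)) (B : T → Set (ι → S)),
      cyl x K ⊆ prodSet B → ∀ τ, cyl (fun i => x (τ, i))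
        (Finset.univ.filter fun i => (τ, i) ∈ K) ⊆ B τ := by
    intro x K B h τ y hy
    have h1 : (fun p : T × ι => if p.1 = τ then y p.2 else x p) ∈ cyl x K := by
      rintro ⟨σ, i⟩ hi
      by_cases hσ : σ = τ
      · subst hσ
        simp only [if_true]
        exact hy i (by simp [hi])
      · simp [hσ]
    have h2 := h h1 τ
    simpa using h2
  ext x
  constructor
  · rintro ⟨K, L, hd, h1, h2⟩ τ
    refine ⟨_, _, ?_, key x K B h1 τ, key x L C h2 τ⟩
    rw [Finset.disjoint_left]
    intro i hi hi2
    simp only [Finset.mem_filter, Finset.mem_univ, true_and] at hi hi2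
    exact Finset.disjoint_left.1 hd hi hi2
  · intro hx
    choose K L hd h1 h2 using hx
    refine ⟨Finset.univ.filter fun p => p.2 ∈ K p.1, Finset.univ.filter fun p => p.2 ∈ L p.1,
      ?_, ?_, ?_⟩
    · rw [Finset.disjoint_left]
      rintro ⟨τ, i⟩ hi hi2
      simp only [Finset.mem_filter, Finset.mem_univ, true_and] at hi hi2
      exact Finset.disjoint_left.1 (hd τ) hi hi2
    · intro y hy τ
      exact h1 τ fun i hi => hy (τ, i) (by simp [hi])
    · intro y hy τ
      exact h2 τ fun i hi => hy (τ, i) (by simp [hi])

theorem val_prodSet {T : Type*} [Fintype T] [Fintype ι] (A : T → ℕ → Set (ι → S))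
    (t : Bracketing) : ∀ k, val (fun m => prodSet fun τ => A τ m) t k =
      prodSet fun τ => val (A τ) t k := by
  induction t with
  | leaf => intro k; rfl
  | node l r ihl ihr =>
    intro k
    simp only [val]
    rw [ihl, ihr, bkr_prodSet]

/-- Renaming the coordinates. -/
def ren {κ : Type*} (e : ι ≃ κ) (A : Set (ι → S)) : Set (κ → S) := {y | (fun i => y (e i)) ∈ A}

theorem bkr_ren {κ : Type*} (e : ι ≃ κ) (A B : Set (ι → S)) :
    bkr (ren e A) (ren e B) = ren e (bkr A B) := by
  classical
  have key : ∀ (y : κ → S) (K : Finset κ) (A : Set (ι → S)), cyl y K ⊆ ren e A ↔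
      cyl (fun i => y (e i)) (K.map e.symm.toEmbedding) ⊆ A := by
    intro y K A
    constructor
    · intro h z hz
      have h1 : (fun k => z (e.symm k)) ∈ cyl y K := by
        intro k hk
        have := hz (e.symm k) (Finset.mem_map_of_mem _ hk)
        simpa using this
      have h2 := h h1
      simpa [ren] using h2
    · intro h z hz
      apply h
      intro i hi
      rw [Finset.mem_map] at hi
      obtain ⟨k, hk, rfl⟩ := hi
      have := hz k hk
      simpa using this
  ext y
  constructor
  · rintro ⟨K, L, hd, h1, h2⟩
    exact ⟨K.map e.symm.toEmbedding, L.map e.symm.toEmbedding,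
      (Finset.disjoint_map _).2 hd, (key y K A).1 h1, (key y L B).1 h2⟩
  · rintro ⟨K, L, hd, h1, h2⟩
    refine ⟨K.map e.toEmbedding, L.map e.toEmbedding, (Finset.disjoint_map _).2 hd, ?_, ?_⟩
    · rw [key, Finset.map_map]
      simpa using h1
    · rw [key, Finset.map_map]
      simpa using h2

theorem val_ren {κ : Type*} (e : ι ≃ κ) (A : ℕ → Set (ι → S)) (t : Bracketing) :
    ∀ k, val (fun m => ren e (A m)) t k = ren e (val A t k) := by
  induction t with
  | leaf => intro k; rfl
  | node l r ihl ihr =>
    intro k
    simp only [val]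
    rw [ihl, ihr, bkr_ren]

theorem ren_injective {κ : Type*} (e : ι ≃ κ) :
    Function.Injective (ren e : Set (ι → S) → Set (κ → S)) := by
  intro A B h
  ext x
  have : (fun k => x (e.symm k)) ∈ ren e A ↔ (fun k => x (e.symm k)) ∈ ren e B := by rw [h]
  simpa [ren] using this

end

end Pool.Agent.R987.BKR
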