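import Mathlib
import Pool.Agent.R987.BKR

/-!
# Powers of a single set under the BKR product: definitions
-/

set_option autoImplicit false

namespace Pool.Agent.R987.BKRPow

open Set Pool.Agent.R987.BKR

universe u v

/-- The value of the bracketing `t` in which every leaf is the set `A`. -/
def pow {ι : Type u} {S : Type v} (A : Set (ι → S)) : Bracketing → Set (ι → S)
  | .leaf => A
  | .node l r => bkr (pow A l) (pow A r)

/-- Equivalence of bracketings: one is obtained from the other by swapping the two subtrees at some
internal nodes. -/
inductive Same : Bracketing → Bracketing → Prop
  | leaf : Same .leaf .leaf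
  | node {l r l' r' : Bracketing} : Same l l' → Same r r' → Same (.node l r) (.node l' r')
  | swap {l r l' r' : Bracketing} : Same l l' → Same r r' → Same (.node l r) (.node r' l')

end Pool.Agent.R987.BKRPow
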