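import Mathlib
import Pool.Agent.R987.BKR
import Pool.Agent.R987.BKRPowDef

/-!
# Powers of a single set under the BKR product
-/

set_option autoImplicit false

namespace Pool.Agent.R987.BKRPow

open Set Pool.Agent.R987.BKR

universe u v

theorem bkr_comm {ι : Type u} {S : Type v} (A B : Set (ι → S)) : bkr A B = bkr B A := by
  ext x
  constructor
  · rintro ⟨K, L, h, h1, h2⟩; exact ⟨L, K, h.symm, h2, h1⟩
  · rintro ⟨K, L, h, h1, h2⟩; exact ⟨L, K, h.symm, h2, h1⟩

theorem pow_same {ι : Type u} {S : Type v} (A : Set (ι → S)) {t t' : Bracketing}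
    (h : Same t t') : pow A t = pow A t' := by
  induction h with
  | leaf => rfl
  | node _ _ h1 h2 => simp only [pow, h1, h2]
  | swap _ _ h1 h2 => simp only [pow, h1, h2]; rw [bkr_comm]

/-- Triples of labels. -/
abbrev Trip (r : ℕ) : Type := Fin r × Fin r × Fin r

/-- Coordinates: three for every triple of labels, and one (the tag) for every label. -/
abbrev Crd (r : ℕ) : Type := (Trip r × Fin 3) ⊕ Fin r

variable {r : ℕ}

/-- The value `v` of the coordinate number `m` of the triple `τ` serves the label `i`. -/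
def srv (τ : Trip r) (m : Fin 3) (v : Bool) (i : Fin r) : Prop :=
  if m = 0 then (v = true ∧ (i = τ.1 ∨ i = τ.2.2)) ∨ (v = false ∧ i = τ.2.1)
  else if m = 1 then v = true ∧ (i = τ.1 ∨ i = τ.2.1)
  else v = true ∧ (i = τ.1 ∨ i = τ.2.1 ∨ i = τ.2.2)

/-- The label `i` belongs to the triple `τ`. -/
def mem3 (τ : Trip r) (i : Fin r) : Prop := i = τ.1 ∨ i = τ.2.1 ∨ i = τ.2.2

/-- The set: some label has its tag on and is served in all triples of `D` to which it belongs. -/
def AD (D : Finset (Trip r)) : Set (Crd r → Bool) :=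
  {x | ∃ i, x (Sum.inr i) = true ∧ ∀ τ ∈ D, mem3 τ i → ∃ m, srv τ m (x (Sum.inl (τ, m))) i}

/-- The labels whose tag is on. -/
def tg (x : Crd r → Bool) : Finset (Fin r) := Finset.univ.filter fun i => x (Sum.inr i) = true

theorem mem_tg (x : Crd r → Bool) (i : Fin r) : i ∈ tg x ↔ x (Sum.inr i) = true := by
  simp [tg]

/-- Switch off the tags outside `K`. -/
def cut (K : Finset (Crd r)) (x : Crd r → Bool) : Crd r → Bool
  | Sum.inl q => x (Sum.inl q)
  | Sum.inr i => if Sum.inr i ∈ K then x (Sum.inr i) else false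

theorem cut_mem (K : Finset (Crd r)) (x : Crd r → Bool) : cut K x ∈ cyl x K := by
  rintro (q | i) h
  · rfl
  · simp [cut, h]

theorem mem_tg_cut (K : Finset (Crd r)) (x : Crd r → Bool) (i : Fin r) :
    i ∈ tg (cut K x) ↔ i ∈ tg x ∧ Sum.inr i ∈ K := by
  rw [mem_tg, mem_tg]
  by_cases h : (Sum.inr i : Crd r) ∈ K <;> simp [cut, h]

theorem disj_cut {K L : Finset (Crd r)} (h : Disjoint K L) (x : Crd r → Bool) :
    Disjoint (tg (cut K x)) (tg (cut L x)) := by
  rw [Finset.disjoint_left]
  intro i hi hi2
  rw [mem_tg_cut] at hi hi2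
  exact Finset.disjoint_left.1 h hi.2 hi2.2

theorem union_cut_subset (K L : Finset (Crd r)) (x : Crd r → Bool) :
    tg (cut K x) ∪ tg (cut L x) ⊆ tg x := by
  intro i hi
  rw [Finset.mem_union, mem_tg_cut, mem_tg_cut] at hi
  rcases hi with hi | hi <;> exact hi.1

theorem card_tg {D : Finset (Trip r)} (t : Bracketing) : ∀ x ∈ pow (AD D) t,
    t.size ≤ (tg x).card := by
  induction t with
  | leaf =>
    rintro x ⟨i, hi, _⟩
    exact Finset.card_pos.2 ⟨i, (mem_tg x i).2 hi⟩
  | node l r ihl ihr =>
    rintro x ⟨K, L, hd, h1, h2⟩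
    have a1 := ihl _ (h1 (cut_mem K x))
    have a2 := ihr _ (h2 (cut_mem L x))
    have a3 := Finset.card_le_card (union_cut_subset K L x)
    rw [Finset.card_union_of_disjoint (disj_cut hd x)] at a3
    simp only [Bracketing.size]
    omega

theorem split_tg {D : Finset (Trip r)} {l r' : Bracketing} {x : Crd r → Bool}
    {K L : Finset (Crd r)} (hd : Disjoint K L) (h1 : cyl x K ⊆ pow (AD D) l)
    (h2 : cyl x L ⊆ pow (AD D) r') (hc : (tg x).card = l.size + r'.size) :
    (tg (cut K x)).card = l.size ∧ (tg (cut L x)).card = r'.size ∧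
      tg (cut K x) ∪ tg (cut L x) = tg x := by
  have a1 := card_tg l _ (h1 (cut_mem K x))
  have a2 := card_tg r' _ (h2 (cut_mem L x))
  have a3 := Finset.card_le_card (union_cut_subset K L x)
  have a4 := Finset.card_union_of_disjoint (disj_cut hd x)
  refine ⟨by omega, by omega, ?_⟩
  exact Finset.eq_of_subset_of_card_le (union_cut_subset K L x) (by omega)

/-- Every label with the tag on is served. -/
theorem served {D : Finset (Trip r)} (t : Bracketing) : ∀ x ∈ pow (AD D) t,
    (tg x).card = t.size → ∀ j ∈ tg x, ∀ τ ∈ D, mem3 τ j →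
      ∃ m, srv τ m (x (Sum.inl (τ, m))) j := by
  induction t with
  | leaf =>
    rintro x ⟨i, hi, h⟩ hc j hj τ hτ hm
    have hc' : (tg x).card = 1 := hc
    obtain ⟨i', hi'⟩ := Finset.card_eq_one.1 hc'
    have e1 : i = i' := by
      have := (mem_tg x i).2 hi
      rw [hi'] at this
      exact Finset.mem_singleton.1 this
    have e2 : j = i' := by
      rw [hi'] at hj
      exact Finset.mem_singleton.1 hj
    rw [e2, ← e1] at hm ⊢
    exact h τ hτ hm
  | node l r ihl ihr =>
    rintro x ⟨K, L, hd, h1, h2⟩ hc j hj τ hτ hm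
    obtain ⟨c1, c2, c3⟩ := split_tg hd h1 h2 hc
    rw [← c3, Finset.mem_union] at hj
    rcases hj with hj | hj
    · exact ihl _ (h1 (cut_mem K x)) c1 j hj τ hτ hm
    · exact ihr _ (h2 (cut_mem L x)) c2 j hj τ hτ hm

/-- The three labels of the triple are different. -/
def Nondeg (τ : Trip r) : Prop := τ.1 ≠ τ.2.1 ∧ τ.1 ≠ τ.2.2 ∧ τ.2.1 ≠ τ.2.2

/-- If all points of `[x]_K` belong to the power, then the labels with the tag on in `K` are
served by coordinates in `K`. -/
theorem served_in {D : Finset (Trip r)} {t : Bracketing} {x : Crd r → Bool}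
    {K : Finset (Crd r)} (h : cyl x K ⊆ pow (AD D) t) (hc : (tg (cut K x)).card = t.size)
    {j : Fin r} (hj : j ∈ tg (cut K x)) {τ : Trip r} (hτ : τ ∈ D) (hn : Nondeg τ)
    (hm : mem3 τ j) :
    ∃ m, Sum.inl (τ, m) ∈ K ∧ srv τ m (x (Sum.inl (τ, m))) j := by
  classical
  let y : Crd r → Bool := fun p => if p ∈ K then x p else
    Sum.elim (fun q : Trip r × Fin 3 => if q.2 = 0 then decide (j = τ.2.1) else false)
      (fun _ => false) p
  have hy : y ∈ cyl x K := fun p hp => by simp [y, hp]
  have htg : tg y = tg (cut K x) := by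
    ext i
    rw [mem_tg_cut, mem_tg, mem_tg]
    by_cases hi : (Sum.inr i : Crd r) ∈ K <;> simp [y, hi]
  obtain ⟨m, hm2⟩ := served t y (h hy) (by rw [htg]; exact hc) j (by rw [htg]; exact hj) τ hτ hm
  by_cases hK : (Sum.inl (τ, m) : Crd r) ∈ K
  · refine ⟨m, hK, ?_⟩
    simpa [y, hK] using hm2
  · exfalso
    obtain ⟨n1, n2, n3⟩ := hn
    simp only [y, hK, if_false, Sum.elim_inl] at hm2
    unfold srv at hm2
    by_cases m0 : m = 0
    · subst m0
      simp only [if_true, decide_eq_true_eq, decide_eq_false_iff_not] at hm2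
      rcases hm2 with ⟨h1, h2 | h2⟩ | ⟨h1, h2⟩
      · exact n1 (h2.symm.trans h1)
      · exact n3 (h1.symm.trans h2)
      · exact h1 h2
    · simp only [m0, if_false] at hm2
      by_cases m1 : m = 1
      · simp [m1] at hm2
      · simp [m1] at hm2

/-- Two labels with the tag on are served by different coordinates. -/
theorem served_two {D : Finset (Trip r)} (t : Bracketing) : ∀ x ∈ pow (AD D) t,
    (tg x).card = t.size → ∀ j ∈ tg x, ∀ j' ∈ tg x, j ≠ j' → ∀ τ ∈ D, Nondeg τ → mem3 τ j →
      mem3 τ j' → ∃ m m', m ≠ m' ∧ srv τ m (x (Sum.inl (τ, m))) j ∧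
        srv τ m' (x (Sum.inl (τ, m'))) j' := by
  induction t with
  | leaf =>
    rintro x _ hc j hj j' hj' hne
    exfalso
    have hc' : (tg x).card = 1 := hc
    obtain ⟨i', hi'⟩ := Finset.card_eq_one.1 hc'
    rw [hi', Finset.mem_singleton] at hj hj'
    exact hne (hj.trans hj'.symm)
  | node l r ihl ihr =>
    rintro x ⟨K, L, hd, h1, h2⟩ hc j hj j' hj' hne τ hτ hn hm hm'
    obtain ⟨c1, c2, c3⟩ := split_tg hd h1 h2 hc
    rw [← c3, Finset.mem_union] at hj hj'
    rcases hj with hj | hj <;> rcases hj' with hj' | hj'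
    · exact ihl _ (h1 (cut_mem K x)) c1 j hj j' hj' hne τ hτ hn hm hm'
    · obtain ⟨m, a1, a2⟩ := served_in h1 c1 hj hτ hn hm
      obtain ⟨m', b1, b2⟩ := served_in h2 c2 hj' hτ hn hm'
      refine ⟨m, m', ?_, a2, b2⟩
      rintro rfl
      exact Finset.disjoint_left.1 hd a1 b1
    · obtain ⟨m, a1, a2⟩ := served_in h2 c2 hj hτ hn hm
      obtain ⟨m', b1, b2⟩ := served_in h1 c1 hj' hτ hn hm'
      refine ⟨m, m', ?_, a2, b2⟩
      rintro rfl
      exact Finset.disjoint_left.1 hd b1 a1
    · exact ihr _ (h2 (cut_mem L x)) c2 j hj j' hj' hne τ hτ hn hm hm'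

/-- The initial state of the coordinates of a triple. -/
def Init (x : Crd r → Bool) (τ : Trip r) : Prop :=
  x (Sum.inl (τ, 0)) = true ∧ x (Sum.inl (τ, 1)) = true ∧ x (Sum.inl (τ, 2)) = false

theorem fin3 (m : Fin 3) : m = 0 ∨ m = 1 ∨ m = 2 := by revert m; decide

/-- In the initial state of the triple `(a, b, f)` the labels `a` and `b` are not separated. -/
theorem not_sep {D : Finset (Trip r)} {l r' : Bracketing} {x : Crd r → Bool}
    {K L : Finset (Crd r)} (hd : Disjoint K L) (h1 : cyl x K ⊆ pow (AD D) l)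
    (h2 : cyl x L ⊆ pow (AD D) r') (hc : (tg x).card = l.size + r'.size)
    {τ : Trip r} (hτ : τ ∈ D) (hn : Nondeg τ) (hi : Init x τ) (hf : τ.2.2 ∈ tg x)
    (ha : τ.1 ∈ tg (cut K x)) (hb : τ.2.1 ∈ tg (cut L x)) : False := by
  classical
  obtain ⟨c1, c2, c3⟩ := split_tg hd h1 h2 hc
  obtain ⟨n1, n2, n3⟩ := hn
  have hn : Nondeg τ := ⟨n1, n2, n3⟩
  obtain ⟨i0, i1, i2⟩ := hi
  have ma : mem3 τ τ.1 := Or.inl rfl
  have mb : mem3 τ τ.2.1 := Or.inr (Or.inl rfl)
  have mf : mem3 τ τ.2.2 := Or.inr (Or.inr rfl)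
  rw [← c3, Finset.mem_union] at hf
  rcases hf with hf | hf
  · -- `a, f` on the left, `b` on the right
    obtain ⟨m, hm1, hm2⟩ := served_in h2 c2 hb hτ hn mb
    have hm : m = 1 := by
      rcases fin3 m with h | h | h
      · subst h
        rw [i0] at hm2
        simp only [srv, if_true, true_and] at hm2
        rcases hm2 with (h | h) | h
        · exact absurd h.symm n1
        · exact absurd h n3
        · simp at h
      · exact h
      · subst h
        rw [i2] at hm2
        simp [srv] at hm2
    subst hm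
    have hK : (Sum.inl (τ, 1) : Crd r) ∉ K := fun h => Finset.disjoint_left.1 hd h hm1
    let y : Crd r → Bool := Function.update (cut K x) (Sum.inl (τ, 1)) false
    have hy : y ∈ cyl x K := by
      intro p hp
      have hne : p ≠ Sum.inl (τ, 1) := fun h => hK (h ▸ hp)
      simp only [y, Function.update_of_ne hne]
      exact cut_mem K x p hp
    have htg : tg y = tg (cut K x) := by
      ext i
      rw [mem_tg, mem_tg]
      simp [y]
    obtain ⟨m, m', hmm, s1, s2⟩ := served_two l y (h1 hy) (by rw [htg]; exact c1) τ.1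
      (by rw [htg]; exact ha) τ.2.2 (by rw [htg]; exact hf) n2 τ hτ hn ma mf
    have y0 : y (Sum.inl (τ, 0)) = true := by simp [y, cut, i0]
    have y1 : y (Sum.inl (τ, 1)) = false := by simp [y]
    have y2 : y (Sum.inl (τ, 2)) = false := by simp [y, cut, i2]
    have em : m = 0 := by
      rcases fin3 m with h | h | h
      · exact h
      · subst h; rw [y1] at s1; simp [srv] at s1
      · subst h; rw [y2] at s1; simp [srv] at s1
    have em' : m' = 0 := by
      rcases fin3 m' with h | h | h
      · exact h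
      · subst h; rw [y1] at s2; simp [srv] at s2
      · subst h; rw [y2] at s2; simp [srv] at s2
    exact hmm (em.trans em'.symm)
  · -- `a` on the left, `b, f` on the right
    obtain ⟨m, hm1, hm2⟩ := served_in h1 c1 ha hτ hn ma
    have hm : m = 0 ∨ m = 1 := by
      rcases fin3 m with h | h | h
      · exact Or.inl h
      · exact Or.inr h
      · subst h
        rw [i2] at hm2
        simp [srv] at hm2
    have hL : (Sum.inl (τ, m) : Crd r) ∉ L := fun h => Finset.disjoint_left.1 hd hm1 h
    let y : Crd r → Bool := Function.update (cut L x) (Sum.inl (τ, m)) false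
    have hy : y ∈ cyl x L := by
      intro p hp
      have hne : p ≠ Sum.inl (τ, m) := fun h => hL (h ▸ hp)
      simp only [y, Function.update_of_ne hne]
      exact cut_mem L x p hp
    have htg : tg y = tg (cut L x) := by
      ext i
      rw [mem_tg, mem_tg]
      simp [y]
    rcases hm with hm | hm
    · subst hm
      obtain ⟨m, s⟩ := served r' y (h2 hy) (by rw [htg]; exact c2) τ.2.2
        (by rw [htg]; exact hf) τ hτ mf
      have y0 : y (Sum.inl (τ, 0)) = false := by simp [y]
      have y1 : y (Sum.inl (τ, 1)) = true := by simp [y, cut, i1]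
      have y2 : y (Sum.inl (τ, 2)) = false := by simp [y, cut, i2]
      rcases fin3 m with h | h | h
      · subst h; rw [y0] at s
        simp only [srv, if_true, Bool.false_eq_true, false_and, true_and, false_or] at s
        exact n3 s.symm
      · subst h; rw [y1] at s
        simp only [srv, Fin.one_eq_zero_iff, OfNat.ofNat_ne_one, if_false, if_true,
          true_and] at s
        rcases s with s | s
        · exact n2 s.symm
        · exact n3 s.symm
      · subst h; rw [y2] at s; simp [srv] at s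
    · subst hm
      obtain ⟨m, s⟩ := served r' y (h2 hy) (by rw [htg]; exact c2) τ.2.1
        (by rw [htg]; exact hb) τ hτ mb
      have y0 : y (Sum.inl (τ, 0)) = true := by simp [y, cut, i0]
      have y1 : y (Sum.inl (τ, 1)) = false := by simp [y]
      have y2 : y (Sum.inl (τ, 2)) = false := by simp [y, cut, i2]
      rcases fin3 m with h | h | h
      · subst h; rw [y0] at s
        simp only [srv, if_true, true_and] at s
        rcases s with (s | s) | s
        · exact n1 s.symm
        · exact n3 s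
        · simp at s
      · subst h; rw [y1] at s; simp [srv] at s
      · subst h; rw [y2] at s; simp [srv] at s

/-- The bracketing `u` of the letters `k, …, k + u.size - 1` joins `a` and `b` before joining them
with `f`. -/
def disp : Bracketing → ℕ → ℕ → ℕ → ℕ → Prop
  | .leaf, _, _, _, _ => False
  | .node l r, k, a, b, f =>
    (a ≠ b ∧ k ≤ a ∧ a < k + l.size ∧ k ≤ b ∧ b < k + l.size ∧
      k + l.size ≤ f ∧ f < k + l.size + r.size) ∨
    (a ≠ b ∧ k + l.size ≤ a ∧ a < k + l.size + r.size ∧ k + l.size ≤ b ∧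
      b < k + l.size + r.size ∧ k ≤ f ∧ f < k + l.size) ∨
    disp l k a b f ∨ disp r (k + l.size) a b f

theorem disp_spec (u : Bracketing) : ∀ k a b f, disp u k a b f →
    a ≠ b ∧ a ≠ f ∧ b ≠ f ∧ k ≤ a ∧ a < k + u.size ∧ k ≤ b ∧ b < k + u.size ∧ k ≤ f ∧
      f < k + u.size := by
  induction u with
  | leaf => intro k a b f h; exact h.elim
  | node l r ihl ihr =>
    intro k a b f h
    simp only [Bracketing.size]
    rcases h with h | h | h | h
    · omega
    · omega
    · have := ihl k a b f h; omega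
    · have := ihr _ a b f h; omega

/-- The labels `k, …, k + s - 1`. -/
def seg (r k s : ℕ) : Finset (Fin r) := Finset.univ.filter fun i => k ≤ i.1 ∧ i.1 < k + s

theorem mem_seg (k s : ℕ) (i : Fin r) : i ∈ seg r k s ↔ k ≤ i.1 ∧ i.1 < k + s := by
  simp [seg]

theorem card_seg {k s : ℕ} (h : k + s ≤ r) : (seg r k s).card = s := by
  have : (seg r k s).map Fin.valEmbedding = Finset.Ico k (k + s) := by
    ext n
    simp only [Finset.mem_map, mem_seg, Fin.valEmbedding_apply, Finset.mem_Ico]
    constructor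
    · rintro ⟨i, hi, rfl⟩; exact hi
    · intro hn; exact ⟨⟨n, by omega⟩, hn, rfl⟩
  rw [← Finset.card_map Fin.valEmbedding, this, Nat.card_Ico]
  omega

/-- The structure of the bracketing is forced. -/
theorem forced {D : Finset (Trip r)} (hnd : ∀ τ ∈ D, Nondeg τ) (u : Bracketing) :
    ∀ (k : ℕ) (t : Bracketing) (x : Crd r → Bool), k + u.size ≤ r →
      (∀ τ : Trip r, disp u k τ.1 τ.2.1 τ.2.2 → τ ∈ D) → t.size = u.size →
      tg x = seg r k u.size → (∀ τ : Trip r, disp u k τ.1 τ.2.1 τ.2.2 → Init x τ) →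
      x ∈ pow (AD D) t → Same t u := by
  classical
  induction u with
  | leaf =>
    intro k t x _ _ hs _ _ _
    cases t with
    | leaf => exact Same.leaf
    | node l r =>
      have := l.size_pos
      have := r.size_pos
      simp only [Bracketing.size] at hs
      omega
  | node u1 u2 ih1 ih2 =>
    intro k t x hk hD hs htg hI hx
    have p1 := u1.size_pos
    have p2 := u2.size_pos
    cases t with
    | leaf =>
      simp only [Bracketing.size] at hs
      omega
    | node l r' =>
      obtain ⟨K, L, hd, h1, h2⟩ := hx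
      have hc : (tg x).card = l.size + r'.size := by
        rw [htg, card_seg hk, ← hs]
        rfl
      obtain ⟨c1, c2, c3⟩ := split_tg hd h1 h2 hc
      have hdisj := disj_cut hd x
      set J1 := tg (cut K x) with hJ1
      set J2 := tg (cut L x) with hJ2
      simp only [Bracketing.size] at hk hs htg
      set L1 := seg r k u1.size with hL1
      set L2 := seg r (k + u1.size) u2.size with hL2
      have hL12 : ∀ i : Fin r, i ∈ tg x ↔ i ∈ L1 ∨ i ∈ L2 := by
        intro i
        rw [htg, mem_seg, hL1, hL2, mem_seg, mem_seg]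
        omega
      have hL1L2 : ∀ i : Fin r, i ∈ L1 → i ∉ L2 := by
        intro i h1 h2
        rw [hL1, mem_seg] at h1
        rw [hL2, mem_seg] at h2
        omega
      have hJ : ∀ i : Fin r, i ∈ tg x ↔ i ∈ J1 ∨ i ∈ J2 := by
        intro i
        rw [← c3, Finset.mem_union]
      have hJd : ∀ i : Fin r, i ∈ J1 → i ∉ J2 := fun i h => Finset.disjoint_left.1 hdisj h
      have ne1 : L1.Nonempty := by
        refine Finset.card_pos.1 ?_
        rw [hL1, card_seg (by omega)]; exact p1
      have ne2 : L2.Nonempty := by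
        refine Finset.card_pos.1 ?_
        rw [hL2, card_seg (by omega)]; exact p2
      -- two labels on the same side of `u` are not separated
      have nosep : ∀ a b f : Fin r, disp (.node u1 u2) k a b f → f ∈ tg x →
          (a ∈ J1 → b ∈ J2 → False) := by
        intro a b f hdsp hf ha hb
        exact not_sep hd h1 h2 hc (τ := (a, b, f)) (hD (a, b, f) hdsp) (hnd _ (hD (a, b, f) hdsp))
          (hI (a, b, f) hdsp) hf ha hb
      have same1 : ∀ a b : Fin r, a ∈ L1 → b ∈ L1 → a ∈ J1 → b ∈ J1 := by
        intro a b ha hb haJ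
        by_contra hbJ
        have hb2 : b ∈ J2 := ((hJ b).1 ((hL12 b).2 (Or.inl hb))).resolve_left hbJ
        obtain ⟨f, hf⟩ := ne2
        refine nosep a b f ?_ ((hL12 f).2 (Or.inr hf)) haJ hb2
        have hne : (a : ℕ) ≠ b := by
          intro h
          have : a = b := Fin.ext h
          rw [this] at haJ
          exact hbJ haJ
        rw [hL1, mem_seg] at ha hb
        rw [hL2, mem_seg] at hf
        left
        omega
      have same2 : ∀ a b : Fin r, a ∈ L2 → b ∈ L2 → a ∈ J1 → b ∈ J1 := by
        intro a b ha hb haJ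
        by_contra hbJ
        have hb2 : b ∈ J2 := ((hJ b).1 ((hL12 b).2 (Or.inr hb))).resolve_left hbJ
        obtain ⟨f, hf⟩ := ne1
        refine nosep a b f ?_ ((hL12 f).2 (Or.inl hf)) haJ hb2
        have hne : (a : ℕ) ≠ b := by
          intro h
          have : a = b := Fin.ext h
          rw [this] at haJ
          exact hbJ haJ
        rw [hL2, mem_seg] at ha hb
        rw [hL1, mem_seg] at hf
        right; left
        omega
      obtain ⟨a1, ha1⟩ := ne1
      obtain ⟨a2, ha2⟩ := ne2
      have neJ1 : J1.Nonempty := Finset.card_pos.1 (by rw [c1]; exact l.size_pos)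
      have neJ2 : J2.Nonempty := Finset.card_pos.1 (by rw [c2]; exact r'.size_pos)
      have hcard1 : L1.card = u1.size := by rw [hL1, card_seg (by omega)]
      have hcard2 : L2.card = u2.size := by rw [hL2, card_seg (by omega)]
      have initK : ∀ τ : Trip r, Init x τ → Init (cut K x) τ := fun τ h => h
      have initL : ∀ τ : Trip r, Init x τ → Init (cut L x) τ := fun τ h => h
      by_cases h1J : a1 ∈ J1
      · -- `L1 ⊆ J1`
        have s1 : ∀ b ∈ L1, b ∈ J1 := fun b hb => same1 a1 b ha1 hb h1J
        have h2J : a2 ∉ J1 := by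
          intro h
          obtain ⟨b, hb⟩ := neJ2
          rcases (hL12 b).1 ((hJ b).2 (Or.inr hb)) with hb1 | hb2
          · exact hJd b (s1 b hb1) hb
          · exact hJd b (same2 a2 b ha2 hb2 h) hb
        have s2 : ∀ b ∈ L2, b ∉ J1 := fun b hb h => h2J (same2 b a2 hb ha2 h)
        have e1 : J1 = L1 := by
          ext i
          constructor
          · intro hi
            rcases (hL12 i).1 ((hJ i).2 (Or.inl hi)) with h | h
            · exact h
            · exact absurd hi (s2 i h)
          · exact s1 i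
        have e2 : J2 = L2 := by
          ext i
          constructor
          · intro hi
            rcases (hL12 i).1 ((hJ i).2 (Or.inr hi)) with h | h
            · exact absurd hi (hJd i (s1 i h))
            · exact h
          · intro hi
            exact ((hJ i).1 ((hL12 i).2 (Or.inr hi))).resolve_left (s2 i hi)
        refine Same.node ?_ ?_
        · exact ih1 k l (cut K x) (by omega)
            (fun τ h => hD τ (Or.inr (Or.inr (Or.inl h)))) (by rw [← c1, e1, hcard1])
            e1 (fun τ h => initK τ (hI τ (Or.inr (Or.inr (Or.inl h))))) (h1 (cut_mem K x))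
        · exact ih2 _ r' (cut L x) (by omega)
            (fun τ h => hD τ (Or.inr (Or.inr (Or.inr h)))) (by rw [← c2, e2, hcard2])
            e2 (fun τ h => initL τ (hI τ (Or.inr (Or.inr (Or.inr h))))) (h2 (cut_mem L x))
      · -- `L1 ⊆ J2`
        have s1 : ∀ b ∈ L1, b ∉ J1 := fun b hb h => h1J (same1 b a1 hb ha1 h)
        have h2J : a2 ∈ J1 := by
          obtain ⟨b, hb⟩ := neJ1
          rcases (hL12 b).1 ((hJ b).2 (Or.inl hb)) with hb1 | hb2
          · exact absurd hb (s1 b hb1)
          · exact same2 b a2 hb2 ha2 hb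
        have s2 : ∀ b ∈ L2, b ∈ J1 := fun b hb => same2 a2 b ha2 hb h2J
        have e1 : J1 = L2 := by
          ext i
          constructor
          · intro hi
            rcases (hL12 i).1 ((hJ i).2 (Or.inl hi)) with h | h
            · exact absurd hi (s1 i h)
            · exact h
          · exact s2 i
        have e2 : J2 = L1 := by
          ext i
          constructor
          · intro hi
            rcases (hL12 i).1 ((hJ i).2 (Or.inr hi)) with h | h
            · exact h
            · exact absurd hi (hJd i (s2 i h))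
          · intro hi
            exact ((hJ i).1 ((hL12 i).2 (Or.inl hi))).resolve_left (s1 i hi)
        refine Same.swap ?_ ?_
        · exact ih2 _ l (cut K x) (by omega)
            (fun τ h => hD τ (Or.inr (Or.inr (Or.inr h)))) (by rw [← c1, e1, hcard2])
            e1 (fun τ h => initK τ (hI τ (Or.inr (Or.inr (Or.inr h))))) (h1 (cut_mem K x))
        · exact ih1 k r' (cut L x) (by omega)
            (fun τ h => hD τ (Or.inr (Or.inr (Or.inl h)))) (by rw [← c2, e2, hcard1])
            e2 (fun τ h => initL τ (hI τ (Or.inr (Or.inr (Or.inl h))))) (h2 (cut_mem L x))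

/-- The condition under which the labels of the triple which lie in a given set of labels can be
served separately. -/
def Good (A B F : Prop) (w : Fin 3 → Bool) : Prop :=
  (A → B → w 1 = true) ∧ (A → B → F → w 0 = true) ∧ (A → w 0 = true ∨ w 1 = true ∨ w 2 = true) ∧
    (B → w 0 = false ∨ w 1 = true ∨ w 2 = true) ∧ (F → w 0 = true ∨ w 2 = true)

theorem good_split {A1 A2 B1 B2 F1 F2 : Prop} (hA : ¬ (A1 ∧ A2)) (hB : ¬ (B1 ∧ B2))
    (hF : ¬ (F1 ∧ F2)) (w : Fin 3 → Bool) (hw : Good (A1 ∨ A2) (B1 ∨ B2) (F1 ∨ F2) w)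
    (h1 : (A1 ∨ A2) → (F1 ∨ F2) → (A1 ∧ B1 ∧ F1) ∨ (A2 ∧ B2 ∧ F2) ∨ (A1 ∧ B1 ∧ F2) ∨ (A2 ∧ B2 ∧ F1))
    (h2 : (B1 ∨ B2) → (F1 ∨ F2) →
      (A1 ∧ B1 ∧ F1) ∨ (A2 ∧ B2 ∧ F2) ∨ (A1 ∧ B1 ∧ F2) ∨ (A2 ∧ B2 ∧ F1)) :
    ∃ s : Finset (Fin 3), (∀ w' : Fin 3 → Bool, (∀ m ∈ s, w' m = w m) → Good A1 B1 F1 w') ∧
      (∀ w' : Fin 3 → Bool, (∀ m ∉ s, w' m = w m) → Good A2 B2 F2 w') := by
  have full : ∀ w' : Fin 3 → Bool, (∀ m ∈ (Finset.univ : Finset (Fin 3)), w' m = w m) → w' = w :=
    fun w' h => funext fun m => h m (Finset.mem_univ m)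
  have full' : ∀ w' : Fin 3 → Bool, (∀ m ∉ (∅ : Finset (Fin 3)), w' m = w m) → w' = w :=
    fun w' h => funext fun m => h m (by simp)
  unfold Good at hw ⊢
  by_cases n1 : ¬ A1 ∧ ¬ B1 ∧ ¬ F1
  · refine ⟨∅, ?_, ?_⟩
    · intro w' _
      grind
    · intro w' hw'
      rw [full' w' hw']
      grind
  by_cases n2 : ¬ A2 ∧ ¬ B2 ∧ ¬ F2
  · refine ⟨Finset.univ, ?_, ?_⟩
    · intro w' hw'
      rw [full w' hw']
      grind
    · intro w' _
      grind
  by_cases f1 : F1
  · have k : A2 ∧ B2 ∧ ¬ F2 ∧ ¬ A1 ∧ ¬ B1 := by grind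
    refine ⟨{0}, ?_, ?_⟩
    · intro w' hw'
      have e := hw' 0 (by simp)
      rw [e]
      grind
    · intro w' hw'
      have e := hw' 1 (by simp)
      rw [e]
      grind
  by_cases f2 : F2
  · have k : A1 ∧ B1 ∧ ¬ F1 ∧ ¬ A2 ∧ ¬ B2 := by grind
    refine ⟨{1}, ?_, ?_⟩
    · intro w' hw'
      have e := hw' 1 (by simp)
      rw [e]
      grind
    · intro w' hw'
      have e := hw' 0 (by simp)
      rw [e]
      grind
  have e1 : w 1 = true := by grind
  by_cases a1 : A1
  · have k : ¬ A2 ∧ B2 ∧ ¬ B1 := by grind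
    by_cases c : w 0 = true
    · refine ⟨{0}, ?_, ?_⟩
      · intro w' hw'
        have e := hw' 0 (by simp)
        rw [e, c]
        grind
      · intro w' hw'
        have e := hw' 1 (by simp)
        rw [e, e1]
        grind
    · have c' : w 0 = false := by simpa using c
      refine ⟨{1}, ?_, ?_⟩
      · intro w' hw'
        have e := hw' 1 (by simp)
        rw [e, e1]
        grind
      · intro w' hw'
        have e := hw' 0 (by simp)
        rw [e, c']
        grind
  · have k : A2 ∧ B1 ∧ ¬ B2 := by grind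
    by_cases c : w 0 = true
    · refine ⟨{1}, ?_, ?_⟩
      · intro w' hw'
        have e := hw' 1 (by simp)
        rw [e, e1]
        grind
      · intro w' hw'
        have e := hw' 0 (by simp)
        rw [e, c]
        grind
    · have c' : w 0 = false := by simpa using c
      refine ⟨{0}, ?_, ?_⟩
      · intro w' hw'
        have e := hw' 0 (by simp)
        rw [e, c']
        grind
      · intro w' hw'
        have e := hw' 1 (by simp)
        rw [e, e1]
        grind

/-- The bracketing `u` wins. -/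
theorem wins {D : Finset (Trip r)} (u : Bracketing) : ∀ (k : ℕ) (x : Crd r → Bool),
    k + u.size ≤ r → (∀ i ∈ seg r k u.size, x (Sum.inr i) = true) →
    (∀ τ ∈ D, τ.1 ∈ seg r k u.size → τ.2.2 ∈ seg r k u.size → disp u k τ.1 τ.2.1 τ.2.2) →
    (∀ τ ∈ D, τ.2.1 ∈ seg r k u.size → τ.2.2 ∈ seg r k u.size → disp u k τ.1 τ.2.1 τ.2.2) →
    (∀ τ ∈ D, Good (τ.1 ∈ seg r k u.size) (τ.2.1 ∈ seg r k u.size) (τ.2.2 ∈ seg r k u.size)
      fun m => x (Sum.inl (τ, m))) → x ∈ pow (AD D) u := by
  classical
  induction u with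
  | leaf =>
    intro k x hk htag _ _ hG
    simp only [Bracketing.size] at hk htag hG
    refine ⟨⟨k, by omega⟩, htag _ ((mem_seg _ _ _).2 ⟨le_rfl, by simp⟩), ?_⟩
    intro τ hτ hm
    have hmem : (⟨k, by omega⟩ : Fin r) ∈ seg r k 1 := (mem_seg _ _ _).2 ⟨le_rfl, by simp⟩
    obtain ⟨_, _, g1, g2, g3⟩ := hG τ hτ
    rcases hm with hm | hm | hm
    · rw [← hm] at g1
      rcases g1 hmem with h | h | h
      · exact ⟨0, by simp [srv, h, hm]⟩
      · exact ⟨1, by simp [srv, h, hm]⟩
      · exact ⟨2, by simp [srv, h, hm]⟩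
    · rw [← hm] at g2
      rcases g2 hmem with h | h | h
      · exact ⟨0, by simp [srv, h, hm]⟩
      · exact ⟨1, by simp [srv, h, hm]⟩
      · exact ⟨2, by simp [srv, h, hm]⟩
    · rw [← hm] at g3
      rcases g3 hmem with h | h
      · exact ⟨0, by simp [srv, h, hm]⟩
      · exact ⟨2, by simp [srv, h, hm]⟩
  | node l r' ihl ihr =>
    intro k x hk htag h1 h2 hG
    simp only [Bracketing.size] at hk htag h1 h2 hG
    have hor : ∀ i : Fin r, i ∈ seg r k (l.size + r'.size) ↔
        i ∈ seg r k l.size ∨ i ∈ seg r (k + l.size) r'.size := by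
      intro i
      rw [mem_seg, mem_seg, mem_seg]
      omega
    have hnot : ∀ i : Fin r, ¬ (i ∈ seg r k l.size ∧ i ∈ seg r (k + l.size) r'.size) := by
      intro i
      rw [mem_seg, mem_seg]
      omega
    have hdisp : ∀ τ : Trip r, disp (.node l r') k τ.1 τ.2.1 τ.2.2 →
        (τ.1 ∈ seg r k l.size ∧ τ.2.1 ∈ seg r k l.size ∧ τ.2.2 ∈ seg r k l.size) ∨
        (τ.1 ∈ seg r (k + l.size) r'.size ∧ τ.2.1 ∈ seg r (k + l.size) r'.size ∧
          τ.2.2 ∈ seg r (k + l.size) r'.size) ∨
        (τ.1 ∈ seg r k l.size ∧ τ.2.1 ∈ seg r k l.size ∧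
          τ.2.2 ∈ seg r (k + l.size) r'.size) ∨
        (τ.1 ∈ seg r (k + l.size) r'.size ∧ τ.2.1 ∈ seg r (k + l.size) r'.size ∧
          τ.2.2 ∈ seg r k l.size) := by
      intro τ h
      simp only [mem_seg]
      rcases h with h | h | h | h
      · omega
      · omega
      · have := disp_spec l k _ _ _ h
        omega
      · have := disp_spec r' _ _ _ _ h
        omega
    have hsplit : ∀ τ : Trip r, ∃ s : Finset (Fin 3), τ ∈ D →
        (∀ w' : Fin 3 → Bool, (∀ m ∈ s, w' m = x (Sum.inl (τ, m))) →
          Good (τ.1 ∈ seg r k l.size) (τ.2.1 ∈ seg r k l.size) (τ.2.2 ∈ seg r k l.size) w') ∧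
        (∀ w' : Fin 3 → Bool, (∀ m ∉ s, w' m = x (Sum.inl (τ, m))) →
          Good (τ.1 ∈ seg r (k + l.size) r'.size) (τ.2.1 ∈ seg r (k + l.size) r'.size)
            (τ.2.2 ∈ seg r (k + l.size) r'.size) w') := by
      intro τ
      by_cases hτ : τ ∈ D
      · have g := hG τ hτ
        rw [hor, hor, hor] at g
        obtain ⟨s, hs⟩ := good_split (hnot τ.1) (hnot τ.2.1) (hnot τ.2.2) _ g
          (fun a b => hdisp τ (h1 τ hτ ((hor _).2 a) ((hor _).2 b)))
          (fun a b => hdisp τ (h2 τ hτ ((hor _).2 a) ((hor _).2 b)))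
        exact ⟨s, fun _ => hs⟩
      · exact ⟨∅, fun h => absurd h hτ⟩
    choose s hs using hsplit
    refine ⟨Finset.univ.filter fun p => Sum.elim (fun q : Trip r × Fin 3 => q.2 ∈ s q.1)
        (fun i => i ∈ seg r k l.size) p,
      Finset.univ.filter fun p => Sum.elim (fun q : Trip r × Fin 3 => q.2 ∉ s q.1)
        (fun i => i ∈ seg r (k + l.size) r'.size) p, ?_, ?_, ?_⟩
    · rw [Finset.disjoint_left]
      rintro (q | i) hi hi2
      · simp only [Finset.mem_filter, Finset.mem_univ, true_and, Sum.elim_inl] at hi hi2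
        exact hi2 hi
      · simp only [Finset.mem_filter, Finset.mem_univ, true_and, Sum.elim_inr] at hi hi2
        exact hnot i ⟨hi, hi2⟩
    · intro y hy
      refine ihl k y (by omega) ?_ ?_ ?_ ?_
      · intro i hi
        rw [hy (Sum.inr i) (by simpa using hi)]
        exact htag i ((hor i).2 (Or.inl hi))
      · intro τ hτ ha hf
        have hd := h1 τ hτ ((hor _).2 (Or.inl ha)) ((hor _).2 (Or.inl hf))
        rw [mem_seg] at ha hf
        rcases hd with hd | hd | hd | hd
        · omega
        · omega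
        · exact hd
        · have := disp_spec r' _ _ _ _ hd
          omega
      · intro τ hτ ha hf
        have hd := h2 τ hτ ((hor _).2 (Or.inl ha)) ((hor _).2 (Or.inl hf))
        rw [mem_seg] at ha hf
        rcases hd with hd | hd | hd | hd
        · omega
        · omega
        · exact hd
        · have := disp_spec r' _ _ _ _ hd
          omega
      · intro τ hτ
        exact (hs τ hτ).1 _ fun m hm => hy (Sum.inl (τ, m)) (by simpa using hm)
    · intro y hy
      refine ihr (k + l.size) y (by omega) ?_ ?_ ?_ ?_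
      · intro i hi
        rw [hy (Sum.inr i) (by simpa using hi)]
        exact htag i ((hor i).2 (Or.inr hi))
      · intro τ hτ ha hf
        have hd := h1 τ hτ ((hor _).2 (Or.inr ha)) ((hor _).2 (Or.inr hf))
        rw [mem_seg] at ha hf
        rcases hd with hd | hd | hd | hd
        · omega
        · omega
        · have := disp_spec l _ _ _ _ hd
          omega
        · exact hd
      · intro τ hτ ha hf
        have hd := h2 τ hτ ((hor _).2 (Or.inr ha)) ((hor _).2 (Or.inr hf))
        rw [mem_seg] at ha hf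
        rcases hd with hd | hd | hd | hd
        · omega
        · omega
        · have := disp_spec l _ _ _ _ hd
          omega
        · exact hd
      · intro τ hτ
        exact (hs τ hτ).2 _ fun m hm => hy (Sum.inl (τ, m)) (by simpa using hm)

/-- The coordinate which serves the label `i` of the triple in the all-ones point. -/
def role (τ : Trip r) (i : Fin r) : Fin 3 := if i = τ.1 then 0 else if i = τ.2.1 then 1 else 2

theorem role_inj {τ : Trip r} (hn : Nondeg τ) {i j : Fin r} (hi : mem3 τ i) (hj : mem3 τ j)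
    (h : role τ i = role τ j) : i = j := by
  obtain ⟨n1, n2, n3⟩ := hn
  rcases hi with rfl | rfl | rfl <;> rcases hj with rfl | rfl | rfl <;>
    simp_all [role, n1.symm, n2.symm, n3.symm]

theorem srv_role {τ : Trip r} {i : Fin r} (hi : mem3 τ i) : srv τ (role τ i) true i := by
  unfold role srv
  by_cases h1 : i = τ.1
  · simp [h1]
  · by_cases h2 : i = τ.2.1
    · rw [if_neg h1, if_pos h2]
      simp [h2]
    · have h3 : i = τ.2.2 := by
        rcases hi with h | h | h
        · exact absurd h h1
        · exact absurd h h2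
        · exact h
      rw [if_neg h1, if_neg h2]
      simp [h3]

open Classical in
/-- The coordinates used by the labels in `J` in the all-ones point. -/
noncomputable def used (D : Finset (Trip r)) (J : Finset (Fin r)) : Finset (Crd r) :=
  Finset.univ.filter fun p => Sum.elim
    (fun q : Trip r × Fin 3 => q.1 ∈ D ∧ ∃ i ∈ J, mem3 q.1 i ∧ role q.1 i = q.2) (fun i => i ∈ J) p

theorem ones_mem {D : Finset (Trip r)} (hnd : ∀ τ ∈ D, Nondeg τ) (t : Bracketing) :
    ∀ (J : Finset (Fin r)) (x : Crd r → Bool), J.card = t.size →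
      (∀ p ∈ used D J, x p = true) → x ∈ pow (AD D) t := by
  classical
  induction t with
  | leaf =>
    intro J x hJ hx
    have hJ' : J.card = 1 := hJ
    obtain ⟨i, rfl⟩ := Finset.card_eq_one.1 hJ'
    refine ⟨i, hx _ (by simp [used]), ?_⟩
    intro τ hτ hm
    refine ⟨role τ i, ?_⟩
    rw [hx (Sum.inl (τ, role τ i)) (by simp [used, hτ, hm])]
    exact srv_role hm
  | node l r' ihl ihr =>
    intro J x hJ hx
    simp only [Bracketing.size] at hJ
    obtain ⟨J1, hJ1, hc1⟩ := Finset.exists_subset_card_eq (s := J) (n := l.size) (by omega)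
    have hc2 : (J \ J1).card = r'.size := by
      rw [Finset.card_sdiff_of_subset hJ1]
      omega
    have mono : ∀ {I : Finset (Fin r)}, I ⊆ J → used D I ⊆ used D J := by
      intro I hI
      rintro (q | i) hp
      · simp only [used, Finset.mem_filter, Finset.mem_univ, true_and, Sum.elim_inl] at hp ⊢
        obtain ⟨h1, i, h2, h3⟩ := hp
        exact ⟨h1, i, hI h2, h3⟩
      · simp only [used, Finset.mem_filter, Finset.mem_univ, true_and, Sum.elim_inr] at hp ⊢
        exact hI hp
    refine ⟨used D J1, used D (J \ J1), ?_, ?_, ?_⟩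
    · rw [Finset.disjoint_left]
      rintro (q | i) hi hi2
      · simp only [used, Finset.mem_filter, Finset.mem_univ, true_and, Sum.elim_inl] at hi hi2
        obtain ⟨h1, i, h2, h3, h4⟩ := hi
        obtain ⟨_, j, g2, g3, g4⟩ := hi2
        have : i = j := role_inj (hnd _ h1) h3 g3 (h4.trans g4.symm)
        rw [← this] at g2
        exact (Finset.mem_sdiff.1 g2).2 h2
      · simp only [used, Finset.mem_filter, Finset.mem_univ, true_and, Sum.elim_inr] at hi hi2
        exact (Finset.mem_sdiff.1 hi2).2 hi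
    · intro y hy
      exact ihl J1 y hc1 fun p hp => (hy p hp).trans (hx p (mono hJ1 hp))
    · intro y hy
      exact ihr _ y hc2 fun p hp => (hy p hp).trans (hx p (mono Finset.sdiff_subset hp))

theorem pow_nonempty {D : Finset (Trip r)} (hnd : ∀ τ ∈ D, Nondeg τ) (t : Bracketing)
    (ht : t.size = r) : (pow (AD D) t).Nonempty :=
  ⟨fun _ => true, ones_mem hnd t Finset.univ _ (by simp [ht]) fun _ _ => rfl⟩

theorem Same.symm {t t' : Bracketing} (h : Same t t') : Same t' t := by
  induction h with
  | leaf => exact Same.leaf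
  | node _ _ h1 h2 => exact Same.node h1 h2
  | swap _ _ h1 h2 => exact Same.swap h2 h1

theorem pow_prodSet {ι : Type u} {S : Type v} {T : Type*} [Fintype T] [Fintype ι]
    (A : T → Set (ι → S)) (t : Bracketing) :
    pow (prodSet A) t = prodSet fun τ => pow (A τ) t := by
  induction t with
  | leaf => rfl
  | node l r ihl ihr =>
    simp only [pow]
    rw [ihl, ihr, bkr_prodSet]

theorem pow_ren {ι : Type u} {S : Type v} {κ : Type*} (e : ι ≃ κ) (A : Set (ι → S))
    (t : Bracketing) : pow (ren e A) t = ren e (pow A t) := by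
  induction t with
  | leaf => rfl
  | node l r ihl ihr =>
    simp only [pow]
    rw [ihl, ihr, bkr_ren]

end Pool.Agent.R987.BKRPow
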