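import Mathlib
import Pool.Agent.R987.Bern

/-!
# Product measures: resampling finitely many coordinates
-/

set_option autoImplicit false

namespace Pool.Agent.R987.Bern

open MeasureTheory ProbabilityTheory Set Filter Topology
open scoped ENNReal symmDiff

universe u v w

section

variable {ι : Type u} {κ : Type w} {T : Type v} [MeasurableSpace T] (lam : Measure T)
  [IsProbabilityMeasure lam]

open Classical in
/-- Resampling the coordinates in `F`. -/
noncomputable def resample (F : Finset ι) (z : (ι → T) × (ι → T)) : ι → T :=
  fun i => if i ∈ F then z.2 i else z.1 i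

theorem measurable_resample (F : Finset ι) :
    Measurable (resample F : (ι → T) × (ι → T) → ι → T) := by
  refine measurable_pi_lambda _ fun i => ?_
  by_cases h : i ∈ F
  · simp only [resample, h, if_true]
    exact (measurable_pi_apply i).comp measurable_snd
  · simp only [resample, h, if_false]
    exact (measurable_pi_apply i).comp measurable_fst

theorem map_resample (F : Finset ι) :
    ((iid ι lam).prod (iid ι lam)).map (resample F) = iid ι lam := by
  classical
  rw [iid]
  refine Measure.eq_infinitePi _ ?_
  intro s t ht
  have hm : MeasurableSet ((↑s : Set ι).pi t) :=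
    MeasurableSet.pi s.countable_toSet fun i _ => ht i
  rw [Measure.map_apply (measurable_resample F) hm]
  have e : resample F ⁻¹' ((↑s : Set ι).pi t) =
      ((↑(s \ F) : Set ι).pi t) ×ˢ ((↑(s ∩ F) : Set ι).pi t) := by
    ext z
    simp only [resample, Set.mem_preimage, Set.mem_pi, Finset.mem_coe, Set.mem_prod,
      Finset.mem_sdiff, Finset.mem_inter]
    constructor
    · intro h
      refine ⟨fun i hi => ?_, fun i hi => ?_⟩
      · have := h i hi.1
        rwa [if_neg hi.2] at this
      · have := h i hi.1
        rwa [if_pos hi.2] at this
    · rintro ⟨h1, h2⟩ i hi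
      by_cases hF : i ∈ F
      · rw [if_pos hF]; exact h2 i ⟨hi, hF⟩
      · rw [if_neg hF]; exact h1 i ⟨hi, hF⟩
  rw [e, Measure.prod_prod, Measure.infinitePi_pi _ (fun i _ => ht i),
    Measure.infinitePi_pi _ (fun i _ => ht i)]
  rw [mul_comm]
  exact Finset.prod_inter_mul_prod_sdiff s F fun i => lam (t i)

/-- A measurable set which is insensitive to resampling finitely many coordinates has probability
`0` or `1`. -/
theorem zero_one_resample {A : Set (ι → T)} (hA : MeasurableSet A)
    (h : ∀ F : Finset ι, ∀ᵐ z ∂((iid ι lam).prod (iid ι lam)), z.1 ∈ A ↔ resample F z ∈ A) :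
    iid ι lam A = 0 ∨ iid ι lam A = 1 := by
  refine zero_one lam hA fun F => ?_
  refine ⟨(ι → T) × (ι → T), inferInstance, (iid ι lam).prod (iid ι lam), Prod.fst, resample F,
    inferInstance, measurable_fst, measurable_resample F, ?_, map_resample lam F, ?_, h F⟩
  · exact measurePreserving_fst.map_eq
  · have e : (fun z : (ι → T) × (ι → T) => F.restrict (resample F z)) =
        fun z : (ι → T) × (ι → T) => F.restrict z.2 := by
      funext z i
      simp [resample]
    rw [e]
    exact indepFun_prod (μ := iid ι lam) (ν := iid ι lam) (X := fun x : ι → T => F.restrict x)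
      (Y := fun x : ι → T => F.restrict x) (Finset.measurable_restrict F)
      (Finset.measurable_restrict F)

end

end Pool.Agent.R987.Bern
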