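import Mathlib

/-! Edge-connectivity of Cayley graphs. -/

namespace Pool.Agent.R987.Mader

open Finset

variable {H : Type*} [Group H] [Fintype H] [DecidableEq H]

/-- number of arcs leaving `W` in the Cayley graph with connection set `D` -/
def bd (D W : Finset H) : ℕ := ((univ ×ˢ D).filter (fun p : H × H => p.1 ∈ W ∧ p.1 * p.2 ∉ W)).card

theorem bd_submod (D U V : Finset H) : bd D (U ∩ V) + bd D (U ∪ V) ≤ bd D U + bd D V := by
  unfold bd
  simp only [Finset.card_filter]
  rw [← Finset.sum_add_distrib, ← Finset.sum_add_distrib]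
  apply Finset.sum_le_sum
  intro p _
  by_cases h1 : p.1 ∈ U <;> by_cases h2 : p.1 ∈ V <;> by_cases h3 : p.1 * p.2 ∈ U <;>
    by_cases h4 : p.1 * p.2 ∈ V <;> simp [h1, h2, h3, h4]

theorem bd_compl (D W : Finset H) (hsym : ∀ a ∈ D, a⁻¹ ∈ D) : bd D Wᶜ = bd D W := by
  unfold bd
  refine Finset.card_bij' (fun p _ => (p.1 * p.2, p.2⁻¹)) (fun p _ => (p.1 * p.2, p.2⁻¹)) ?_ ?_ ?_ ?_
  · rintro ⟨x, a⟩ h
    simp only [Finset.mem_filter, Finset.mem_product, Finset.mem_univ, true_and,
      Finset.mem_compl, not_not] at h ⊢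
    exact ⟨hsym _ h.1, h.2.2, by simpa using h.2.1⟩
  · rintro ⟨x, a⟩ h
    simp only [Finset.mem_filter, Finset.mem_product, Finset.mem_univ, true_and,
      Finset.mem_compl, not_not] at h ⊢
    exact ⟨hsym _ h.1, h.2.2, by simpa using h.2.1⟩
  · rintro ⟨x, a⟩ _; simp
  · rintro ⟨x, a⟩ _; simp

theorem bd_smul (D W : Finset H) (g : H) : bd D (W.image (fun x => g * x)) = bd D W := by
  unfold bd
  refine Finset.card_bij' (fun p _ => (g⁻¹ * p.1, p.2)) (fun p _ => (g * p.1, p.2)) ?_ ?_ ?_ ?_
  · rintro ⟨x, a⟩ h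
    simp only [Finset.mem_filter, Finset.mem_product, Finset.mem_univ, true_and,
      Finset.mem_image] at h ⊢
    obtain ⟨ha, ⟨y, hy, rfl⟩, h2⟩ := h
    refine ⟨ha, by simpa using hy, fun h3 => h2 ⟨_, h3, by group⟩⟩
  · rintro ⟨x, a⟩ h
    simp only [Finset.mem_filter, Finset.mem_product, Finset.mem_univ, true_and,
      Finset.mem_image] at h ⊢
    obtain ⟨ha, hx, h2⟩ := h
    refine ⟨ha, ⟨x, hx, rfl⟩, ?_⟩
    rintro ⟨y, hy, hy'⟩
    rw [mul_assoc] at hy'
    rw [mul_left_cancel hy'] at hy
    exact h2 hy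
  · rintro ⟨x, a⟩ _; simp
  · rintro ⟨x, a⟩ _; simp

/-- **Edge-connectivity of Cayley graphs** (Mader): every proper nonempty set has at least `|D|`
arcs leaving it. -/
theorem card_le_bd (D : Finset H) (hsym : ∀ a ∈ D, a⁻¹ ∈ D) (h1 : (1 : H) ∉ D)
    (hgen : Subgroup.closure (D : Set H) = ⊤) (W : Finset H) (hW : W.Nonempty) (hW' : W ≠ univ) :
    D.card ≤ bd D W := by
  -- minimal boundary
  obtain ⟨U₁, hU₁, hmin₁⟩ := Finset.exists_min_image
    (univ.filter (fun U : Finset H => U.Nonempty ∧ U ≠ univ)) (bd D) ⟨W, by simp [hW, hW']⟩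
  simp only [Finset.mem_filter, Finset.mem_univ, true_and] at hU₁ hmin₁
  obtain ⟨U₂, hU₂, hmin₂⟩ := Finset.exists_min_image
    (univ.filter (fun U : Finset H => (U.Nonempty ∧ U ≠ univ) ∧ bd D U = bd D U₁))
    (fun U => U.card) ⟨U₁, by simp [hU₁]⟩
  simp only [Finset.mem_filter, Finset.mem_univ, true_and] at hU₂ hmin₂
  obtain ⟨x, hx⟩ := hU₂.1.1
  set U := U₂.image (fun y => x⁻¹ * y) with hU
  have hinj : ∀ g : H, Function.Injective (fun y : H => g * y) := fun g => mul_right_injective g
  have hUne : U.Nonempty ∧ U ≠ univ := by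
    refine ⟨⟨x⁻¹ * x, Finset.mem_image_of_mem _ hx⟩, ?_⟩
    intro h
    apply hU₂.1.2
    apply Finset.eq_univ_of_card
    have := congrArg Finset.card h
    rw [hU, Finset.card_image_of_injective _ (hinj _), Finset.card_univ] at this
    exact this
  have hUbd : bd D U = bd D U₁ := by rw [hU, bd_smul, hU₂.2]
  have hUcard : U.card = U₂.card := Finset.card_image_of_injective _ (hinj _)
  have hminU : ∀ V : Finset H, V.Nonempty → V ≠ univ → bd D U ≤ bd D V := by
    intro V h h'; rw [hUbd]; exact hmin₁ V ⟨h, h'⟩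
  have hminc : ∀ V : Finset H, V.Nonempty → V ≠ univ → bd D V = bd D U → U.card ≤ V.card := by
    intro V h h' h''; rw [hUcard]; exact hmin₂ V ⟨⟨h, h'⟩, by rw [h'', hUbd]⟩
  have h1U : (1 : H) ∈ U := by
    rw [hU]; exact Finset.mem_image.mpr ⟨x, hx, by simp⟩
  have hhalf : 2 * U.card ≤ Fintype.card H := by
    have h := hminc Uᶜ (by
      rw [Finset.nonempty_iff_ne_empty, Ne, Finset.compl_eq_empty_iff]; exact hUne.2)
      (by rw [Ne, Finset.compl_eq_univ_iff]; exact hUne.1.ne_empty) (bd_compl D U hsym)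
    rw [Finset.card_compl] at h
    have := Finset.card_le_univ U
    omega
  have hclosed : ∀ g ∈ U, U.image (fun y => g * y) = U := by
    intro g hg
    by_contra hne
    set V := U.image (fun y => g * y) with hV
    have hVc : V.card = U.card := Finset.card_image_of_injective _ (hinj _)
    have hgV : g ∈ V := by rw [hV]; exact Finset.mem_image.mpr ⟨1, h1U, by simp⟩
    have hint : (U ∩ V).Nonempty := ⟨g, Finset.mem_inter.mpr ⟨hg, hgV⟩⟩
    have hlt : (U ∩ V).card < U.card := by
      apply Finset.card_lt_card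
      refine Finset.ssubset_iff_subset_ne.mpr ⟨Finset.inter_subset_left, ?_⟩
      intro h
      apply hne
      have h2 : U ⊆ V := by rw [← h]; exact Finset.inter_subset_right
      exact (Finset.eq_of_subset_of_card_le h2 (by rw [hVc])).symm
    have hintne : U ∩ V ≠ univ := by
      intro h; rw [h, Finset.card_univ] at hlt
      have := Finset.card_le_univ U; omega
    have hun : U ∪ V ≠ univ := by
      intro h
      have h3 := Finset.card_union_add_card_inter U V
      rw [h, Finset.card_univ] at h3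
      have h4 : 0 < (U ∩ V).card := Finset.card_pos.mpr hint
      omega
    have hsm := bd_submod D U V
    have hVb : bd D V = bd D U := bd_smul D U g
    have h5 := hminU (U ∪ V) (hUne.1.mono Finset.subset_union_left) hun
    have h6 := hminU (U ∩ V) hint hintne
    have h7 : bd D (U ∩ V) = bd D U := by omega
    have h8 := hminc (U ∩ V) hint hintne h7
    omega
  have hmul : ∀ g ∈ U, ∀ h, g * h ∈ U ↔ h ∈ U := by
    intro g hg h
    conv_lhs => rw [← hclosed g hg]
    rw [Finset.mem_image]
    constructor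
    · rintro ⟨y, hy, hy'⟩; rwa [← mul_left_cancel hy']
    · intro hh; exact ⟨h, hh, rfl⟩
  -- the subgroup
  let K : Subgroup H :=
    { carrier := U
      mul_mem' := fun {a b} ha hb => (hmul a ha b).2 hb
      one_mem' := h1U
      inv_mem' := fun {a} ha => by
        have := (hmul a ha a⁻¹).1 (by rw [mul_inv_cancel]; exact h1U)
        exact this }
  have hKne : ∃ a ∈ D, a ∉ U := by
    by_contra hc
    push Not at hc
    have : Subgroup.closure (D : Set H) ≤ K := by
      rw [Subgroup.closure_le]; intro a ha; exact hc a ha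
    rw [hgen, top_le_iff] at this
    apply hUne.2
    rw [Finset.eq_univ_iff_forall]
    intro y
    have : y ∈ K := by rw [this]; trivial
    exact this
  have hbdU : bd D U = U.card * (D.filter (fun a => a ∉ U)).card := by
    unfold bd
    rw [← Finset.card_product]
    congr 1
    ext ⟨y, a⟩
    simp only [Finset.mem_filter, Finset.mem_product, Finset.mem_univ, true_and]
    constructor
    · rintro ⟨ha, hy, hya⟩
      exact ⟨hy, ha, fun h => hya ((hmul y hy a).2 h)⟩
    · rintro ⟨hy, ha, hya⟩
      exact ⟨ha, hy, fun h => hya ((hmul y hy a).1 h)⟩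
  have hsplit : (D.filter (fun a => a ∈ U)).card + (D.filter (fun a => a ∉ U)).card = D.card :=
    Finset.card_filter_add_card_filter_not _
  have hj : (D.filter (fun a => a ∈ U)).card + 1 ≤ U.card := by
    have : insert (1 : H) (D.filter (fun a => a ∈ U)) ⊆ U := by
      intro y hy
      rcases Finset.mem_insert.mp hy with rfl | h
      · exact h1U
      · exact (Finset.mem_filter.mp h).2
    have h9 := Finset.card_le_card this
    rwa [Finset.card_insert_of_notMem (by simp [h1])] at h9
  have hpos : 1 ≤ (D.filter (fun a => a ∉ U)).card := by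
    obtain ⟨a, ha, ha'⟩ := hKne
    exact Finset.card_pos.mpr ⟨a, by simp [ha, ha']⟩
  calc D.card = (D.filter (fun a => a ∈ U)).card + (D.filter (fun a => a ∉ U)).card := hsplit.symm
    _ ≤ U.card * (D.filter (fun a => a ∉ U)).card := by nlinarith
    _ = bd D U := hbdU.symm
    _ ≤ bd D W := hminU W hW hW'

end Pool.Agent.R987.Mader
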