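import Mathlib

/-! Merging cycles of permutations. -/

namespace Pool.Agent.R987.CycMerge

open Equiv Equiv.Perm

variable {V : Type*} [DecidableEq V]

/-- A permutation agreeing with a cyclic one on a finite set is cyclic there. -/
theorem isCycleOn_congr {f g : Perm V} {s : Finset V} (hf : f.IsCycleOn (s : Set V))
    (h : ∀ x ∈ s, f x = g x) : g.IsCycleOn (s : Set V) := by
  have hpow : ∀ x ∈ s, ∀ n : ℕ, (g ^ n) x = (f ^ n) x := by
    intro x hx n
    induction n with
    | zero => rfl
    | succ n ih =>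
      rw [pow_succ', pow_succ', Perm.mul_apply, Perm.mul_apply, ih]
      have : (f ^ n) x ∈ s := by
        have h1 : Set.MapsTo f (s : Set V) s := hf.1.mapsTo
        have h2 : Set.MapsTo (f ^ n) (s : Set V) s := by
          rw [show ((f ^ n : Perm V) : V → V) = f^[n] from by
            simp [Equiv.Perm.coe_pow]]
          exact h1.iterate n
        exact h2 hx
      exact (h _ this).symm
  refine ⟨?_, ?_⟩
  · exact hf.1.congr (fun x hx => h x hx)
  · intro x hx y hy
    obtain ⟨n, -, hn⟩ := hf.exists_pow_eq hx hy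
    exact ⟨(n : ℤ), by rw [zpow_natCast, hpow x hx n, hn]⟩

/-- Two disjoint cycles are merged by a transposition. -/
theorem merge {p : Perm V} {X Y : Finset V} (hX : p.IsCycleOn (X : Set V))
    (hY : p.IsCycleOn (Y : Set V)) (hd : Disjoint X Y) {a b : V} (ha : a ∈ X) (hb : b ∈ Y) :
    (swap a b * p).IsCycleOn ((X ∪ Y : Finset V) : Set V) := by
  -- powers from a
  have key : ∀ (X Y : Finset V) (a b : V), p.IsCycleOn (X : Set V) → p.IsCycleOn (Y : Set V) →
      Disjoint X Y → a ∈ X → b ∈ Y → ∀ n < X.card,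
      ((swap a b * p) ^ n) a = (p ^ n) a := by
    intro X Y a b hX hY hd ha hb n
    induction n with
    | zero => intro _; rfl
    | succ n ih =>
      intro hn
      rw [pow_succ', pow_succ', Perm.mul_apply, ih (by omega), Perm.mul_apply, Perm.mul_apply]
      have e : p ((p ^ n) a) = (p ^ (n + 1)) a := by rw [pow_succ', Perm.mul_apply]
      rw [e]
      have hmem : (p ^ (n + 1)) a ∈ X := by
        have h2 : Set.MapsTo (p ^ (n + 1)) (X : Set V) X := by
          rw [show ((p ^ (n + 1) : Perm V) : V → V) = p^[n + 1] from by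
            simp [Equiv.Perm.coe_pow]]
          exact hX.1.mapsTo.iterate (n + 1)
        exact h2 ha
      rw [swap_apply_of_ne_of_ne]
      · intro h
        rw [hX.pow_apply_eq ha] at h
        exact absurd (Nat.le_of_dvd (by omega) h) (by omega)
      · intro h
        rw [h] at hmem
        exact (Finset.disjoint_left.mp hd hmem) hb
  have hswap : swap a b * p = swap b a * p := by rw [swap_comm]
  have kX := key X Y a b hX hY hd ha hb
  have kY : ∀ n < Y.card, ((swap a b * p) ^ n) b = (p ^ n) b := by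
    rw [hswap]; exact key Y X b a hY hX hd.symm hb ha
  have hXpos : 0 < X.card := Finset.card_pos.mpr ⟨a, ha⟩
  have sab : (swap a b * p).SameCycle a b := by
    refine ⟨(X.card : ℤ), ?_⟩
    rw [zpow_natCast]
    obtain ⟨m, hm⟩ : ∃ m, X.card = m + 1 := ⟨X.card - 1, by omega⟩
    rw [hm, pow_succ', Perm.mul_apply, kX m (by omega), Perm.mul_apply]
    have e : p ((p ^ m) a) = (p ^ (m + 1)) a := by rw [pow_succ', Perm.mul_apply]
    rw [e, ← hm, hX.pow_card_apply ha, swap_apply_left]
  have sX : ∀ x ∈ X, (swap a b * p).SameCycle a x := by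
    intro x hx
    obtain ⟨n, hn, hn'⟩ := hX.exists_pow_eq ha hx
    exact ⟨(n : ℤ), by rw [zpow_natCast, kX n hn, hn']⟩
  have sY : ∀ y ∈ Y, (swap a b * p).SameCycle a y := by
    intro y hy
    obtain ⟨n, hn, hn'⟩ := hY.exists_pow_eq hb hy
    exact sab.trans ⟨(n : ℤ), by rw [zpow_natCast, kY n hn, hn']⟩
  have sall : ∀ z ∈ X ∪ Y, (swap a b * p).SameCycle a z := by
    intro z hz
    rcases Finset.mem_union.mp hz with h | h
    · exact sX z h
    · exact sY z h
  refine ⟨?_, ?_⟩
  · have hmap : Set.MapsTo (swap a b * p) ((X ∪ Y : Finset V) : Set V)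
        ((X ∪ Y : Finset V) : Set V) := by
      intro x hx
      have hx' : p x ∈ X ∪ Y := by
        rcases Finset.mem_union.mp (by exact_mod_cast hx) with h | h
        · exact Finset.mem_union_left _ (hX.1.mapsTo h)
        · exact Finset.mem_union_right _ (hY.1.mapsTo h)
      rw [Perm.mul_apply]
      by_cases h1 : p x = a
      · rw [h1, swap_apply_left]; exact_mod_cast Finset.mem_union_right _ hb
      · by_cases h2 : p x = b
        · rw [h2, swap_apply_right]; exact_mod_cast Finset.mem_union_left _ ha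
        · rw [swap_apply_of_ne_of_ne h1 h2]; exact_mod_cast hx'
    refine ⟨hmap, (Equiv.injective _).injOn, ?_⟩
    exact (Finset.surjOn_of_injOn_of_card_le _ hmap (Equiv.injective _).injOn le_rfl)
  · intro x hx y hy
    exact (sall x (by exact_mod_cast hx)).symm.trans (sall y (by exact_mod_cast hy))

/-- transport of a cycle along an embedding -/
theorem viaEmbedding_pow {K : Type*} (τ : Perm K) (ι : K ↪ V) (n : ℕ) (k : K) :
    ((τ.viaEmbedding ι) ^ n) (ι k) = ι ((τ ^ n) k) := by
  induction n with
  | zero => rfl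
  | succ n ih =>
    rw [pow_succ', pow_succ', Perm.mul_apply, Perm.mul_apply, ih, Perm.viaEmbedding_apply]

theorem viaEmbedding_isCycleOn {K : Type*} [Fintype K] (τ : Perm K)
    (hτ : τ.IsCycleOn Set.univ) (ι : K ↪ V) :
    (τ.viaEmbedding ι).IsCycleOn ((Finset.univ.map ι : Finset V) : Set V) := by
  have hc : τ.IsCycleOn ((Finset.univ : Finset K) : Set K) := by simpa using hτ
  refine ⟨?_, ?_⟩
  · have hmap : Set.MapsTo (τ.viaEmbedding ι) ((Finset.univ.map ι : Finset V) : Set V)
        ((Finset.univ.map ι : Finset V) : Set V) := by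
      intro x hx
      simp only [Finset.coe_map, Finset.coe_univ, Set.image_univ, Set.mem_range] at hx ⊢
      obtain ⟨k, rfl⟩ := hx
      exact ⟨τ k, (Perm.viaEmbedding_apply τ ι k).symm⟩
    refine ⟨hmap, (Equiv.injective _).injOn, ?_⟩
    exact (Finset.surjOn_of_injOn_of_card_le _ hmap (Equiv.injective _).injOn le_rfl)
  · intro x hx y hy
    simp only [Finset.coe_map, Finset.coe_univ, Set.image_univ, Set.mem_range] at hx hy
    obtain ⟨k, rfl⟩ := hx
    obtain ⟨l, rfl⟩ := hy
    obtain ⟨n, -, hn⟩ := hc.exists_pow_eq (Finset.mem_univ k) (Finset.mem_univ l)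
    exact ⟨(n : ℤ), by rw [zpow_natCast, viaEmbedding_pow, hn]⟩

end Pool.Agent.R987.CycMerge
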