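import Mathlib
import Pool.Agent.R987.CycMerge

/-! Gluing copies of a cycle along a rooted tree (Cartesian product of a tree and a cycle). -/

namespace Pool.Agent.R987.Glue

open Equiv Equiv.Perm Finset
open Pool.Agent.R987.CycMerge

variable {V K Ω : Type*} [Fintype V] [DecidableEq V] [Fintype K]
  [DecidableEq Ω]

theorem step_core (Adj : V → V → Prop) (bl : V → Ω) (W : Finset Ω) (w : Ω) (hw : w ∉ W)
    (σ : Perm V) (g : K ↪ V) (e : Perm K) (he : e.IsCycleOn Set.univ)
    (hg : ∀ x, bl x = w ↔ ∃ k, g k = x)
    (hcyc : σ.IsCycleOn ((univ.filter (fun x => bl x ∈ W) : Finset V) : Set V))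
    (hadj : ∀ x, bl x ∈ W → Adj x (σ x)) (hfix : ∀ x, bl x ∉ W → σ x = x)
    (s t : V) (hs : bl s ∈ W) (hst : σ s = t) (a b : K) (heb : e b = a)
    (hsa : Adj s (g a)) (htb : Adj (g b) t) (hgadj : ∀ j, Adj (g j) (g (e j))) :
    ∃ σ' : Perm V,
      σ'.IsCycleOn ((univ.filter (fun x => bl x ∈ insert w W) : Finset V) : Set V) ∧
      (∀ x, bl x ∈ insert w W → Adj x (σ' x)) ∧
      (∀ x, bl x ∉ insert w W → σ' x = x) ∧
      (∀ z, bl z ∈ W → σ z ≠ t → σ' z = σ z) ∧
      (∀ j, e j ≠ a → σ' (g j) = g (e j)) := by
  set ρ : Perm V := e.viaEmbedding g with hρ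
  have hblg : ∀ k, bl (g k) = w := fun k => (hg _).2 ⟨k, rfl⟩
  have hρg : ∀ k, ρ (g k) = g (e k) := fun k => by rw [hρ, Perm.viaEmbedding_apply]
  have hρo : ∀ x, bl x ≠ w → ρ x = x := by
    intro x hx
    rw [hρ, Perm.viaEmbedding_apply_of_notMem]
    rintro ⟨k, rfl⟩
    exact hx (hblg k)
  set p : Perm V := σ * ρ with hp
  have hpg : ∀ k, p (g k) = g (e k) := by
    intro k
    rw [hp, Perm.mul_apply, hρg, hfix]
    rw [hblg]; exact hw
  have hpW : ∀ x, bl x ∈ W → p x = σ x := by
    intro x hx
    rw [hp, Perm.mul_apply, hρo]
    intro h; rw [h] at hx; exact hw hx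
  have hpo : ∀ x, bl x ∉ insert w W → p x = x := by
    intro x hx
    rw [Finset.mem_insert, not_or] at hx
    rw [hp, Perm.mul_apply, hρo x hx.1, hfix x hx.2]
  have htW : bl t ∈ W := by
    have := hcyc.1.mapsTo (show s ∈ ((univ.filter (fun x => bl x ∈ W) : Finset V) : Set V) by
      simpa using hs)
    rw [hst] at this
    simpa using this
  have hpX : p.IsCycleOn ((univ.filter (fun x => bl x ∈ W) : Finset V) : Set V) := by
    refine isCycleOn_congr hcyc ?_
    intro x hx
    rw [hpW x (by simpa using hx)]
  have hpY : p.IsCycleOn ((Finset.univ.map g : Finset V) : Set V) := by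
    refine isCycleOn_congr (viaEmbedding_isCycleOn e he g) ?_
    intro x hx
    obtain ⟨k, -, rfl⟩ := Finset.mem_map.mp hx
    rw [hpg, ← hρ, hρg]
  have hdis : Disjoint (univ.filter (fun x => bl x ∈ W) : Finset V) (Finset.univ.map g) := by
    rw [Finset.disjoint_left]
    intro x hx hx'
    obtain ⟨k, -, rfl⟩ := Finset.mem_map.mp hx'
    rw [Finset.mem_filter, hblg] at hx
    exact hw hx.2
  have hmerge := merge hpX hpY hdis (a := t) (b := g a) (by simpa using htW)
    (Finset.mem_map.mpr ⟨a, Finset.mem_univ _, rfl⟩)
  have hun : (univ.filter (fun x => bl x ∈ W) : Finset V) ∪ Finset.univ.map g =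
      univ.filter (fun x => bl x ∈ insert w W) := by
    ext x
    simp only [Finset.mem_union, Finset.mem_filter, Finset.mem_univ, true_and, Finset.mem_map,
      Finset.mem_insert]
    rw [← hg x]
    tauto
  rw [hun] at hmerge
  have htg : ∀ k, t ≠ g k := by
    intro k h; rw [h, hblg] at htW; exact hw htW
  have hps : p s = t := by rw [hpW s hs, hst]
  have hpb : p (g b) = g a := by rw [hpg, heb]
  refine ⟨swap t (g a) * p, hmerge, ?_, ?_, ?_, ?_⟩
  · intro x hx
    rw [Perm.mul_apply]
    by_cases h1 : p x = t
    · have : x = s := p.injective (by rw [h1, hps])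
      rw [h1, swap_apply_left, this]; exact hsa
    · by_cases h2 : p x = g a
      · have : x = g b := p.injective (by rw [h2, hpb])
        rw [h2, swap_apply_right, this]; exact htb
      · rw [swap_apply_of_ne_of_ne h1 h2]
        rcases Finset.mem_insert.mp hx with h | h
        · obtain ⟨k, rfl⟩ := (hg x).1 h
          rw [hpg]; exact hgadj k
        · rw [hpW x h]; exact hadj x h
  · intro x hx
    rw [Perm.mul_apply, hpo x hx, swap_apply_of_ne_of_ne]
    · intro h; rw [h] at hx; exact hx (Finset.mem_insert_of_mem htW)
    · intro h; rw [h, hblg] at hx; exact hx (Finset.mem_insert_self _ _)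
  · intro z hz hzt
    rw [Perm.mul_apply, hpW z hz, swap_apply_of_ne_of_ne hzt]
    intro h
    have : bl (σ z) ∈ W := by
      have := hcyc.1.mapsTo (show z ∈ ((univ.filter (fun x => bl x ∈ W) : Finset V) : Set V) by
        simpa using hz)
      simpa using this
    rw [h, hblg] at this
    exact hw this
  · intro j hj
    rw [Perm.mul_apply, hpg, swap_apply_of_ne_of_ne (htg _).symm]
    intro h; exact hj (g.injective h)

/-- **Gluing theorem**: copies of a Hamiltonian cycle of the blocks are glued along a rooted tree
each vertex of which has at most `card K` tree neighbours. -/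
theorem glue [Fintype Ω] [DecidableEq K] (Adj : V → V → Prop) (hsymm : ∀ x y, Adj x y → Adj y x)
    (bl : V → Ω) (τ : Perm K) (hτ : τ.IsCycleOn Set.univ)
    (P : Ω → (K ↪ V) → Prop)
    (hPr : ∀ w f, P w f → ∀ x, bl x = w ↔ ∃ k, f k = x)
    (hPa : ∀ w f, P w f → ∀ k, Adj (f k) (f (τ k)))
    (root : Ω) (par : Ω → Ω) (rk : Ω → ℕ)
    (hrk : ∀ w, w ≠ root → rk (par w) < rk w)
    (hroot : ∃ f, P root f)
    (hlink : ∀ w, w ≠ root → ∀ f, P (par w) f → ∃ g, P w g ∧ ∀ k, Adj (f k) (g k))
    (hdeg : ∀ w, (univ.filter (fun w' => w' ≠ root ∧ par w' = w)).card +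
      (if w = root then 0 else 1) ≤ Fintype.card K) :
    ∃ σ : Perm V, σ.IsCycleOn Set.univ ∧ ∀ x, Adj x (σ x) := by
  obtain ⟨f₀, hf₀⟩ := hroot
  have main : ∀ n, n + 1 ≤ Fintype.card Ω → ∃ W : Finset Ω, W.card = n + 1 ∧ root ∈ W ∧
      ∃ (f : Ω → (K ↪ V)) (o : Ω → Bool) (U : Ω → Finset K) (σ : Perm V),
        (∀ w ∈ W, P w (f w)) ∧
        σ.IsCycleOn ((univ.filter (fun x => bl x ∈ W) : Finset V) : Set V) ∧
        (∀ x, bl x ∈ W → Adj x (σ x)) ∧ (∀ x, bl x ∉ W → σ x = x) ∧
        (∀ w ∈ W, ∀ k, k ∉ U w → (o w = true → σ (f w k) = f w (τ k)) ∧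
          (o w = false → σ (f w (τ k)) = f w k)) ∧
        (∀ w ∈ W, (U w).card ≤ (W.filter (fun w' => w' ≠ root ∧ par w' = w)).card +
          (if w = root then 0 else 1)) := by
    intro n
    induction n with
    | zero =>
      intro _
      refine ⟨{root}, by simp, by simp, fun _ => f₀, fun _ => true, fun _ => ∅,
        τ.viaEmbedding f₀, ?_, ?_, ?_, ?_, ?_, ?_⟩
      · intro w hw; rw [Finset.mem_singleton.mp hw]; exact hf₀
      · have : (univ.filter (fun x => bl x ∈ ({root} : Finset Ω)) : Finset V)
            = Finset.univ.map f₀ := by
          ext x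
          simp only [Finset.mem_filter, Finset.mem_univ, true_and, Finset.mem_singleton,
            Finset.mem_map]
          exact hPr root f₀ hf₀ x
        rw [this]
        exact viaEmbedding_isCycleOn τ hτ f₀
      · intro x hx
        obtain ⟨k, rfl⟩ := (hPr root f₀ hf₀ x).1 (by simpa using hx)
        rw [Perm.viaEmbedding_apply]
        exact hPa root f₀ hf₀ k
      · intro x hx
        rw [Perm.viaEmbedding_apply_of_notMem]
        rintro ⟨k, rfl⟩
        exact hx (by simpa using (hPr root f₀ hf₀ (f₀ k)).2 ⟨k, rfl⟩)
      · intro w _ k _
        exact ⟨fun _ => Perm.viaEmbedding_apply _ _ _, fun h => by simp at h⟩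
      · intro w _; simp
    | succ n ih =>
      intro hn
      obtain ⟨W, hWc, hrW, f, o, U, σ, hf, hcyc, hadj, hfix, hslot, hU⟩ := ih (by omega)
      -- choose a vertex outside W with minimal rank
      have hne : (univ.filter (fun w => w ∉ W) : Finset Ω).Nonempty := by
        by_contra hemp
        rw [Finset.not_nonempty_iff_eq_empty, Finset.filter_eq_empty_iff] at hemp
        have hall : ∀ w, w ∈ W := fun w => by
          have := hemp (Finset.mem_univ w); simpa using this
        have : W = univ := Finset.eq_univ_iff_forall.mpr hall
        rw [this, Finset.card_univ] at hWc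
        omega
      obtain ⟨w1, hw1, hmin⟩ := Finset.exists_min_image _ rk hne
      have hw1W : w1 ∉ W := (Finset.mem_filter.mp hw1).2
      have hw1r : w1 ≠ root := by rintro rfl; exact hw1W hrW
      have hparW : par w1 ∈ W := by
        by_contra hc
        have := hmin (par w1) (Finset.mem_filter.mpr ⟨Finset.mem_univ _, hc⟩)
        have := hrk w1 hw1r
        omega
      set w0 := par w1 with hw0
      have hw01 : w0 ≠ w1 := by rintro h; rw [h] at hparW; exact hw1W hparW
      -- a free slot
      have hsub : (W.filter (fun w' => w' ≠ root ∧ par w' = w0)).card <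
          (univ.filter (fun w' => w' ≠ root ∧ par w' = w0)).card := by
        apply Finset.card_lt_card
        rw [Finset.ssubset_iff_of_subset (Finset.filter_subset_filter _ (Finset.subset_univ _))]
        refine ⟨w1, ?_, ?_⟩
        · simp [hw1r, hw0]
        · simp [hw1W]
      obtain ⟨k, hk⟩ : ∃ k, k ∉ U w0 := by
        by_contra hc
        push Not at hc
        have h1 : U w0 = univ := Finset.eq_univ_iff_forall.mpr hc
        have h2 := hU w0 hparW
        rw [h1, Finset.card_univ] at h2
        have h3 := hdeg w0
        omega
      obtain ⟨g, hgP, hgl⟩ := hlink w1 hw1r (f w0) (hf w0 hparW)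
      have hgr := hPr w1 g hgP
      have hga := hPa w1 g hgP
      have hbf : ∀ w ∈ W, ∀ j, bl (f w j) = w := fun w hw j =>
        (hPr w (f w) (hf w hw) _).2 ⟨j, rfl⟩
      have hcardU : ∀ w ∈ insert w1 W,
          ((Function.update (Function.update U w0 (insert k (U w0))) w1 {k}) w).card ≤
          ((insert w1 W).filter (fun w' => w' ≠ root ∧ par w' = w)).card +
            (if w = root then 0 else 1) := by
        intro w hw
        by_cases h1 : w = w1
        · subst h1
          simp [hw1r]
        · have hwW : w ∈ W := by
            rcases Finset.mem_insert.mp hw with h | h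
            · exact absurd h h1
            · exact h
          rw [Function.update_of_ne h1]
          by_cases h0 : w = w0
          · rw [h0, Function.update_self]
            have h2 := hU w0 hparW
            have h3 : ((insert w1 W).filter (fun w' => w' ≠ root ∧ par w' = w0)).card =
                (W.filter (fun w' => w' ≠ root ∧ par w' = w0)).card + 1 := by
              rw [Finset.filter_insert, if_pos ⟨hw1r, hw0.symm⟩, Finset.card_insert_of_notMem]
              simp [hw1W]
            have h4 := Finset.card_insert_le k (U w0)
            omega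
          · rw [Function.update_of_ne h0]
            refine (hU w hwW).trans (Nat.add_le_add_right (Finset.card_le_card ?_) _)
            exact Finset.filter_subset_filter _ (Finset.subset_insert _ _)
      by_cases ho : o w0 = true
      · -- forward orientation: σ (f k) = f (τ k)
        obtain ⟨σ', hc', ha', hx', hz', hj'⟩ := step_core Adj bl W w1 hw1W σ g τ⁻¹
          (by simpa using hτ.inv) hgr hcyc hadj hfix (f w0 k) (f w0 (τ k))
          (by rw [hbf w0 hparW]; exact hparW) ((hslot w0 hparW k hk).1 ho) k (τ k)
          (by simp) (hgl k) (hsymm _ _ (hgl (τ k)))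
          (by
            intro j
            have := hga (τ⁻¹ j)
            rw [show τ (τ⁻¹ j) = j from by simp] at this
            exact hsymm _ _ this)
        refine ⟨insert w1 W, by rw [Finset.card_insert_of_notMem hw1W, hWc],
          Finset.mem_insert_of_mem hrW, Function.update f w1 g, Function.update o w1 false,
          Function.update (Function.update U w0 (insert k (U w0))) w1 {k}, σ', ?_, hc', ha', hx',
          ?_, hcardU⟩
        · intro w hw
          by_cases h1 : w = w1
          · rw [h1, Function.update_self]; exact hgP
          · rw [Function.update_of_ne h1]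
            exact hf w ((Finset.mem_insert.mp hw).resolve_left h1)
        · intro w hw j hj
          by_cases h1 : w = w1
          · subst h1
            rw [Function.update_self] at hj
            simp only [Function.update_self]
            refine ⟨fun h => by simp at h, fun _ => ?_⟩
            rw [hj' (τ j) ?_]
            · simp
            · rw [show τ⁻¹ (τ j) = j from by simp]
              simpa using hj
          · have hwW : w ∈ W := (Finset.mem_insert.mp hw).resolve_left h1
            simp only [Function.update_of_ne h1] at hj ⊢
            by_cases h0 : w = w0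
            · subst h0
              rw [Function.update_self, Finset.mem_insert, not_or] at hj
              refine ⟨fun h => ?_, fun h => by rw [ho] at h; simp at h⟩
              rw [hz' _ (by rw [hbf _ hwW]; exact hwW) ?_]
              · exact (hslot _ hwW j hj.2).1 h
              · rw [(hslot _ hwW j hj.2).1 h]
                intro h'
                exact hj.1 (τ.injective ((f _).injective h'))
            · rw [Function.update_of_ne h0] at hj
              refine ⟨fun h => ?_, fun h => ?_⟩
              · rw [hz' _ (by rw [hbf _ hwW]; exact hwW) ?_]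
                · exact (hslot _ hwW j hj).1 h
                · rw [(hslot _ hwW j hj).1 h]
                  intro h'
                  apply h0
                  rw [← hbf w hwW (τ j), h', hbf w0 hparW]
              · rw [hz' _ (by rw [hbf _ hwW]; exact hwW) ?_]
                · exact (hslot _ hwW j hj).2 h
                · rw [(hslot _ hwW j hj).2 h]
                  intro h'
                  apply h0
                  rw [← hbf w hwW j, h', hbf w0 hparW]
      · -- backward orientation: σ (f (τ k)) = f k
        have ho' : o w0 = false := by simpa using ho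
        obtain ⟨σ', hc', ha', hx', hz', hj'⟩ := step_core Adj bl W w1 hw1W σ g τ hτ hgr hcyc hadj
          hfix (f w0 (τ k)) (f w0 k) (by rw [hbf w0 hparW]; exact hparW)
          ((hslot w0 hparW k hk).2 ho') (τ k) k rfl (hgl (τ k)) (hsymm _ _ (hgl k)) hga
        refine ⟨insert w1 W, by rw [Finset.card_insert_of_notMem hw1W, hWc],
          Finset.mem_insert_of_mem hrW, Function.update f w1 g, Function.update o w1 true,
          Function.update (Function.update U w0 (insert k (U w0))) w1 {k}, σ', ?_, hc', ha', hx',
          ?_, hcardU⟩
        · intro w hw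
          by_cases h1 : w = w1
          · rw [h1, Function.update_self]; exact hgP
          · rw [Function.update_of_ne h1]
            exact hf w ((Finset.mem_insert.mp hw).resolve_left h1)
        · intro w hw j hj
          by_cases h1 : w = w1
          · subst h1
            rw [Function.update_self] at hj
            simp only [Function.update_self]
            refine ⟨fun _ => ?_, fun h => by simp at h⟩
            rw [hj' j ?_]
            intro h'
            exact (by simpa using hj : j ≠ k) (τ.injective h')
          · have hwW : w ∈ W := (Finset.mem_insert.mp hw).resolve_left h1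
            simp only [Function.update_of_ne h1] at hj ⊢
            by_cases h0 : w = w0
            · subst h0
              rw [Function.update_self, Finset.mem_insert, not_or] at hj
              refine ⟨fun h => by rw [ho'] at h; simp at h, fun h => ?_⟩
              rw [hz' _ (by rw [hbf _ hwW]; exact hwW) ?_]
              · exact (hslot _ hwW j hj.2).2 h
              · rw [(hslot _ hwW j hj.2).2 h]
                intro h'
                exact hj.1 ((f _).injective h')
            · rw [Function.update_of_ne h0] at hj
              refine ⟨fun h => ?_, fun h => ?_⟩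
              · rw [hz' _ (by rw [hbf _ hwW]; exact hwW) ?_]
                · exact (hslot _ hwW j hj).1 h
                · rw [(hslot _ hwW j hj).1 h]
                  intro h'
                  apply h0
                  rw [← hbf w hwW (τ j), h', hbf w0 hparW]
              · rw [hz' _ (by rw [hbf _ hwW]; exact hwW) ?_]
                · exact (hslot _ hwW j hj).2 h
                · rw [(hslot _ hwW j hj).2 h]
                  intro h'
                  apply h0
                  rw [← hbf w hwW j, h', hbf w0 hparW]
  have hpos : 0 < Fintype.card Ω := Fintype.card_pos_iff.mpr ⟨root⟩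
  obtain ⟨W, hWc, -, f, o, U, σ, -, hcyc, hadj, -⟩ := main (Fintype.card Ω - 1) (by omega)
  have hW : W = univ := Finset.eq_univ_of_card W (by rw [hWc]; omega)
  subst hW
  refine ⟨σ, by simpa using hcyc, fun x => hadj x (Finset.mem_univ _)⟩

end Pool.Agent.R987.Glue
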