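import Mathlib
import Pool.Agent.R987.Glue

/-! Cayley graphs with a conjugation-closed generating set are Hamiltonian. -/

namespace Pool.Agent.R987.NormCay

open Equiv Equiv.Perm Finset
open Pool.Agent.R987.CycMerge Pool.Agent.R987.Glue

/-- a cyclic permutation of the group all of whose steps are right multiplications by elements
of `A`. -/
def Ham (L : Type*) [Group L] (A : Set L) : Prop :=
  ∃ σ : Perm L, σ.IsCycleOn Set.univ ∧ ∀ x, x⁻¹ * σ x ∈ A

theorem Ham.map {L L' : Type*} [Group L] [Group L'] [Finite L] {A : Set L} {A' : Set L'}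
    (e : L ≃* L') (h : Ham L A) (hA : ∀ a ∈ A, e a ∈ A') : Ham L' A' := by
  classical
  have := Fintype.ofFinite L
  have : Fintype L' := Fintype.ofEquiv L e.toEquiv
  obtain ⟨σ, hσ, hl⟩ := h
  refine ⟨σ.viaEmbedding e.toEquiv.toEmbedding, ?_, ?_⟩
  · have := viaEmbedding_isCycleOn σ hσ e.toEquiv.toEmbedding
    have h2 : (Finset.univ.map e.toEquiv.toEmbedding : Finset L') = univ := by
      ext x; simp only [Finset.mem_map, Finset.mem_univ, true_and, iff_true]
      exact ⟨e.symm x, by simp⟩
    rw [h2] at this
    simpa using this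
  · intro x
    obtain ⟨y, rfl⟩ := e.surjective x
    have : (σ.viaEmbedding e.toEquiv.toEmbedding) (e y) = e (σ y) :=
      Perm.viaEmbedding_apply σ e.toEquiv.toEmbedding y
    rw [this, ← map_inv, ← map_mul]
    exact hA _ (hl y)

/-- breadth-first search in the coset space. -/
theorem bfs {L : Type*} [Group L] [Finite L] (H : Subgroup L) (S : Finset L)
    (hS : Subgroup.closure (S : Set L) = ⊤) :
    ∃ (par : L ⧸ H → L ⧸ H) (rk : L ⧸ H → ℕ),
      ∀ w, w ≠ ((1 : L) : L ⧸ H) → rk (par w) < rk w ∧ ∃ s ∈ S, w = s • par w := by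
  classical
  have hreach : ∀ w : L ⧸ H, ∃ n, ∃ l : List L, l.length = n ∧ (∀ s ∈ l, s ∈ S) ∧
      l.prod • ((1 : L) : L ⧸ H) = w := by
    intro w
    obtain ⟨g, rfl⟩ := QuotientGroup.mk_surjective w
    have hg : g ∈ Submonoid.closure (S : Set L) := by
      rw [← Subgroup.closure_toSubmonoid_of_finite, hS]; trivial
    obtain ⟨l, hl, hp⟩ := Submonoid.exists_list_of_mem_closure hg
    refine ⟨l.length, l, rfl, fun s hs => by exact_mod_cast hl s hs, ?_⟩
    rw [hp]
    change ((g * 1 : L) : L ⧸ H) = _
    rw [mul_one]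
  let rk : L ⧸ H → ℕ := fun w => Nat.find (hreach w)
  have key : ∀ w : L ⧸ H, w ≠ ((1 : L) : L ⧸ H) → ∃ u, rk u < rk w ∧ ∃ s ∈ S, w = s • u := by
    intro w hw
    obtain ⟨l, hl, hls, hlp⟩ := Nat.find_spec (hreach w)
    cases l with
    | nil =>
      exfalso; apply hw
      rw [← hlp]; simp
    | cons s l' =>
      refine ⟨l'.prod • ((1 : L) : L ⧸ H), ?_, s, hls s (by simp), ?_⟩
      · have h1 : rk (l'.prod • ((1 : L) : L ⧸ H)) ≤ l'.length :=
          Nat.find_min' _ ⟨l', rfl, fun t ht => hls t (by simp [ht]), rfl⟩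
        have h2 : rk w = l'.length + 1 := by
          change Nat.find (hreach w) = _
          rw [← hl]; simp
        omega
      · rw [← hlp, List.prod_cons, mul_smul]
  choose! par hpar using key
  exact ⟨par, rk, hpar⟩

/-- One step of the subgroup chain. -/
theorem step {L : Type*} [Group L] [Finite L] (A : Set L) (hinv : ∀ a ∈ A, a⁻¹ ∈ A)
    (hconj : ∀ a ∈ A, ∀ g : L, g⁻¹ * a * g ∈ A) (H : Subgroup L) (S : Finset L)
    (hS : Subgroup.closure (S : Set L) = ⊤) (hSA : ∀ s ∈ S, s ∈ A)
    (hH : Ham H (Subtype.val ⁻¹' A)) (δ : ℕ)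
    (hδ : δ = 1 ∨ (δ = 0 ∧ ∀ s ∈ S, s * s = 1)) (hcard : S.card + δ ≤ Nat.card H) :
    Ham L A := by
  classical
  have := Fintype.ofFinite L
  have : Fintype H := Fintype.ofFinite H
  have : Fintype (L ⧸ H) := Fintype.ofFinite _
  obtain ⟨τ, hτ, hl⟩ := hH
  obtain ⟨par, rk, hpr⟩ := bfs H S hS
  have hA : ∀ k : H, ((k : L))⁻¹ * (τ k : L) ∈ A := fun k => hl k
  obtain ⟨σ, hσ, hσA⟩ := glue (V := L) (K := H) (Ω := L ⧸ H) (fun x y => x⁻¹ * y ∈ A)
    (fun x y h => by
      have := hinv _ h
      simpa [mul_inv_rev] using this)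
    (fun x => (x : L ⧸ H)) τ hτ
    (fun w f => ∃ g : L, (∀ k, f k = g * k) ∧ (g : L ⧸ H) = w)
    (by
      rintro w f ⟨g, hf, rfl⟩ x
      constructor
      · intro h
        have h' : (g : L ⧸ H) = (x : L ⧸ H) := h.symm
        rw [QuotientGroup.eq] at h'
        exact ⟨⟨g⁻¹ * x, h'⟩, by rw [hf]; simp⟩
      · rintro ⟨k, rfl⟩
        rw [hf]
        symm
        rw [QuotientGroup.eq]
        simp)
    (by
      rintro w f ⟨g, hf, -⟩ k
      rw [hf, hf]
      have := hA k
      convert this using 1
      group)
    ((1 : L) : L ⧸ H) par rk (fun w hw => (hpr w hw).1)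
    ⟨⟨fun k => (k : L), Subtype.val_injective⟩, 1, by simp, rfl⟩
    (by
      rintro w hw f ⟨g, hf, hg⟩
      obtain ⟨s, hs, hws⟩ := (hpr w hw).2
      refine ⟨⟨fun k => s * g * k, fun a b h => ?_⟩, ⟨s * g, fun k => rfl, ?_⟩, ?_⟩
      · have : s * g * (a : L) = s * g * (b : L) := h
        exact Subtype.ext (mul_left_cancel this)
      · rw [hws, ← hg]; rfl
      · intro k
        change (f k)⁻¹ * (s * g * k) ∈ A
        rw [hf]
        have := hconj s (hSA s hs) (g * k)
        convert this using 1
        group)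
    (by
      intro w
      rw [← Nat.card_eq_fintype_card]
      have hsub : (univ.filter (fun w' : L ⧸ H => w' ≠ ((1 : L) : L ⧸ H) ∧ par w' = w)) ⊆
          S.image (fun s => s • w) := by
        intro w' hw'
        obtain ⟨-, h1, h2⟩ := Finset.mem_filter.mp hw'
        obtain ⟨s, hs, hws⟩ := (hpr w' h1).2
        rw [h2] at hws
        exact Finset.mem_image.mpr ⟨s, hs, hws.symm⟩
      have hle : (S.image (fun s => s • w)).card ≤ S.card := Finset.card_image_le
      rcases hδ with rfl | ⟨rfl, hinvol⟩
      · have := Finset.card_le_card hsub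
        split_ifs <;> omega
      · split_ifs with hw
        · have := Finset.card_le_card hsub
          omega
        · obtain ⟨s, hs, hws⟩ := (hpr w hw).2
          have hpw : par w = s • w := by
            have h : s • w = s • (s • par w) := by rw [← hws]
            rw [h, ← mul_smul, hinvol s hs, one_smul]
          have hmem : par w ∈ S.image (fun s => s • w) :=
            Finset.mem_image.mpr ⟨s, hs, hpw.symm⟩
          have hsub' : (univ.filter (fun w' : L ⧸ H => w' ≠ ((1 : L) : L ⧸ H) ∧ par w' = w)) ⊆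
              (S.image (fun s => s • w)).erase (par w) := by
            intro w' hw'
            refine Finset.mem_erase.mpr ⟨?_, hsub hw'⟩
            rintro rfl
            obtain ⟨-, h1, h2⟩ := Finset.mem_filter.mp hw'
            have h3 := (hpr _ h1).1
            have h4 := (hpr w hw).1
            rw [h2] at h3
            omega
          have h5 := Finset.card_le_card hsub'
          rw [Finset.card_erase_of_mem hmem] at h5
          have h6 : 0 < (S.image (fun s => s • w)).card := Finset.card_pos.mpr ⟨_, hmem⟩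
          omega)
  exact ⟨σ, hσ, hσA⟩

/-- the cyclic subgroup -/
theorem ham_zpowers {G : Type*} [Group G] [Finite G] (A : Set G) (a : G) (ha : a ∈ A) :
    Ham (Subgroup.zpowers a) (Subtype.val ⁻¹' A) := by
  refine ⟨Equiv.mulRight ⟨a, Subgroup.mem_zpowers a⟩, ⟨?_, ?_⟩, ?_⟩
  · exact Set.bijOn_univ.mpr (Equiv.bijective _)
  · rintro ⟨x, hx⟩ - ⟨y, hy⟩ -
    obtain ⟨m, rfl⟩ := Subgroup.mem_zpowers_iff.mp hx
    obtain ⟨n, rfl⟩ := Subgroup.mem_zpowers_iff.mp hy
    refine ⟨n - m, ?_⟩
    rw [Equiv.zpow_mulRight]
    apply Subtype.ext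
    simp only [Equiv.coe_mulRight, Subgroup.coe_mul, SubgroupClass.coe_zpow]
    rw [← zpow_add]; congr 1; ring
  · intro x
    simpa using ha

/-- **Cayley graphs with respect to a conjugation-closed generating set.** -/
theorem ham_of_conj {G : Type*} [Group G] [Finite G] (A : Set G) (hinv : ∀ a ∈ A, a⁻¹ ∈ A)
    (hconj : ∀ a ∈ A, ∀ g : G, g⁻¹ * a * g ∈ A) (hgen : Subgroup.closure A = ⊤)
    (hne : Nontrivial G) : Ham G A := by
  classical
  have := Fintype.ofFinite G
  -- the parameter
  obtain ⟨δ, hδ, a₀, ha₀, hbase⟩ : ∃ δ : ℕ, (δ = 1 ∨ (δ = 0 ∧ ∀ a ∈ A, a * a = 1)) ∧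
      ∃ a₀ ∈ A, 2 + δ ≤ Nat.card (Subgroup.zpowers a₀) := by
    by_cases h : ∀ a ∈ A, a * a = 1
    · refine ⟨0, Or.inr ⟨rfl, h⟩, ?_⟩
      have : ∃ a ∈ A, a ≠ 1 := by
        by_contra hc
        push Not at hc
        have : Subgroup.closure A ≤ ⊥ := by
          rw [Subgroup.closure_le]
          intro a ha; rw [hc a ha]; simp
        rw [hgen, top_le_iff] at this
        exact absurd this bot_ne_top
      obtain ⟨a, ha, ha1⟩ := this
      refine ⟨a, ha, ?_⟩
      rw [Nat.card_zpowers]
      have h1 : orderOf a ≠ 1 := by rwa [Ne, orderOf_eq_one_iff]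
      have h2 : 0 < orderOf a := orderOf_pos a
      omega
    · push Not at h
      obtain ⟨a, ha, ha2⟩ := h
      refine ⟨1, Or.inl rfl, a, ha, ?_⟩
      rw [Nat.card_zpowers]
      have h1 : orderOf a ≠ 1 := by
        rw [Ne, orderOf_eq_one_iff]; rintro rfl; exact ha2 (by simp)
      have h2 : orderOf a ≠ 2 := by
        intro h; apply ha2
        have := pow_orderOf_eq_one a
        rw [h, pow_two] at this; exact this
      have h3 : 0 < orderOf a := orderOf_pos a
      omega
  let Q : Finset G → Prop := fun S => (∀ s ∈ S, s ∈ A) ∧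
    Ham (Subgroup.closure (S : Set G)) (Subtype.val ⁻¹' A) ∧
    S.card + 1 + δ ≤ Nat.card (Subgroup.closure (S : Set G))
  have hQ0 : Q {a₀} := by
    refine ⟨by simpa using ha₀, ?_, ?_⟩
    · rw [Finset.coe_singleton, ← Subgroup.zpowers_eq_closure]
      exact ham_zpowers A a₀ ha₀
    · rw [Finset.coe_singleton, ← Subgroup.zpowers_eq_closure, Finset.card_singleton]
      omega
  obtain ⟨S, hS, hmax⟩ := Finset.exists_max_image (univ.filter Q) (fun S => S.card)
    ⟨{a₀}, by simp [hQ0]⟩
  have hSQ : Q S := (Finset.mem_filter.mp hS).2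
  by_cases htop : Subgroup.closure (S : Set G) = ⊤
  · have h1 := hSQ.2.1
    have e : Subgroup.closure (S : Set G) ≃* G :=
      (MulEquiv.subgroupCongr htop).trans Subgroup.topEquiv
    refine Ham.map ((MulEquiv.subgroupCongr htop).trans Subgroup.topEquiv) h1 ?_
    intro a ha
    exact ha
  · exfalso
    obtain ⟨b, hb, hbS⟩ : ∃ b ∈ A, b ∉ Subgroup.closure (S : Set G) := by
      by_contra hc
      push Not at hc
      apply htop
      rw [← top_le_iff, ← hgen, Subgroup.closure_le]
      exact hc
    have hbS' : b ∉ S := fun h => hbS (Subgroup.subset_closure h)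
    set K := Subgroup.closure (S : Set G) with hK
    set K' := Subgroup.closure ((insert b S : Finset G) : Set G) with hK'
    have hKK' : K ≤ K' := by
      apply Subgroup.closure_mono
      intro x hx; simp only [Finset.coe_insert]; exact Set.mem_insert_of_mem _ hx
    have hbK' : b ∈ K' := Subgroup.subset_closure (by simp)
    have hlt : K < K' := lt_of_le_of_ne hKK' (by rintro h; rw [← h] at hbK'; exact hbS hbK')
    have hdvd : Nat.card K ∣ Nat.card K' := Subgroup.card_dvd_of_le hKK'
    have hcard2 : 2 * Nat.card K ≤ Nat.card K' := by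
      obtain ⟨c, hc⟩ := hdvd
      have hpos : 0 < Nat.card K' := Nat.card_pos
      have hc0 : c ≠ 0 := by rintro rfl; omega
      have hc1 : c ≠ 1 := by
        rintro rfl
        rw [mul_one] at hc
        apply hlt.ne
        exact Subgroup.eq_of_le_of_card_ge hKK' hc.le
      rw [hc, mul_comm]
      exact Nat.mul_le_mul_left _ (by omega)
    have hQ' : Q (insert b S) := by
      refine ⟨?_, ?_, ?_⟩
      · intro s hs
        rcases Finset.mem_insert.mp hs with rfl | h
        · exact hb
        · exact hSQ.1 s h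
      · -- the step
        set SL : Finset K' := univ.filter (fun x : K' => (x : G) ∈ insert b S) with hSL
        have hSLco : ((SL : Finset K') : Set K') =
            ((↑) : K' → G) ⁻¹' ((insert b S : Finset G) : Set G) := by
          ext x; simp [hSL]
        refine step (L := K') (Subtype.val ⁻¹' A) (fun a ha => hinv _ ha)
          (fun a ha g => hconj _ ha g) (K.subgroupOf K') SL ?_ ?_ ?_ δ ?_ ?_
        · rw [hSLco]; exact Subgroup.closure_closure_coe_preimage
        · intro s hs
          have : (s : G) ∈ insert b S := by simpa [hSL] using hs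
          rcases Finset.mem_insert.mp this with h | h
          · change (s : G) ∈ A; rw [h]; exact hb
          · exact hSQ.1 _ h
        · refine Ham.map (Subgroup.subgroupOfEquivOfLe hKK').symm hSQ.2.1 ?_
          intro a ha
          exact ha
        · rcases hδ with h | ⟨h, h'⟩
          · exact Or.inl h
          · refine Or.inr ⟨h, fun s hs => ?_⟩
            have hs' : (s : G) ∈ insert b S := by simpa [hSL] using hs
            have : (s : G) ∈ A := by
              rcases Finset.mem_insert.mp hs' with h | h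
              · rw [h]; exact hb
              · exact hSQ.1 _ h
            apply Subtype.ext
            simpa using h' _ this
        · have h1 : SL.card ≤ (insert b S).card := by
            have : SL.card = (SL.image (fun x : K' => (x : G))).card :=
              (Finset.card_image_of_injective _ Subtype.val_injective).symm
            rw [this]
            apply Finset.card_le_card
            intro x hx
            obtain ⟨y, hy, rfl⟩ := Finset.mem_image.mp hx
            simpa [hSL] using hy
          rw [Finset.card_insert_of_notMem hbS'] at h1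
          have h2 : Nat.card (K.subgroupOf K') = Nat.card K :=
            Nat.card_congr (Subgroup.subgroupOfEquivOfLe hKK').toEquiv
          rw [h2]
          have h3 : S.card + 1 + δ ≤ Nat.card K := hSQ.2.2
          omega
      · rw [Finset.card_insert_of_notMem hbS']
        have h3 := hSQ.2.2
        have h4 : δ ≤ 1 := by rcases hδ with h | ⟨h, -⟩ <;> omega
        change S.card + 1 + 1 + δ ≤ Nat.card K'
        have h5 : S.card + 1 + δ ≤ Nat.card K := h3
        omega
    have := hmax (insert b S) (by simp [hQ'])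
    rw [Finset.card_insert_of_notMem hbS'] at this
    omega

end Pool.Agent.R987.NormCay
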