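import Mathlib

/-! Spanning trees of maximum degree three in highly edge-connected regular graphs
(after Win, Ellingham and Zha). -/

namespace Pool.Agent.R987.Win

open Finset Classical

set_option linter.unusedSectionVars false

variable {V : Type*} [Fintype V]

/-- degree -/
noncomputable def dg (F : SimpleGraph V) (x : V) : ℕ := (univ.filter (fun y => F.Adj x y)).card

theorem dg_mono {F F' : SimpleGraph V} (h : F ≤ F') (x : V) : dg F x ≤ dg F' x := by
  unfold dg
  apply Finset.card_le_card
  intro y hy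
  rw [Finset.mem_filter] at hy ⊢
  exact ⟨hy.1, h hy.2⟩

/-- connected subgraph on `X` with maximum degree at most three -/
structure Good (Γ F : SimpleGraph V) (X : Finset V) : Prop where
  le : F ≤ Γ
  within : ∀ x y, F.Adj x y → x ∈ X ∧ y ∈ X
  conn : ∀ x ∈ X, ∀ y ∈ X, F.Reachable x y
  deg : ∀ x, dg F x ≤ 3

/-- deletion of the vertices of `S` -/
def del (T : SimpleGraph V) (S : Finset V) : SimpleGraph V where
  Adj x y := T.Adj x y ∧ x ∉ S ∧ y ∉ S
  symm := ⟨fun _ _ h => ⟨h.1.symm, h.2.2, h.2.1⟩⟩
  loopless := ⟨fun _ h => h.1.ne rfl⟩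

/-- same component of `T - S` -/
def R (T : SimpleGraph V) (S : Finset V) (x y : V) : Prop := (del T S).Reachable x y

theorem R_mono {T : SimpleGraph V} {S S' : Finset V} (h : S ⊆ S') {x y : V}
    (hR : R T S' x y) : R T S x y := by
  refine SimpleGraph.Reachable.mono ?_ hR
  intro a b hab
  exact ⟨hab.1, fun h1 => hab.2.1 (h h1), fun h1 => hab.2.2 (h h1)⟩

theorem R_of_mem {T : SimpleGraph V} {S : Finset V} {x y : V} (hx : x ∈ S) (h : R T S x y) :
    x = y := by
  obtain ⟨p⟩ := h
  cases p with
  | nil => rfl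
  | cons h _ => exact absurd hx h.2.1

/-- the inner part of `F` -/
def inner (T F : SimpleGraph V) (S : Finset V) : SimpleGraph V where
  Adj x y := F.Adj x y ∧ R T S x y
  symm := ⟨fun _ _ h => ⟨h.1.symm, h.2.symm⟩⟩
  loopless := ⟨fun _ h => h.1.ne rfl⟩

/-- the family of rearrangements of `T` inside the components of `T - S` -/
structure Fam (Γ T : SimpleGraph V) (X S : Finset V) (F : SimpleGraph V) : Prop where
  le : F ≤ Γ
  within : ∀ x y, F.Adj x y → x ∈ X ∧ y ∈ X
  deg : ∀ x, dg F x ≤ 3
  outer : ∀ x y, ¬ R T S x y → (F.Adj x y ↔ T.Adj x y)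
  inn : ∀ x y, R T S x y → (inner T F S).Reachable x y

theorem inner_le (T F : SimpleGraph V) (S : Finset V) : inner T F S ≤ F := fun _ _ h => h.1

theorem reach_of_step {A B : SimpleGraph V} (h : ∀ x y, A.Adj x y → B.Reachable x y) {x y : V}
    (hA : A.Reachable x y) : B.Reachable x y := by
  obtain ⟨p⟩ := hA
  induction p with
  | nil => exact SimpleGraph.Reachable.refl _
  | cons hadj _ ih => exact (h _ _ hadj).trans ih

theorem Fam.mono {Γ T F : SimpleGraph V} {X S S' : Finset V} (h : S ⊆ S')
    (hF : Fam Γ T X S' F) : Fam Γ T X S F := by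
  refine ⟨hF.le, hF.within, hF.deg, fun x y hR => hF.outer x y (fun h' => hR (R_mono h h')), ?_⟩
  intro x y hxy
  refine reach_of_step ?_ hxy
  intro a b hab
  have hRab : R T S a b := SimpleGraph.Adj.reachable hab
  by_cases hR' : R T S' a b
  · refine (hF.inn a b hR').mono ?_
    intro c d hcd
    exact ⟨hcd.1, R_mono h hcd.2⟩
  · have : F.Adj a b := (hF.outer a b hR').2 hab.1
    exact SimpleGraph.Adj.reachable (show (inner T F S).Adj a b from ⟨this, hRab⟩)

theorem Fam.good {Γ T F : SimpleGraph V} {X S : Finset V} (hT : Good Γ T X)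
    (hF : Fam Γ T X S F) : Good Γ F X := by
  refine ⟨hF.le, hF.within, ?_, hF.deg⟩
  intro x hx y hy
  refine reach_of_step ?_ (hT.conn x hx y hy)
  intro a b hab
  by_cases hR : R T S a b
  · exact (hF.inn a b hR).mono (inner_le T F S)
  · exact SimpleGraph.Adj.reachable ((hF.outer a b hR).2 hab)

theorem fam_self {Γ T : SimpleGraph V} {X : Finset V} (hT : Good Γ T X) (S : Finset V) :
    Fam Γ T X S T := by
  refine ⟨hT.le, hT.within, hT.deg, fun _ _ _ => Iff.rfl, ?_⟩
  intro x y hxy
  refine reach_of_step ?_ hxy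
  intro a b hab
  exact SimpleGraph.Adj.reachable
    (show (inner T T S).Adj a b from ⟨hab.1, SimpleGraph.Adj.reachable hab⟩)

/-- an edge of a path before a given vertex -/
theorem path_edge {F : SimpleGraph V} {u v s : V} (p : F.Walk u v) (hp : p.IsPath)
    (hs : s ∈ p.support) (hsu : s ≠ u) :
    ∃ c, F.Adj c s ∧ (F.deleteEdges {s(c, s)}).Reachable u c ∧
      (F.deleteEdges {s(c, s)}).Reachable s v := by
  induction p with
  | nil => simp only [SimpleGraph.Walk.support_nil, List.mem_singleton] at hs; exact absurd hs hsu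
  | @cons u w v h p' ih =>
    rw [SimpleGraph.Walk.cons_isPath_iff] at hp
    by_cases hw : w = s
    · subst hw
      refine ⟨u, h, SimpleGraph.Reachable.refl _, ?_⟩
      -- p' avoids u
      have : ∀ {a b : V} (q : F.Walk a b), u ∉ q.support →
          (F.deleteEdges {s(u, w)}).Reachable a b := by
        intro a b q
        induction q with
        | nil => intro _; exact SimpleGraph.Reachable.refl _
        | @cons a c b hac q' ih' =>
          intro hu
          rw [SimpleGraph.Walk.support_cons, List.mem_cons, not_or] at hu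
          have hadj : (F.deleteEdges {s(u, w)}).Adj a c := by
            rw [SimpleGraph.deleteEdges_adj]
            refine ⟨hac, ?_⟩
            intro hmem
            rw [Set.mem_singleton_iff, Sym2.eq_iff] at hmem
            rcases hmem with ⟨h1, -⟩ | ⟨-, h2⟩
            · exact hu.1 h1.symm
            · apply hu.2
              rw [← h2]
              exact SimpleGraph.Walk.start_mem_support q'
          exact hadj.reachable.trans (ih' hu.2)
      exact this p' hp.2
    · have hs' : s ∈ p'.support := by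
        rw [SimpleGraph.Walk.support_cons, List.mem_cons] at hs
        exact hs.resolve_left hsu
      obtain ⟨c, hc, h1, h2⟩ := ih hp.1 hs' (fun h => hw h.symm)
      refine ⟨c, hc, ?_, h2⟩
      have hadj : (F.deleteEdges {s(c, s)}).Adj u w := by
        rw [SimpleGraph.deleteEdges_adj]
        refine ⟨h, ?_⟩
        intro hmem
        rw [Set.mem_singleton_iff, Sym2.eq_iff] at hmem
        rcases hmem with ⟨-, h2⟩ | ⟨h1, -⟩
        · exact hw h2
        · exact hsu h1.symm
      exact hadj.reachable.trans h1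

/-- delete the edge `cs`, add the edge `uv` -/
def swapE (F : SimpleGraph V) (c s u v : V) (huv : u ≠ v) : SimpleGraph V where
  Adj x y := (F.Adj x y ∧ s(x, y) ≠ s(c, s)) ∨ s(x, y) = s(u, v)
  symm := ⟨fun x y h => by
    rw [Sym2.eq_swap (a := y) (b := x)]
    rcases h with ⟨h, h'⟩ | h
    · exact Or.inl ⟨h.symm, h'⟩
    · exact Or.inr h⟩
  loopless := ⟨fun x h => by
    rcases h with ⟨h, -⟩ | h
    · exact h.ne rfl
    · rw [Sym2.eq_iff] at h
      rcases h with ⟨h1, h2⟩ | ⟨h1, h2⟩
      · exact huv (h1.symm.trans h2)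
      · exact huv (h2.symm.trans h1)⟩

/-- **Exchange.** -/
theorem exchange {Γ T F : SimpleGraph V} {X S S' : Finset V} (hSS' : S ⊆ S')
    (hF : Fam Γ T X S' F) {u v : V} (hu : u ∈ X) (hv : v ∈ X) (hR : R T S u v)
    (hR' : ¬ R T S' u v) (huS : u ∉ S') (hvS : v ∉ S') (hΓ : Γ.Adj u v)
    (hdu : dg F u ≤ 2) (hdv : dg F v ≤ 2) :
    ∃ s ∈ S', s ∉ S ∧ ∃ F', Fam Γ T X S F' ∧ dg F' s ≤ 2 := by
  have hFS : Fam Γ T X S F := hF.mono hSS'
  obtain ⟨p, hp⟩ := (hFS.inn u v hR).exists_isPath
  -- the path meets S'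
  have hmeet : ∃ s ∈ p.support, s ∈ S' := by
    by_contra hc
    push Not at hc
    apply hR'
    have : ∀ {a b : V} (q : (inner T F S).Walk a b), (∀ x ∈ q.support, x ∉ S') →
        R T S' a b := by
      intro a b q
      induction q with
      | nil => intro _; exact SimpleGraph.Reachable.refl _
      | @cons a c b hac q' ih =>
        intro hq
        have ha : a ∉ S' := hq a (by simp)
        have hcS : c ∉ S' := hq c (by
          rw [SimpleGraph.Walk.support_cons, List.mem_cons]
          exact Or.inr (SimpleGraph.Walk.start_mem_support q'))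
        have h1 : R T S' a c := by
          by_contra hn
          exact hn (SimpleGraph.Adj.reachable
            (show (del T S').Adj a c from ⟨(hF.outer a c hn).1 hac.1, ha, hcS⟩))
        exact h1.trans (ih (fun x hx => hq x (by
          rw [SimpleGraph.Walk.support_cons, List.mem_cons]; exact Or.inr hx)))
    exact this p hc
  obtain ⟨s, hsp, hsS'⟩ := hmeet
  have hsu : s ≠ u := by rintro rfl; exact huS hsS'
  have hsv : s ≠ v := by rintro rfl; exact hvS hsS'
  have huv : u ≠ v := hΓ.ne
  obtain ⟨c, hcs, huc, hsv'⟩ := path_edge p hp hsp hsu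
  have hRcs : R T S c s := hcs.2
  have hRus : R T S u s := by
    have h1 : (inner T F S).Reachable u c := huc.mono (SimpleGraph.deleteEdges_le _)
    exact (reach_of_step (A := inner T F S) (B := del T S) (fun a b hab => hab.2) h1).trans hRcs
  have hsS : s ∉ S := by
    intro h
    exact hsu (R_of_mem h hRus.symm)
  refine ⟨s, hsS', hsS, swapE F c s u v huv, ⟨?_, ?_, ?_, ?_, ?_⟩, ?_⟩
  · -- le
    rintro x y (⟨h, -⟩ | h)
    · exact hF.le h
    · rw [Sym2.eq_iff] at h
      rcases h with ⟨rfl, rfl⟩ | ⟨rfl, rfl⟩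
      · exact hΓ
      · exact hΓ.symm
  · rintro x y (⟨h, -⟩ | h)
    · exact hF.within x y h
    · rw [Sym2.eq_iff] at h
      rcases h with ⟨rfl, rfl⟩ | ⟨rfl, rfl⟩
      · exact ⟨hu, hv⟩
      · exact ⟨hv, hu⟩
  · -- degrees
    intro x
    by_cases hxu : x = u
    · subst hxu
      have : (univ.filter (fun y => (swapE F c s x v huv).Adj x y)) ⊆
          insert v (univ.filter (fun y => F.Adj x y)) := by
        intro y hy
        rw [Finset.mem_filter] at hy
        rcases hy.2 with ⟨h, -⟩ | h
        · exact Finset.mem_insert_of_mem (Finset.mem_filter.mpr ⟨Finset.mem_univ _, h⟩)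
        · rw [Sym2.eq_iff] at h
          rcases h with ⟨-, h⟩ | ⟨h, -⟩
          · rw [h]; exact Finset.mem_insert_self _ _
          · exact absurd h huv
      have h1 := (Finset.card_le_card this).trans (Finset.card_insert_le _ _)
      unfold dg at hdu ⊢
      omega
    · by_cases hxv : x = v
      · subst hxv
        have : (univ.filter (fun y => (swapE F c s u x huv).Adj x y)) ⊆
            insert u (univ.filter (fun y => F.Adj x y)) := by
          intro y hy
          rw [Finset.mem_filter] at hy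
          rcases hy.2 with ⟨h, -⟩ | h
          · exact Finset.mem_insert_of_mem (Finset.mem_filter.mpr ⟨Finset.mem_univ _, h⟩)
          · rw [Sym2.eq_iff] at h
            rcases h with ⟨h, -⟩ | ⟨-, h⟩
            · exact absurd h hxu
            · rw [h]; exact Finset.mem_insert_self _ _
        have h1 := (Finset.card_le_card this).trans (Finset.card_insert_le _ _)
        unfold dg at hdv ⊢
        omega
      · refine le_trans ?_ (hF.deg x)
        unfold dg
        apply Finset.card_le_card
        intro y hy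
        rw [Finset.mem_filter] at hy ⊢
        rcases hy.2 with ⟨h, -⟩ | h
        · exact ⟨Finset.mem_univ _, h⟩
        · rw [Sym2.eq_iff] at h
          rcases h with ⟨h, -⟩ | ⟨h, -⟩
          · exact absurd h hxu
          · exact absurd h hxv
  · -- outer
    intro x y hxy
    rw [← hFS.outer x y hxy]
    constructor
    · rintro (⟨h, -⟩ | h)
      · exact h
      · exfalso
        rw [Sym2.eq_iff] at h
        rcases h with ⟨rfl, rfl⟩ | ⟨rfl, rfl⟩
        · exact hxy hR
        · exact hxy hR.symm
    · intro h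
      refine Or.inl ⟨h, ?_⟩
      intro h'
      rw [Sym2.eq_iff] at h'
      rcases h' with ⟨rfl, rfl⟩ | ⟨rfl, rfl⟩
      · exact hxy hRcs
      · exact hxy hRcs.symm
  · -- inner connectivity
    intro x y hxy
    have hsub : (inner T F S).deleteEdges {s(c, s)} ≤ inner T (swapE F c s u v huv) S := by
      intro a b hab
      rw [SimpleGraph.deleteEdges_adj] at hab
      exact ⟨Or.inl ⟨hab.1.1, by simpa using hab.2⟩, hab.1.2⟩
    have hcs' : (inner T (swapE F c s u v huv) S).Reachable c s := by
      have h1 := (huc.mono hsub).symm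
      have h2 := (hsv'.mono hsub).symm
      have h3 : (inner T (swapE F c s u v huv) S).Reachable u v :=
        SimpleGraph.Adj.reachable (show (inner T (swapE F c s u v huv) S).Adj u v from
          ⟨Or.inr rfl, hR⟩)
      exact (h1.trans h3).trans h2
    refine reach_of_step ?_ (hFS.inn x y hxy)
    intro a b hab
    by_cases h : s(a, b) = s(c, s)
    · rw [Sym2.eq_iff] at h
      rcases h with ⟨rfl, rfl⟩ | ⟨rfl, rfl⟩
      · exact hcs'
      · exact hcs'.symm
    · exact SimpleGraph.Adj.reachable
        (show (inner T (swapE F c s u v huv) S).Adj a b from ⟨Or.inl ⟨hab.1, h⟩, hab.2⟩)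
  · -- degree of s
    have hsub : (univ.filter (fun y => (swapE F c s u v huv).Adj s y)) ⊆
        (univ.filter (fun y => F.Adj s y)).erase c := by
      intro y hy
      rw [Finset.mem_filter] at hy
      rw [Finset.mem_erase, Finset.mem_filter]
      rcases hy.2 with ⟨h, h'⟩ | h
      · refine ⟨?_, Finset.mem_univ _, h⟩
        rintro rfl
        exact h' Sym2.eq_swap
      · exfalso
        rw [Sym2.eq_iff] at h
        rcases h with ⟨h, -⟩ | ⟨h, -⟩
        · exact hsu h
        · exact hsv h
    have h1 : dg (swapE F c s u v huv) s ≤ dg F s - 1 := by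
      have h1' := Finset.card_le_card hsub
      rw [Finset.card_erase_of_mem (Finset.mem_filter.mpr ⟨Finset.mem_univ _, hcs.1.symm⟩)] at h1'
      exact h1'
    have h2 := hF.deg s
    omega

/-- combination of two rearrangements -/
theorem combine {Γ T F₁ F₂ : SimpleGraph V} {X S : Finset V} (h₁ : Fam Γ T X S F₁)
    (h₂ : Fam Γ T X S F₂) (hT : Good Γ T X) (u v : V) (huv : ¬ R T S u v) :
    ∃ F₃, Fam Γ T X S F₃ ∧ dg F₃ u = dg F₁ u ∧ dg F₃ v = dg F₂ v := by
  have Rs : ∀ {a b}, R T S a b → R T S b a := fun h => h.symm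
  have Rt : ∀ {a b c}, R T S a b → R T S b c → R T S a c := fun h h' => h.trans h'
  let F₃ : SimpleGraph V :=
    { Adj := fun x y => (R T S x y ∧ R T S x u ∧ F₁.Adj x y) ∨
        (R T S x y ∧ ¬ R T S x u ∧ F₂.Adj x y) ∨ (¬ R T S x y ∧ T.Adj x y)
      symm := ⟨fun x y h => by
        rcases h with ⟨h1, h2, h3⟩ | ⟨h1, h2, h3⟩ | ⟨h1, h2⟩
        · exact Or.inl ⟨Rs h1, Rt (Rs h1) h2, h3.symm⟩
        · exact Or.inr (Or.inl ⟨Rs h1, fun h => h2 (Rt h1 h), h3.symm⟩)
        · exact Or.inr (Or.inr ⟨fun h => h1 (Rs h), h2.symm⟩)⟩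
      loopless := ⟨fun x h => by
        rcases h with ⟨-, -, h3⟩ | ⟨-, -, h3⟩ | ⟨-, h2⟩
        · exact h3.ne rfl
        · exact h3.ne rfl
        · exact h2.ne rfl⟩ }
  have hadj1 : ∀ x, R T S x u → ∀ y, F₃.Adj x y ↔ F₁.Adj x y := by
    intro x hx y
    change ((R T S x y ∧ R T S x u ∧ F₁.Adj x y) ∨
        (R T S x y ∧ ¬ R T S x u ∧ F₂.Adj x y) ∨ (¬ R T S x y ∧ T.Adj x y)) ↔ _
    by_cases hxy : R T S x y
    · simp [hxy, hx]
    · simp [hxy, h₁.outer x y hxy]
  have hadj2 : ∀ x, ¬ R T S x u → ∀ y, F₃.Adj x y ↔ F₂.Adj x y := by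
    intro x hx y
    change ((R T S x y ∧ R T S x u ∧ F₁.Adj x y) ∨
        (R T S x y ∧ ¬ R T S x u ∧ F₂.Adj x y) ∨ (¬ R T S x y ∧ T.Adj x y)) ↔ _
    by_cases hxy : R T S x y
    · simp [hxy, hx]
    · simp [hxy, h₂.outer x y hxy]
  have hdg1 : ∀ x, R T S x u → dg F₃ x = dg F₁ x := by
    intro x hx
    unfold dg
    congr 1
    ext y
    simp [hadj1 x hx y]
  have hdg2 : ∀ x, ¬ R T S x u → dg F₃ x = dg F₂ x := by
    intro x hx
    unfold dg
    congr 1
    ext y
    simp [hadj2 x hx y]
  refine ⟨F₃, ⟨?_, ?_, ?_, ?_, ?_⟩, hdg1 u (SimpleGraph.Reachable.refl _),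
    hdg2 v (fun h => huv (Rs h))⟩
  · intro x y h
    by_cases hx : R T S x u
    · exact h₁.le ((hadj1 x hx y).1 h)
    · exact h₂.le ((hadj2 x hx y).1 h)
  · intro x y h
    by_cases hx : R T S x u
    · exact h₁.within x y ((hadj1 x hx y).1 h)
    · exact h₂.within x y ((hadj2 x hx y).1 h)
  · intro x
    by_cases hx : R T S x u
    · rw [hdg1 x hx]; exact h₁.deg x
    · rw [hdg2 x hx]; exact h₂.deg x
  · intro x y hxy
    by_cases hx : R T S x u
    · rw [hadj1 x hx y]; exact h₁.outer x y hxy
    · rw [hadj2 x hx y]; exact h₂.outer x y hxy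
  · intro x y hxy
    by_cases hx : R T S x u
    · have : ∀ {a b : V} (q : (inner T F₁ S).Walk a b), R T S a u →
          (inner T F₃ S).Reachable a b := by
        intro a b q
        induction q with
        | nil => intro _; exact SimpleGraph.Reachable.refl _
        | @cons a c b hac q' ih =>
          intro ha
          have h1 : (inner T F₃ S).Adj a c := ⟨(hadj1 a ha c).2 hac.1, hac.2⟩
          exact h1.reachable.trans (ih (Rt (Rs hac.2) ha))
      obtain ⟨q⟩ := h₁.inn x y hxy
      exact this q hx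
    · have : ∀ {a b : V} (q : (inner T F₂ S).Walk a b), ¬ R T S a u →
          (inner T F₃ S).Reachable a b := by
        intro a b q
        induction q with
        | nil => intro _; exact SimpleGraph.Reachable.refl _
        | @cons a c b hac q' ih =>
          intro ha
          have h1 : (inner T F₃ S).Adj a c := ⟨(hadj2 a ha c).2 hac.1, hac.2⟩
          exact h1.reachable.trans (ih (fun h => ha (Rt hac.2 h)))
      obtain ⟨q⟩ := h₂.inn x y hxy
      exact this q hx

/-- vertices of degree at least three in every rearrangement -/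
noncomputable def forced (Γ T : SimpleGraph V) (X S : Finset V) : Finset V :=
  X.filter (fun v => ∀ F, Fam Γ T X S F → 3 ≤ dg F v)

noncomputable def sq (Γ T : SimpleGraph V) (X : Finset V) : ℕ → Finset V
  | 0 => ∅
  | j + 1 => sq Γ T X j ∪ forced Γ T X (sq Γ T X j)

theorem sq_mono (Γ T : SimpleGraph V) (X : Finset V) : Monotone (sq Γ T X) :=
  monotone_nat_of_le_succ (fun n => by
    change sq Γ T X n ⊆ sq Γ T X n ∪ _
    exact Finset.subset_union_left)

theorem sq_sub (Γ T : SimpleGraph V) (X : Finset V) (j : ℕ) : sq Γ T X j ⊆ X := by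
  induction j with
  | zero => exact Finset.empty_subset _
  | succ j ih => exact Finset.union_subset ih (Finset.filter_subset _ _)

theorem sq_stable (Γ T : SimpleGraph V) (X : Finset V) :
    ∃ j, sq Γ T X (j + 1) = sq Γ T X j := by
  by_contra hc
  push Not at hc
  have : ∀ j, j ≤ (sq Γ T X j).card := by
    intro j
    induction j with
    | zero => simp
    | succ j ih =>
      have h1 : sq Γ T X j ⊂ sq Γ T X (j + 1) :=
        Finset.ssubset_iff_subset_ne.mpr ⟨sq_mono Γ T X (Nat.le_succ j), (hc j).symm⟩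
      have := Finset.card_lt_card h1
      omega
  have h1 := this (Fintype.card V + 1)
  have h2 := Finset.card_le_univ (sq Γ T X (Fintype.card V + 1))
  omega

/-- No edge of `Γ` joins different components of `T - S` when `S` is stable. -/
theorem no_edge {Γ T : SimpleGraph V} {X : Finset V} (hT : Good Γ T X) {j : ℕ}
    (hj : sq Γ T X (j + 1) = sq Γ T X j) {u v : V} (hu : u ∈ X) (hv : v ∈ X)
    (huS : u ∉ sq Γ T X j) (hvS : v ∉ sq Γ T X j) (huv : Γ.Adj u v) :
    R T (sq Γ T X j) u v := by
  by_contra hR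
  have hfS : forced Γ T X (sq Γ T X j) ⊆ sq Γ T X j := by
    have : forced Γ T X (sq Γ T X j) ⊆ sq Γ T X (j + 1) := Finset.subset_union_right
    rwa [hj] at this
  obtain ⟨F₁, hF₁, hd₁⟩ : ∃ F, Fam Γ T X (sq Γ T X j) F ∧ dg F u ≤ 2 := by
    by_contra hc
    push Not at hc
    exact huS (hfS (Finset.mem_filter.mpr ⟨hu, fun F hF => hc F hF⟩))
  obtain ⟨F₂, hF₂, hd₂⟩ : ∃ F, Fam Γ T X (sq Γ T X j) F ∧ dg F v ≤ 2 := by
    by_contra hc
    push Not at hc
    exact hvS (hfS (Finset.mem_filter.mpr ⟨hv, fun F hF => hc F hF⟩))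
  obtain ⟨F₃, hF₃, h1, h2⟩ := combine hF₁ hF₂ hT u v hR
  have hex : ∃ i, ¬ R T (sq Γ T X i) u v := ⟨j, hR⟩
  have hi := Nat.find_spec hex
  have hij : Nat.find hex ≤ j := Nat.find_min' hex hR
  have hi0 : Nat.find hex ≠ 0 := by
    intro h
    rw [h] at hi
    apply hi
    have := hT.conn u hu v hv
    refine this.mono ?_
    intro a b hab
    exact ⟨hab, by simp [sq], by simp [sq]⟩
  obtain ⟨i, hi'⟩ := Nat.exists_eq_succ_of_ne_zero hi0
  have hprev : R T (sq Γ T X i) u v := by
    by_contra hn
    have := Nat.find_min' hex hn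
    omega
  rw [hi'] at hi hij
  obtain ⟨s, hs, hs', F', hF', hdF'⟩ := exchange (sq_mono Γ T X (Nat.le_succ i))
    (hF₃.mono (sq_mono Γ T X hij)) hu hv hprev hi
    (fun h => huS (sq_mono Γ T X hij h)) (fun h => hvS (sq_mono Γ T X hij h)) huv
    (by omega) (by omega)
  have hs2 : s ∈ forced Γ T X (sq Γ T X i) := by
    rcases Finset.mem_union.mp (show s ∈ sq Γ T X i ∪ forced Γ T X (sq Γ T X i) from hs)
      with h | h
    · exact absurd h hs'
    · exact h
  have := (Finset.mem_filter.mp hs2).2 F' hF'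
  omega

/-- all vertices of the sets have degree at least three in `T` -/
theorem deg_sq {Γ T : SimpleGraph V} {X : Finset V} (hT : Good Γ T X) (j : ℕ) :
    ∀ s ∈ sq Γ T X j, 3 ≤ dg T s := by
  induction j with
  | zero => intro s hs; simp [sq] at hs
  | succ j ih =>
    intro s hs
    rcases Finset.mem_union.mp (show s ∈ sq Γ T X j ∪ forced Γ T X (sq Γ T X j) from hs)
      with h | h
    · exact ih s h
    · exact (Finset.mem_filter.mp h).2 T (fam_self hT _)

end Pool.Agent.R987.Win
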