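import Mathlib
import Pool.Agent.R987.Win

/-! Spanning trees of maximum degree three: the main theorem. -/

namespace Pool.Agent.R987.Win

open Finset Classical

set_option linter.unusedSectionVars false

variable {V : Type*} [Fintype V]

/-- add an edge -/
def addE (F : SimpleGraph V) (v w : V) (hvw : v ≠ w) : SimpleGraph V where
  Adj x y := F.Adj x y ∨ s(x, y) = s(v, w)
  symm := ⟨fun x y h => by
    rw [Sym2.eq_swap (a := y) (b := x)]
    rcases h with h | h
    · exact Or.inl h.symm
    · exact Or.inr h⟩
  loopless := ⟨fun x h => by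
    rcases h with h | h
    · exact h.ne rfl
    · rw [Sym2.eq_iff] at h
      rcases h with ⟨h1, h2⟩ | ⟨h1, h2⟩
      · exact hvw (h1.symm.trans h2)
      · exact hvw (h2.symm.trans h1)⟩

theorem extend {Γ F : SimpleGraph V} {X : Finset V} (hF : Good Γ F X) {v w : V} (hv : v ∈ X)
    (hw : w ∉ X) (hvw : Γ.Adj v w) (hd : dg F v ≤ 2) : ∃ F', Good Γ F' (insert w X) := by
  have hne : v ≠ w := hvw.ne
  refine ⟨addE F v w hne, ⟨?_, ?_, ?_, ?_⟩⟩
  · rintro x y (h | h)
    · exact hF.le h
    · rw [Sym2.eq_iff] at h
      rcases h with ⟨rfl, rfl⟩ | ⟨rfl, rfl⟩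
      · exact hvw
      · exact hvw.symm
  · rintro x y (h | h)
    · exact ⟨Finset.mem_insert_of_mem (hF.within x y h).1,
        Finset.mem_insert_of_mem (hF.within x y h).2⟩
    · rw [Sym2.eq_iff] at h
      rcases h with ⟨rfl, rfl⟩ | ⟨rfl, rfl⟩
      · exact ⟨Finset.mem_insert_of_mem hv, Finset.mem_insert_self _ _⟩
      · exact ⟨Finset.mem_insert_self _ _, Finset.mem_insert_of_mem hv⟩
  · have hle : F ≤ addE F v w hne := fun _ _ h => Or.inl h
    have key : ∀ x ∈ insert w X, (addE F v w hne).Reachable x v := by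
      intro x hx
      rcases Finset.mem_insert.mp hx with rfl | h
      · exact SimpleGraph.Adj.reachable (show (addE F v x hne).Adj x v from Or.inr Sym2.eq_swap)
      · exact (hF.conn x h v hv).mono hle
    intro x hx y hy
    exact (key x hx).trans (key y hy).symm
  · intro x
    by_cases hxv : x = v
    · subst hxv
      have : (univ.filter (fun y => (addE F x w hne).Adj x y)) ⊆
          insert w (univ.filter (fun y => F.Adj x y)) := by
        intro y hy
        rw [Finset.mem_filter] at hy
        rcases hy.2 with h | h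
        · exact Finset.mem_insert_of_mem (Finset.mem_filter.mpr ⟨Finset.mem_univ _, h⟩)
        · rw [Sym2.eq_iff] at h
          rcases h with ⟨-, h⟩ | ⟨h, -⟩
          · rw [h]; exact Finset.mem_insert_self _ _
          · exact absurd h hne
      have h1 := (Finset.card_le_card this).trans (Finset.card_insert_le _ _)
      have h2 : dg (addE F x w hne) x ≤ dg F x + 1 := h1
      omega
    · by_cases hxw : x = w
      · subst hxw
        have : (univ.filter (fun y => (addE F v x hne).Adj x y)) ⊆ {v} := by
          intro y hy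
          rw [Finset.mem_filter] at hy
          rcases hy.2 with h | h
          · exact absurd (hF.within x y h).1 hw
          · rw [Sym2.eq_iff] at h
            rcases h with ⟨h, -⟩ | ⟨-, h⟩
            · exact absurd h hxv
            · rw [h]; exact Finset.mem_singleton_self _
        have h1 := Finset.card_le_card this
        have h2 : dg (addE F v x hne) x ≤ 1 := by
          rw [Finset.card_singleton] at h1; exact h1
        omega
      · refine le_trans ?_ (hF.deg x)
        apply Finset.card_le_card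
        intro y hy
        rw [Finset.mem_filter] at hy ⊢
        rcases hy.2 with h | h
        · exact ⟨Finset.mem_univ _, h⟩
        · rw [Sym2.eq_iff] at h
          rcases h with ⟨h, -⟩ | ⟨h, -⟩
          · exact absurd h hxv
          · exact absurd h hxw

/-- a breadth-first search tree -/
theorem rooted {Γ F : SimpleGraph V} {X : Finset V} (hF : Good Γ F X) {r : V} (hr : r ∈ X) :
    ∃ (T : SimpleGraph V) (par : V → V) (rk : V → ℕ), Good Γ T X ∧
      (∀ x ∈ X, x ≠ r → par x ∈ X ∧ rk (par x) < rk x) ∧
      (∀ x y, T.Adj x y ↔ (x ∈ X ∧ x ≠ r ∧ par x = y) ∨ (y ∈ X ∧ y ≠ r ∧ par y = x)) := by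
  have key : ∀ x, x ∈ X ∧ x ≠ r → ∃ y, F.Adj x y ∧ F.dist r y < F.dist r x := by
    rintro x ⟨hx, hxr⟩
    obtain ⟨p, hp⟩ := (hF.conn x hx r hr).exists_walk_length_eq_dist
    cases p with
    | nil => exact absurd rfl hxr
    | @cons _ y _ h p' =>
      refine ⟨y, h, ?_⟩
      have h1 : F.dist y r ≤ p'.length := SimpleGraph.dist_le p'
      rw [SimpleGraph.Walk.length_cons] at hp
      rw [SimpleGraph.dist_comm (u := r) (v := y), SimpleGraph.dist_comm (u := r) (v := x)]
      omega
  choose! par hpar using key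
  let T : SimpleGraph V :=
    { Adj := fun x y => (x ∈ X ∧ x ≠ r ∧ par x = y) ∨ (y ∈ X ∧ y ≠ r ∧ par y = x)
      symm := ⟨fun x y h => h.symm⟩
      loopless := ⟨fun x h => by
        rcases h with ⟨h1, h2, h3⟩ | ⟨h1, h2, h3⟩ <;>
        · have := (hpar x ⟨h1, h2⟩).1
          rw [h3] at this
          exact this.ne rfl⟩ }
  have hTF : T ≤ F := by
    rintro x y (⟨h1, h2, h3⟩ | ⟨h1, h2, h3⟩)
    · rw [← h3]; exact (hpar x ⟨h1, h2⟩).1
    · rw [← h3]; exact (hpar y ⟨h1, h2⟩).1.symm
  have hparX : ∀ x ∈ X, x ≠ r → par x ∈ X := fun x hx hxr =>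
    (hF.within _ _ (hpar x ⟨hx, hxr⟩).1).2
  refine ⟨T, par, F.dist r, ⟨fun _ _ h => hF.le (hTF h), fun x y h => hF.within x y (hTF h), ?_,
    fun x => (dg_mono hTF x).trans (hF.deg x)⟩,
    fun x hx hxr => ⟨hparX x hx hxr, (hpar x ⟨hx, hxr⟩).2⟩, fun _ _ => Iff.rfl⟩
  have reach : ∀ n, ∀ x ∈ X, F.dist r x ≤ n → T.Reachable x r := by
    intro n
    induction n with
    | zero =>
      intro x hx hn
      by_cases hxr : x = r
      · rw [hxr]
      · have := (hpar x ⟨hx, hxr⟩).2
        omega
    | succ n ih =>
      intro x hx hn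
      by_cases hxr : x = r
      · rw [hxr]
      · have h1 := (hpar x ⟨hx, hxr⟩).2
        have h2 : T.Adj x (par x) := Or.inl ⟨hx, hxr, rfl⟩
        exact h2.reachable.trans (ih _ (hparX x hx hxr) (by omega))
  intro x hx y hy
  exact (reach _ x hx le_rfl).trans (reach _ y hy le_rfl).symm

/-- **Spanning subgraphs of maximum degree three.** -/
theorem main [Nonempty V] (Γ : SimpleGraph V) (d : ℕ) (hd : 1 ≤ d)
    (hdeg : ∀ x, (univ.filter (fun y => Γ.Adj y x)).card ≤ d)
    (hcut : ∀ U : Finset V, U.Nonempty → U ≠ univ →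
      d ≤ ((univ : Finset (V × V)).filter (fun p => p.1 ∈ U ∧ p.2 ∉ U ∧ Γ.Adj p.1 p.2)).card) :
    ∃ F : SimpleGraph V, F ≤ Γ ∧ F.Connected ∧ ∀ x, dg F x ≤ 3 := by
  obtain ⟨v₀⟩ := ‹Nonempty V›
  obtain ⟨X, hX, hmax⟩ := Finset.exists_max_image
    (univ.filter (fun X : Finset V => X.Nonempty ∧ ∃ F, Good Γ F X)) (fun X => X.card)
    ⟨{v₀}, by
      rw [Finset.mem_filter]
      refine ⟨Finset.mem_univ _, Finset.singleton_nonempty _, ⊥, ⟨bot_le, ?_, ?_, ?_⟩⟩
      · intro x y h; exact absurd h (by simp)
      · intro x hx y hy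
        rw [Finset.mem_singleton.mp hx, Finset.mem_singleton.mp hy]
      · intro x; simp [dg]⟩
  rw [Finset.mem_filter] at hX
  obtain ⟨-, ⟨r, hr⟩, F, hF⟩ := hX
  have hlow : ∀ F', Good Γ F' X → ∀ v ∈ X, ∀ w, w ∉ X → Γ.Adj v w → 3 ≤ dg F' v := by
    intro F' hF' v hv w hw hvw
    by_contra hc
    obtain ⟨F'', hF''⟩ := extend hF' hv hw hvw (by omega)
    have := hmax (insert w X) (Finset.mem_filter.mpr
      ⟨Finset.mem_univ _, Finset.insert_nonempty _ _, F'', hF''⟩)
    rw [Finset.card_insert_of_notMem hw] at this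
    omega
  by_cases hXu : X = univ
  · refine ⟨F, hF.le, ?_, hF.deg⟩
    have : Nonempty V := ⟨r⟩
    rw [SimpleGraph.connected_iff]
    exact ⟨fun x y => hF.conn x (by rw [hXu]; exact Finset.mem_univ _) y
      (by rw [hXu]; exact Finset.mem_univ _), inferInstance⟩
  · exfalso
    obtain ⟨T, par, rk, hT, hpar, hTadj⟩ := rooted hF hr
    obtain ⟨j, hj⟩ := sq_stable Γ T X
    set S := sq Γ T X j with hS
    have hSX : S ⊆ X := sq_sub Γ T X j
    have hfS : forced Γ T X ∅ ⊆ S := by
      have h1 : forced Γ T X ∅ ⊆ sq Γ T X 1 := Finset.subset_union_right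
      have h2 : sq Γ T X 1 ⊆ sq Γ T X (j + 1) := sq_mono Γ T X (by omega)
      rw [hj] at h2
      exact h1.trans h2
    have hbdS : ∀ v ∈ X, ∀ w, w ∉ X → Γ.Adj v w → v ∈ S := by
      intro v hv w hw hvw
      apply hfS
      rw [forced, Finset.mem_filter]
      exact ⟨hv, fun F' hF' => hlow F' (hF'.good hT) v hv w hw hvw⟩
    -- tops
    set tops := (X \ S).filter (fun x => x ≠ r ∧ par x ∈ S) with htops
    have htopcard : S.card ≤ tops.card := by
      have h1 : ∑ s ∈ S, 3 ≤ ∑ s ∈ S, dg T s := Finset.sum_le_sum (fun s hs => deg_sq hT j s hs)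
      have h2 : ∀ s ∈ S, dg T s ≤ 1 + (X.filter (fun x => x ≠ r ∧ par x = s)).card := by
        intro s hs
        have : (univ.filter (fun y => T.Adj s y)) ⊆
            {par s} ∪ X.filter (fun x => x ≠ r ∧ par x = s) := by
          intro y hy
          rw [Finset.mem_filter, hTadj] at hy
          rw [Finset.mem_union, Finset.mem_singleton, Finset.mem_filter]
          rcases hy.2 with ⟨-, -, h⟩ | ⟨h1, h2, h3⟩
          · exact Or.inl h.symm
          · exact Or.inr ⟨h1, h2, h3⟩
        have h3 := (Finset.card_le_card this).trans (Finset.card_union_le _ _)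
        rw [Finset.card_singleton] at h3
        exact h3
      have h3 : ∑ s ∈ S, dg T s ≤ ∑ s ∈ S, (1 + (X.filter (fun x => x ≠ r ∧ par x = s)).card) :=
        Finset.sum_le_sum h2
      simp only [Finset.sum_add_distrib, Finset.sum_const, smul_eq_mul] at h1 h3
      have h4 : ∑ s ∈ S, (X.filter (fun x => x ≠ r ∧ par x = s)).card =
          (X.filter (fun x => x ≠ r ∧ par x ∈ S)).card := by
        rw [Finset.card_eq_sum_card_fiberwise (f := par) (t := S)
          (s := X.filter (fun x => x ≠ r ∧ par x ∈ S))]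
        · apply Finset.sum_congr rfl
          intro s hs
          congr 1
          ext x
          simp only [Finset.mem_filter]
          constructor
          · rintro ⟨h1, h2, h3⟩; exact ⟨⟨h1, h2, by rw [h3]; exact hs⟩, h3⟩
          · rintro ⟨⟨h1, h2, -⟩, h3⟩; exact ⟨h1, h2, h3⟩
        · intro x hx
          have := (Finset.mem_filter.mp hx).2.2
          exact this
      have h5 : (X.filter (fun x => x ≠ r ∧ par x ∈ S)).card ≤ S.card + tops.card := by
        refine le_trans (Finset.card_le_card ?_) (Finset.card_union_le _ _)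
        intro x hx
        rw [Finset.mem_filter] at hx
        rw [Finset.mem_union, htops, Finset.mem_filter, Finset.mem_sdiff]
        by_cases hxS : x ∈ S
        · exact Or.inl hxS
        · exact Or.inr ⟨⟨hx.1, hxS⟩, hx.2⟩
      omega
    -- different tops lie in different components
    let f : V → V := fun x => if x ∈ X ∧ x ≠ r ∧ par x ∉ S then par x else x
    have hE : ∀ a b, R T S a b → ∃ m n, f^[m] a = f^[n] b := by
      have step : ∀ a b, (del T S).Adj a b → ∃ m n, f^[m] a = f^[n] b := by
        rintro a b ⟨hab, ha, hb⟩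
        rw [hTadj] at hab
        rcases hab with ⟨h1, h2, h3⟩ | ⟨h1, h2, h3⟩
        · refine ⟨1, 0, ?_⟩
          simp only [Function.iterate_one, Function.iterate_zero, id, f]
          rw [if_pos ⟨h1, h2, by rw [h3]; exact hb⟩, h3]
        · refine ⟨0, 1, ?_⟩
          simp only [Function.iterate_one, Function.iterate_zero, id, f]
          rw [if_pos ⟨h1, h2, by rw [h3]; exact ha⟩, h3]
      rintro a b ⟨p⟩
      induction p with
      | nil => exact ⟨0, 0, rfl⟩
      | @cons a c b h p' ih =>
        obtain ⟨m, n, h1⟩ := step a c h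
        obtain ⟨m', n', h2⟩ := ih
        refine ⟨m' + m, n + n', ?_⟩
        rw [Function.iterate_add_apply, h1, ← Function.iterate_add_apply, Nat.add_comm m' n,
          Function.iterate_add_apply, h2, ← Function.iterate_add_apply]
    have hftop : ∀ t ∈ tops, ∀ n, f^[n] t = t := by
      intro t ht n
      apply Function.iterate_fixed
      simp only [f]
      rw [if_neg]
      rintro ⟨-, -, h⟩
      exact h (Finset.mem_filter.mp ht).2.2
    have htt : ∀ t ∈ tops, ∀ t' ∈ tops, R T S t t' → t = t' := by
      intro t ht t' ht' h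
      obtain ⟨m, n, h1⟩ := hE t t' h
      rwa [hftop t ht, hftop t' ht'] at h1
    -- the classes
    have hRX : ∀ a b, a ∈ X → R T S a b → b ∈ X := by
      rintro a b ha ⟨p⟩
      induction p with
      | nil => exact ha
      | cons h _ ih => exact ih (hT.within _ _ h.1).2
    have hRS : ∀ a b, a ∉ S → R T S a b → b ∉ S := by
      intro a b ha h hb
      exact ha ((R_of_mem hb (show R T S b a from h.symm)) ▸ hb)
    let A : V → Finset (V × V) := fun t => (univ : Finset (V × V)).filter
      (fun p => R T S t p.1 ∧ ¬ R T S t p.2 ∧ Γ.Adj p.1 p.2)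
    let A0 : Finset (V × V) := (univ : Finset (V × V)).filter
      (fun p => p.1 ∉ X ∧ p.2 ∈ X ∧ Γ.Adj p.1 p.2)
    let P : Finset (V × V) := (univ : Finset (V × V)).filter (fun p => p.2 ∈ S ∧ Γ.Adj p.1 p.2)
    obtain ⟨w, hw⟩ : ∃ w, w ∉ X := by
      by_contra hc
      push Not at hc
      exact hXu (Finset.eq_univ_iff_forall.mpr hc)
    have hA : ∀ t ∈ tops, d ≤ (A t).card := by
      intro t ht
      have htX : t ∈ X := (Finset.mem_sdiff.mp (Finset.mem_filter.mp ht).1).1
      have := hcut (univ.filter (fun x => R T S t x))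
        ⟨t, by simp only [Finset.mem_filter, Finset.mem_univ, true_and]; exact SimpleGraph.Reachable.refl _⟩
        (by
          intro h
          have : w ∈ univ.filter (fun x => R T S t x) := by rw [h]; exact Finset.mem_univ _
          exact hw (hRX t w htX (Finset.mem_filter.mp this).2))
      simpa [A] using this
    have hA0 : d ≤ A0.card := by
      have := hcut (univ.filter (fun x => x ∉ X)) ⟨w, by simp [hw]⟩
        (by
          intro h
          have : r ∈ univ.filter (fun x => x ∉ X) := by rw [h]; exact Finset.mem_univ _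
          exact (Finset.mem_filter.mp this).2 hr)
      simpa [A0] using this
    have hAP : ∀ t ∈ tops, A t ⊆ P := by
      intro t ht p hp
      have htX : t ∈ X := (Finset.mem_sdiff.mp (Finset.mem_filter.mp ht).1).1
      have htS : t ∉ S := (Finset.mem_sdiff.mp (Finset.mem_filter.mp ht).1).2
      obtain ⟨-, h1, h2, h3⟩ := Finset.mem_filter.mp hp
      rw [Finset.mem_filter]
      refine ⟨Finset.mem_univ _, ?_, h3⟩
      by_contra hS2
      have hp1X := hRX t p.1 htX h1
      have hp1S := hRS t p.1 htS h1
      have hp2X : p.2 ∈ X := by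
        by_contra hn
        exact hp1S (hbdS p.1 hp1X p.2 hn h3)
      exact h2 (h1.trans (no_edge hT hj hp1X hp2X hp1S hS2 h3))
    have hA0P : A0 ⊆ P := by
      intro p hp
      obtain ⟨-, h1, h2, h3⟩ := Finset.mem_filter.mp hp
      rw [Finset.mem_filter]
      exact ⟨Finset.mem_univ _, hbdS p.2 h2 p.1 h1 h3.symm, h3⟩
    have hdisj : ∀ t ∈ tops, ∀ t' ∈ tops, t ≠ t' → Disjoint (A t) (A t') := by
      intro t ht t' ht' hne
      rw [Finset.disjoint_left]
      intro p hp hp'
      exact hne (htt t ht t' ht' ((Finset.mem_filter.mp hp).2.1.trans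
        (Finset.mem_filter.mp hp').2.1.symm))
    have hdisj0 : Disjoint (tops.biUnion A) A0 := by
      rw [Finset.disjoint_left]
      intro p hp hp'
      obtain ⟨t, ht, hpt⟩ := Finset.mem_biUnion.mp hp
      have htX : t ∈ X := (Finset.mem_sdiff.mp (Finset.mem_filter.mp ht).1).1
      exact (Finset.mem_filter.mp hp').2.1 (hRX t p.1 htX (Finset.mem_filter.mp hpt).2.1)
    have hbi : tops.card * d ≤ (tops.biUnion A).card := by
      rw [Finset.card_biUnion hdisj]
      have := Finset.card_nsmul_le_sum tops (fun t => (A t).card) d hA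
      simpa using this
    have htotal : tops.card * d + d ≤ P.card := by
      calc tops.card * d + d ≤ (tops.biUnion A).card + A0.card := by omega
        _ = ((tops.biUnion A) ∪ A0).card := (Finset.card_union_of_disjoint hdisj0).symm
        _ ≤ P.card := Finset.card_le_card (Finset.union_subset
            (Finset.biUnion_subset.mpr hAP) hA0P)
    have hPle : P.card ≤ d * S.card := by
      refine Finset.card_le_mul_card_image_of_maps_to (f := Prod.snd) (t := S)
        (fun p hp => (Finset.mem_filter.mp hp).2.1) d ?_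
      intro b hb
      refine le_trans ?_ (hdeg b)
      refine Finset.card_le_card_of_injOn Prod.fst ?_ ?_
      · intro p hp
        have hp' := Finset.mem_filter.mp hp
        have h1 := (Finset.mem_filter.mp hp'.1).2.2
        rw [hp'.2] at h1
        simpa using h1
      · intro p hp q hq hpq
        have hp' := (Finset.mem_filter.mp hp).2
        have hq' := (Finset.mem_filter.mp hq).2
        exact Prod.ext hpq (hp'.trans hq'.symm)
    nlinarith

end Pool.Agent.R987.Win
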