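import Mathlib
import Pool.Agent.R987.NormCay
import Pool.Agent.R987.Mader
import Pool.Agent.R987.Win2

/-! Cayley graphs whose connection set contains a conjugation-closed subset generating a subgroup
of order at least three. -/

namespace Pool.Agent.R987.ClassCay

open Equiv Equiv.Perm Finset
open Pool.Agent.R987.CycMerge Pool.Agent.R987.Glue Pool.Agent.R987.NormCay

/-- a rooted spanning tree with few children in the Cayley graph of a finite group -/
theorem rooted_tree {H : Type*} [Group H] [Fintype H] [DecidableEq H] (A : Set H)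
    (hinv : ∀ a ∈ A, a⁻¹ ∈ A) (hgen : Subgroup.closure A = ⊤) :
    ∃ (par : H → H) (rk : H → ℕ),
      (∀ w, w ≠ 1 → rk (par w) < rk w ∧ ∃ a ∈ A, w = par w * a) ∧
      ∀ w, (univ.filter (fun w' => w' ≠ 1 ∧ par w' = w)).card + (if w = 1 then 0 else 1) ≤ 3 := by
  classical
  by_cases htriv : Subsingleton H
  · refine ⟨id, fun _ => 0, fun w hw => absurd (Subsingleton.elim w 1) hw, fun w => ?_⟩
    have : (univ.filter (fun w' : H => w' ≠ 1 ∧ id w' = w)) = ∅ := by
      rw [Finset.filter_eq_empty_iff]
      rintro x - ⟨hx, -⟩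
      exact hx (Subsingleton.elim x 1)
    rw [this, if_pos (Subsingleton.elim w 1)]; simp
  · set D : Finset H := univ.filter (fun a => a ∈ A ∧ a ≠ 1) with hD
    have hDmem : ∀ a, a ∈ D ↔ a ∈ A ∧ a ≠ 1 := fun a => by simp [hD]
    have hDsym : ∀ a ∈ D, a⁻¹ ∈ D := by
      intro a ha
      rw [hDmem] at ha ⊢
      exact ⟨hinv a ha.1, by simpa using ha.2⟩
    have h1D : (1 : H) ∉ D := by rw [hDmem]; simp
    have hDgen : Subgroup.closure (D : Set H) = ⊤ := by
      rw [← top_le_iff, ← hgen, Subgroup.closure_le]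
      intro a ha
      by_cases h1 : a = 1
      · rw [h1]; exact one_mem _
      · exact Subgroup.subset_closure (by simpa [hDmem] using ⟨ha, h1⟩)
    have hDpos : 1 ≤ D.card := by
      by_contra hc
      have : D = ∅ := by rw [← Finset.card_eq_zero]; omega
      rw [this, Finset.coe_empty, Subgroup.closure_empty] at hDgen
      apply htriv
      refine ⟨fun a b => ?_⟩
      have h : ∀ x : H, x = 1 := fun x => by
        have : x ∈ (⊥ : Subgroup H) := by rw [hDgen]; trivial
        simpa using this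
      rw [h a, h b]
    let Γ : SimpleGraph H :=
      { Adj := fun x y => x⁻¹ * y ∈ D
        symm := ⟨fun x y h => by
          have := hDsym _ h
          simpa using this⟩
        loopless := ⟨fun x h => by
          have h' : x⁻¹ * x ∈ D := h
          rw [inv_mul_cancel] at h'; exact h1D h'⟩ }
    have hΓ : ∀ x y, Γ.Adj x y ↔ x⁻¹ * y ∈ D := fun _ _ => Iff.rfl
    obtain ⟨F, hFΓ, hFc, hFd⟩ := Win.main Γ D.card hDpos
      (by
        intro x
        refine Finset.card_le_card_of_injOn (fun y => y⁻¹ * x) ?_ ?_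
        · intro y hy
          simp only [Finset.coe_filter, Set.mem_setOf_eq] at hy
          exact hy.2
        · intro y _ z _ hyz
          simpa using hyz)
      (by
        intro U hU hU'
        refine (Mader.card_le_bd D hDsym h1D hDgen U hU hU').trans ?_
        unfold Mader.bd
        refine Finset.card_le_card_of_injOn (fun p => (p.1, p.1 * p.2)) ?_ ?_
        · rintro ⟨x, a⟩ hp
          obtain ⟨h1, h2, h3⟩ := Finset.mem_filter.mp hp
          have ha := (Finset.mem_product.mp h1).2
          simp only [Finset.coe_filter, Set.mem_setOf_eq]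
          refine ⟨Finset.mem_univ _, h2, h3, ?_⟩
          rw [hΓ]
          simpa using ha
        · rintro ⟨x, a⟩ _ ⟨y, b⟩ _ hab
          simp only [Prod.mk.injEq] at hab
          obtain ⟨rfl, h⟩ := hab
          rw [mul_left_cancel h])
    have hgood : Win.Good Γ F univ := ⟨hFΓ, fun _ _ _ => ⟨Finset.mem_univ _, Finset.mem_univ _⟩,
      fun x _ y _ => hFc.preconnected x y, hFd⟩
    obtain ⟨T, par, rk, hT, hpar, hadj⟩ := Win.rooted hgood (Finset.mem_univ (1 : H))
    have hrk : ∀ w, w ≠ 1 → rk (par w) < rk w := fun w hw => (hpar w (Finset.mem_univ _) hw).2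
    have hTpar : ∀ w, w ≠ 1 → T.Adj w (par w) := fun w hw =>
      (hadj w (par w)).2 (Or.inl ⟨Finset.mem_univ _, hw, rfl⟩)
    refine ⟨par, rk, fun w hw => ⟨hrk w hw, (par w)⁻¹ * w, ?_, by group⟩, ?_⟩
    · have := hT.le (hTpar w hw).symm
      rw [hΓ, hDmem] at this
      exact this.1
    · intro w
      refine le_trans ?_ (hT.deg w)
      by_cases hw : w = 1
      · rw [if_pos hw, add_zero]
        apply Finset.card_le_card
        intro y hy
        rw [Finset.mem_filter] at hy ⊢
        exact ⟨Finset.mem_univ _, (hadj w y).2 (Or.inr ⟨Finset.mem_univ _, hy.2.1, hy.2.2⟩)⟩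
      · rw [if_neg hw]
        have hnot : par w ∉ univ.filter (fun w' => w' ≠ 1 ∧ par w' = w) := by
          intro h
          obtain ⟨-, h1, h2⟩ := Finset.mem_filter.mp h
          have h3 := hrk _ h1
          have h4 := hrk w hw
          rw [h2] at h3
          omega
        rw [← Finset.card_insert_of_notMem hnot]
        apply Finset.card_le_card
        intro y hy
        rw [Finset.mem_filter]
        rcases Finset.mem_insert.mp hy with rfl | h
        · exact ⟨Finset.mem_univ _, hTpar w hw⟩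
        · obtain ⟨-, h1, h2⟩ := Finset.mem_filter.mp h
          exact ⟨Finset.mem_univ _, (hadj w y).2 (Or.inr ⟨Finset.mem_univ _, h1, h2⟩)⟩

/-- **Main theorem.** -/
theorem ham_main {G : Type*} [Group G] [Finite G] (A B : Set G) (hinv : ∀ a ∈ A, a⁻¹ ∈ A)
    (hgen : Subgroup.closure A = ⊤) (hBA : B ⊆ A) (hconj : ∀ b ∈ B, ∀ g : G, g * b * g⁻¹ ∈ B)
    (hcard : 3 ≤ Nat.card (Subgroup.closure B)) : Ham G A := by
  classical
  have := Fintype.ofFinite G
  set N : Subgroup G := Subgroup.closure B with hN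
  have hNn : N.Normal := by
    refine ⟨fun n hn g => ?_⟩
    have hle : N ≤ N.comap (MulAut.conj g).toMonoidHom := by
      rw [hN, Subgroup.closure_le]
      intro b hb
      change g * b * g⁻¹ ∈ Subgroup.closure B
      exact Subgroup.subset_closure (hconj b hb g)
    exact hle hn
  -- the symmetric version of B
  set B' : Set G := {b | b ∈ B ∨ b⁻¹ ∈ B} with hB'
  have hB'inv : ∀ b ∈ B', b⁻¹ ∈ B' := by
    rintro b (h | h)
    · exact Or.inr (by simpa using h)
    · exact Or.inl h
  have hB'conj : ∀ b ∈ B', ∀ g : G, g⁻¹ * b * g ∈ B' := by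
    rintro b (h | h) g
    · left; simpa using hconj b h g⁻¹
    · right
      have := hconj _ h g⁻¹
      have e : (g⁻¹ * b * g)⁻¹ = g⁻¹ * b⁻¹ * g⁻¹⁻¹ := by group
      rw [e]; exact this
  have hB'A : B' ⊆ A := by
    rintro b (h | h)
    · exact hBA h
    · have := hinv _ (hBA h); simpa using this
  have hNmem : ∀ b ∈ B', b ∈ N := by
    rintro b (h | h)
    · exact Subgroup.subset_closure h
    · have : b⁻¹ ∈ N := Subgroup.subset_closure h
      simpa using N.inv_mem this
  have hamN : Ham N (Subtype.val ⁻¹' B') := by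
    refine ham_of_conj (G := N) (Subtype.val ⁻¹' B') (fun a ha => hB'inv _ ha)
      (fun a ha g => hB'conj _ ha g) ?_ ?_
    · rw [← top_le_iff]
      have h1 : Subgroup.closure (((↑) : N → G) ⁻¹' B) = ⊤ := by
        rw [hN]; exact Subgroup.closure_closure_coe_preimage
      rw [← h1]
      apply Subgroup.closure_mono
      intro x hx
      exact Or.inl hx
    · rw [← Finite.one_lt_card_iff_nontrivial]; omega
  obtain ⟨τ, hτ, hl⟩ := hamN
  -- the quotient
  have : Fintype (G ⧸ N) := Fintype.ofFinite _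
  obtain ⟨par, rk, hpar, hdeg⟩ := rooted_tree (H := G ⧸ N)
    ((fun g : G => (g : G ⧸ N)) '' A)
    (by
      rintro _ ⟨a, ha, rfl⟩
      exact ⟨a⁻¹, hinv a ha, rfl⟩)
    (by
      have h1 := congrArg (Subgroup.map (QuotientGroup.mk' N)) hgen
      rw [MonoidHom.map_closure, Subgroup.map_top_of_surjective _
        (QuotientGroup.mk'_surjective N)] at h1
      exact h1)
  have : Fintype N := Fintype.ofFinite _
  have hlab : ∀ k : N, (k : G)⁻¹ * (τ k : G) ∈ B' := fun k => hl k
  refine glue (V := G) (K := N) (Ω := G ⧸ N) (fun x y => x⁻¹ * y ∈ A) ?_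
    (fun x => (x : G ⧸ N)) τ hτ
    (fun w f => ∃ g : G, (∀ k, f k = k * g) ∧ (g : G ⧸ N) = w) ?_ ?_ 1 par rk
    (fun w hw => (hpar w hw).1) ?_ ?_ ?_
  · intro x y h
    have := hinv _ h
    simpa using this
  · rintro w f ⟨g, hf, rfl⟩ x
    constructor
    · intro h
      have h' : (x : G ⧸ N) = (g : G ⧸ N) := h
      rw [QuotientGroup.eq] at h'
      have h2 : x * g⁻¹ ∈ N := by
        have h3 := hNn.conj_mem _ (N.inv_mem h') x
        have e : x * (x⁻¹ * g)⁻¹ * x⁻¹ = x * g⁻¹ := by group
        rwa [e] at h3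
      exact ⟨⟨x * g⁻¹, h2⟩, by rw [hf]; simp⟩
    · rintro ⟨k, rfl⟩
      rw [hf]
      rw [QuotientGroup.mk_mul, (QuotientGroup.eq_one_iff (k : G)).mpr k.2, one_mul]
  · rintro w f ⟨g, hf, -⟩ k
    rw [hf, hf]
    have := hB'A (hB'conj _ (hlab k) g)
    convert this using 1
    group
  · exact ⟨⟨fun k => (k : G), Subtype.val_injective⟩, 1, by simp, rfl⟩
  · rintro w hw f ⟨g, hf, hg⟩
    obtain ⟨-, -, ⟨a, ha, rfl⟩, hwa⟩ := hpar w hw
    refine ⟨⟨fun k => k * (g * a), fun x y h => ?_⟩, ⟨g * a, fun k => rfl, ?_⟩, ?_⟩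
    · have : (x : G) * (g * a) = y * (g * a) := h
      exact Subtype.ext (mul_right_cancel this)
    · rw [hwa, ← hg]; rfl
    · intro k
      change (f k)⁻¹ * (k * (g * a)) ∈ A
      rw [hf]
      convert ha using 1
      group
  · intro w
    rw [← Nat.card_eq_fintype_card]
    exact (hdeg w).trans hcard

end Pool.Agent.R987.ClassCay
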