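import Mathlib
import Pool.Agent.R987.Bern

/-!
# A two-state Markov chain as a factor of a Bernoulli shift
-/

set_option autoImplicit false

namespace Pool.Agent.R987.Gold

open MeasureTheory ProbabilityTheory Set Filter Topology Pool.Agent.R987.Bern
open scoped ENNReal

/-- The law of a coin. -/
noncomputable def coin (p : ℝ) : Measure Bool :=
  ENNReal.ofReal p • Measure.dirac true + ENNReal.ofReal (1 - p) • Measure.dirac false

theorem coin_prob {p : ℝ} (h0 : 0 ≤ p) (h1 : p ≤ 1) : IsProbabilityMeasure (coin p) := by
  constructor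
  simp only [coin, Measure.coe_add, Measure.coe_smul, Pi.add_apply, Pi.smul_apply, measure_univ,
    smul_eq_mul, mul_one]
  rw [← ENNReal.ofReal_add h0 (by linarith)]
  simp

theorem coin_true (p : ℝ) : coin p {true} = ENNReal.ofReal p := by
  simp [coin]

theorem coin_false (p : ℝ) : coin p {false} = ENNReal.ofReal (1 - p) := by
  simp [coin]

open Classical in
/-- The parity of the run of `true`s which ends at `n`. -/
noncomputable def par (b : ℤ → Bool) (n : ℤ) : Bool :=
  decide (∃ j : ℕ, (∀ i : ℕ, i < 2 * j + 1 → b (n - i) = true) ∧ b (n - (2 * j + 1 : ℕ)) = false)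

theorem par_iff (b : ℤ → Bool) (n : ℤ) : par b n = true ↔
    ∃ j : ℕ, (∀ i : ℕ, i < 2 * j + 1 → b (n - i) = true) ∧ b (n - (2 * j + 1 : ℕ)) = false := by
  simp [par]

theorem par_run {b : ℤ → Bool} {n : ℤ} {k : ℕ} (h1 : ∀ i : ℕ, i < k → b (n - i) = true)
    (h2 : b (n - k) = false) : par b n = true ↔ Odd k := by
  rw [par_iff]
  constructor
  · rintro ⟨j, h3, h4⟩
    have : k = 2 * j + 1 := by
      rcases lt_trichotomy k (2 * j + 1) with h | h | h
      · rw [h3 k h] at h2; exact absurd h2 (by simp)
      · exact h
      · rw [h1 _ h] at h4; exact absurd h4 (by simp)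
    exact ⟨j, this⟩
  · rintro ⟨j, rfl⟩
    exact ⟨j, h1, h2⟩

theorem exists_run {b : ℤ → Bool} {n : ℤ} (h : ∃ k : ℕ, b (n - k) = false) :
    ∃ k : ℕ, (∀ i : ℕ, i < k → b (n - i) = true) ∧ b (n - k) = false := by
  classical
  refine ⟨Nat.find h, fun i hi => ?_, Nat.find_spec h⟩
  have := Nat.find_min h hi
  simpa using this

theorem par_succ {b : ℤ → Bool} {n : ℤ} (h : ∃ k : ℕ, b (n - k) = false) :
    par b (n + 1) = (b (n + 1) && !(par b n)) := by
  obtain ⟨k, h1, h2⟩ := exists_run h
  have e1 := par_run h1 h2
  by_cases hb : b (n + 1) = true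
  · have h3 : ∀ i : ℕ, i < k + 1 → b (n + 1 - i) = true := by
      intro i hi
      rcases i with _ | i
      · simpa using hb
      · have := h1 i (by omega)
        rw [← this]
        congr 1
        push_cast
        ring
    have h4 : b (n + 1 - (k + 1 : ℕ)) = false := by
      rw [← h2]
      congr 1
      push_cast
      ring
    have e2 := par_run h3 h4
    rw [hb, Bool.true_and]
    by_cases hk : Odd k
    · rw [e1.2 hk]
      have : ¬ Odd (k + 1) := by
        rw [Nat.not_odd_iff_even]
        exact hk.add_one
      have := mt e2.1 this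
      simpa using this
    · have h5 := mt e1.1 hk
      have h6 : par b n = false := by simpa using h5
      rw [h6]
      have : Odd (k + 1) := by
        rw [Nat.not_odd_iff_even] at hk
        exact hk.add_one
      simpa using e2.2 this
  · have hb' : b (n + 1) = false := by simpa using hb
    have e2 := par_run (b := b) (n := n + 1) (k := 0) (by simp) (by simpa using hb')
    have : ¬ Odd 0 := by simp
    have := mt e2.1 this
    rw [hb', Bool.false_and]
    simpa using this

theorem par_shift (b : ℤ → Bool) (n m : ℤ) : par (fun i => b (i + m)) n = par b (n + m) := by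
  rw [Bool.eq_iff_iff, par_iff, par_iff]
  have e : ∀ i : ℤ, n - i + m = n + m - i := fun i => by ring
  simp only [e]

/-- The information about the coordinates up to `m`. -/
@[instance_reducible]
def past (m : ℤ) : MeasurableSpace (ℤ → Bool) :=
  ⨆ i ∈ {i : ℤ | i ≤ m}, MeasurableSpace.comap (fun b : ℤ → Bool => b i) inferInstance

theorem meas_past {m i : ℤ} (h : i ≤ m) (c : Bool) :
    MeasurableSet[past m] {b : ℤ → Bool | b i = c} := by
  have h1 : MeasurableSpace.comap (fun b : ℤ → Bool => b i) inferInstance ≤ past m :=
    le_biSup (fun i : ℤ => MeasurableSpace.comap (fun b : ℤ → Bool => b i) inferInstance) h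
  exact h1 _ ⟨{c}, trivial, rfl⟩

theorem meas_par_true {m n : ℤ} (h : n ≤ m) : MeasurableSet[past m] {b | par b n = true} := by
  have e : {b | par b n = true} = ⋃ j : ℕ, ((⋂ i ∈ Finset.range (2 * j + 1),
      {b : ℤ → Bool | b (n - (i : ℕ)) = true}) ∩ {b | b (n - (2 * j + 1 : ℕ)) = false}) := by
    ext b
    simp only [Set.mem_ofPred_eq, par_iff, Set.mem_iUnion, Set.mem_inter_iff, Set.mem_iInter,
      Finset.mem_range]
  rw [e]
  refine MeasurableSet.iUnion fun j => MeasurableSet.inter ?_ (meas_past (by omega) _)
  exact Finset.measurableSet_biInter _ fun i _ => meas_past (by omega) _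

theorem meas_par {m n : ℤ} (h : n ≤ m) (c : Bool) : MeasurableSet[past m] {b | par b n = c} := by
  cases c with
  | true => exact meas_par_true h
  | false =>
    have : {b | par b n = false} = {b | par b n = true}ᶜ := by
      ext b
      simp
    rw [this]
    exact (meas_par_true h).compl

theorem past_le (m : ℤ) : past m ≤ MeasurableSpace.pi :=
  iSup₂_le fun i _ => (measurable_pi_apply i).comap_le

theorem measurable_par : Measurable par := by
  refine measurable_pi_lambda _ fun n => ?_
  refine measurable_to_countable' fun c => ?_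
  exact past_le n _ (meas_par le_rfl c)

/-- The event that the chain follows the word `w` from time `k` to time `k + n`. -/
def E (k : ℤ) (n : ℕ) (w : ℕ → Bool) : Set (ℤ → Bool) := {b | ∀ i : ℕ, i ≤ n → par b (k + i) = w i}

theorem meas_E (k : ℤ) (n : ℕ) (w : ℕ → Bool) : MeasurableSet[past (k + n)] (E k n w) := by
  have e : E k n w = ⋂ i ∈ Finset.range (n + 1), {b | par b (k + (i : ℕ)) = w i} := by
    ext b
    simp only [E, Set.mem_ofPred_eq, Set.mem_iInter, Finset.mem_range, Nat.lt_succ_iff]
  rw [e]
  refine Finset.measurableSet_biInter _ fun i hi => meas_par ?_ _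
  rw [Finset.mem_range] at hi
  omega

section

variable {p : ℝ} (h0 : 0 < p) (h1 : p < 1)

include h0 h1

theorem coord (m : ℤ) (c : Bool) : (iid ℤ (coin p)) {b | b m = c} = coin p {c} := by
  have := coin_prob h0.le h1.le
  have e : {b : ℤ → Bool | b m = c} = (({m} : Finset ℤ) : Set ℤ).pi fun _ => {c} := by
    ext b
    simp
  rw [e, iid, Measure.infinitePi_pi _ (fun _ _ => measurableSet_singleton c)]
  simp

theorem indep_next (m : ℤ) {A : Set (ℤ → Bool)} (hA : MeasurableSet[past m] A) (c : Bool) :
    (iid ℤ (coin p)) (A ∩ {b | b (m + 1) = c}) = iid ℤ (coin p) A * coin p {c} := by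
  have := coin_prob h0.le h1.le
  have hind : iIndepFun (fun (i : ℤ) (x : ℤ → Bool) => x i) (iid ℤ (coin p)) :=
    iIndepFun_infinitePi (P := fun _ : ℤ => coin p) (X := fun _ : ℤ => (id : Bool → Bool))
      (fun _ => measurable_id)
  have h2 := indep_iSup_of_disjoint (S := {i : ℤ | i ≤ m}) (T := {m + 1})
    (fun i : ℤ => (measurable_pi_apply (X := fun _ : ℤ => Bool) i).comap_le) hind (by simp)
  have h3 : MeasurableSet[⨆ i ∈ ({m + 1} : Set ℤ),
      MeasurableSpace.comap (fun b : ℤ → Bool => b i) inferInstance] {b | b (m + 1) = c} := by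
    rw [iSup_singleton]
    exact ⟨{c}, trivial, rfl⟩
  have h4 := (Indep_iff _ _ _).1 h2 A _ hA h3
  rw [h4, coord h0 h1]

theorem ae_run : ∀ᵐ b ∂(iid ℤ (coin p)), ∀ n : ℤ, ∃ k : ℕ, b (n - k) = false := by
  have := coin_prob h0.le h1.le
  rw [ae_all_iff]
  intro n
  have hle : ∀ K : ℕ, iid ℤ (coin p) {b | ¬ ∃ k : ℕ, b (n - k) = false} ≤ ENNReal.ofReal p ^ K := by
    intro K
    have hinj : Function.Injective (fun k : ℕ => n - (k : ℤ)) := by
      intro a b h
      simpa using h
    have hsub : {b : ℤ → Bool | ¬ ∃ k : ℕ, b (n - k) = false} ⊆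
        ((((Finset.range K).map ⟨fun k : ℕ => n - (k : ℤ), hinj⟩ : Finset ℤ) : Set ℤ).pi
          fun _ => {true}) := by
      intro b hb
      simp only [Set.mem_ofPred_eq, not_exists, Bool.not_eq_false] at hb
      rintro i hi
      rw [Finset.mem_coe, Finset.mem_map] at hi
      obtain ⟨k, _, rfl⟩ := hi
      exact hb k
    refine (measure_mono hsub).trans ?_
    rw [iid, Measure.infinitePi_pi _ (fun _ _ => measurableSet_singleton true), coin_true]
    simp
  have hlim : Tendsto (fun K : ℕ => ENNReal.ofReal p ^ K) atTop (𝓝 0) :=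
    ENNReal.tendsto_pow_atTop_nhds_zero_of_lt_one (by
      rw [← ENNReal.ofReal_one]
      exact (ENNReal.ofReal_lt_ofReal_iff one_pos).2 h1)
  exact le_antisymm (ge_of_tendsto' hlim hle) bot_le

/-- The stationary law. -/
theorem par_one (k : ℤ) : (iid ℤ (coin p)) {b | par b k = true} = ENNReal.ofReal (p / (1 + p)) := by
  have := coin_prob h0.le h1.le
  set Q := iid ℤ (coin p) with hQ
  have hm : ∀ (m : ℤ) (c : Bool), MeasurableSet {b | par b m = c} := fun m c =>
    past_le m _ (meas_par le_rfl c)
  have hshift : Q {b | par b (k + 1) = true} = Q {b | par b k = true} := by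
    have hinj : Function.Injective (fun i : ℤ => i + 1) := add_left_injective 1
    have h2 := map_comp (coin p) (fun i : ℤ => i + 1) hinj
    have h3 : Q {b | par b k = true} =
        (Q.map fun b : ℤ → Bool => fun i => b (i + 1)) {b | par b k = true} := by
      rw [hQ, h2]
    rw [h3, Measure.map_apply (measurable_comp _) (hm k true)]
    congr 1
    ext b
    simp only [Set.mem_ofPred_eq, Set.mem_preimage, par_shift]
  have hrec : Q {b | par b (k + 1) = true} = Q {b | par b k = false} * ENNReal.ofReal p := by
    rw [← coin_true, ← indep_next h0 h1 k (meas_par le_rfl false) true]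
    apply measure_congr
    filter_upwards [ae_run h0 h1] with b hb
    apply propext
    change par b (k + 1) = true ↔ (par b k = false ∧ b (k + 1) = true)
    rw [par_succ (hb k)]
    simp [and_comm]
  have hcompl : Q {b | par b k = false} = 1 - Q {b | par b k = true} := by
    have : {b | par b k = false} = {b | par b k = true}ᶜ := by
      ext b
      simp
    rw [this, prob_compl_eq_one_sub (hm k true)]
  rw [hshift, hcompl] at hrec
  have hx : Q {b | par b k = true} ≤ 1 := prob_le_one
  have hxt : Q {b | par b k = true} ≠ ⊤ := measure_ne_top _ _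
  rw [← ENNReal.ofReal_toReal hxt]
  congr 1
  have h5 : (Q {b | par b k = true}).toReal = (1 - (Q {b | par b k = true}).toReal) * p := by
    conv_lhs => rw [hrec]
    rw [ENNReal.toReal_mul, ENNReal.toReal_sub_of_le hx ENNReal.one_ne_top,
      ENNReal.toReal_ofReal h0.le]
    simp
  rw [eq_div_iff (by linarith)]
  linarith

end

/-- The transition probabilities. -/
noncomputable def tr (p : ℝ) : Bool → Bool → ℝ
  | true, true => 0
  | true, false => 1
  | false, true => p
  | false, false => 1 - p

/-- The stationary law. -/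
noncomputable def stat (p : ℝ) : Bool → ℝ
  | true => p / (1 + p)
  | false => 1 / (1 + p)

section

variable {p : ℝ} (h0 : 0 < p) (h1 : p < 1)

include h0 h1

theorem tr_nonneg (s t : Bool) : 0 ≤ tr p s t := by
  cases s <;> cases t <;> simp [tr] <;> linarith

theorem stat_pos (s : Bool) : 0 < stat p s := by
  cases s <;> simp only [stat] <;> positivity

theorem par_stat (k : ℤ) (c : Bool) :
    (iid ℤ (coin p)) {b | par b k = c} = ENNReal.ofReal (stat p c) := by
  have := coin_prob h0.le h1.le
  cases c with
  | true => exact par_one h0 h1 k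
  | false =>
    have : {b | par b k = false} = {b | par b k = true}ᶜ := by
      ext b
      simp
    rw [this, prob_compl_eq_one_sub (past_le k _ (meas_par le_rfl true)), par_one h0 h1,
      ← ENNReal.ofReal_one, ← ENNReal.ofReal_sub _ (by positivity)]
    congr 1
    simp only [stat]
    field_simp
    ring

theorem prob_E (k : ℤ) (w : ℕ → Bool) : ∀ n : ℕ, (iid ℤ (coin p)) (E k n w) =
    ENNReal.ofReal (stat p (w 0) * ∏ i ∈ Finset.range n, tr p (w i) (w (i + 1))) := by
  have := coin_prob h0.le h1.le
  intro n
  induction n with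
  | zero =>
    have e : E k 0 w = {b | par b k = w 0} := by
      ext b
      simp [E]
    rw [e, par_stat h0 h1]
    simp
  | succ n ih =>
    have hn : 0 ≤ stat p (w 0) * ∏ i ∈ Finset.range n, tr p (w i) (w (i + 1)) :=
      mul_nonneg (stat_pos h0 h1 _).le (Finset.prod_nonneg fun i _ => tr_nonneg h0 h1 _ _)
    rw [Finset.prod_range_succ, ← mul_assoc, ENNReal.ofReal_mul hn, ← ih]
    have e1 : E k (n + 1) w = E k n w ∩ {b | par b (k + n + 1) = w (n + 1)} := by
      ext b
      simp only [E, Set.mem_ofPred_eq, Set.mem_inter_iff]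
      constructor
      · intro h
        refine ⟨fun i hi => h i (by omega), ?_⟩
        have := h (n + 1) le_rfl
        rw [← this]
        congr 1
        push_cast
        ring
      · rintro ⟨h, h'⟩ i hi
        rcases Nat.lt_or_ge i (n + 1) with hi' | hi'
        · exact h i (by omega)
        · obtain rfl : i = n + 1 := le_antisymm hi hi'
          rw [← h']
          congr 1
          push_cast
          ring
    cases hwn : w n with
    | true =>
      have e2 : (E k (n + 1) w : Set (ℤ → Bool)) =ᵐ[iid ℤ (coin p)]
          (if w (n + 1) = true then (∅ : Set (ℤ → Bool)) else E k n w) := by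
        filter_upwards [ae_run h0 h1] with b hb
        apply propext
        rw [e1]
        change (b ∈ E k n w ∧ par b (k + n + 1) = w (n + 1)) ↔
          b ∈ (if w (n + 1) = true then (∅ : Set (ℤ → Bool)) else E k n w)
        rw [par_succ (hb _)]
        by_cases hE : b ∈ E k n w
        · have h3 : par b (k + n) = true := (hE n le_rfl).trans hwn
          rw [h3]
          cases hw2 : w (n + 1) <;> simp [hE]
        · cases hw2 : w (n + 1) <;> simp [hE]
      rw [measure_congr e2]
      cases hw2 : w (n + 1) <;> simp [tr]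
    | false =>
      have e2 : (E k (n + 1) w : Set (ℤ → Bool)) =ᵐ[iid ℤ (coin p)]
          (E k n w ∩ {b | b (k + n + 1) = w (n + 1)} : Set (ℤ → Bool)) := by
        filter_upwards [ae_run h0 h1] with b hb
        apply propext
        rw [e1]
        change (b ∈ E k n w ∧ par b (k + n + 1) = w (n + 1)) ↔
          (b ∈ E k n w ∧ b (k + n + 1) = w (n + 1))
        rw [par_succ (hb _)]
        refine and_congr_right fun hE => ?_
        have h3 : par b (k + n) = false := (hE n le_rfl).trans hwn
        rw [h3]
        simp
      rw [measure_congr e2, indep_next h0 h1 _ (meas_E k n w)]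
      congr 1
      cases hw2 : w (n + 1)
      · rw [coin_false]; rfl
      · rw [coin_true]; rfl

end

end Pool.Agent.R987.Gold
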