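import Mathlib

/-!
# Centered iid sums which are bounded in `L¹` vanish
-/

set_option autoImplicit false

namespace Pool.Agent.R987.Mart

open MeasureTheory ProbabilityTheory Filter Topology
open scoped ENNReal NNReal

variable {Ω : Type*} [MeasurableSpace Ω] {P : Measure Ω} [IsProbabilityMeasure P]

theorem ae_zero_of_bdd {X : ℕ → Ω → ℝ} (hm : ∀ i, StronglyMeasurable (X i))
    (hi : iIndepFun X P) (hint : ∀ i, Integrable (X i) P) (h0 : ∀ i, ∫ ω, X i ω ∂P = 0)
    (hid : ∀ i, IdentDistrib (X i) (X 0) P P) {C : ℝ≥0}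
    (hb : ∀ n, eLpNorm (fun ω => ∑ i ∈ Finset.range (n + 1), X i ω) 1 P ≤ C) :
    ∀ᵐ ω ∂P, X 0 ω = 0 := by
  set F := Filtration.natural X hm with hF
  set S : ℕ → Ω → ℝ := fun n ω => ∑ i ∈ Finset.range (n + 1), X i ω with hS
  have hXad : ∀ i j, i ≤ j → StronglyMeasurable[F j] (X i) := by
    intro i j hij
    have h1 : StronglyMeasurable[F i] (X i) := (Filtration.stronglyAdapted_natural hm) i
    exact h1.mono (F.mono hij)
  have hSad : ∀ n, StronglyMeasurable[F n] (S n) := by
    intro n
    have : S n = ∑ i ∈ Finset.range (n + 1), X i := by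
      funext ω
      simp [hS]
    rw [this]
    exact Finset.stronglyMeasurable_sum _ fun i hi' =>
      hXad i n (by rw [Finset.mem_range] at hi'; omega)
  have hSint : ∀ n, Integrable (S n) P := fun n => integrable_finsetSum _ fun i _ => hint i
  have hmart : Martingale S F P := by
    refine martingale_nat hSad hSint fun n => ?_
    have e : S (n + 1) = S n + X (n + 1) := by
      funext ω
      simp [hS, Finset.sum_range_succ]
    rw [e]
    have h1 : P[S n + X (n + 1) | F n] =ᵐ[P] P[S n | F n] + P[X (n + 1) | F n] :=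
      condExp_add (hSint n) (hint (n + 1)) (F n)
    have h2 : P[S n | F n] = S n := condExp_of_stronglyMeasurable (F.le n) (hSad n) (hSint n)
    have h3 : P[X (n + 1) | F n] =ᵐ[P] fun _ => P[X (n + 1)] :=
      condExp_indep_eq ((hm (n + 1)).measurable.comap_le) (F.le n)
        (comap_measurable (X (n + 1))).stronglyMeasurable
        (hi.indep_comap_natural_of_lt hm (Nat.lt_succ_self n))
    filter_upwards [h1, h3] with ω h4 h5
    rw [h4, Pi.add_apply, h2, h5, h0, add_zero]
  have hconv := hmart.submartingale.exists_ae_tendsto_of_bdd (R := C) hb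
  have hX0 : ∀ᵐ ω ∂P, Tendsto (fun n => X (n + 1) ω) atTop (𝓝 0) := by
    filter_upwards [hconv] with ω ⟨c, hc⟩
    have h1 : Tendsto (fun n => S (n + 1) ω) atTop (𝓝 c) := hc.comp (tendsto_add_atTop_nat 1)
    have h2 := h1.sub hc
    rw [sub_self] at h2
    refine h2.congr fun n => ?_
    simp [hS, Finset.sum_range_succ]
  have hmeas : TendstoInMeasure P (fun n => X (n + 1)) atTop (fun _ => (0 : ℝ)) :=
    tendstoInMeasure_of_tendsto_ae (fun n => (hm (n + 1)).aestronglyMeasurable) hX0
  have hz : ∀ ε : ℝ≥0∞, 0 < ε → P {ω | ε ≤ edist (X 0 ω) 0} = 0 := by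
    intro ε hε
    have h1 := hmeas ε hε
    have h2 : ∀ n, P {ω | ε ≤ edist (X (n + 1) ω) 0} = P {ω | ε ≤ edist (X 0 ω) 0} := by
      intro n
      have hset : MeasurableSet {x : ℝ | ε ≤ edist x 0} :=
        measurableSet_le measurable_const (measurable_id.edist measurable_const)
      exact (hid (n + 1)).measure_mem_eq hset
    simp_rw [h2] at h1
    exact tendsto_nhds_unique tendsto_const_nhds h1
  have hz2 : ∀ n : ℕ, ∀ᵐ ω ∂P, ¬ ((n : ℝ≥0∞)⁻¹ ≤ edist (X 0 ω) 0) := by
    intro n
    exact measure_eq_zero_iff_ae_notMem.1 (hz _ (by simp))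
  filter_upwards [ae_all_iff.2 hz2] with ω hω
  by_contra hne
  have hpos : edist (X 0 ω) 0 ≠ 0 := by
    rw [Ne, edist_eq_zero]
    exact hne
  obtain ⟨n, hn⟩ := ENNReal.exists_inv_nat_lt hpos
  exact hω n hn.le

end Pool.Agent.R987.Mart
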