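import Mathlib
import Pool.Agent.R987.Bern

/-!
# Factor maps from iid processes, coding windows, entropy: definitions
-/

set_option autoImplicit false

namespace Pool.Agent.R987.Window

open MeasureTheory Filter Topology Pool.Agent.R987.Bern
open scoped ENNReal

/-- `φ` is a factor map from the iid process with one-site law `ν` to the process with law `μ`: it
is measurable, it commutes almost surely with all shifts, and it maps the law of the iid process to
`μ`. -/
structure IsFactorMap {T S : Type} [MeasurableSpace T] [MeasurableSpace S] (ν : Measure T)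
    (μ : Measure (ℤ → S)) (φ : (ℤ → T) → ℤ → S) : Prop where
  measurable : Measurable φ
  equivariant : ∀ k : ℤ, ∀ᵐ y ∂(iid ℤ ν), φ (fun i => y (i + k)) = fun i => φ y (i + k)
  map_eq : (iid ℤ ν).map φ = μ

/-- The points `y` of `G` for which the coding window of `φ` (restricted to the set `G`) is larger
than `r`: some point `z` of `G` agrees with `y` on `[-r, r]`, but `φ z` and `φ y` have different
zeroth coordinates. -/
def Bad {T S : Type} (G : Set (ℤ → T)) (φ : (ℤ → T) → ℤ → S) (r : ℕ) : Set (ℤ → T) :=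
  {y | y ∈ G ∧ ∃ z ∈ G, (∀ i : ℤ, |i| ≤ r → z i = y i) ∧ φ z 0 ≠ φ y 0}

/-- `φ` is finitary, and its coding window has exponential tails: this holds after removing a set of
probability `0` from the domain of `φ`. -/
def ExpCodingWindow {T S : Type} [MeasurableSpace T] (ν : Measure T) (φ : (ℤ → T) → ℤ → S) :
    Prop :=
  ∃ G : Set (ℤ → T), iid ℤ ν Gᶜ = 0 ∧ ∃ C : ℝ, ∃ c : ℝ, 0 < c ∧
    ∀ r : ℕ, iid ℤ ν (Bad G φ r) ≤ ENNReal.ofReal (C * Real.exp (-c * r))

open Classical in
/-- The Shannon entropy of a law: `-∑ ν {x} log ν {x}` if the law is discrete (i.e. the masses of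
its atoms add up to `1`), and `⊤` otherwise. -/
noncomputable def shannon {T : Type} [MeasurableSpace T] (ν : Measure T) : ℝ≥0∞ :=
  if ∑' x, ν {x} = 1 then ∑' x, ENNReal.ofReal (Real.negMulLog (ν {x}).toReal) else ⊤

/-- The entropy rate of the finite-valued stationary process with law `μ` is `h`: the entropy of
`(M_0, …, M_{n-1})`, divided by `n`, converges to `h`. -/
def HasEntropyRate {S : Type} [Fintype S] [MeasurableSpace S] (μ : Measure (ℤ → S)) (h : ℝ) :
    Prop :=
  Tendsto (fun n : ℕ => (∑ v : Fin n → S,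
    Real.negMulLog (μ {x | ∀ i : Fin n, x (i : ℕ) = v i}).toReal) / n) atTop (𝓝 h)

/-- `μ` is the law of the stationary Markov chain on the finite set `S` with transition matrix `P`
and stationary law `π`. -/
structure IsStationaryChain {S : Type} [Fintype S] [MeasurableSpace S] (P : Matrix S S ℝ)
    (π : S → ℝ) (μ : Measure (ℤ → S)) : Prop where
  prob : IsProbabilityMeasure μ
  nonneg : ∀ a b, 0 ≤ P a b
  row_sum : ∀ a, ∑ b, P a b = 1
  stat_nonneg : ∀ a, 0 ≤ π a
  stat_sum : ∑ a, π a = 1
  stationary : ∀ b, ∑ a, π a * P a b = π b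
  cylinder : ∀ (k : ℤ) (n : ℕ) (w : ℕ → S), μ {x | ∀ i : ℕ, i ≤ n → x (k + i) = w i} =
    ENNReal.ofReal (π (w 0) * ∏ i ∈ Finset.range n, P (w i) (w (i + 1)))

/-- The transition matrix `P` is irreducible and aperiodic. -/
structure IsErgodicMatrix {S : Type} [Fintype S] [DecidableEq S] (P : Matrix S S ℝ) : Prop where
  irreducible : ∀ a b, ∃ n : ℕ, 0 < (P ^ n) a b
  aperiodic : ∀ a, ∀ d : ℕ, (∀ n : ℕ, 1 ≤ n → 0 < (P ^ n) a a → d ∣ n) → d = 1

/-- The stationary process with law `μ` has exponential return times: for some state `s` of positive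
probability, the conditional probability, given that the process is in `s` at time `0`, that it does
not return to `s` at the times `1, …, n` is at most `C exp (-c n)`. -/
def HasExpReturn {S : Type} [MeasurableSpace S] (μ : Measure (ℤ → S)) : Prop :=
  ∃ s : S, μ {x | x 0 = s} ≠ 0 ∧ ∃ C : ℝ, ∃ c : ℝ, 0 < c ∧ ∀ n : ℕ,
    μ {x | x 0 = s ∧ ∀ k : ℕ, 1 ≤ k → k ≤ n → x k ≠ s} ≤
      ENNReal.ofReal (C * Real.exp (-c * n)) * μ {x | x 0 = s}

end Pool.Agent.R987.Window
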