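import Mathlib
import Pool.Agent.R987.Bern
import Pool.Agent.R987.WindowDef
import Pool.Agent.R987.Mart

/-!
# Factor maps with integrable coding window: the information of the iid process
-/

set_option autoImplicit false

namespace Pool.Agent.R987.Window

open MeasureTheory ProbabilityTheory Set Filter Topology Pool.Agent.R987.Bern
open scoped ENNReal NNReal

section

variable {T : Type} [MeasurableSpace T]

/-- The first `n` coordinates. -/
def U {T : Type} (n : ℕ) (y : ℤ → T) : Fin n → T := fun i => y (i : ℕ)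

theorem measurable_U (n : ℕ) : Measurable (U n : (ℤ → T) → Fin n → T) :=
  measurable_pi_lambda _ fun i => measurable_pi_apply _

theorem prob_U [MeasurableSingletonClass T] (ν : Measure T) [IsProbabilityMeasure ν] (n : ℕ)
    (u : Fin n → T) : iid ℤ ν {y | U n y = u} = ∏ i, ν {u i} := by
  have hinj : Function.Injective (fun i : Fin n => ((i : ℕ) : ℤ)) := by
    intro a b h
    simpa [Fin.ext_iff] using h
  have h1 : {y : ℤ → T | U n y = u} = (fun y : ℤ → T => fun i : Fin n => y (i : ℕ)) ⁻¹' {u} := rfl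
  have h2 : ({u} : Set (Fin n → T)) = ((Finset.univ : Finset (Fin n)) : Set (Fin n)).pi
      fun i => {u i} := by
    ext z
    simp [funext_iff]
  have h3 : MeasurableSet ({u} : Set (Fin n → T)) := by
    rw [h2]
    exact MeasurableSet.pi (Finset.countable_toSet _) fun i _ => measurableSet_singleton _
  rw [h1, ← Measure.map_apply (measurable_comp _) h3, map_comp ν _ hinj, h2, iid,
    Measure.infinitePi_pi _ (fun _ _ => measurableSet_singleton _)]

end

section

variable {T : Type} [MeasurableSpace T] (ν : Measure T) [IsProbabilityMeasure ν]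
  {μ : Measure (ℤ → Bool)} {φ : (ℤ → T) → ℤ → Bool} {G : Set (ℤ → T)}

/-- The good points. -/
def G0 (G : Set (ℤ → T)) (φ : (ℤ → T) → ℤ → Bool) : Set (ℤ → T) :=
  {y | ∀ k : ℤ, (fun i => y (i + k)) ∈ G ∧ φ (fun i => y (i + k)) 0 = φ y k}

theorem ae_G0 (hφ : IsFactorMap ν μ φ) (hG : iid ℤ ν Gᶜ = 0) :
    ∀ᵐ y ∂(iid ℤ ν), y ∈ G0 G φ := by
  change ∀ᵐ y ∂(iid ℤ ν), ∀ k : ℤ, (fun i => y (i + k)) ∈ G ∧ φ (fun i => y (i + k)) 0 = φ y k
  rw [ae_all_iff]
  intro k
  have hmp : MeasurePreserving (fun y : ℤ → T => fun i => y (i + k)) (iid ℤ ν) (iid ℤ ν) :=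
    ⟨measurable_comp _, map_comp ν _ (add_left_injective k)⟩
  have h1 : ∀ᵐ y ∂(iid ℤ ν), y ∈ G := by
    rw [ae_iff]
    exact hG
  filter_upwards [hφ.equivariant k, hmp.quasiMeasurePreserving.ae h1] with y h2 h3
  refine ⟨h3, ?_⟩
  rw [h2]
  simp

/-- The letters `u` determine the output at `i`. -/
def Det (G : Set (ℤ → T)) (φ : (ℤ → T) → ℤ → Bool) (n : ℕ) (u : Fin n → T) (i : ℕ) : Prop :=
  ∀ y ∈ G0 G φ, ∀ z ∈ G0 G φ, U n y = u → U n z = u → φ y i = φ z i

open Classical in
/-- The number of outputs which are not determined. -/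
noncomputable def N (G : Set (ℤ → T)) (φ : (ℤ → T) → ℤ → Bool) (n : ℕ) (u : Fin n → T) : ℕ :=
  (Finset.univ.filter fun i : Fin n => ¬ Det G φ n u i).card

theorem bad_of_not_det {n : ℕ} {y : ℤ → T} (hy : y ∈ G0 G φ) (i : Fin n)
    (h : ¬ Det G φ n (U n y) i) :
    (fun j => y (j + (i : ℕ))) ∈ Bad G φ (min (i : ℕ) (n - 1 - i)) := by
  have key : ∀ z ∈ G0 G φ, U n z = U n y → φ z i ≠ φ y i →
      (fun j => y (j + (i : ℕ))) ∈ Bad G φ (min (i : ℕ) (n - 1 - i)) := by
    intro z hz hzy hne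
    refine ⟨(hy i).1, fun j => z (j + (i : ℕ)), (hz i).1, ?_, ?_⟩
    · intro j hj
      have hi := i.2
      rw [abs_le] at hj
      have h1 : 0 ≤ j + (i : ℕ) := by omega
      have h2 : j + (i : ℕ) < n := by omega
      have h3 := congrFun hzy ⟨(j + (i : ℕ)).toNat, by omega⟩
      simp only [U] at h3
      rw [Int.toNat_of_nonneg h1] at h3
      exact h3
    · rw [(hy i).2, (hz i).2]
      exact hne
  unfold Det at h
  push Not at h
  obtain ⟨z, hz, z', hz', h1, h2, h3⟩ := h
  by_cases h4 : φ z i = φ y i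
  · exact key z' hz' h2 (fun h5 => h3 (h4.trans h5.symm))
  · exact key z hz h1 h4

theorem lintegral_N [Countable T] [DiscreteMeasurableSpace T] (hφ : IsFactorMap ν μ φ)
    (hG : iid ℤ ν Gᶜ = 0) (n : ℕ) :
    ∫⁻ y, (N G φ n (U n y) : ℝ≥0∞) ∂(iid ℤ ν) ≤ 2 * ∑' r : ℕ, iid ℤ ν (Bad G φ r) := by
  classical
  have e : ∀ y : ℤ → T, (N G φ n (U n y) : ℝ≥0∞) = ∑ i : Fin n,
      ({y : ℤ → T | ¬ Det G φ n (U n y) i}.indicator (fun _ => (1 : ℝ≥0∞)) y) := by
    intro y
    rw [N, Finset.card_filter]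
    push_cast
    refine Finset.sum_congr rfl fun i _ => ?_
    simp [Set.indicator_apply]
  have hm : ∀ i : Fin n, MeasurableSet {y : ℤ → T | ¬ Det G φ n (U n y) i} := fun i =>
    measurable_U n (MeasurableSet.of_discrete (s := {u | ¬ Det G φ n u i}))
  simp_rw [e]
  rw [lintegral_finsetSum _ fun i _ => measurable_const.indicator (hm i)]
  have hle : ∀ i : Fin n, ∫⁻ y, ({y : ℤ → T | ¬ Det G φ n (U n y) i}.indicator
      (fun _ => (1 : ℝ≥0∞)) y) ∂(iid ℤ ν) ≤ iid ℤ ν (Bad G φ (min (i : ℕ) (n - 1 - i))) := by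
    intro i
    rw [lintegral_indicator_const (hm i), one_mul]
    have hmp : MeasurePreserving (fun y : ℤ → T => fun j => y (j + (i : ℕ))) (iid ℤ ν)
        (iid ℤ ν) := ⟨measurable_comp _, map_comp ν _ (add_left_injective ((i : ℕ) : ℤ))⟩
    calc iid ℤ ν {y : ℤ → T | ¬ Det G φ n (U n y) i}
        ≤ iid ℤ ν ((fun y : ℤ → T => fun j => y (j + (i : ℕ))) ⁻¹'
            Bad G φ (min (i : ℕ) (n - 1 - i))) := by
          refine measure_mono_ae ?_
          filter_upwards [ae_G0 ν hφ hG] with y hy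
          exact fun h => bad_of_not_det hy i h
      _ ≤ ((iid ℤ ν).map fun y : ℤ → T => fun j => y (j + (i : ℕ)))
            (Bad G φ (min (i : ℕ) (n - 1 - i))) := Measure.le_map_apply hmp.1.aemeasurable _
      _ = _ := by rw [hmp.2]
  calc ∑ i : Fin n, _ ≤ ∑ i : Fin n, iid ℤ ν (Bad G φ (min (i : ℕ) (n - 1 - i))) :=
        Finset.sum_le_sum fun i _ => hle i
    _ ≤ ∑ i : Fin n, (iid ℤ ν (Bad G φ i) + iid ℤ ν (Bad G φ (n - 1 - i))) := by
        refine Finset.sum_le_sum fun i _ => ?_
        rcases min_choice (i : ℕ) (n - 1 - i) with h | h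
        · rw [h]; exact le_self_add
        · rw [h]; exact le_add_self
    _ = ∑ i ∈ Finset.range n, iid ℤ ν (Bad G φ i) +
          ∑ i ∈ Finset.range n, iid ℤ ν (Bad G φ (n - 1 - i)) := by
        rw [Finset.sum_add_distrib, Finset.sum_range, Finset.sum_range]
    _ = ∑ i ∈ Finset.range n, iid ℤ ν (Bad G φ i) +
          ∑ i ∈ Finset.range n, iid ℤ ν (Bad G φ i) := by
        rw [Finset.sum_range_reflect (fun i => iid ℤ ν (Bad G φ i)) n]
    _ ≤ ∑' r : ℕ, iid ℤ ν (Bad G φ r) + ∑' r : ℕ, iid ℤ ν (Bad G φ r) :=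
        add_le_add (ENNReal.sum_le_tsum _) (ENNReal.sum_le_tsum _)
    _ = _ := by rw [two_mul]

open Classical in
/-- The outputs which are compatible with the letters `u`. -/
noncomputable def comp (G : Set (ℤ → T)) (φ : (ℤ → T) → ℤ → Bool) (n : ℕ) (u : Fin n → T) :
    Finset (Fin n → Bool) :=
  Finset.univ.filter fun v => ∃ y ∈ G0 G φ, U n y = u ∧ U n (φ y) = v

theorem card_comp (n : ℕ) (u : Fin n → T) : (comp G φ n u).card ≤ 2 ^ N G φ n u := by
  classical
  have h1 : Function.Injective (fun v : comp G φ n u =>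
      fun i : (Finset.univ.filter fun i : Fin n => ¬ Det G φ n u i) => v.1 i.1) := by
    rintro ⟨v, hv⟩ ⟨w, hw⟩ h
    simp only [comp, Finset.mem_filter, Finset.mem_univ, true_and] at hv hw
    obtain ⟨y, hy, hy1, rfl⟩ := hv
    obtain ⟨z, hz, hz1, rfl⟩ := hw
    apply Subtype.ext
    funext i
    by_cases hi : Det G φ n u i
    · exact hi y hy z hz hy1 hz1
    · exact congrFun h ⟨i, by simpa using hi⟩
  have h2 := Fintype.card_le_of_injective _ h1
  rw [Fintype.card_coe, Fintype.card_fun, Fintype.card_coe, Fintype.card_bool] at h2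
  exact h2

open Classical in
/-- The likelihood ratio. -/
noncomputable def Zf (ν : Measure T) (μ : Measure (ℤ → Bool)) (G : Set (ℤ → T))
    (φ : (ℤ → T) → ℤ → Bool) (n : ℕ) (w : (Fin n → T) × (Fin n → Bool)) : ℝ≥0∞ :=
  (2 ^ N G φ n w.1)⁻¹ * (∏ i, ν {w.1 i}) * (μ {x | U n x = w.2})⁻¹

theorem lintegral_Z [Countable T] [DiscreteMeasurableSpace T] (hφ : IsFactorMap ν μ φ)
    (hG : iid ℤ ν Gᶜ = 0) (n : ℕ) :
    ∫⁻ y, Zf ν μ G φ n (U n y, U n (φ y)) ∂(iid ℤ ν) ≤ 1 := by
  classical
  set P := iid ℤ ν with hP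
  have hWm : Measurable (fun y : ℤ → T => (U n y, U n (φ y))) :=
    (measurable_U n).prodMk ((measurable_U n).comp hφ.measurable)
  have h1 : ∫⁻ y, Zf ν μ G φ n (U n y, U n (φ y)) ∂P =
      ∫⁻ w, Zf ν μ G φ n w ∂(P.map fun y => (U n y, U n (φ y))) := by
    rw [lintegral_map (measurable_of_countable _) hWm]
  have h2 : ∀ w : (Fin n → T) × (Fin n → Bool), (P.map fun y => (U n y, U n (φ y))) {w} =
      P {y | U n y = w.1 ∧ U n (φ y) = w.2} := by
    intro w
    rw [Measure.map_apply hWm (measurableSet_singleton w)]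
    congr 1
    ext y
    simp [Prod.ext_iff]
  rw [h1, lintegral_countable']
  simp_rw [h2]
  rw [ENNReal.tsum_prod']
  have hq : ∀ v : Fin n → Bool, μ {x | U n x = v} = P {y | U n (φ y) = v} := by
    intro v
    rw [← hφ.map_eq, Measure.map_apply hφ.measurable]
    · rfl
    · exact measurable_U n (measurableSet_singleton v)
  have h3 : ∀ u : Fin n → T, ∑' v : Fin n → Bool, Zf ν μ G φ n (u, v) *
      P {y | U n y = u ∧ U n (φ y) = v} ≤ ∏ i, ν {u i} := by
    intro u
    have h4 : ∀ v : Fin n → Bool, Zf ν μ G φ n (u, v) * P {y | U n y = u ∧ U n (φ y) = v} ≤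
        if v ∈ comp G φ n u then (2 ^ N G φ n u)⁻¹ * ∏ i, ν {u i} else 0 := by
      intro v
      by_cases hv : v ∈ comp G φ n u
      · rw [if_pos hv]
        simp only [Zf]
        rw [mul_assoc]
        refine mul_le_of_le_one_right bot_le ?_
        rw [hq v]
        have h5 : P {y | U n y = u ∧ U n (φ y) = v} ≤ P {y | U n (φ y) = v} :=
          measure_mono fun y hy => hy.2
        calc (P {y | U n (φ y) = v})⁻¹ * P {y | U n y = u ∧ U n (φ y) = v}
            ≤ (P {y | U n (φ y) = v})⁻¹ * P {y | U n (φ y) = v} := by gcongr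
          _ ≤ 1 := ENNReal.inv_mul_le_one _
      · rw [if_neg hv]
        have h5 : P {y | U n y = u ∧ U n (φ y) = v} = 0 := by
          rw [measure_eq_zero_iff_ae_notMem]
          filter_upwards [ae_G0 ν hφ hG] with y hy hy2
          apply hv
          simp only [comp, Finset.mem_filter, Finset.mem_univ, true_and]
          exact ⟨y, hy, hy2.1, hy2.2⟩
        rw [h5, mul_zero]
    calc ∑' v : Fin n → Bool, Zf ν μ G φ n (u, v) * P {y | U n y = u ∧ U n (φ y) = v}
        ≤ ∑' v : Fin n → Bool,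
          (if v ∈ comp G φ n u then (2 ^ N G φ n u)⁻¹ * ∏ i, ν {u i} else 0) :=
          ENNReal.tsum_le_tsum h4
      _ = (comp G φ n u).card * ((2 ^ N G φ n u)⁻¹ * ∏ i, ν {u i}) := by
          rw [tsum_fintype, Finset.sum_ite_mem, Finset.univ_inter, Finset.sum_const,
            nsmul_eq_mul]
      _ ≤ (2 ^ N G φ n u) * ((2 ^ N G φ n u)⁻¹ * ∏ i, ν {u i}) := by
          gcongr
          exact_mod_cast card_comp n u
      _ = ∏ i, ν {u i} := by
          rw [← mul_assoc, ENNReal.mul_inv_cancel (by positivity) (by finiteness), one_mul]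
  calc ∑' u : Fin n → T, ∑' v : Fin n → Bool, Zf ν μ G φ n (u, v) *
        P {y | U n y = u ∧ U n (φ y) = v}
      ≤ ∑' u : Fin n → T, ∏ i, ν {u i} := ENNReal.tsum_le_tsum h3
    _ = ∑' u : Fin n → T, (P.map (U n)) {u} := by
        refine tsum_congr fun u => ?_
        rw [← prob_U ν n u, Measure.map_apply (measurable_U n) (measurableSet_singleton u)]
        rfl
    _ = 1 := by
        have : IsProbabilityMeasure (P.map (U n)) :=
          Measure.isProbabilityMeasure_map (measurable_U n).aemeasurable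
        have h6 := lintegral_countable' (μ := P.map (U n)) (fun _ : Fin n → T => (1 : ℝ≥0∞))
        simp only [lintegral_const, measure_univ, mul_one, one_mul] at h6
        exact h6.symm

/-- The information of a letter, centered. -/
noncomputable def inf (ν : Measure T) (g : ℝ) (x : T) : ℝ := -Real.log (ν {x}).toReal + Real.log g

theorem toReal_nonneg_le_one (x : T) : 0 ≤ (ν {x}).toReal ∧ (ν {x}).toReal ≤ 1 :=
  ⟨ENNReal.toReal_nonneg, ENNReal.toReal_le_of_le_ofReal zero_le_one (by simpa using prob_le_one)⟩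

theorem integrable_inf [Countable T] [DiscreteMeasurableSpace T] {g : ℝ}
    (hsh : ∑' x, ENNReal.ofReal (Real.negMulLog (ν {x}).toReal) = ENNReal.ofReal (-Real.log g))
    (hg : 0 < g) (hg1 : g < 1) :
    Integrable (inf ν g) ν ∧ ∫ x, inf ν g x ∂ν = 0 := by
  have hL0 : ∀ x, 0 ≤ -Real.log (ν {x}).toReal := by
    intro x
    obtain ⟨h1, h2⟩ := toReal_nonneg_le_one ν x
    have := Real.log_nonpos h1 h2
    linarith
  have hmeas : Measurable fun x : T => -Real.log (ν {x}).toReal := measurable_of_countable _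
  have h1 : ∫⁻ x, ENNReal.ofReal (-Real.log (ν {x}).toReal) ∂ν = ENNReal.ofReal (-Real.log g) := by
    rw [lintegral_countable', ← hsh]
    refine tsum_congr fun x => ?_
    rw [Real.negMulLog, neg_mul_comm, ENNReal.ofReal_mul ENNReal.toReal_nonneg,
      ENNReal.ofReal_toReal (measure_ne_top _ _), mul_comm]
  have h2 : Integrable (fun x : T => -Real.log (ν {x}).toReal) ν := by
    refine ⟨hmeas.aestronglyMeasurable, ?_⟩
    rw [hasFiniteIntegral_iff_ofReal (Eventually.of_forall hL0), h1]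
    exact ENNReal.ofReal_lt_top
  have h3 : ∫ x, -Real.log (ν {x}).toReal ∂ν = -Real.log g := by
    rw [integral_eq_lintegral_of_nonneg_ae (Eventually.of_forall hL0) hmeas.aestronglyMeasurable,
      h1, ENNReal.toReal_ofReal]
    have := Real.log_neg hg hg1
    linarith
  refine ⟨h2.add (integrable_const _), ?_⟩
  have h4 : ∫ x, inf ν g x ∂ν = ∫ x, -Real.log (ν {x}).toReal ∂ν + ∫ _x : T, Real.log g ∂ν :=
    integral_add h2 (integrable_const _)
  rw [h4, h3]
  simp

theorem main [Countable T] [DiscreteMeasurableSpace T] (hφ : IsFactorMap ν μ φ)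
    (hG : iid ℤ ν Gᶜ = 0) {g C0 : ℝ} (hg : 0 < g) (hg1 : g < 1) (hC0 : 1 ≤ C0)
    (hcyl : ∀ n (v : Fin n → Bool), μ {x | U n x = v} ≤ ENNReal.ofReal (C0 * g ^ n))
    (hB : ∑' r : ℕ, iid ℤ ν (Bad G φ r) ≠ ⊤)
    (hsh : ∑' x, ENNReal.ofReal (Real.negMulLog (ν {x}).toReal) = ENNReal.ofReal (-Real.log g)) :
    ∀ x, ν {x} ≠ 0 → ν {x} = ENNReal.ofReal g := by
  classical
  set P := iid ℤ ν with hP
  obtain ⟨hint, hmean⟩ := integrable_inf ν hsh hg hg1
  have hFm : Measurable (inf ν g) := measurable_of_countable _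
  set X : ℕ → (ℤ → T) → ℝ := fun i y => inf ν g (y (i : ℤ)) with hX
  have hev : ∀ i : ℕ, MeasurePreserving (fun y : ℤ → T => y (i : ℤ)) P ν := fun i =>
    measurePreserving_eval_infinitePi (fun _ : ℤ => ν) (i : ℤ)
  have hXm : ∀ i, Measurable (X i) := fun i => hFm.comp (measurable_pi_apply _)
  have hXint : ∀ i, Integrable (X i) P := fun i => (hev i).integrable_comp_of_integrable hint
  have hX0 : ∀ i, ∫ y, X i y ∂P = 0 := by
    intro i
    have h1 : ∫ x, inf ν g x ∂(P.map fun y : ℤ → T => y (i : ℤ)) =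
        ∫ y, inf ν g (y (i : ℤ)) ∂P :=
      integral_map (hev i).1.aemeasurable hFm.aestronglyMeasurable
    rw [(hev i).map_eq, hmean] at h1
    exact h1.symm
  have hXi : iIndepFun X P := by
    have h1 : iIndepFun (fun (i : ℤ) (y : ℤ → T) => inf ν g (y i)) P :=
      iIndepFun_infinitePi (P := fun _ : ℤ => ν) (X := fun _ : ℤ => inf ν g) (fun _ => hFm)
    exact h1.precomp (g := fun i : ℕ => (i : ℤ)) Nat.cast_injective
  have hXid : ∀ i, IdentDistrib (X i) (X 0) P P := by
    intro i
    refine ⟨(hXm i).aemeasurable, (hXm 0).aemeasurable, ?_⟩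
    have h1 : ∀ j : ℕ, P.map (X j) = ν.map (inf ν g) := by
      intro j
      have h2 : (P.map fun y : ℤ → T => y (j : ℤ)).map (inf ν g) = P.map (X j) :=
        Measure.map_map hFm (hev j).1
      rw [(hev j).map_eq] at h2
      exact h2.symm
    rw [h1, h1]
  have hq : ∀ (n : ℕ) (v : Fin n → Bool), μ {x | U n x = v} = P {y | U n (φ y) = v} := by
    intro n v
    rw [← hφ.map_eq, Measure.map_apply hφ.measurable]
    · rfl
    · exact measurable_U n (measurableSet_singleton v)
  have haep : ∀ᵐ y ∂P, ∀ i : ℕ, ν {y (i : ℤ)} ≠ 0 := by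
    rw [ae_all_iff]
    intro i
    have h1 : ∀ᵐ x ∂ν, ν {x} ≠ 0 := by
      have h2 : ∀ᵐ x ∂ν, ∀ z : T, ν {z} = 0 → x ≠ z := by
        rw [ae_all_iff]
        intro z
        by_cases hz : ν {z} = 0
        · have h3 : ∀ᵐ x ∂ν, x ∉ ({z} : Set T) := measure_eq_zero_iff_ae_notMem.1 hz
          filter_upwards [h3] with x hx _
          exact hx
        · exact Eventually.of_forall fun x h => absurd h hz
      filter_upwards [h2] with x hx h4
      exact hx x h4 rfl
    exact (hev i).quasiMeasurePreserving.ae h1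
  -- pointwise estimate
  have hpt : ∀ n : ℕ, ∀ᵐ y ∂P, ENNReal.ofReal (-∑ i ∈ Finset.range n, X i y) ≤
      Zf ν μ G φ n (U n y, U n (φ y)) + ENNReal.ofReal (Real.log 2) * (N G φ n (U n y) : ℝ≥0∞) +
        ENNReal.ofReal (Real.log C0) := by
    intro n
    have haeq : ∀ᵐ y ∂P, μ {x | U n x = U n (φ y)} ≠ 0 := by
      have h2 : ∀ᵐ y ∂P, ∀ v : Fin n → Bool, μ {x | U n x = v} = 0 → U n (φ y) ≠ v := by
        rw [ae_all_iff]
        intro v
        by_cases hz : μ {x | U n x = v} = 0
        · have h3 : ∀ᵐ y ∂P, y ∉ {y | U n (φ y) = v} :=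
            measure_eq_zero_iff_ae_notMem.1 ((hq n v).symm.trans hz)
          filter_upwards [h3] with x hx _
          exact hx
        · exact Eventually.of_forall fun x h => absurd h hz
      filter_upwards [h2] with y hy h4
      exact hy _ h4 rfl
    filter_upwards [haep, haeq] with y h1 h2
    set k := N G φ n (U n y) with hk
    set q := (μ {x | U n x = U n (φ y)}).toReal with hqd
    have hμ : IsProbabilityMeasure μ := by
      rw [← hφ.map_eq]
      exact Measure.isProbabilityMeasure_map hφ.measurable.aemeasurable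
    have hq0 : 0 < q := ENNReal.toReal_pos h2 (measure_ne_top _ _)
    have hp0 : ∀ i ∈ Finset.range n, 0 < (ν {y ((i : ℕ) : ℤ)}).toReal := fun i _ =>
      ENNReal.toReal_pos (h1 i) (measure_ne_top _ _)
    set p := ∏ i ∈ Finset.range n, (ν {y ((i : ℕ) : ℤ)}).toReal with hp
    have hppos : 0 < p := Finset.prod_pos hp0
    have hZ : Zf ν μ G φ n (U n y, U n (φ y)) = ENNReal.ofReal ((2 ^ k)⁻¹ * p * q⁻¹) := by
      rw [ENNReal.ofReal_mul (by positivity), ENNReal.ofReal_mul (by positivity),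
        ENNReal.ofReal_inv_of_pos hq0, ENNReal.ofReal_inv_of_pos (by positivity),
        ENNReal.ofReal_pow (by norm_num), hp,
        ENNReal.ofReal_prod_of_nonneg (fun i _ => ENNReal.toReal_nonneg)]
      simp only [Zf]
      rw [hqd, ENNReal.ofReal_toReal (measure_ne_top _ _), hk]
      congr 2
      · simp
      · rw [Finset.prod_range]
        refine Finset.prod_congr rfl fun i _ => ?_
        rw [ENNReal.ofReal_toReal (measure_ne_top _ _)]
        rfl
    have hlog : -∑ i ∈ Finset.range n, X i y = Real.log p - n * Real.log g := by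
      rw [hp, Real.log_prod fun i hi => (hp0 i hi).ne', ← Finset.sum_neg_distrib]
      have : ∀ i ∈ Finset.range n, -X i y = Real.log (ν {y ((i : ℕ) : ℤ)}).toReal - Real.log g := by
        intro i _
        simp only [hX, inf]
        ring
      rw [Finset.sum_congr rfl this, Finset.sum_sub_distrib]
      simp
    have hqle : Real.log q ≤ Real.log C0 + n * Real.log g := by
      have h3 : q ≤ C0 * g ^ n :=
        ENNReal.toReal_le_of_le_ofReal (by positivity) (hcyl n _)
      have h4 := Real.log_le_log hq0 h3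
      rwa [Real.log_mul (by positivity) (by positivity), Real.log_pow] at h4
    have hZlog : Real.log p = Real.log ((2 ^ k)⁻¹ * p * q⁻¹) + k * Real.log 2 + Real.log q := by
      rw [Real.log_mul (by positivity) (by positivity), Real.log_mul (by positivity)
        (by positivity), Real.log_inv, Real.log_inv, Real.log_pow]
      ring
    have hZle := Real.log_le_sub_one_of_pos (x := (2 ^ k)⁻¹ * p * q⁻¹) (by positivity)
    have hfin : -∑ i ∈ Finset.range n, X i y ≤
        (2 ^ k)⁻¹ * p * q⁻¹ + Real.log 2 * k + Real.log C0 := by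
      rw [hlog]
      linarith
    have hl2 : 0 ≤ Real.log 2 := Real.log_nonneg (by norm_num)
    have hlC : 0 ≤ Real.log C0 := Real.log_nonneg hC0
    calc ENNReal.ofReal (-∑ i ∈ Finset.range n, X i y)
        ≤ ENNReal.ofReal ((2 ^ k)⁻¹ * p * q⁻¹ + Real.log 2 * k + Real.log C0) :=
          ENNReal.ofReal_le_ofReal hfin
      _ = _ := by
          rw [ENNReal.ofReal_add (by positivity) hlC, ENNReal.ofReal_add (by positivity)
            (by positivity), hZ, ENNReal.ofReal_mul hl2, ENNReal.ofReal_natCast]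
  -- integrated estimate
  set K : ℝ≥0∞ := 1 + ENNReal.ofReal (Real.log 2) * (2 * ∑' r : ℕ, P (Bad G φ r)) +
    ENNReal.ofReal (Real.log C0) with hK
  have hKt : K ≠ ⊤ := by
    rw [hK]
    exact ENNReal.add_ne_top.2 ⟨ENNReal.add_ne_top.2 ⟨ENNReal.one_ne_top,
      ENNReal.mul_ne_top ENNReal.ofReal_ne_top (ENNReal.mul_ne_top (by norm_num) hB)⟩,
      ENNReal.ofReal_ne_top⟩
  have hWm : ∀ n : ℕ, Measurable (fun y : ℤ → T => (U n y, U n (φ y))) := fun n =>
    (measurable_U n).prodMk ((measurable_U n).comp hφ.measurable)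
  have hneg : ∀ n : ℕ, ∫⁻ y, ENNReal.ofReal (-∑ i ∈ Finset.range n, X i y) ∂P ≤ K := by
    intro n
    have m1 : Measurable fun y : ℤ → T => Zf ν μ G φ n (U n y, U n (φ y)) :=
      (measurable_of_countable (Zf ν μ G φ n)).comp (hWm n)
    have m2 : Measurable fun y : ℤ → T => (N G φ n (U n y) : ℝ≥0∞) :=
      (measurable_of_countable (fun u : Fin n → T => (N G φ n u : ℝ≥0∞))).comp (measurable_U n)
    refine (lintegral_mono_ae (hpt n)).trans ?_
    rw [lintegral_add_right _ measurable_const, lintegral_add_left m1, lintegral_const_mul _ m2,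
      lintegral_const, measure_univ, mul_one, hK]
    gcongr
    · exact lintegral_Z ν hφ hG n
    · exact lintegral_N ν hφ hG n
  have hSint : ∀ n, Integrable (fun y => ∑ i ∈ Finset.range n, X i y) P := fun n =>
    integrable_finsetSum _ fun i _ => hXint i
  have hSmeas : ∀ n, Measurable (fun y => ∑ i ∈ Finset.range n, X i y) := fun n =>
    Finset.measurable_sum _ fun i _ => hXm i
  have hbd : ∀ n, eLpNorm (fun y => ∑ i ∈ Finset.range (n + 1), X i y) 1 P ≤
      ((2 * K).toNNReal : ℝ≥0∞) := by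
    intro n
    rw [ENNReal.coe_toNNReal (ENNReal.mul_ne_top (by norm_num) hKt),
      eLpNorm_one_eq_lintegral_enorm]
    have h1 : ∀ y, ‖∑ i ∈ Finset.range (n + 1), X i y‖ₑ =
        ENNReal.ofReal (∑ i ∈ Finset.range (n + 1), X i y) +
          ENNReal.ofReal (-∑ i ∈ Finset.range (n + 1), X i y) := by
      intro y
      rw [Real.enorm_eq_ofReal_abs]
      rcases le_total 0 (∑ i ∈ Finset.range (n + 1), X i y) with h | h
      · rw [abs_of_nonneg h, ENNReal.ofReal_of_nonpos (by linarith :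
          -∑ i ∈ Finset.range (n + 1), X i y ≤ 0), add_zero]
      · rw [abs_of_nonpos h, ENNReal.ofReal_of_nonpos h, zero_add]
    simp_rw [h1]
    rw [lintegral_add_left (hSmeas (n + 1)).ennreal_ofReal]
    have h2 := integral_eq_lintegral_pos_part_sub_lintegral_neg_part (hSint (n + 1))
    have h3 : ∫ y, ∑ i ∈ Finset.range (n + 1), X i y ∂P = 0 := by
      rw [integral_finsetSum _ fun i _ => hXint i]
      exact Finset.sum_eq_zero fun i _ => hX0 i
    rw [h3] at h2
    have f1 : ∫⁻ y, ENNReal.ofReal (∑ i ∈ Finset.range (n + 1), X i y) ∂P ≠ ⊤ := by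
      refine ne_top_of_le_ne_top (hSint (n + 1)).2.ne (lintegral_mono fun y => ?_)
      rw [Real.enorm_eq_ofReal_abs]
      exact ENNReal.ofReal_le_ofReal (le_abs_self _)
    have f2 : ∫⁻ y, ENNReal.ofReal (-∑ i ∈ Finset.range (n + 1), X i y) ∂P ≠ ⊤ :=
      ne_top_of_le_ne_top hKt (hneg _)
    have h4 : ∫⁻ y, ENNReal.ofReal (∑ i ∈ Finset.range (n + 1), X i y) ∂P =
        ∫⁻ y, ENNReal.ofReal (-∑ i ∈ Finset.range (n + 1), X i y) ∂P := by
      rw [← ENNReal.toReal_eq_toReal_iff' f1 f2]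
      linarith
    rw [h4, ← two_mul]
    gcongr
    exact hneg _
  have hzero := Mart.ae_zero_of_bdd (fun i => (hXm i).stronglyMeasurable) hXi hXint hX0 hXid hbd
  intro x hx
  have h5 : P {y | y ((0 : ℕ) : ℤ) = x} = ν {x} := by
    have := (hev 0).measure_preimage (measurableSet_singleton x).nullMeasurableSet
    exact this
  have h6 : inf ν g x = 0 := by
    by_contra hne
    apply hx
    rw [← h5, measure_eq_zero_iff_ae_notMem]
    filter_upwards [hzero] with y hy hy2
    apply hne
    rw [← (show y ((0 : ℕ) : ℤ) = x from hy2)]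
    exact hy
  have h7 : 0 < (ν {x}).toReal := ENNReal.toReal_pos hx (measure_ne_top _ _)
  have h8 : Real.log (ν {x}).toReal = Real.log g := by
    unfold inf at h6
    linarith
  have h9 : (ν {x}).toReal = g := Real.log_injOn_pos h7 hg h8
  rw [← h9, ENNReal.ofReal_toReal (measure_ne_top _ _)]

end

end Pool.Agent.R987.Window
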