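import Mathlib
import Pool.Agent.R987.Gold
import Pool.Agent.R987.Window

/-!
# The golden mean chain
-/

set_option autoImplicit false

namespace Pool.Agent.R987.Gold

open MeasureTheory ProbabilityTheory Set Filter Topology Pool.Agent.R987.Bern
open Pool.Agent.R987.Window
open scoped ENNReal

/-- The inverse of the golden mean. -/
noncomputable def g : ℝ := (Real.sqrt 5 - 1) / 2

theorem sqrt5_gt : 2 < Real.sqrt 5 := by
  rw [show (2 : ℝ) = Real.sqrt 4 by
    rw [show (4 : ℝ) = 2 ^ 2 by norm_num, Real.sqrt_sq (by norm_num)]]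
  exact Real.sqrt_lt_sqrt (by norm_num) (by norm_num)

theorem sqrt5_lt : Real.sqrt 5 < 3 := by
  rw [show (3 : ℝ) = Real.sqrt 9 by
    rw [show (9 : ℝ) = 3 ^ 2 by norm_num, Real.sqrt_sq (by norm_num)]]
  exact Real.sqrt_lt_sqrt (by norm_num) (by norm_num)

theorem half_lt_g : 1 / 2 < g := by
  unfold g
  linarith [sqrt5_gt]

theorem g_pos : 0 < g := by linarith [half_lt_g]

theorem g_lt_one : g < 1 := by
  unfold g
  linarith [sqrt5_lt]

theorem g_sq : g ^ 2 = 1 - g := by
  unfold g
  have : Real.sqrt 5 ^ 2 = 5 := Real.sq_sqrt (by norm_num)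
  nlinarith

theorem p_pos : 0 < g ^ 2 := by
  have := g_pos
  positivity

theorem p_lt_one : g ^ 2 < 1 := by
  rw [g_sq]
  linarith [g_pos]

/-- The transition matrix. -/
noncomputable def Pm : Matrix Bool Bool ℝ := Matrix.of (tr (g ^ 2))

/-- The law of the chain. -/
noncomputable def law : Measure (ℤ → Bool) := (iid ℤ (coin (g ^ 2))).map par

instance : IsProbabilityMeasure (coin (g ^ 2)) := coin_prob p_pos.le p_lt_one.le

instance : IsProbabilityMeasure law :=
  Measure.isProbabilityMeasure_map measurable_par.aemeasurable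

theorem law_cyl (k : ℤ) (n : ℕ) (w : ℕ → Bool) : law {x | ∀ i : ℕ, i ≤ n → x (k + i) = w i} =
    ENNReal.ofReal (stat (g ^ 2) (w 0) * ∏ i ∈ Finset.range n, Pm (w i) (w (i + 1))) := by
  have hm : MeasurableSet {x : ℤ → Bool | ∀ i : ℕ, i ≤ n → x (k + i) = w i} := by
    have : {x : ℤ → Bool | ∀ i : ℕ, i ≤ n → x (k + i) = w i} =
        ⋂ i : ℕ, {x | i ≤ n → x (k + i) = w i} := by ext x; simp
    rw [this]
    refine MeasurableSet.iInter fun i => ?_
    by_cases h : i ≤ n
    · simp only [h, true_imp_iff]
      exact measurableSet_eq_fun (measurable_pi_apply _) measurable_const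
    · simp [h]
  rw [law, Measure.map_apply measurable_par hm]
  exact prob_E p_pos p_lt_one k w n

theorem chain : IsStationaryChain Pm (stat (g ^ 2)) law := by
  have hp := p_pos
  have hp1 := p_lt_one
  refine ⟨inferInstance, fun a b => tr_nonneg p_pos p_lt_one a b, ?_,
    fun a => (stat_pos p_pos p_lt_one a).le, ?_, ?_, law_cyl⟩
  · intro a
    cases a <;> simp [Pm, tr]
  · simp only [Fintype.sum_bool, stat]
    field_simp
    ring
  · intro b
    cases b
    · simp only [Fintype.sum_bool, stat, Pm, tr, Matrix.of_apply]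
      field_simp
      ring
    · simp only [Fintype.sum_bool, stat, Pm, tr, Matrix.of_apply]
      field_simp
      ring

theorem ergodic : IsErgodicMatrix Pm := by
  have hp := p_pos
  have hp1 := p_lt_one
  have e2 : ∀ a b, (Pm ^ 2) a b = Pm a true * Pm true b + Pm a false * Pm false b := by
    intro a b
    rw [pow_two, Matrix.mul_apply, Fintype.sum_bool]
  have e3 : ∀ a b, (Pm ^ 3) a b = (Pm ^ 2) a true * Pm true b + (Pm ^ 2) a false * Pm false b := by
    intro a b
    rw [pow_succ Pm 2, Matrix.mul_apply, Fintype.sum_bool]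
  refine ⟨?_, ?_⟩
  · intro a b
    cases a <;> cases b
    · refine ⟨1, ?_⟩
      rw [pow_one]
      change (0 : ℝ) < 1 - g ^ 2
      linarith
    · refine ⟨1, ?_⟩
      rw [pow_one]
      simpa [Pm, tr] using hp
    · refine ⟨1, ?_⟩
      rw [pow_one]
      simp [Pm, tr]
    · refine ⟨2, ?_⟩
      rw [e2]
      simpa [Pm, tr] using hp
  · intro a d hd
    cases a
    · have := hd 1 le_rfl (by
        rw [pow_one]
        change (0 : ℝ) < 1 - g ^ 2
        linarith)
      exact Nat.dvd_one.1 this
    · have h2 := hd 2 (by norm_num) (by rw [e2]; simpa [Pm, tr] using hp)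
      have h3 := hd 3 (by norm_num) (by
        rw [e3, e2, e2]
        have : 0 < (1 - g ^ 2) * g ^ 2 := mul_pos (by linarith) hp
        simpa [Pm, tr] using this)
      exact Nat.dvd_one.1 ((Nat.dvd_add_right h2).1 (by simpa using h3))

theorem expReturn : HasExpReturn law := by
  have hs : law {x | x 0 = false} ≠ 0 := by
    have h := law_cyl 0 0 (fun _ => false)
    have e : {x : ℤ → Bool | ∀ i : ℕ, i ≤ 0 → x (0 + i) = (fun _ => false) i} =
        {x | x 0 = false} := by
      ext x
      simp
    rw [e] at h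
    rw [h, Finset.prod_range_zero, mul_one]
    exact (ENNReal.ofReal_pos.2 (stat_pos p_pos p_lt_one _)).ne'
  refine ⟨false, hs, Real.exp 1, 1, one_pos, ?_⟩
  intro n
  rcases Nat.lt_or_ge n 2 with hn | hn
  · have h1 : (1 : ℝ) ≤ Real.exp 1 * Real.exp (-1 * n) := by
      rw [← Real.exp_add]
      apply Real.one_le_exp
      have : (n : ℝ) ≤ 1 := by exact_mod_cast (by omega : n ≤ 1)
      linarith
    calc law {x | x 0 = false ∧ ∀ k : ℕ, 1 ≤ k → k ≤ n → x k ≠ false}
        ≤ law {x | x 0 = false} := measure_mono fun x hx => hx.1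
      _ = 1 * law {x | x 0 = false} := (one_mul _).symm
      _ ≤ _ := by
          gcongr
          rw [← ENNReal.ofReal_one]
          exact ENNReal.ofReal_le_ofReal h1
  · have h0 : law {x | x 0 = false ∧ ∀ k : ℕ, 1 ≤ k → k ≤ n → x k ≠ false} = 0 := by
      have h := law_cyl 1 1 (fun _ => true)
      simp only [Finset.range_one, Finset.prod_singleton, Pm, tr, Matrix.of_apply, mul_zero,
        ENNReal.ofReal_zero] at h
      refine measure_mono_null ?_ h
      rintro x ⟨_, hx⟩ i hi
      have := hx (1 + i) (by omega) (by omega)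
      simpa using this
    rw [h0]
    exact bot_le

/-- The weight. -/
noncomputable def wt : Bool → ℝ
  | true => g
  | false => 1

theorem wt_pos (s : Bool) : 0 < wt s := by
  cases s
  · exact one_pos
  · exact g_pos

theorem g_le_wt (s : Bool) : g ≤ wt s := by
  cases s
  · exact g_lt_one.le
  · exact le_rfl

theorem wt_le_one (s : Bool) : wt s ≤ 1 := by
  cases s
  · exact le_rfl
  · exact g_lt_one.le

theorem prod_tr (w : ℕ → Bool) : ∀ n : ℕ, (∏ i ∈ Finset.range n, Pm (w i) (w (i + 1)) = 0) ∨
    ∏ i ∈ Finset.range n, Pm (w i) (w (i + 1)) = g ^ n * wt (w n) / wt (w 0) := by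
  intro n
  induction n with
  | zero =>
    right
    simp [div_self (wt_pos (w 0)).ne']
  | succ n ih =>
    rw [Finset.prod_range_succ]
    rcases ih with ih | ih
    · left
      rw [ih, zero_mul]
    · rw [ih]
      have hg := g_pos
      have hw := wt_pos (w 0)
      have hsq := g_sq
      have w1 : wt true = g := rfl
      have w0 : wt false = 1 := rfl
      cases h1 : w n <;> cases h2 : w (n + 1)
      · right
        simp only [Pm, tr, Matrix.of_apply, w0]
        rw [hsq]
        field_simp
        ring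
      · right
        simp only [Pm, tr, Matrix.of_apply, w0, w1]
        field_simp
        try ring
      · right
        simp only [Pm, tr, Matrix.of_apply, w0, w1]
        field_simp
        try ring
      · left
        simp [Pm, tr]

/-- The lower bound. -/
noncomputable def c1 : ℝ := g ^ 2 / (1 + g ^ 2)

theorem c1_pos : 0 < c1 := div_pos p_pos (by linarith [p_pos])

theorem stat_ge (s : Bool) : c1 ≤ stat (g ^ 2) s := by
  cases s
  · simp only [stat, c1]
    have := p_pos
    have := p_lt_one
    gcongr
  · exact le_rfl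

theorem stat_le (s : Bool) : stat (g ^ 2) s ≤ 1 := by
  have := p_pos
  cases s <;> simp only [stat] <;> rw [div_le_one (by linarith)] <;> linarith

theorem q_bounds (n : ℕ) (v : Fin n → Bool) (hn : n ≠ 0) :
    law {x | U n x = v} = 0 ∨ ∃ q : ℝ, law {x | U n x = v} = ENNReal.ofReal q ∧
      c1 * g ^ n ≤ q ∧ q ≤ (g ^ 2)⁻¹ * g ^ n := by
  obtain ⟨m, rfl⟩ := Nat.exists_eq_succ_of_ne_zero hn
  set w : ℕ → Bool := fun i => if h : i < m + 1 then v ⟨i, h⟩ else false with hw
  have e : {x : ℤ → Bool | U (m + 1) x = v} = {x | ∀ i : ℕ, i ≤ m → x (0 + i) = w i} := by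
    ext x
    simp only [U, Set.mem_ofPred_eq, funext_iff]
    constructor
    · intro h i hi
      have h2 := h ⟨i, by omega⟩
      have h3 : i < m + 1 := by omega
      simp only [hw, h3, dif_pos]
      simpa using h2
    · intro h i
      have h2 := h i (by omega)
      have h3 : (i : ℕ) < m + 1 := i.2
      simp only [hw, h3, dif_pos] at h2
      simpa using h2
  change law {x : ℤ → Bool | U (m + 1) x = v} = 0 ∨ ∃ q : ℝ,
    law {x : ℤ → Bool | U (m + 1) x = v} = ENNReal.ofReal q ∧
      c1 * g ^ (m + 1) ≤ q ∧ q ≤ (g ^ 2)⁻¹ * g ^ (m + 1)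
  rw [e, law_cyl]
  have hg := g_pos
  rcases prod_tr w m with h | h
  · left
    rw [h, mul_zero, ENNReal.ofReal_zero]
  · right
    refine ⟨_, rfl, ?_, ?_⟩
    · rw [h]
      have h1 := stat_ge (w 0)
      have h2 : g ^ m * g ≤ g ^ m * wt (w m) / wt (w 0) := by
        rw [le_div_iff₀ (wt_pos _)]
        calc g ^ m * g * wt (w 0) ≤ g ^ m * g * 1 := by
              gcongr
              exact wt_le_one _
          _ ≤ g ^ m * wt (w m) := by
              rw [mul_one]
              gcongr
              exact g_le_wt _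
      calc c1 * g ^ (m + 1) = c1 * (g ^ m * g) := by ring
        _ ≤ stat (g ^ 2) (w 0) * (g ^ m * wt (w m) / wt (w 0)) := by
            gcongr
            exact c1_pos.le.trans h1
    · rw [h]
      have h2 : g ^ m * wt (w m) / wt (w 0) ≤ g ^ m / g := by
        rw [div_le_div_iff₀ (wt_pos _) hg]
        calc g ^ m * wt (w m) * g ≤ g ^ m * 1 * g := by
              gcongr
              exact wt_le_one _
          _ ≤ g ^ m * wt (w 0) := by
              rw [mul_one]
              gcongr
              exact g_le_wt _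
      calc stat (g ^ 2) (w 0) * (g ^ m * wt (w m) / wt (w 0)) ≤ 1 * (g ^ m / g) := by
            have := stat_le (w 0)
            have : 0 ≤ g ^ m * wt (w m) / wt (w 0) := by
              have := wt_pos (w m)
              have := wt_pos (w 0)
              positivity
            gcongr
        _ = (g ^ 2)⁻¹ * g ^ (m + 1) := by
            rw [pow_succ g m]
            field_simp

theorem q_le (n : ℕ) (v : Fin n → Bool) :
    law {x | U n x = v} ≤ ENNReal.ofReal ((g ^ 2)⁻¹ * g ^ n) := by
  have hg := g_pos
  by_cases hn : n = 0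
  · subst hn
    refine prob_le_one.trans ?_
    rw [← ENNReal.ofReal_one]
    apply ENNReal.ofReal_le_ofReal
    rw [pow_zero, mul_one]
    exact (one_le_inv₀ p_pos).2 p_lt_one.le
  · rcases q_bounds n v hn with h | ⟨q, h1, _, h3⟩
    · rw [h]
      exact bot_le
    · rw [h1]
      exact ENNReal.ofReal_le_ofReal h3

theorem entropyRate : HasEntropyRate law (-Real.log g) := by
  unfold HasEntropyRate
  have hg := g_pos
  set H : ℕ → ℝ := fun n => ∑ v : Fin n → Bool,
    Real.negMulLog (law {x | ∀ i : Fin n, x (i : ℕ) = v i}).toReal with hH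
  have hset : ∀ (n : ℕ) (v : Fin n → Bool), {x : ℤ → Bool | ∀ i : Fin n, x (i : ℕ) = v i} =
      {x | U n x = v} := by
    intro n v
    ext x
    simp [U, funext_iff]
  have hsum : ∀ n : ℕ, ∑ v : Fin n → Bool, (law {x | U n x = v}).toReal = 1 := by
    intro n
    have : IsProbabilityMeasure (law.map (U n)) :=
      Measure.isProbabilityMeasure_map (measurable_U n).aemeasurable
    have h6 := lintegral_fintype (μ := law.map (U n)) (fun _ : Fin n → Bool => (1 : ℝ≥0∞))
    simp only [lintegral_const, measure_univ, mul_one, one_mul] at h6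
    rw [← ENNReal.toReal_sum fun v _ => measure_ne_top _ _]
    have h7 : ∑ v : Fin n → Bool, law {x | U n x = v} = ∑ v : Fin n → Bool, law.map (U n) {v} := by
      refine Finset.sum_congr rfl fun v _ => ?_
      rw [Measure.map_apply (measurable_U n) (measurableSet_singleton v)]
      rfl
    rw [h7, ← h6, ENNReal.toReal_one]
  have hb : ∀ n : ℕ, n ≠ 0 → -Real.log (g ^ 2)⁻¹ - n * Real.log g ≤ H n ∧
      H n ≤ -Real.log c1 - n * Real.log g := by
    intro n hn
    have hterm : ∀ v : Fin n → Bool,
        (-Real.log (g ^ 2)⁻¹ - n * Real.log g) * (law {x | U n x = v}).toReal ≤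
          Real.negMulLog (law {x | U n x = v}).toReal ∧
        Real.negMulLog (law {x | U n x = v}).toReal ≤
          (-Real.log c1 - n * Real.log g) * (law {x | U n x = v}).toReal := by
      intro v
      rcases q_bounds n v hn with h | ⟨q, h1, h2, h3⟩
      · rw [h]
        simp
      · have hc1 := c1_pos
        have hq : 0 < q := lt_of_lt_of_le (by positivity) h2
        rw [h1, ENNReal.toReal_ofReal hq.le]
        have l1 := Real.log_le_log (by positivity) h2
        have l2 := Real.log_le_log hq h3
        rw [Real.log_mul (by positivity) (by positivity), Real.log_pow] at l1 l2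
        rw [Real.negMulLog]
        constructor
        · nlinarith
        · nlinarith
    simp only [hH, hset]
    constructor
    · calc -Real.log (g ^ 2)⁻¹ - n * Real.log g
          = ∑ v : Fin n → Bool, (-Real.log (g ^ 2)⁻¹ - n * Real.log g) *
            (law {x | U n x = v}).toReal := by
            rw [← Finset.mul_sum, hsum, mul_one]
        _ ≤ _ := Finset.sum_le_sum fun v _ => (hterm v).1
    · calc _ ≤ ∑ v : Fin n → Bool, (-Real.log c1 - n * Real.log g) *
            (law {x | U n x = v}).toReal := Finset.sum_le_sum fun v _ => (hterm v).2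
        _ = _ := by
            rw [← Finset.mul_sum, hsum, mul_one]
  have hlim : ∀ a : ℝ, Tendsto (fun n : ℕ => (a - n * Real.log g) / n) atTop
      (𝓝 (-Real.log g)) := by
    intro a
    have h1 : Tendsto (fun n : ℕ => a / (n : ℝ) + (-Real.log g)) atTop
        (𝓝 (0 + -Real.log g)) :=
      (tendsto_const_div_atTop_nhds_zero_nat a).add tendsto_const_nhds
    rw [zero_add] at h1
    refine h1.congr' ?_
    filter_upwards [eventually_ne_atTop 0] with n hn
    have : (n : ℝ) ≠ 0 := by exact_mod_cast hn
    field_simp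
    ring
  refine tendsto_of_tendsto_of_tendsto_of_le_of_le' (hlim (-Real.log (g ^ 2)⁻¹))
    (hlim (-Real.log c1)) ?_ ?_
  · filter_upwards [eventually_ne_atTop 0] with n hn
    have := (hb n hn).1
    gcongr
  · filter_upwards [eventually_ne_atTop 0] with n hn
    have := (hb n hn).2
    gcongr

/-- There is no factor map from an iid process of the same entropy whose coding window is
integrable. -/
theorem no_factor {T : Type} [MeasurableSpace T] [MeasurableSingletonClass T] (ν : Measure T)
    [IsProbabilityMeasure ν] (hν : shannon ν = ENNReal.ofReal (-Real.log g))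
    (φ : (ℤ → T) → ℤ → Bool) (hφ : IsFactorMap ν law φ) (G : Set (ℤ → T))
    (hG : iid ℤ ν Gᶜ = 0) : ∑' r : ℕ, iid ℤ ν (Bad G φ r) = ⊤ := by
  classical
  by_contra hB
  have hsum : ∑' x, ν {x} = 1 := by
    by_contra h
    rw [shannon, if_neg h] at hν
    exact ENNReal.ofReal_ne_top hν.symm
  rw [shannon, if_pos hsum] at hν
  set A : Set T := {x | ν {x} ≠ 0} with hA
  have hAc : A.Countable :=
    Summable.countable_support_ennreal (f := fun x => ν {x}) (by rw [hsum]; exact ENNReal.one_ne_top)
  have hAm : MeasurableSet A := hAc.measurableSet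
  have htsum : ∑' x : A, ν {(x : T)} = 1 := by
    rw [← hsum]
    exact tsum_subtype_eq_of_support_subset (f := fun x => ν {x}) (fun x hx => hx)
  have hA1 : ν A = 1 := by
    rw [← htsum, ← measure_biUnion hAc (fun x _ y _ hxy => by simpa using hxy)
      (fun x _ => measurableSet_singleton x)]
    congr 1
    ext x
    simp
  have hAae : ∀ᵐ x ∂ν, x ∈ A := by
    rw [ae_iff]
    have := prob_compl_eq_one_sub (μ := ν) hAm
    rw [hA1, tsub_self] at this
    exact this
  set ν' : Measure A := ν.comap ((↑) : A → T) with hν'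
  have hmap : ν'.map ((↑) : A → T) = ν := by
    rw [hν', map_comap_subtype_coe hAm, Measure.restrict_eq_self_of_ae_mem hAae]
  have hνs : ∀ a : A, ν' {a} = ν {(a : T)} := by
    intro a
    rw [hν', comap_subtype_coe_apply hAm]
    simp
  have hprob : IsProbabilityMeasure ν' := by
    constructor
    rw [hν', comap_subtype_coe_apply hAm]
    simpa using hA1
  have : Countable A := hAc.to_subtype
  set j : (ℤ → A) → (ℤ → T) := fun y i => (y i : T) with hj
  have hjm : Measurable j := measurable_pi_lambda _ fun i =>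
    measurable_subtype_coe.comp (measurable_pi_apply i)
  have hjmap : (iid ℤ ν').map j = iid ℤ ν := by
    have h := Measure.infinitePi_map_pi (μ := fun _ : ℤ => ν')
      (f := fun _ : ℤ => ((↑) : A → T)) (fun _ => measurable_subtype_coe)
    simp only [hmap] at h
    exact h
  have hjmp : MeasurePreserving j (iid ℤ ν') (iid ℤ ν) := ⟨hjm, hjmap⟩
  have hφ' : IsFactorMap ν' law (φ ∘ j) := by
    refine ⟨hφ.measurable.comp hjm, fun k => ?_, ?_⟩
    · filter_upwards [hjmp.quasiMeasurePreserving.ae (hφ.equivariant k)] with y hy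
      exact hy
    · rw [← Measure.map_map hφ.measurable hjm, hjmap, hφ.map_eq]
  have hG' : iid ℤ ν' (j ⁻¹' G)ᶜ = 0 := by
    have := hjmp.quasiMeasurePreserving.preimage_null hG
    simpa using this
  have hbad : ∀ r, iid ℤ ν' (Bad (j ⁻¹' G) (φ ∘ j) r) ≤ iid ℤ ν (Bad G φ r) := by
    intro r
    calc iid ℤ ν' (Bad (j ⁻¹' G) (φ ∘ j) r) ≤ iid ℤ ν' (j ⁻¹' Bad G φ r) := by
          refine measure_mono ?_
          rintro y ⟨h1, z, h2, h3, h4⟩
          refine ⟨h1, j z, h2, fun i hi => ?_, h4⟩
          simp only [hj]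
          rw [h3 i hi]
      _ ≤ ((iid ℤ ν').map j) (Bad G φ r) := Measure.le_map_apply hjm.aemeasurable _
      _ = _ := by rw [hjmap]
  have hB' : ∑' r : ℕ, iid ℤ ν' (Bad (j ⁻¹' G) (φ ∘ j) r) ≠ ⊤ :=
    ne_top_of_le_ne_top hB (ENNReal.tsum_le_tsum hbad)
  have hsh : ∑' x : A, ENNReal.ofReal (Real.negMulLog (ν' {x}).toReal) =
      ENNReal.ofReal (-Real.log g) := by
    rw [← hν]
    simp_rw [hνs]
    refine tsum_subtype_eq_of_support_subset
      (f := fun x => ENNReal.ofReal (Real.negMulLog (ν {x}).toReal)) ?_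
    intro x hx
    rw [hA, Set.mem_ofPred_eq]
    intro h0
    apply hx
    simp [h0]
  have hall := main ν' hφ' hG' g_pos g_lt_one ((one_le_inv₀ p_pos).2 p_lt_one.le) q_le hB' hsh
  have hall2 : ∀ a : A, ν {(a : T)} = ENNReal.ofReal g := by
    intro a
    rw [← hνs]
    apply hall
    rw [hνs]
    exact a.2
  have hne : Nonempty A := by
    by_contra hemp
    rw [not_nonempty_iff] at hemp
    simp at htsum
  obtain ⟨a⟩ := hne
  by_cases hsub : ∀ b : A, b = a
  · have h1 : ∑' x : A, ν {(x : T)} = ν {(a : T)} :=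
      tsum_eq_single a fun b hb => absurd (hsub b) hb
    rw [h1, hall2] at htsum
    rw [← ENNReal.ofReal_one] at htsum
    have := (ENNReal.ofReal_eq_ofReal_iff g_pos.le zero_le_one).1 htsum
    linarith [g_lt_one]
  · push Not at hsub
    obtain ⟨b, hb⟩ := hsub
    have h1 := ENNReal.sum_le_tsum (f := fun x : A => ν {(x : T)}) {a, b}
    rw [Finset.sum_pair (Ne.symm hb), htsum, hall2, hall2,
      ← ENNReal.ofReal_add g_pos.le g_pos.le, ← ENNReal.ofReal_one] at h1
    have := (ENNReal.ofReal_le_ofReal_iff zero_le_one).1 h1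
    linarith [half_lt_g]

end Pool.Agent.R987.Gold
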