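import Mathlib
import Pool.Agent.R987.NormCay

/-! Listing sequences. -/

namespace Pool.Agent.R987.Listing

open Equiv Equiv.Perm Finset
open Pool.Agent.R987.NormCay

/-- A listing sequence of `A`: a list of `|G|` elements of `A` whose partial products
`a₁, a₁ a₂, …, a₁ ⋯ aₙ` are pairwise distinct. -/
def IsListing {G : Type*} [Group G] (A : Set G) (l : List G) : Prop :=
  (∀ a ∈ l, a ∈ A) ∧ l.length = Nat.card G ∧
    ∀ i j, i < l.length → j < l.length → (l.take (i + 1)).prod = (l.take (j + 1)).prod → i = j

theorem listing_of_ham {G : Type*} [Group G] [Finite G] (A : Set G) (h : Ham G A) :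
    ∃ l : List G, IsListing A l ∧ l.prod = 1 := by
  classical
  have := Fintype.ofFinite G
  obtain ⟨σ, hσ, hA⟩ := h
  have hc : σ.IsCycleOn ((Finset.univ : Finset G) : Set G) := by simpa using hσ
  set n := Nat.card G with hn
  have hn' : (Finset.univ : Finset G).card = n := by
    rw [Finset.card_univ, hn, Nat.card_eq_fintype_card]
  let f : ℕ → G := fun i => ((σ ^ i) 1)⁻¹ * (σ ^ (i + 1)) 1
  have hprod : ∀ k, ((List.range k).map f).prod = (σ ^ k) 1 := by
    intro k
    induction k with
    | zero => simp
    | succ k ih =>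
      rw [List.range_succ, List.map_append, List.prod_append, ih]
      simp [f]
  have htake : ∀ k, k ≤ n → (((List.range n).map f).take k).prod = (σ ^ k) 1 := by
    intro k hk
    rw [← List.map_take, List.take_range, min_eq_left hk, hprod]
  refine ⟨(List.range n).map f, ⟨?_, by rw [List.length_map, List.length_range], ?_⟩, ?_⟩
  · intro a ha
    obtain ⟨i, -, rfl⟩ := List.mem_map.mp ha
    have := hA ((σ ^ i) 1)
    simp only [f]
    rw [pow_succ', Perm.mul_apply]
    exact this
  · intro i j hi hj h
    rw [List.length_map, List.length_range] at hi hj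
    rw [htake _ (by omega), htake _ (by omega),
      hc.pow_apply_eq_pow_apply (Finset.mem_univ _), hn'] at h
    have h2 : i ≡ j [MOD n] := Nat.ModEq.add_right_cancel' 1 h
    exact Nat.ModEq.eq_of_lt_of_lt h2 hi hj
  · rw [hprod, ← hn', hc.pow_card_apply (Finset.mem_univ _)]

end Pool.Agent.R987.Listing
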