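import Mathlib

set_option autoImplicit false

namespace Pool.Agent.R987.Paint

variable {V : Type}

/-- One-step closure of a predicate on positions (tokens, needs). -/
def Closed (G : SimpleGraph V) (W : (V → ℕ) → (V → ℕ) → Prop) : Prop :=
  ∀ t n : V → ℕ, (∀ v, n v ≤ t v) →
    (∀ M : Set V, M.Nonempty → (∀ v ∈ M, 0 < n v) →
      ∃ I ⊆ M, G.IsIndepSet I ∧
        W (t - M.indicator (fun _ => (1 : ℕ))) (n - I.indicator (fun _ => (1 : ℕ)))) →
    W t n

/-- Painter wins from the position `(t, n)`. -/
def Win (G : SimpleGraph V) (t n : V → ℕ) : Prop :=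
  ∀ W : (V → ℕ) → (V → ℕ) → Prop, Closed G W → W t n

theorem win_closed (G : SimpleGraph V) : Closed G (Win G) := by
  intro t n h1 h2 W hW
  refine hW t n h1 fun M hM hn => ?_
  obtain ⟨I, hI, hind, hw⟩ := h2 M hM hn
  exact ⟨I, hI, hind, hw W hW⟩

theorem win_inv {G : SimpleGraph V} {t n : V → ℕ} (h : Win G t n) :
    (∀ v, n v ≤ t v) ∧ (∀ M : Set V, M.Nonempty → (∀ v ∈ M, 0 < n v) →
      ∃ I ⊆ M, G.IsIndepSet I ∧
        Win G (t - M.indicator (fun _ => (1 : ℕ))) (n - I.indicator (fun _ => (1 : ℕ)))) := by
  refine h (fun t n => (∀ v, n v ≤ t v) ∧ (∀ M : Set V, M.Nonempty → (∀ v ∈ M, 0 < n v) →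
      ∃ I ⊆ M, G.IsIndepSet I ∧
        Win G (t - M.indicator (fun _ => (1 : ℕ))) (n - I.indicator (fun _ => (1 : ℕ))))) ?_
  intro t n h1 h2
  refine ⟨h1, fun M hM hn => ?_⟩
  obtain ⟨I, hI, hind, hw⟩ := h2 M hM hn
  refine ⟨I, hI, hind, win_closed G _ _ hw.1 ?_⟩
  exact hw.2

/-- More tokens do not hurt. -/
theorem win_mono {G : SimpleGraph V} {t n : V → ℕ} (h : Win G t n) :
    ∀ t' : V → ℕ, (∀ v, t v ≤ t' v) → Win G t' n := by
  refine h (fun t n => ∀ t' : V → ℕ, (∀ v, t v ≤ t' v) → Win G t' n) ?_
  intro t n h1 h2 t' ht
  refine win_closed G _ _ (fun v => (h1 v).trans (ht v)) fun M hM hn => ?_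
  obtain ⟨I, hI, hind, hw⟩ := h2 M hM hn
  refine ⟨I, hI, hind, hw _ fun v => ?_⟩
  simp only [Pi.sub_apply]
  exact Nat.sub_le_sub_right (ht v) _

/-- Tokens at finished vertices are irrelevant. -/
theorem win_congr {G : SimpleGraph V} {t n : V → ℕ} (h : Win G t n) :
    ∀ t' : V → ℕ, (∀ v, 0 < n v → t v ≤ t' v) → Win G t' n := by
  refine h (fun t n => ∀ t' : V → ℕ, (∀ v, 0 < n v → t v ≤ t' v) → Win G t' n) ?_
  intro t n h1 h2 t' ht
  refine win_closed G _ _ (fun v => ?_) fun M hM hn => ?_
  · rcases Nat.eq_zero_or_pos (n v) with h0 | h0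
    · omega
    · exact (h1 v).trans (ht v h0)
  obtain ⟨I, hI, hind, hw⟩ := h2 M hM hn
  refine ⟨I, hI, hind, hw _ fun v hv => ?_⟩
  simp only [Pi.sub_apply] at hv ⊢
  exact Nat.sub_le_sub_right (ht v (by omega)) _

/-- A vertex with more tokens than the needs of its neighbours may be added for free. -/
theorem win_add {G : SimpleGraph V} [DecidableEq V] (v : V) (N : Finset V)
    (hN : ∀ u, G.Adj v u → u ∈ N) {t n : V → ℕ} (h : Win G t n) :
    n v = 0 → ∀ t' : V → ℕ, (∀ u, u ≠ v → 0 < n u → t u ≤ t' u) →
      1 + ∑ u ∈ N, n u ≤ t' v → Win G t' (Function.update n v 1) := by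
  refine (h (fun t n => Win G t n ∧ (n v = 0 → ∀ t' : V → ℕ,
    (∀ u, u ≠ v → 0 < n u → t u ≤ t' u) → 1 + ∑ u ∈ N, n u ≤ t' v →
      Win G t' (Function.update n v 1))) ?_).2
  intro t n h1 h2
  have hwin : Win G t n := by
    refine win_closed G _ _ h1 fun M hM hn => ?_
    obtain ⟨I, hI, hind, hw⟩ := h2 M hM hn
    exact ⟨I, hI, hind, hw.1⟩
  refine ⟨hwin, fun hv t' ht hτ => ?_⟩
  refine win_closed G _ _ (fun u => ?_) fun M hM hn => ?_
  · by_cases huv : u = v
    · subst huv
      simp only [Function.update_self]
      omega
    · rw [Function.update_of_ne huv]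
      rcases Nat.eq_zero_or_pos (n u) with h0 | h0
      · omega
      · exact (h1 u).trans (ht u huv h0)
  by_cases hvM : v ∈ M
  · by_cases hM' : (M \ {v}).Nonempty
    · obtain ⟨I, hI, hind, hw⟩ := h2 (M \ {v}) hM' (fun u hu => by
        have := hn u hu.1
        rwa [Function.update_of_ne (by simpa using hu.2)] at this)
      have hvI : v ∉ I := fun hvI => (hI hvI).2 rfl
      by_cases hadj : ∃ u ∈ I, G.Adj v u
      · obtain ⟨u0, hu0, hadj⟩ := hadj
        refine ⟨I, fun u hu => (hI hu).1, hind, ?_⟩
        have e : Function.update n v 1 - I.indicator (fun _ => (1 : ℕ)) =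
            Function.update (n - I.indicator (fun _ => (1 : ℕ))) v 1 := by
          funext u
          by_cases huv : u = v
          · subst huv
            simp [hvI]
          · simp [Function.update_of_ne huv]
        rw [e]
        refine hw.2 ?_ _ ?_ ?_
        · simp [hv]
        · intro u huv hu
          simp only [Pi.sub_apply]
          have h3 : 0 < n u := by
            simp only [Pi.sub_apply] at hu
            omega
          have h4 : M.indicator (fun _ => (1 : ℕ)) u = (M \ {v}).indicator (fun _ => (1 : ℕ)) u := by
            by_cases huM : u ∈ M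
            · rw [Set.indicator_of_mem huM, Set.indicator_of_mem (show u ∈ M \ {v} from ⟨huM, by simpa using huv⟩)]
            · rw [Set.indicator_of_notMem huM, Set.indicator_of_notMem (fun h => huM h.1)]
          rw [h4]
          exact Nat.sub_le_sub_right (ht u huv h3) _
        · have hlt : ∑ u ∈ N, (n - I.indicator (fun _ => (1 : ℕ))) u < ∑ u ∈ N, n u := by
            refine Finset.sum_lt_sum (fun u _ => by simp only [Pi.sub_apply]; omega)
              ⟨u0, hN u0 hadj, ?_⟩
            have h5 : 0 < n u0 := by
              have := hn u0 (hI hu0).1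
              rwa [Function.update_of_ne (by simpa using (hI hu0).2)] at this
            simp only [Pi.sub_apply, Set.indicator_of_mem hu0]
            omega
          simp only [Pi.sub_apply, Set.indicator_of_mem hvM] at hlt ⊢
          omega
      · push Not at hadj
        refine ⟨insert v I, ?_, ?_, ?_⟩
        · intro u hu
          rcases hu with rfl | hu
          · exact hvM
          · exact (hI hu).1
        · intro a ha b hb hab
          rcases ha with rfl | ha
          · rcases hb with rfl | hb
            · exact absurd rfl hab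
            · exact hadj b hb
          · rcases hb with rfl | hb
            · exact fun h => hadj a ha h.symm
            · exact hind ha hb hab
        · have e : Function.update n v 1 - (insert v I).indicator (fun _ => (1 : ℕ)) =
              n - I.indicator (fun _ => (1 : ℕ)) := by
            funext u
            by_cases huv : u = v
            · subst huv
              simp [hv]
            · have h6 : (insert v I).indicator (fun _ => (1 : ℕ)) u = I.indicator (fun _ => (1 : ℕ)) u := by
                by_cases huI : u ∈ I
                · rw [Set.indicator_of_mem huI, Set.indicator_of_mem (Set.mem_insert_of_mem _ huI)]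
                · rw [Set.indicator_of_notMem huI, Set.indicator_of_notMem]
                  rintro (h | h)
                  · exact huv h
                  · exact huI h
              simp only [Pi.sub_apply, Function.update_of_ne huv, h6]
          rw [e]
          refine win_congr hw.1 _ fun u hu => ?_
          have huv : u ≠ v := by
            rintro rfl
            simp [hv] at hu
          simp only [Pi.sub_apply] at hu ⊢
          have h4 : M.indicator (fun _ => (1 : ℕ)) u = (M \ {v}).indicator (fun _ => (1 : ℕ)) u := by
            by_cases huM : u ∈ M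
            · rw [Set.indicator_of_mem huM, Set.indicator_of_mem (show u ∈ M \ {v} from ⟨huM, by simpa using huv⟩)]
            · rw [Set.indicator_of_notMem huM, Set.indicator_of_notMem (fun h => huM h.1)]
          rw [h4]
          exact Nat.sub_le_sub_right (ht u huv (by omega)) _
    · have hMv : M = {v} := by
        ext u
        constructor
        · intro hu
          by_contra hne
          exact hM' ⟨u, hu, hne⟩
        · intro hu
          rw [Set.mem_singleton_iff.mp hu]
          exact hvM
      subst hMv
      refine ⟨{v}, subset_rfl, Set.pairwise_singleton _ _, ?_⟩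
      have e : Function.update n v 1 - ({v} : Set V).indicator (fun _ => (1 : ℕ)) = n := by
        funext u
        by_cases huv : u = v
        · subst huv
          simp [hv]
        · simp [Function.update_of_ne huv, huv]
      rw [e]
      refine win_congr hwin _ fun u hu => ?_
      have huv : u ≠ v := by
        rintro rfl
        omega
      simp only [Pi.sub_apply]
      rw [Set.indicator_of_notMem (by simpa using huv)]
      simpa using ht u huv hu
  · obtain ⟨I, hI, hind, hw⟩ := h2 M hM (fun u hu => by
        have := hn u hu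
        rwa [Function.update_of_ne (by rintro rfl; exact hvM hu)] at this)
    have hvI : v ∉ I := fun hvI => hvM (hI hvI)
    refine ⟨I, hI, hind, ?_⟩
    have e : Function.update n v 1 - I.indicator (fun _ => (1 : ℕ)) =
        Function.update (n - I.indicator (fun _ => (1 : ℕ))) v 1 := by
      funext u
      by_cases huv : u = v
      · subst huv
        simp [hvI]
      · simp [huv]
    rw [e]
    refine hw.2 ?_ _ ?_ ?_
    · simp [hv]
    · intro u huv hu
      simp only [Pi.sub_apply] at hu ⊢
      exact Nat.sub_le_sub_right (ht u huv (by omega)) _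
    · have hle : ∑ u ∈ N, (n - I.indicator (fun _ => (1 : ℕ))) u ≤ ∑ u ∈ N, n u :=
        Finset.sum_le_sum (fun u _ => by simp only [Pi.sub_apply]; omega)
      simp only [Pi.sub_apply, Set.indicator_of_notMem hvM] at hle ⊢
      omega

theorem win_zero (G : SimpleGraph V) (t n : V → ℕ) (h : ∀ v, n v = 0) : Win G t n := by
  refine win_closed G _ _ (fun v => by rw [h v]; exact Nat.zero_le _) fun M hM hn => ?_
  obtain ⟨v, hv⟩ := hM
  have := hn v hv
  rw [h v] at this
  exact absurd this (lt_irrefl _)

end Pool.Agent.R987.Paint
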