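import Mathlib

set_option autoImplicit false

namespace Pool.Agent.R987.Paint

/-- a response: coloured set, optional set, support and tokens of the target, vertices to add -/
abbrev Rule : Type := ℕ × ℕ × ℕ × ℕ × List ℕ

/-- a position with its responses -/
abbrev Entry : Type := ℕ × ℕ × List Rule

def e0 : Entry := (511, 71969060,
  [(194, 317, 0, 0, [4, 0, 3, 2, 8, 5]), (24, 485, 0, 0, [7, 6, 8, 5, 2, 0, 1]),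
   (148, 363, 0, 0, [6, 8, 3, 1, 0, 5]), (88, 423, 0, 0, [7, 8, 2, 1, 0, 5]),
   (257, 236, 0, 0, [7, 6, 5, 4, 3, 2, 1]), (257, 186, 0, 0, [7, 4, 5, 6, 3, 1, 2]),
   (34, 397, 460, 52954816, [0, 4]), (257, 118, 0, 0, [6, 4, 5, 7, 2, 1, 3]),
   (34, 333, 460, 54789824, [0, 4]), (36, 283, 411, 54531611, [6]),
   (129, 372, 0, 0, [6, 4, 5, 8, 2, 1, 3]), (40, 468, 0, 0, [7, 6, 8, 2, 4, 1, 0]),
   (24, 422, 0, 0, [7, 8, 6, 5, 2, 1, 0]), (130, 333, 0, 0, [6, 8, 2, 3, 0, 4, 5]),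
   (20, 362, 0, 0, [6, 8, 7, 5, 3, 1, 0]), (72, 279, 0, 0, [4, 1, 0, 2, 8, 7, 5]),
   (24, 391, 0, 0, [7, 8, 6, 2, 1, 0, 5]), (132, 105, 0, 0, [6, 5, 4, 0, 3, 1, 8]),
   (130, 121, 0, 0, [4, 6, 5, 0, 3, 2, 8]), (66, 189, 0, 0, [4, 7, 5, 0, 3, 2, 8]),
   (272, 236, 0, 0, [7, 6, 5, 3, 2, 0, 1]), (132, 354, 0, 0, [6, 5, 4, 8, 1, 0, 3]),
   (72, 404, 0, 0, [7, 8, 4, 2, 1, 0, 5]), (144, 358, 0, 0, [6, 8, 2, 1, 3, 0, 5]),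
   (288, 86, 0, 0, [6, 4, 1, 2, 0, 3, 7]), (257, 206, 0, 0, [7, 6, 3, 2, 1, 4, 5]),
   (65, 424, 0, 0, [7, 5, 4, 3, 8, 1, 2]), (20, 489, 0, 0, [6, 7, 5, 8, 3, 0, 1]),
   (65, 428, 0, 0, [7, 3, 8, 2, 1, 4, 5]), (40, 83, 0, 0, [4, 1, 0, 6, 2, 8, 7]),
   (192, 294, 287, 50342092, [5]), (132, 344, 0, 0, [6, 8, 4, 3, 1, 0, 5]),
   (80, 426, 0, 0, [7, 8, 3, 1, 2, 0, 5]), (66, 412, 0, 0, [7, 8, 3, 2, 4, 0, 5]),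
   (256, 14, 255, 4859548, []), (129, 360, 0, 0, [6, 8, 3, 2, 1, 4, 5]),
   (65, 440, 0, 0, [4, 7, 5, 8, 3, 1, 2]), (34, 213, 477, 69474499, []),
   (20, 459, 0, 0, [7, 6, 8, 3, 1, 0, 5]), (1, 14, 462, 71829144, [4, 5]),
   (288, 154, 0, 0, [7, 4, 3, 1, 0, 2, 6]), (128, 332, 351, 50603748, [5]),
   (64, 388, 415, 52439204, [5]), (272, 206, 0, 0, [7, 6, 3, 2, 1, 0, 5]),
   (36, 472, 0, 0, [6, 7, 8, 4, 3, 1, 0]), (32, 25, 479, 71833379, []),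
   (16, 267, 463, 55052059, [5]), (8, 22, 503, 71962780, []), (32, 196, 479, 69478628, []),
   (4, 98, 507, 71641116, []), (2, 261, 509, 38414531, [])])

def e1 : Entry := (479, 71833379,
  [(148, 331, 331, 50594842, []), (88, 387, 0, 0, [7, 8, 1, 0, 2]),
   (194, 269, 0, 0, [4, 0, 3, 2, 8]), (88, 263, 0, 0, [0, 2, 1, 8, 7]),
   (208, 259, 271, 50333458, []), (257, 204, 0, 0, [7, 6, 4, 3, 2, 1]),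
   (272, 139, 0, 0, [7, 3, 0, 1, 2, 6]), (257, 142, 0, 0, [7, 4, 3, 1, 2, 6]),
   (20, 323, 459, 54789658, []), (72, 263, 0, 0, [4, 0, 1, 2, 8, 7]),
   (24, 263, 327, 34078938, [7]), (132, 328, 347, 50598947, []), (130, 268, 349, 50861251, []),
   (80, 259, 399, 54527770, []), (257, 70, 0, 0, [6, 4, 2, 1, 3, 7]),
   (193, 12, 0, 0, [4, 3, 2, 1, 8]), (144, 11, 335, 67634458, []),
   (130, 13, 0, 0, [4, 0, 3, 2, 6, 8]), (72, 386, 0, 0, [7, 4, 8, 1, 0, 2]),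
   (66, 261, 413, 54531778, []), (8, 262, 343, 50860251, [7]),
   (132, 265, 0, 0, [4, 0, 3, 1, 8, 6]), (8, 7, 0, 0, [4, 0, 1, 2, 6, 8, 7]),
   (192, 264, 287, 50337059, []), (256, 136, 0, 0, [7, 4, 3, 0, 1, 2, 6]),
   (4, 320, 475, 54793763, []), (4, 258, 411, 54531611, [6]), (129, 264, 350, 34084128, []),
   (65, 4, 414, 71308896, []), (16, 3, 463, 71829274, []), (4, 3, 0, 0, [4, 0, 1, 3, 7, 8, 6]),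
   (64, 256, 415, 54531875, []), (256, 2, 0, 0, [4, 1, 0, 3, 7, 2, 6]),
   (128, 8, 351, 67638563, []), (2, 65, 477, 71571202, []), (1, 2, 478, 71833360, [])])

def e2 : Entry := (479, 69478628,
  [(194, 285, 0, 0, [4, 2, 0, 3, 8]), (208, 269, 271, 33556131, []),
   (148, 267, 0, 0, [6, 8, 3, 1, 0]), (88, 263, 0, 0, [7, 8, 2, 1, 0]),
   (193, 268, 0, 0, [2, 8, 3, 1, 4]), (130, 281, 349, 50599619, []),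
   (130, 269, 0, 0, [6, 2, 8, 3, 0, 4]), (66, 277, 413, 52435075, []),
   (72, 263, 407, 52437147, []), (20, 267, 0, 0, [7, 6, 8, 3, 1, 0]),
   (192, 268, 287, 33564324, []), (144, 265, 335, 50595555, []), (132, 281, 347, 50598947, []),
   (80, 261, 399, 52431011, []), (24, 259, 0, 0, [7, 6, 8, 2, 1, 0]),
   (257, 14, 0, 0, [7, 6, 2, 3, 1, 4]), (129, 264, 0, 0, [6, 8, 2, 3, 1, 4]),
   (65, 260, 0, 0, [7, 8, 2, 3, 1, 4]), (257, 22, 0, 0, [7, 6, 4, 2, 1, 3]),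
   (4, 266, 0, 0, [7, 6, 8, 3, 1, 4, 0]), (4, 11, 475, 69477915, []),
   (128, 264, 351, 50603748, []), (64, 260, 415, 52439204, []),
   (2, 272, 0, 0, [7, 6, 8, 4, 2, 3, 0]), (8, 258, 0, 0, [7, 6, 8, 2, 1, 4, 0]),
   (2, 17, 477, 69474499, []), (8, 3, 471, 69476571, []), (16, 256, 0, 0, [7, 6, 8, 2, 3, 1, 0]),
   (16, 1, 463, 69470435, []), (256, 1, 223, 2369762, []), (1, 256, 0, 0, [7, 6, 8, 2, 3, 1, 4])])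

def e3 : Entry := (255, 4859548,
  [(148, 107, 0, 0, [6, 3, 1, 0, 5]), (88, 167, 0, 0, [7, 2, 1, 0, 5]),
   (194, 45, 0, 0, [2, 3, 0, 4, 5]), (193, 50, 0, 0, [4, 1, 2, 3, 5]),
   (193, 44, 0, 0, [2, 3, 1, 4, 5]), (24, 163, 231, 2719891, []), (132, 43, 27, 9235, [5, 6]),
   (36, 83, 0, 0, [4, 1, 0, 3, 7, 6]), (36, 75, 27, 9235, [7, 6]),
   (20, 171, 0, 0, [7, 3, 1, 0, 5, 6]), (144, 98, 0, 0, [6, 2, 1, 3, 0, 5]),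
   (36, 216, 0, 0, [7, 6, 3, 4, 1, 0]), (129, 50, 0, 0, [4, 1, 2, 6, 5, 3]),
   (34, 137, 0, 0, [7, 3, 2, 6, 0, 4]), (65, 50, 0, 0, [4, 1, 2, 3, 7, 5]),
   (34, 73, 0, 0, [6, 2, 3, 7, 0, 4]), (66, 21, 0, 0, [4, 2, 0, 3, 7, 5]),
   (66, 13, 0, 0, [2, 3, 7, 0, 4, 5]), (40, 208, 0, 0, [7, 6, 2, 4, 1, 0]),
   (72, 148, 0, 0, [7, 2, 4, 1, 0, 5]), (129, 104, 0, 0, [6, 2, 3, 1, 4, 5]),
   (130, 73, 0, 0, [6, 2, 3, 0, 4, 5]), (80, 38, 0, 0, [2, 1, 3, 7, 0, 5]),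
   (65, 168, 0, 0, [7, 3, 2, 1, 4, 5]), (65, 52, 0, 0, [4, 2, 1, 3, 7, 5]),
   (65, 44, 0, 0, [2, 3, 7, 1, 4, 5]), (34, 21, 0, 0, [4, 2, 0, 3, 7, 6]),
   (4, 11, 27, 9235, [7, 5, 6]), (192, 36, 31, 9820, [5]), (1, 48, 254, 4822680, []),
   (40, 131, 23, 8339, [6, 7]), (1, 18, 0, 0, [4, 1, 2, 3, 7, 6, 5]),
   (8, 3, 23, 8339, [6, 5, 7]), (128, 32, 127, 632476, []), (8, 144, 247, 2756764, []),
   (32, 64, 95, 272028, [7]), (64, 4, 31, 9820, [7, 5]), (16, 160, 239, 2721436, []),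
   (16, 6, 0, 0, [2, 1, 3, 7, 6, 0, 5]), (2, 129, 253, 2762371, [])])

def e4 : Entry := (503, 71962780,
  [(20, 483, 0, 0, [7, 6, 8, 5, 1, 0]), (208, 295, 0, 0, [2, 1, 8, 0, 5]),
   (194, 293, 0, 0, [4, 2, 0, 5, 8]), (132, 353, 0, 0, [6, 4, 5, 0, 1, 8]),
   (144, 291, 326, 50856080, [0, 5]), (36, 387, 0, 0, [7, 4, 1, 8, 6, 0]),
   (272, 99, 0, 0, [6, 2, 1, 0, 5, 7]), (66, 293, 0, 0, [4, 2, 0, 5, 7, 8]),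
   (193, 292, 0, 0, [4, 2, 1, 8, 5]), (130, 289, 117, 626819, [8]),
   (132, 259, 0, 0, [4, 1, 8, 6, 0, 5]), (65, 292, 0, 0, [4, 2, 1, 8, 7, 5]),
   (80, 295, 0, 0, [2, 1, 8, 7, 0, 5]), (288, 192, 0, 0, [7, 6, 4, 2, 1, 0]),
   (257, 160, 0, 0, [7, 4, 5, 6, 2, 1]), (4, 352, 0, 0, [6, 4, 5, 7, 8, 1, 0]),
   (34, 321, 0, 0, [6, 2, 8, 7, 4, 0]), (4, 259, 499, 55185427, []), (16, 35, 487, 71925907, []),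
   (192, 292, 0, 0, [4, 2, 1, 8, 0, 5]), (257, 130, 0, 0, [4, 1, 2, 6, 7, 5]),
   (129, 96, 0, 0, [4, 6, 2, 1, 8, 5]), (128, 256, 342, 50860184, [0, 5]),
   (256, 64, 0, 0, [6, 4, 2, 1, 0, 5, 7]), (2, 320, 0, 0, [6, 2, 8, 7, 4, 5, 0]),
   (32, 128, 470, 69734552, [0]), (64, 36, 0, 0, [4, 2, 1, 0, 5, 7, 8]),
   (1, 32, 502, 71930008, []), (2, 65, 0, 0, [4, 6, 2, 0, 5, 7, 8])])

def e5 : Entry := (507, 71641116,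
  [(208, 299, 0, 0, [5, 1, 0, 3, 8]), (194, 297, 0, 0, [5, 4, 0, 3, 8]),
   (34, 409, 0, 0, [7, 6, 8, 4, 3, 0]), (88, 291, 0, 0, [5, 7, 8, 1, 0]),
   (192, 297, 0, 0, [5, 4, 0, 1, 3, 8]), (40, 401, 0, 0, [7, 6, 8, 4, 1, 0]),
   (144, 267, 363, 50660883, []), (80, 291, 427, 54560787, []),
   (66, 297, 0, 0, [5, 7, 4, 0, 3, 8]), (288, 147, 0, 0, [7, 6, 4, 1, 0, 3]),
   (130, 265, 0, 0, [6, 5, 4, 0, 8, 3]), (72, 289, 0, 0, [5, 7, 4, 0, 1, 8]),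
   (24, 259, 0, 0, [6, 5, 7, 8, 1, 0]), (129, 264, 0, 0, [6, 5, 4, 8, 1, 3]),
   (65, 288, 0, 0, [5, 7, 4, 8, 1, 3]), (272, 3, 0, 0, [6, 5, 7, 1, 0, 3]),
   (257, 10, 0, 0, [6, 5, 7, 4, 1, 3]), (32, 145, 475, 69474331, []),
   (128, 264, 379, 50669084, []), (64, 288, 443, 54568988, []),
   (2, 264, 0, 0, [6, 5, 7, 8, 4, 3, 0]), (16, 3, 491, 71632915, []),
   (2, 9, 0, 0, [6, 5, 7, 4, 0, 3, 8]), (8, 256, 0, 0, [6, 5, 7, 8, 4, 1, 0]),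
   (8, 1, 0, 0, [6, 5, 7, 4, 0, 1, 8]), (256, 2, 0, 0, [6, 5, 7, 4, 1, 0, 3]),
   (1, 256, 0, 0, [6, 5, 7, 4, 8, 1, 3])])

def e6 : Entry := (509, 38414531,
  [(193, 316, 0, 0, [8, 4, 2, 3, 5]), (208, 300, 0, 0, [8, 2, 3, 0, 5]),
   (257, 188, 0, 0, [7, 4, 5, 6, 2, 3]), (257, 124, 0, 0, [6, 4, 5, 7, 2, 3]),
   (288, 204, 0, 0, [7, 6, 2, 3, 0, 4]), (132, 312, 0, 0, [8, 6, 4, 5, 0, 3]),
   (288, 92, 0, 0, [6, 4, 2, 0, 3, 7]), (132, 57, 0, 0, [4, 0, 5, 6, 8, 3]),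
   (88, 293, 0, 0, [8, 7, 2, 0, 5]), (192, 300, 0, 0, [8, 2, 3, 0, 4, 5]),
   (144, 296, 0, 0, [8, 6, 2, 3, 0, 5]), (129, 312, 0, 0, [8, 6, 4, 5, 2, 3]),
   (65, 308, 0, 0, [8, 7, 4, 5, 2, 3]), (36, 73, 0, 0, [6, 8, 7, 3, 0, 4]),
   (20, 41, 489, 38372866, []), (256, 84, 0, 0, [6, 4, 2, 0, 5, 7, 3]),
   (72, 276, 0, 0, [8, 7, 2, 4, 0, 5]), (272, 204, 0, 0, [6, 2, 7, 3, 0, 5]),
   (80, 292, 0, 0, [8, 7, 2, 3, 0, 5]), (40, 65, 0, 0, [6, 8, 7, 2, 0, 4]),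
   (72, 261, 0, 0, [8, 7, 2, 0, 4, 5]), (24, 33, 485, 38371522, []),
   (128, 264, 0, 0, [8, 6, 2, 3, 0, 4, 5]), (256, 140, 253, 2762371, []),
   (40, 144, 0, 0, [7, 8, 6, 2, 4, 0]), (1, 48, 496, 38375424, [2, 3]),
   (4, 9, 505, 38413826, []), (32, 128, 0, 0, [7, 8, 6, 2, 3, 0, 4]),
   (32, 64, 0, 0, [6, 8, 7, 2, 3, 0, 4]), (64, 260, 0, 0, [8, 7, 2, 3, 0, 4, 5]),
   (16, 32, 493, 38373571, []), (8, 1, 501, 38412482, [])])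

def e7 : Entry := (351, 50603748,
  [(88, 263, 0, 0, [8, 2, 1, 0]), (66, 277, 285, 33560195, []), (72, 263, 279, 33562779, []),
   (20, 267, 0, 0, [6, 8, 3, 1, 0]), (80, 261, 271, 33556131, []),
   (24, 259, 0, 0, [6, 8, 2, 1, 0]), (257, 14, 0, 0, [6, 2, 3, 1, 4]),
   (65, 260, 0, 0, [8, 2, 3, 1, 4]), (257, 22, 0, 0, [6, 4, 2, 1, 3]),
   (4, 266, 0, 0, [6, 8, 3, 1, 4, 0]), (4, 11, 347, 50603035, []), (64, 260, 287, 33564324, []),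
   (2, 272, 0, 0, [6, 8, 4, 2, 3, 0]), (8, 258, 0, 0, [6, 8, 2, 1, 4, 0]),
   (2, 17, 349, 50599619, []), (8, 3, 343, 50602203, []), (16, 256, 0, 0, [6, 8, 2, 3, 1, 0]),
   (16, 1, 335, 50595555, []), (256, 6, 95, 272028, []), (1, 256, 0, 0, [6, 8, 2, 3, 1, 4])])

def e8 : Entry := (415, 52439204,
  [(148, 267, 0, 0, [8, 3, 1, 0]), (130, 281, 285, 33560195, []),
   (130, 269, 0, 0, [2, 8, 3, 0, 4]), (20, 267, 0, 0, [7, 8, 3, 1, 0]),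
   (144, 265, 271, 33556131, []), (132, 281, 283, 33559587, []),
   (24, 259, 0, 0, [7, 8, 2, 1, 0]), (257, 14, 0, 0, [7, 2, 3, 1, 4]),
   (129, 264, 0, 0, [8, 2, 3, 1, 4]), (257, 22, 0, 0, [7, 4, 2, 1, 3]),
   (4, 266, 0, 0, [7, 8, 3, 1, 4, 0]), (4, 11, 411, 52438555, []), (128, 264, 287, 33564324, []),
   (2, 272, 0, 0, [7, 8, 4, 2, 3, 0]), (8, 258, 0, 0, [7, 8, 2, 1, 4, 0]),
   (2, 17, 413, 52435075, []), (8, 3, 407, 52437147, []), (16, 256, 0, 0, [7, 8, 2, 3, 1, 0]),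
   (16, 1, 399, 52431011, []), (256, 2, 159, 2107540, []), (1, 256, 0, 0, [7, 8, 2, 3, 1, 4])])

def e9 : Entry := (463, 55052059,
  [(194, 269, 269, 33555650, []), (257, 204, 0, 0, [7, 6, 3, 2, 1]),
   (257, 142, 0, 0, [7, 3, 1, 2, 6]), (72, 263, 263, 33554642, [7]),
   (132, 328, 0, 0, [6, 8, 3, 1, 0]), (130, 268, 332, 34079936, [0]),
   (257, 70, 0, 0, [6, 2, 1, 3, 7]), (132, 73, 331, 50594842, []), (130, 13, 333, 50857154, []),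
   (72, 390, 0, 0, [7, 8, 1, 2, 0]), (66, 260, 0, 0, [8, 7, 3, 2, 0]),
   (8, 262, 326, 34078928, [7, 0]), (192, 9, 271, 50332954, []), (66, 5, 397, 54527618, []),
   (8, 7, 327, 50856146, [7]), (192, 258, 271, 33556243, []),
   (256, 138, 0, 0, [7, 3, 1, 0, 2, 6]), (4, 320, 0, 0, [6, 8, 7, 3, 1, 0]),
   (4, 258, 394, 37750288, [6, 0]), (129, 8, 334, 50856728, []), (4, 65, 459, 54789658, []),
   (4, 3, 395, 54527506, [6]), (64, 256, 399, 37750555, []), (8, 388, 0, 0, [7, 8, 6, 2, 1, 0]),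
   (65, 384, 0, 0, [7, 8, 3, 1, 2]), (2, 65, 461, 54789890, []), (128, 8, 335, 50857243, []),
   (1, 2, 462, 55052048, [])])

def e10 : Entry := (463, 71829274,
  [(194, 269, 0, 0, [0, 3, 2, 8]), (257, 204, 0, 0, [7, 6, 3, 2, 1]),
   (257, 142, 0, 0, [7, 3, 1, 2, 6]), (72, 263, 0, 0, [0, 1, 2, 8, 7]),
   (132, 328, 331, 50594842, []), (130, 268, 333, 50857154, []),
   (257, 70, 0, 0, [6, 2, 1, 3, 7]), (193, 12, 0, 0, [3, 2, 1, 8]),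
   (130, 13, 0, 0, [0, 3, 2, 6, 8]), (192, 264, 271, 50332954, []), (66, 260, 397, 54527618, []),
   (8, 262, 327, 50856146, [7]), (132, 265, 0, 0, [0, 3, 1, 8, 6]),
   (66, 133, 0, 0, [0, 7, 3, 2, 8]), (8, 7, 0, 0, [0, 1, 2, 6, 8, 7]),
   (256, 136, 0, 0, [7, 3, 0, 1, 2, 6]), (4, 320, 459, 54789658, []),
   (4, 258, 395, 54527506, [6]), (129, 12, 334, 67634328, []), (65, 6, 398, 71304904, []),
   (4, 3, 0, 0, [0, 1, 3, 7, 8, 6]), (64, 256, 399, 54527770, []),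
   (256, 2, 0, 0, [1, 0, 3, 7, 2, 6]), (128, 8, 335, 67634458, []), (2, 65, 461, 71567105, []),
   (1, 4, 462, 71829144, [])])

def e11 : Entry := (415, 54531875,
  [(148, 267, 267, 33555482, []), (272, 139, 0, 0, [7, 3, 0, 1, 2]),
   (257, 142, 0, 0, [7, 4, 3, 1, 2]), (24, 263, 263, 33554586, [7]),
   (130, 268, 285, 33559747, []), (20, 259, 395, 37750298, []), (24, 387, 0, 0, [7, 8, 1, 0, 2]),
   (130, 13, 0, 0, [4, 0, 3, 2, 8]), (132, 264, 283, 33559587, []), (8, 262, 279, 33558747, [7]),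
   (144, 3, 271, 50333458, []), (132, 9, 0, 0, [4, 0, 3, 1, 8]),
   (8, 7, 0, 0, [4, 0, 1, 2, 8, 7]), (256, 136, 0, 0, [7, 4, 3, 0, 1, 2]),
   (2, 260, 413, 37754563, []), (1, 136, 0, 0, [7, 3, 8, 4, 1, 2]), (16, 3, 399, 54527770, []),
   (2, 5, 413, 54531778, []), (4, 256, 411, 37754403, []), (128, 8, 287, 50337059, []),
   (4, 1, 411, 54531618, [])])

def e12 : Entry := (351, 67638563,
  [(88, 263, 0, 0, [0, 2, 1, 8]), (20, 323, 331, 50594842, []), (72, 263, 0, 0, [4, 0, 1, 2, 8]),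
   (24, 263, 327, 34078938, []), (80, 259, 271, 50332954, []), (66, 261, 0, 0, [4, 0, 3, 2, 8]),
   (257, 14, 0, 0, [4, 3, 1, 2, 6]), (257, 76, 0, 0, [6, 4, 3, 2, 1]),
   (272, 11, 0, 0, [3, 0, 1, 2, 6]), (8, 262, 343, 50860251, []),
   (8, 7, 0, 0, [4, 0, 1, 2, 6, 8]), (4, 320, 347, 50598947, []), (2, 260, 349, 50861251, []),
   (65, 12, 0, 0, [4, 3, 2, 1, 8]), (16, 3, 335, 67634458, []), (2, 5, 0, 0, [4, 0, 3, 2, 6, 8]),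
   (64, 256, 287, 50337059, []), (4, 257, 0, 0, [4, 0, 3, 1, 8, 6]),
   (256, 8, 0, 0, [4, 3, 0, 1, 2, 6]), (1, 256, 350, 34084128, [])])

def e13 : Entry := (463, 69470435,
  [(194, 269, 0, 0, [2, 0, 3, 8]), (193, 268, 0, 0, [2, 8, 3, 1]), (132, 267, 331, 50594842, []),
   (72, 263, 391, 52428954, []), (192, 268, 271, 33556131, []), (130, 265, 333, 50595522, []),
   (66, 261, 397, 52430978, []), (257, 14, 0, 0, [7, 6, 2, 3, 1]),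
   (129, 264, 0, 0, [6, 8, 2, 3, 1]), (65, 260, 0, 0, [7, 8, 2, 3, 1]),
   (4, 266, 0, 0, [7, 6, 8, 3, 1, 0]), (4, 11, 459, 69469722, []), (128, 264, 335, 50595555, []),
   (64, 260, 399, 52431011, []), (8, 258, 0, 0, [7, 6, 8, 2, 1, 0]), (8, 3, 455, 69468378, []),
   (2, 256, 0, 0, [7, 6, 8, 2, 3, 0]), (2, 1, 461, 69470402, []),
   (256, 12, 0, 0, [7, 6, 2, 3, 0, 1]), (1, 256, 0, 0, [7, 6, 8, 2, 3, 1])])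

def e14 : Entry := (443, 54568988,
  [(34, 409, 0, 0, [7, 8, 4, 3, 0]), (40, 401, 0, 0, [7, 8, 4, 1, 0]),
   (144, 267, 299, 33588755, []), (288, 147, 0, 0, [7, 4, 1, 0, 3]),
   (130, 265, 0, 0, [5, 4, 0, 8, 3]), (24, 259, 0, 0, [5, 7, 8, 1, 0]),
   (129, 264, 0, 0, [5, 4, 8, 1, 3]), (272, 3, 0, 0, [5, 7, 1, 0, 3]),
   (257, 10, 0, 0, [5, 7, 4, 1, 3]), (32, 145, 411, 52434971, []), (128, 264, 315, 33596956, []),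
   (2, 264, 0, 0, [5, 7, 8, 4, 3, 0]), (16, 3, 427, 54560787, []),
   (2, 9, 0, 0, [5, 7, 4, 0, 3, 8]), (8, 256, 0, 0, [5, 7, 8, 4, 1, 0]),
   (8, 1, 0, 0, [5, 7, 4, 0, 1, 8]), (256, 2, 0, 0, [5, 7, 4, 1, 0, 3]),
   (1, 256, 0, 0, [5, 7, 4, 8, 1, 3])])

def e15 : Entry := (493, 38373571,
  [(193, 300, 0, 0, [8, 2, 3, 5]), (288, 204, 0, 0, [7, 6, 2, 3, 0]),
   (257, 172, 0, 0, [7, 5, 6, 2, 3]), (257, 108, 0, 0, [6, 5, 7, 2, 3]),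
   (192, 300, 0, 0, [8, 2, 3, 0, 5]), (132, 297, 0, 0, [8, 6, 5, 0, 3]),
   (36, 73, 0, 0, [6, 8, 7, 3, 0]), (72, 292, 0, 0, [8, 7, 2, 5, 0]),
   (129, 296, 0, 0, [8, 6, 5, 2, 3]), (65, 296, 0, 0, [8, 7, 5, 3, 2]),
   (72, 261, 0, 0, [8, 7, 2, 0, 5]), (128, 264, 0, 0, [8, 6, 2, 3, 0, 5]),
   (256, 196, 0, 0, [6, 7, 5, 2, 0, 3]), (4, 264, 0, 0, [8, 7, 6, 5, 3, 0]),
   (40, 129, 0, 0, [7, 8, 6, 2, 0]), (4, 65, 0, 0, [6, 8, 7, 5, 0, 3]),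
   (4, 9, 489, 38372866, []), (8, 256, 0, 0, [8, 7, 6, 5, 2, 0]),
   (32, 128, 0, 0, [7, 8, 6, 2, 3, 0]), (32, 64, 0, 0, [6, 8, 7, 2, 3, 0]),
   (1, 32, 480, 38338560, [2, 3]), (8, 1, 485, 38371522, []), (64, 264, 0, 0, [8, 7, 3, 2, 0, 5])])

def e16 : Entry := (127, 632476,
  [(88, 39, 0, 0, [2, 1, 0, 5]), (36, 83, 0, 0, [6, 4, 1, 0, 3]), (36, 75, 27, 9235, [6]),
   (20, 43, 0, 0, [3, 1, 0, 5, 6]), (66, 49, 0, 0, [4, 5, 0, 2, 3]),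
   (34, 73, 0, 0, [6, 2, 3, 0, 4]), (66, 21, 0, 0, [4, 2, 0, 5, 3]),
   (66, 13, 0, 0, [2, 3, 0, 4, 5]), (24, 35, 103, 589971, []), (65, 52, 0, 0, [4, 5, 2, 1, 3]),
   (65, 40, 0, 0, [3, 2, 1, 4, 5]), (65, 44, 0, 0, [2, 3, 1, 4, 5]),
   (34, 81, 0, 0, [4, 6, 2, 0, 3]), (4, 11, 27, 9235, [5, 6]), (80, 44, 0, 0, [2, 3, 1, 0, 5]),
   (40, 80, 0, 0, [6, 2, 4, 1, 0]), (72, 20, 0, 0, [2, 4, 1, 0, 5]),
   (1, 48, 0, 0, [4, 5, 6, 2, 1, 3]), (40, 3, 23, 8339, [6]), (2, 17, 117, 626819, [3]),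
   (2, 9, 125, 631939, []), (32, 64, 95, 272028, []), (64, 4, 31, 9820, [5]),
   (16, 40, 111, 591004, []), (1, 72, 0, 0, [6, 2, 3, 1, 4, 5]), (8, 16, 119, 626844, [])])

def e17 : Entry := (478, 71833360,
  [(88, 390, 0, 0, [7, 1, 8, 2]), (148, 322, 0, 0, [6, 1, 8, 3]),
   (66, 396, 0, 0, [7, 3, 8, 4, 2]), (148, 266, 0, 0, [1, 3, 8, 6]),
   (272, 194, 0, 0, [7, 6, 1, 3, 2]), (72, 388, 0, 0, [7, 4, 1, 8, 2]),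
   (24, 386, 0, 0, [7, 1, 8, 6, 2]), (130, 268, 332, 34079936, [4]),
   (272, 70, 0, 0, [6, 1, 2, 3, 7]), (272, 14, 0, 0, [1, 3, 7, 2, 6]),
   (132, 320, 0, 0, [6, 4, 1, 8, 3]), (132, 264, 0, 0, [4, 1, 3, 8, 6]),
   (2, 268, 460, 55051456, [4]), (80, 130, 0, 0, [7, 1, 3, 8, 2]), (80, 6, 398, 71304904, []),
   (20, 10, 0, 0, [1, 3, 7, 8, 6]), (256, 192, 0, 0, [7, 6, 4, 1, 3, 2]),
   (8, 384, 0, 0, [7, 4, 1, 8, 6, 2]), (256, 68, 0, 0, [6, 4, 1, 2, 3, 7]),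
   (256, 12, 0, 0, [4, 1, 3, 7, 2, 6]), (144, 6, 334, 67634888, []),
   (64, 128, 0, 0, [7, 4, 1, 3, 8, 2]), (64, 4, 414, 71309008, []), (16, 2, 462, 71829256, []),
   (4, 8, 0, 0, [4, 1, 3, 7, 8, 6]), (128, 256, 350, 50861840, [])])

def e18 : Entry := (379, 50669084,
  [(88, 291, 0, 0, [5, 8, 1, 0]), (80, 291, 299, 33588755, []), (66, 297, 0, 0, [5, 4, 0, 3, 8]),
   (34, 281, 0, 0, [6, 8, 4, 3, 0]), (72, 289, 0, 0, [5, 4, 0, 1, 8]),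
   (40, 273, 0, 0, [6, 8, 4, 1, 0]), (24, 259, 0, 0, [6, 8, 5, 1, 0]),
   (65, 288, 0, 0, [5, 4, 8, 1, 3]), (288, 19, 0, 0, [6, 4, 1, 0, 3]),
   (272, 3, 0, 0, [6, 5, 1, 0, 3]), (257, 10, 0, 0, [6, 5, 4, 1, 3]),
   (64, 288, 315, 33596956, []), (2, 264, 0, 0, [6, 8, 5, 4, 3, 0]), (32, 17, 347, 50599451, []),
   (16, 3, 363, 50660883, []), (2, 9, 0, 0, [6, 5, 4, 0, 3, 8]),
   (8, 256, 0, 0, [6, 8, 5, 4, 1, 0]), (8, 1, 0, 0, [6, 5, 4, 0, 1, 8]),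
   (256, 2, 0, 0, [6, 5, 4, 1, 0, 3]), (1, 256, 0, 0, [6, 5, 4, 8, 1, 3])])

def e19 : Entry := (491, 71632915,
  [(194, 297, 0, 0, [5, 0, 3, 8]), (192, 297, 0, 0, [5, 0, 1, 3, 8]),
   (34, 393, 0, 0, [7, 6, 8, 3, 0]), (66, 297, 0, 0, [5, 7, 0, 3, 8]),
   (40, 385, 0, 0, [7, 6, 8, 1, 0]), (130, 265, 0, 0, [6, 5, 0, 8, 3]),
   (72, 289, 0, 0, [5, 7, 0, 1, 8]), (288, 131, 0, 0, [7, 6, 1, 0, 3]),
   (129, 264, 0, 0, [6, 5, 8, 1, 3]), (65, 288, 0, 0, [5, 7, 8, 1, 3]),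
   (257, 10, 0, 0, [6, 5, 7, 1, 3]), (128, 264, 363, 50660883, []), (64, 288, 427, 54560787, []),
   (2, 264, 0, 0, [6, 5, 7, 8, 3, 0]), (32, 129, 459, 69470226, []),
   (2, 9, 0, 0, [6, 5, 7, 0, 3, 8]), (8, 256, 0, 0, [6, 5, 7, 8, 1, 0]),
   (8, 1, 0, 0, [6, 5, 7, 0, 1, 8]), (256, 2, 0, 0, [6, 5, 7, 1, 0, 3]),
   (1, 256, 0, 0, [6, 5, 7, 8, 1, 3])])

def e20 : Entry := (487, 71925907,
  [(194, 293, 0, 0, [2, 0, 5, 8]), (132, 353, 0, 0, [6, 5, 0, 1, 8]),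
   (36, 387, 0, 0, [7, 1, 8, 6, 0]), (66, 293, 0, 0, [2, 0, 5, 7, 8]),
   (193, 292, 0, 0, [2, 1, 8, 5]), (130, 289, 101, 589954, [8]),
   (132, 259, 0, 0, [1, 8, 6, 0, 5]), (65, 292, 0, 0, [2, 1, 8, 7, 5]),
   (288, 192, 0, 0, [7, 6, 2, 1, 0]), (257, 160, 0, 0, [7, 5, 6, 2, 1]),
   (4, 352, 0, 0, [6, 5, 7, 8, 1, 0]), (34, 321, 0, 0, [6, 2, 8, 7, 0]),
   (4, 259, 483, 55148554, []), (192, 292, 0, 0, [2, 1, 8, 0, 5]),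
   (257, 130, 0, 0, [1, 2, 6, 7, 5]), (129, 96, 0, 0, [6, 2, 1, 8, 5]),
   (256, 128, 231, 2719891, []), (64, 260, 0, 0, [2, 1, 8, 7, 0, 5]),
   (2, 320, 0, 0, [6, 2, 8, 7, 5, 0]), (128, 32, 103, 589971, [8]),
   (32, 64, 0, 0, [6, 2, 1, 8, 7, 0]), (1, 32, 486, 71893136, []),
   (2, 65, 0, 0, [6, 2, 0, 5, 7, 8])])

def e21 : Entry := (239, 2721436,
  [(194, 45, 0, 0, [2, 3, 0, 5]), (132, 105, 0, 0, [6, 5, 3, 0, 1]),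
   (132, 43, 0, 0, [3, 1, 0, 5, 6]), (36, 75, 0, 0, [7, 6, 3, 1, 0]),
   (129, 104, 0, 0, [6, 5, 2, 3, 1]), (130, 41, 109, 590979, []),
   (40, 67, 0, 0, [7, 6, 2, 1, 0]), (72, 7, 0, 0, [7, 2, 1, 0, 5]),
   (192, 40, 0, 0, [3, 2, 1, 0, 5]), (34, 65, 0, 0, [7, 6, 2, 3, 0]),
   (66, 5, 0, 0, [7, 2, 3, 0, 5]), (4, 11, 0, 0, [7, 3, 1, 0, 5, 6]), (128, 40, 111, 591004, []),
   (65, 40, 0, 0, [7, 5, 3, 2, 1]), (4, 73, 0, 0, [7, 6, 5, 3, 0, 1]), (8, 3, 231, 2719891, []),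
   (32, 64, 0, 0, [7, 6, 2, 3, 1, 0]), (1, 32, 0, 0, [7, 5, 6, 2, 3, 1]),
   (2, 1, 237, 2721411, []), (64, 8, 0, 0, [7, 3, 2, 1, 0, 5])])

def e22 : Entry := (287, 50342092,
  [(2, 285, 285, 33560195, []), (20, 265, 0, 0, [1, 8, 3, 0]), (24, 257, 0, 0, [1, 8, 2, 0]),
   (257, 12, 0, 0, [1, 4, 2, 3]), (272, 5, 0, 0, [1, 2, 0, 3]), (4, 264, 0, 0, [1, 8, 4, 3, 0]),
   (4, 9, 0, 0, [1, 4, 0, 3, 8]), (8, 256, 0, 0, [1, 8, 4, 2, 0]), (16, 1, 271, 50333899, []),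
   (8, 1, 0, 0, [1, 4, 0, 2, 8]), (256, 4, 0, 0, [1, 4, 2, 0, 3]),
   (1, 256, 0, 0, [1, 4, 8, 2, 3])])

def e23 : Entry := (477, 69474499,
  [(208, 269, 0, 0, [2, 0, 3, 8]), (192, 269, 0, 0, [4, 0, 2, 3, 8]),
   (148, 265, 0, 0, [6, 8, 3, 0]), (88, 261, 0, 0, [7, 8, 2, 0]), (144, 265, 333, 50595522, []),
   (132, 265, 0, 0, [6, 4, 0, 8, 3]), (80, 261, 397, 52430978, []),
   (72, 261, 0, 0, [7, 4, 0, 2, 8]), (20, 265, 0, 0, [7, 6, 8, 3, 0]),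
   (129, 264, 0, 0, [6, 4, 8, 2, 3]), (65, 260, 0, 0, [7, 4, 8, 2, 3]),
   (24, 257, 0, 0, [7, 6, 8, 2, 0]), (257, 12, 0, 0, [7, 6, 4, 2, 3]),
   (128, 264, 349, 50599619, []), (64, 260, 413, 52435075, []), (272, 5, 0, 0, [7, 6, 2, 0, 3]),
   (4, 264, 0, 0, [7, 6, 8, 4, 3, 0]), (4, 9, 0, 0, [7, 6, 4, 0, 3, 8]),
   (8, 256, 0, 0, [7, 6, 8, 4, 2, 0]), (16, 1, 461, 69470402, []),
   (8, 1, 0, 0, [7, 6, 4, 0, 2, 8]), (256, 4, 0, 0, [7, 6, 4, 2, 0, 3]),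
   (1, 256, 0, 0, [7, 6, 4, 8, 2, 3])])

def e24 : Entry := (399, 54527770,
  [(257, 142, 0, 0, [7, 3, 1, 2]), (130, 268, 269, 33555650, []), (130, 13, 0, 0, [0, 3, 2, 8]),
   (132, 264, 267, 33555482, []), (8, 262, 263, 33554642, [7]), (132, 9, 0, 0, [0, 3, 1, 8]),
   (8, 7, 0, 0, [0, 1, 2, 8, 7]), (256, 136, 0, 0, [7, 3, 0, 1, 2]), (2, 260, 397, 37750466, []),
   (1, 136, 0, 0, [7, 3, 8, 1, 2]), (2, 5, 397, 54527681, []), (4, 256, 395, 37750298, []),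
   (128, 8, 271, 50332954, []), (4, 1, 395, 54527513, [])])

def e25 : Entry := (335, 67634458,
  [(72, 263, 0, 0, [0, 1, 2, 8]), (66, 261, 0, 0, [0, 3, 2, 8]), (257, 14, 0, 0, [3, 1, 2, 6]),
   (257, 76, 0, 0, [6, 3, 2, 1]), (8, 262, 327, 50856146, []), (8, 7, 0, 0, [0, 1, 2, 6, 8]),
   (4, 320, 331, 50594842, []), (2, 260, 333, 50857154, []), (65, 12, 0, 0, [3, 2, 1, 8]),
   (2, 5, 0, 0, [0, 3, 2, 6, 8]), (64, 256, 271, 50332954, []), (1, 4, 334, 67634328, []),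
   (256, 8, 0, 0, [3, 0, 1, 2, 6])])

def e26 : Entry := (287, 50337059,
  [(24, 263, 263, 33554586, []), (20, 259, 267, 33555482, []), (257, 14, 0, 0, [4, 3, 1, 2]),
   (272, 11, 0, 0, [3, 0, 1, 2]), (8, 262, 279, 33558747, []), (8, 7, 0, 0, [4, 0, 1, 2, 8]),
   (2, 260, 285, 33559747, []), (16, 3, 271, 50332954, []), (2, 5, 0, 0, [4, 0, 3, 2, 8]),
   (4, 256, 283, 33559587, []), (4, 1, 0, 0, [4, 0, 3, 1, 8]), (256, 8, 0, 0, [4, 3, 0, 1, 2]),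
   (1, 264, 0, 0, [4, 3, 8, 1, 2])])

def e27 : Entry := (475, 54793763,
  [(208, 267, 267, 33555482, []), (194, 265, 0, 0, [4, 0, 3, 8]),
   (272, 139, 0, 0, [7, 6, 3, 0, 1]), (88, 259, 0, 0, [8, 7, 1, 0]),
   (72, 385, 0, 0, [7, 8, 4, 0, 1]), (257, 138, 0, 0, [7, 6, 4, 3, 1]),
   (80, 259, 395, 37750298, []), (72, 259, 0, 0, [4, 0, 1, 8, 7]), (144, 11, 331, 50594842, []),
   (65, 384, 0, 0, [7, 8, 4, 3, 1]), (130, 264, 0, 0, [6, 8, 4, 3, 0]),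
   (65, 258, 410, 37754392, []), (130, 9, 0, 0, [6, 4, 0, 3, 8]),
   (24, 259, 0, 0, [6, 8, 7, 1, 0]), (192, 264, 283, 33559587, []),
   (256, 136, 0, 0, [7, 6, 4, 3, 0, 1]), (66, 256, 0, 0, [8, 7, 4, 3, 0]),
   (8, 258, 0, 0, [6, 8, 7, 4, 1, 0]), (8, 129, 0, 0, [7, 6, 8, 4, 0, 1]),
   (16, 3, 459, 54789658, []), (8, 3, 0, 0, [6, 4, 0, 1, 8, 7]), (64, 256, 411, 37754403, []),
   (2, 256, 0, 0, [6, 8, 7, 4, 3, 0]), (1, 128, 0, 0, [7, 6, 8, 4, 3, 1]),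
   (1, 2, 474, 54793752, []), (128, 8, 347, 50598947, [])])

def e28 : Entry := (477, 71571202,
  [(208, 269, 0, 0, [0, 3, 2, 8]), (65, 396, 0, 0, [7, 3, 8, 4, 2]),
   (148, 265, 0, 0, [6, 0, 3, 8]), (88, 389, 0, 0, [0, 7, 8, 2]),
   (192, 268, 0, 0, [4, 0, 3, 2, 8]), (24, 385, 0, 0, [7, 6, 8, 0, 2]),
   (257, 140, 0, 0, [7, 6, 4, 3, 2]), (80, 261, 397, 54527681, []),
   (24, 261, 0, 0, [6, 0, 2, 8, 7]), (272, 129, 0, 0, [7, 6, 0, 3, 2]),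
   (132, 264, 0, 0, [6, 4, 0, 3, 8]), (72, 388, 0, 0, [4, 0, 7, 8, 2]),
   (272, 5, 0, 0, [6, 0, 2, 3, 7]), (129, 12, 0, 0, [6, 3, 2, 8, 4]),
   (8, 384, 0, 0, [7, 6, 8, 4, 0, 2]), (64, 260, 413, 54531778, []),
   (8, 260, 0, 0, [6, 4, 0, 2, 8, 7]), (144, 9, 0, 0, [6, 0, 3, 2, 8]),
   (20, 129, 0, 0, [6, 0, 7, 3, 8]), (1, 12, 460, 71566528, [4]),
   (256, 128, 0, 0, [7, 6, 4, 0, 3, 2]), (256, 4, 0, 0, [6, 4, 0, 2, 3, 7]),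
   (16, 1, 461, 71567105, []), (128, 8, 0, 0, [6, 4, 0, 3, 2, 8]),
   (4, 128, 0, 0, [6, 4, 0, 7, 3, 8])])

def e29 : Entry := (287, 33564324,
  [(20, 267, 0, 0, [8, 3, 1, 0]), (24, 259, 0, 0, [8, 2, 1, 0]), (257, 14, 0, 0, [2, 3, 1, 4]),
   (257, 22, 0, 0, [4, 2, 1, 3]), (4, 266, 0, 0, [8, 3, 1, 4, 0]), (4, 11, 283, 33563675, []),
   (2, 272, 0, 0, [8, 4, 2, 3, 0]), (8, 258, 0, 0, [8, 2, 1, 4, 0]), (2, 17, 285, 33560195, []),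
   (8, 3, 279, 33562779, []), (16, 256, 0, 0, [8, 2, 3, 1, 0]), (16, 1, 271, 33556131, []),
   (256, 6, 31, 9820, []), (1, 256, 0, 0, [8, 2, 3, 1, 4])])

def e30 : Entry := (335, 50595555,
  [(72, 263, 263, 33554586, []), (66, 261, 269, 33556098, []), (257, 14, 0, 0, [6, 2, 3, 1]),
   (65, 260, 0, 0, [8, 2, 3, 1]), (4, 266, 0, 0, [6, 8, 3, 1, 0]), (4, 11, 331, 50594842, []),
   (64, 260, 271, 33556131, []), (8, 258, 0, 0, [6, 8, 2, 1, 0]), (8, 3, 327, 50594010, []),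
   (2, 256, 0, 0, [6, 8, 2, 3, 0]), (2, 1, 333, 50595522, []), (256, 12, 0, 0, [6, 2, 3, 0, 1]),
   (1, 256, 0, 0, [6, 8, 2, 3, 1])])

def e31 : Entry := (399, 52431011,
  [(132, 267, 267, 33555482, []), (130, 265, 269, 33556098, []), (257, 14, 0, 0, [7, 2, 3, 1]),
   (129, 264, 0, 0, [8, 2, 3, 1]), (4, 266, 0, 0, [7, 8, 3, 1, 0]), (4, 11, 395, 52430362, []),
   (128, 264, 271, 33556131, []), (8, 258, 0, 0, [7, 8, 2, 1, 0]), (8, 3, 391, 52428954, []),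
   (2, 256, 0, 0, [7, 8, 2, 3, 0]), (2, 1, 397, 52430978, []), (256, 12, 0, 0, [7, 2, 3, 0, 1]),
   (1, 256, 0, 0, [7, 8, 2, 3, 1])])

def e32 : Entry := (475, 69477915,
  [(194, 281, 0, 0, [4, 0, 3, 8]), (208, 265, 0, 0, [3, 0, 1, 8]),
   (130, 281, 0, 0, [6, 4, 0, 3, 8]), (88, 259, 0, 0, [7, 8, 1, 0]),
   (193, 264, 0, 0, [3, 8, 1, 4]), (144, 265, 331, 50594842, []),
   (66, 273, 0, 0, [7, 4, 0, 3, 8]), (66, 265, 0, 0, [7, 3, 8, 0, 4]),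
   (24, 259, 0, 0, [7, 6, 8, 1, 0]), (192, 266, 27, 9235, [8]),
   (129, 264, 0, 0, [6, 8, 3, 1, 4]), (80, 257, 395, 52430362, []),
   (72, 273, 0, 0, [7, 4, 0, 1, 8]), (257, 18, 0, 0, [7, 6, 4, 1, 3]),
   (257, 10, 0, 0, [7, 6, 3, 1, 4]), (128, 264, 347, 50603035, []),
   (65, 256, 0, 0, [7, 8, 3, 1, 4]), (2, 272, 0, 0, [7, 6, 8, 4, 3, 0]),
   (8, 258, 0, 0, [7, 6, 8, 1, 4, 0]), (2, 17, 0, 0, [7, 6, 4, 0, 3, 8]),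
   (2, 9, 0, 0, [7, 6, 3, 8, 0, 4]), (64, 256, 411, 52438555, []),
   (16, 256, 0, 0, [7, 6, 8, 3, 1, 0]), (16, 1, 459, 69469722, []),
   (1, 8, 0, 0, [7, 6, 3, 8, 1, 4]), (256, 1, 155, 2106906, [6])])

def e33 : Entry := (471, 69476571,
  [(194, 277, 0, 0, [4, 0, 2, 8]), (208, 261, 0, 0, [2, 0, 1, 8]),
   (148, 259, 0, 0, [6, 8, 1, 0]), (66, 277, 0, 0, [7, 4, 0, 2, 8]), (192, 261, 23, 8346, [8]),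
   (130, 273, 0, 0, [6, 4, 0, 2, 8]), (130, 261, 0, 0, [6, 2, 8, 0, 4]),
   (80, 261, 391, 52428954, []), (20, 259, 0, 0, [7, 6, 8, 1, 0]), (144, 257, 327, 50594010, []),
   (132, 273, 0, 0, [6, 4, 0, 1, 8]), (65, 260, 0, 0, [7, 8, 2, 1, 4]),
   (257, 18, 0, 0, [7, 6, 4, 1, 2]), (257, 6, 0, 0, [7, 6, 2, 1, 4]),
   (129, 256, 0, 0, [6, 8, 2, 1, 4]), (64, 260, 407, 52437147, []),
   (2, 272, 0, 0, [7, 6, 8, 4, 2, 0]), (4, 258, 0, 0, [7, 6, 8, 1, 4, 0]),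
   (2, 17, 0, 0, [7, 6, 4, 0, 2, 8]), (2, 5, 0, 0, [7, 6, 2, 8, 0, 4]),
   (128, 256, 343, 50602203, []), (16, 256, 0, 0, [7, 6, 8, 2, 1, 0]),
   (16, 1, 455, 69468378, []), (1, 4, 0, 0, [7, 6, 2, 8, 1, 4]), (256, 1, 87, 270554, [7])])

def e34 : Entry := (223, 2369762,
  [(193, 30, 0, 0, [4, 2, 1, 3]), (194, 28, 0, 0, [4, 0, 2, 3]),
   (129, 30, 0, 0, [6, 4, 2, 1, 3]), (88, 7, 0, 0, [7, 0, 2, 1]), (208, 12, 0, 0, [2, 0, 3, 1]),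
   (132, 26, 0, 0, [6, 4, 0, 1, 3]), (65, 22, 0, 0, [7, 4, 2, 1, 3]),
   (65, 14, 0, 0, [7, 3, 2, 1, 4]), (20, 11, 0, 0, [7, 6, 0, 3, 1]), (192, 12, 31, 9890, []),
   (130, 24, 0, 0, [6, 4, 0, 2, 3]), (66, 20, 0, 0, [7, 4, 0, 2, 3]), (72, 6, 23, 8346, [7]),
   (24, 3, 0, 0, [7, 6, 0, 2, 1]), (1, 14, 0, 0, [7, 6, 2, 3, 1, 4]),
   (144, 12, 0, 0, [6, 2, 0, 3, 1]), (80, 4, 0, 0, [7, 2, 0, 3, 1]),
   (1, 22, 0, 0, [7, 6, 4, 2, 1, 3]), (4, 10, 155, 2106906, [6]), (128, 8, 95, 272098, []),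
   (64, 4, 159, 2107554, []), (2, 16, 0, 0, [7, 6, 4, 0, 2, 3]), (8, 2, 87, 270554, [7]),
   (16, 4, 0, 0, [7, 6, 2, 0, 3, 1])])

def e35 : Entry := (475, 69474331,
  [(208, 267, 0, 0, [1, 0, 3, 8]), (194, 265, 0, 0, [4, 0, 3, 8]), (144, 267, 331, 50595346, []),
   (88, 259, 0, 0, [7, 8, 1, 0]), (192, 265, 0, 0, [4, 0, 1, 3, 8]),
   (130, 265, 0, 0, [6, 4, 0, 8, 3]), (80, 259, 395, 52430866, []),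
   (66, 265, 0, 0, [7, 4, 0, 3, 8]), (24, 259, 0, 0, [7, 6, 8, 1, 0]),
   (129, 264, 0, 0, [6, 4, 8, 1, 3]), (72, 257, 0, 0, [7, 4, 0, 1, 8]),
   (272, 3, 0, 0, [7, 6, 1, 0, 3]), (257, 10, 0, 0, [7, 6, 4, 1, 3]),
   (128, 264, 347, 50599451, []), (65, 256, 0, 0, [7, 4, 8, 1, 3]),
   (2, 264, 0, 0, [7, 6, 8, 4, 3, 0]), (16, 3, 459, 69470226, []),
   (2, 9, 0, 0, [7, 6, 4, 0, 3, 8]), (64, 256, 411, 52434971, []),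
   (8, 256, 0, 0, [7, 6, 8, 4, 1, 0]), (8, 1, 0, 0, [7, 6, 4, 0, 1, 8]),
   (256, 2, 0, 0, [7, 6, 4, 1, 0, 3]), (1, 256, 0, 0, [7, 6, 4, 8, 1, 3])])

def e36 : Entry := (253, 2762371,
  [(193, 60, 0, 0, [4, 2, 3, 5]), (132, 120, 0, 0, [6, 4, 5, 0, 3]),
   (129, 60, 0, 0, [2, 6, 4, 5, 3]), (88, 37, 0, 0, [7, 2, 0, 5]),
   (144, 104, 0, 0, [6, 2, 3, 0, 5]), (65, 52, 0, 0, [7, 4, 5, 2, 3]),
   (36, 73, 0, 0, [7, 6, 3, 0, 4]), (20, 41, 0, 0, [7, 3, 0, 5, 6]),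
   (192, 40, 0, 0, [3, 2, 0, 4, 5]), (80, 36, 0, 0, [7, 2, 3, 0, 5]),
   (40, 65, 0, 0, [7, 6, 2, 0, 4]), (72, 5, 0, 0, [7, 2, 0, 4, 5]),
   (40, 17, 0, 0, [7, 4, 0, 2, 6]), (128, 40, 125, 631939, []),
   (1, 48, 0, 0, [7, 4, 5, 6, 2, 3]), (24, 65, 0, 0, [7, 6, 2, 0, 5]),
   (4, 9, 0, 0, [7, 3, 0, 4, 5, 6]), (32, 64, 0, 0, [7, 6, 2, 3, 0, 4]),
   (64, 4, 0, 0, [7, 2, 3, 0, 4, 5]), (16, 32, 237, 2721411, []),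
   (1, 40, 0, 0, [7, 3, 2, 6, 5, 4]), (8, 32, 245, 2728067, [])])

def e37 : Entry := (505, 38413826,
  [(193, 312, 0, 0, [8, 4, 3, 5]), (208, 296, 0, 0, [8, 3, 0, 5]),
   (257, 184, 0, 0, [7, 4, 5, 6, 3]), (257, 120, 0, 0, [6, 4, 5, 7, 3]),
   (288, 200, 0, 0, [7, 6, 3, 0, 4]), (272, 168, 0, 0, [7, 3, 0, 5, 6]),
   (88, 288, 0, 0, [8, 7, 5, 0]), (144, 41, 0, 0, [0, 3, 8, 6, 5]),
   (88, 289, 0, 0, [8, 7, 0, 5]), (192, 296, 0, 0, [8, 3, 0, 4, 5]),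
   (80, 288, 0, 0, [8, 7, 3, 0, 5]), (129, 296, 0, 0, [8, 6, 5, 4, 3]),
   (65, 304, 0, 0, [8, 7, 4, 5, 3]), (72, 33, 0, 0, [0, 4, 5, 7, 8]),
   (24, 33, 481, 38371329, []), (256, 136, 0, 0, [7, 3, 0, 4, 5, 6]),
   (72, 272, 0, 0, [8, 7, 4, 0, 5]), (40, 144, 0, 0, [7, 8, 6, 4, 0]),
   (1, 48, 496, 38375424, [3]), (40, 257, 0, 0, [8, 7, 6, 0, 4]),
   (64, 256, 0, 0, [8, 7, 3, 0, 4, 5]), (128, 48, 0, 0, [4, 0, 5, 6, 8, 3]),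
   (128, 264, 0, 0, [8, 6, 3, 0, 4, 5]), (32, 64, 0, 0, [6, 8, 7, 3, 0, 4]),
   (16, 32, 489, 38372866, []), (8, 1, 497, 38412289, [])])

def e38 : Entry := (501, 38412482,
  [(193, 308, 0, 0, [8, 4, 2, 5]), (208, 292, 0, 0, [8, 2, 0, 5]),
   (257, 180, 0, 0, [7, 4, 5, 6, 2]), (65, 308, 0, 0, [8, 7, 4, 5, 2]),
   (288, 196, 0, 0, [7, 6, 2, 0, 4]), (288, 148, 0, 0, [7, 4, 0, 2, 6]),
   (80, 292, 0, 0, [8, 7, 2, 0, 5]), (148, 289, 0, 0, [8, 6, 0, 5]),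
   (192, 292, 0, 0, [8, 2, 0, 4, 5]), (129, 304, 0, 0, [8, 6, 4, 5, 2]),
   (132, 33, 0, 0, [0, 4, 5, 6, 8]), (20, 33, 481, 38371329, []),
   (256, 144, 0, 0, [7, 4, 0, 5, 6, 2]), (132, 272, 0, 0, [8, 6, 4, 0, 5]),
   (64, 260, 0, 0, [8, 7, 2, 0, 4, 5]), (256, 20, 0, 0, [4, 0, 2, 6, 5, 7]),
   (144, 288, 0, 0, [8, 6, 2, 0, 5]), (36, 80, 0, 0, [6, 8, 7, 4, 0]),
   (1, 48, 496, 38375424, [2]), (36, 257, 0, 0, [8, 7, 6, 0, 4]),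
   (32, 128, 0, 0, [7, 8, 6, 2, 0, 4]), (64, 48, 0, 0, [4, 0, 5, 7, 8, 2]),
   (16, 32, 485, 38371522, []), (4, 1, 497, 38412289, []), (128, 256, 0, 0, [8, 6, 2, 0, 4, 5])])

def e39 : Entry := (499, 55185427,
  [(208, 291, 0, 0, [1, 8, 0, 5]), (194, 289, 0, 0, [4, 0, 5, 8]),
   (272, 163, 0, 0, [7, 1, 0, 5, 6]), (80, 291, 0, 0, [1, 8, 7, 0, 5]),
   (193, 288, 0, 0, [4, 1, 8, 5]), (130, 289, 0, 0, [4, 0, 5, 6, 8]),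
   (66, 289, 0, 0, [4, 0, 5, 7, 8]), (144, 291, 0, 0, [1, 8, 6, 0, 5]),
   (288, 192, 0, 0, [7, 6, 4, 1, 0]), (257, 160, 0, 0, [7, 4, 5, 6, 1]),
   (65, 288, 0, 0, [4, 1, 8, 7, 5]), (34, 257, 0, 0, [8, 7, 6, 4, 0]),
   (16, 35, 483, 55148554, []), (192, 288, 0, 0, [4, 1, 8, 0, 5]), (2, 257, 497, 38408194, []),
   (129, 288, 0, 0, [4, 1, 8, 6, 5]), (256, 128, 0, 0, [7, 4, 1, 0, 5, 6]),
   (64, 256, 0, 0, [4, 1, 8, 7, 0, 5]), (128, 32, 0, 0, [4, 1, 0, 5, 6, 8]),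
   (32, 64, 0, 0, [6, 4, 1, 8, 7, 0]), (1, 32, 498, 55152656, [])])

def e40 : Entry := (502, 71930008,
  [(208, 294, 0, 0, [2, 1, 8, 5]), (194, 292, 0, 0, [4, 5, 2, 8]),
   (20, 418, 0, 0, [7, 5, 6, 8, 1]), (80, 294, 0, 0, [2, 1, 8, 7, 5]),
   (192, 292, 0, 0, [4, 2, 1, 8, 5]), (272, 162, 0, 0, [7, 5, 6, 2, 1]),
   (132, 290, 0, 0, [4, 5, 6, 1, 8]), (66, 292, 0, 0, [4, 5, 7, 2, 8]),
   (288, 130, 0, 0, [7, 4, 1, 2, 6]), (36, 320, 0, 0, [6, 8, 7, 4, 1]),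
   (34, 260, 0, 0, [2, 6, 8, 7, 4]), (144, 98, 0, 0, [6, 2, 1, 8, 5]),
   (130, 320, 0, 0, [6, 2, 8, 4, 5]), (288, 192, 0, 0, [6, 4, 2, 1, 7]),
   (64, 260, 0, 0, [4, 2, 1, 8, 7, 5]), (4, 258, 498, 55152656, []),
   (130, 288, 0, 0, [4, 5, 6, 2, 8]), (16, 34, 486, 71893136, []),
   (256, 128, 0, 0, [7, 4, 5, 6, 2, 1]), (256, 2, 0, 0, [4, 1, 2, 6, 5, 7]),
   (128, 32, 0, 0, [4, 5, 6, 2, 1, 8]), (32, 64, 0, 0, [6, 4, 2, 1, 8, 7]),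
   (2, 128, 0, 0, [4, 7, 5, 6, 2, 8])])

def e41 : Entry := (247, 2756764,
  [(208, 39, 0, 0, [2, 1, 0, 5]), (194, 37, 0, 0, [4, 2, 0, 5]),
   (144, 39, 0, 0, [2, 6, 1, 0, 5]), (80, 39, 0, 0, [7, 2, 1, 0, 5]),
   (132, 97, 0, 0, [6, 4, 5, 0, 1]), (132, 35, 0, 0, [4, 1, 0, 5, 6]),
   (36, 67, 0, 0, [7, 6, 4, 1, 0]), (20, 99, 0, 0, [7, 6, 5, 1, 0]),
   (129, 96, 0, 0, [6, 4, 5, 2, 1]), (130, 33, 117, 626819, []), (66, 33, 0, 0, [7, 4, 5, 0, 2]),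
   (66, 5, 0, 0, [7, 4, 2, 0, 5]), (16, 35, 231, 2719891, []), (192, 36, 0, 0, [4, 2, 1, 0, 5]),
   (65, 36, 0, 0, [7, 4, 5, 2, 1]), (34, 65, 0, 0, [7, 4, 6, 2, 0]),
   (4, 3, 0, 0, [7, 4, 1, 0, 5, 6]), (128, 32, 119, 626844, []),
   (32, 64, 0, 0, [7, 6, 4, 2, 1, 0]), (64, 4, 0, 0, [7, 4, 2, 1, 0, 5]),
   (1, 32, 0, 0, [7, 4, 5, 6, 2, 1]), (1, 2, 0, 0, [7, 4, 1, 2, 6, 5]),
   (2, 64, 0, 0, [7, 4, 6, 5, 2, 0])])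

def e42 : Entry := (399, 37750555,
  [(257, 142, 0, 0, [7, 3, 1, 2]), (130, 268, 0, 0, [8, 3, 2, 0]), (130, 13, 269, 33555650, []),
   (132, 264, 0, 0, [8, 3, 1, 0]), (8, 262, 0, 0, [8, 7, 1, 2, 0]), (132, 9, 267, 33555482, []),
   (8, 7, 263, 33554642, [7]), (256, 138, 0, 0, [7, 3, 1, 0, 2]),
   (2, 260, 0, 0, [8, 7, 3, 2, 0]), (129, 264, 0, 0, [8, 3, 1, 2]), (2, 5, 397, 37750466, []),
   (4, 256, 0, 0, [8, 7, 3, 1, 0]), (8, 134, 0, 0, [7, 8, 1, 2, 0]), (4, 1, 395, 37750298, []),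
   (128, 2, 271, 33556243, []), (1, 256, 0, 0, [8, 7, 3, 1, 2])])

def e43 : Entry := (335, 50857243,
  [(72, 263, 263, 33554642, []), (66, 261, 269, 33555650, []), (257, 14, 0, 0, [3, 1, 2, 6]),
   (257, 76, 0, 0, [6, 3, 2, 1]), (8, 262, 326, 34078928, [0]), (8, 7, 327, 50856146, []),
   (4, 320, 0, 0, [6, 8, 3, 1, 0]), (2, 260, 332, 34079936, [0]), (4, 65, 331, 50594842, []),
   (2, 5, 333, 50857154, []), (64, 256, 271, 33555739, []), (65, 264, 0, 0, [3, 8, 1, 2]),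
   (256, 10, 0, 0, [3, 1, 0, 2, 6]), (1, 8, 334, 50856728, [])])

def e44 : Entry := (462, 71829144,
  [(194, 268, 0, 0, [2, 3, 8]), (132, 328, 0, 0, [6, 8, 3, 1]), (132, 266, 0, 0, [3, 1, 8, 6]),
   (72, 262, 0, 0, [2, 1, 8, 7]), (72, 384, 0, 0, [7, 8, 2, 1]), (130, 264, 332, 50857088, []),
   (4, 322, 458, 54789648, []), (4, 266, 394, 54526992, [6]), (256, 192, 0, 0, [7, 6, 2, 3, 1]),
   (256, 136, 0, 0, [7, 3, 2, 6, 1]), (256, 66, 0, 0, [6, 2, 1, 3, 7]),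
   (8, 258, 326, 50856080, [7]), (192, 12, 0, 0, [2, 3, 1, 8]), (128, 8, 334, 67634328, []),
   (66, 136, 0, 0, [7, 3, 2, 8]), (64, 4, 398, 71304792, []), (2, 128, 460, 69731968, [])])

def e45 : Entry := (254, 4822680,
  [(148, 106, 0, 0, [6, 5, 3, 1]), (88, 166, 0, 0, [7, 5, 2, 1]), (194, 44, 0, 0, [4, 5, 2, 3]),
   (144, 98, 0, 0, [6, 5, 2, 1, 3]), (36, 200, 0, 0, [7, 6, 4, 3, 1]),
   (24, 162, 0, 0, [7, 5, 6, 2, 1]), (132, 42, 0, 0, [4, 5, 6, 1, 3]),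
   (20, 106, 0, 0, [6, 5, 7, 3, 1]), (36, 74, 0, 0, [4, 1, 3, 7, 6]),
   (40, 192, 0, 0, [7, 6, 4, 2, 1]), (72, 132, 0, 0, [7, 4, 5, 2, 1]),
   (130, 40, 0, 0, [4, 5, 6, 2, 3]), (80, 38, 0, 0, [2, 1, 3, 7, 5]),
   (66, 40, 0, 0, [4, 5, 7, 3, 2]), (66, 12, 0, 0, [2, 3, 7, 4, 5]),
   (192, 36, 0, 0, [4, 5, 2, 1, 3]), (16, 34, 238, 4785808, []),
   (34, 136, 0, 0, [7, 3, 2, 6, 4]), (4, 10, 0, 0, [4, 1, 3, 7, 5, 6]),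
   (128, 32, 0, 0, [4, 5, 6, 2, 1, 3]), (8, 128, 0, 0, [7, 4, 5, 6, 2, 1]),
   (32, 64, 0, 0, [6, 4, 2, 1, 3, 7]), (64, 4, 0, 0, [4, 2, 1, 3, 7, 5]),
   (8, 2, 0, 0, [4, 1, 2, 6, 5, 7]), (2, 128, 0, 0, [4, 7, 5, 6, 2, 3])])

def e46 : Entry := (462, 55052048,
  [(194, 268, 0, 0, [8, 3, 2]), (72, 388, 0, 0, [7, 8, 1, 2]), (130, 268, 332, 34079936, []),
   (72, 262, 0, 0, [1, 8, 7, 2]), (132, 320, 0, 0, [6, 8, 1, 3]),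
   (256, 140, 0, 0, [7, 3, 1, 2, 6]), (256, 70, 0, 0, [6, 1, 2, 3, 7]),
   (256, 14, 0, 0, [1, 3, 7, 2, 6]), (192, 256, 0, 0, [8, 1, 3, 2]),
   (132, 8, 0, 0, [3, 1, 8, 6]), (2, 68, 460, 54789824, []), (2, 12, 460, 55051456, []),
   (8, 384, 0, 0, [7, 8, 6, 1, 2]), (4, 64, 458, 54789648, []), (8, 4, 326, 50856080, [7]),
   (128, 256, 334, 34080528, []), (64, 256, 394, 37750288, [2])])

def e47 : Entry := (462, 71829256,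
  [(66, 396, 0, 0, [7, 3, 8, 2]), (72, 388, 0, 0, [7, 1, 8, 2]), (130, 268, 332, 34079936, []),
   (132, 320, 0, 0, [6, 1, 8, 3]), (132, 264, 0, 0, [1, 3, 8, 6]), (2, 268, 460, 55051456, []),
   (256, 192, 0, 0, [7, 6, 1, 3, 2]), (8, 384, 0, 0, [7, 1, 8, 6, 2]),
   (256, 68, 0, 0, [6, 1, 2, 3, 7]), (256, 12, 0, 0, [1, 3, 7, 2, 6]),
   (64, 128, 0, 0, [7, 1, 3, 8, 2]), (64, 4, 398, 71304904, []), (4, 8, 0, 0, [1, 3, 7, 8, 6]),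
   (128, 4, 334, 67634888, [])])

def e48 : Entry := (411, 54531611,
  [(24, 387, 0, 0, [7, 8, 1, 0]), (144, 259, 267, 33555986, []), (130, 265, 0, 0, [4, 0, 3, 8]),
   (257, 136, 0, 0, [7, 4, 3, 1]), (272, 3, 0, 0, [1, 0, 3, 7]), (257, 10, 0, 0, [4, 1, 3, 7]),
   (8, 384, 0, 0, [7, 8, 4, 1, 0]), (8, 258, 0, 0, [4, 1, 8, 7, 0]),
   (129, 8, 0, 0, [4, 3, 1, 8]), (16, 3, 395, 54527506, []), (2, 9, 0, 0, [4, 0, 3, 7, 8]),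
   (128, 256, 283, 33560091, []), (256, 2, 0, 0, [4, 1, 0, 3, 7]), (1, 8, 410, 54531096, [])])

def e49 : Entry := (343, 50860251,
  [(20, 323, 0, 0, [6, 8, 1, 0]), (80, 259, 263, 33554642, []), (66, 261, 0, 0, [4, 0, 2, 8]),
   (257, 68, 0, 0, [6, 4, 2, 1]), (272, 3, 0, 0, [1, 0, 2, 6]), (257, 6, 0, 0, [4, 1, 2, 6]),
   (4, 320, 0, 0, [6, 8, 4, 1, 0]), (4, 258, 0, 0, [4, 1, 8, 6, 0]), (65, 4, 0, 0, [4, 2, 1, 8]),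
   (16, 3, 327, 50856146, []), (2, 5, 0, 0, [4, 0, 2, 6, 8]), (64, 256, 279, 33558747, []),
   (256, 2, 0, 0, [4, 1, 0, 2, 6]), (1, 4, 342, 50860184, [])])

def e50 : Entry := (350, 34084128,
  [(272, 78, 0, 0, [6, 3, 2, 1]), (72, 262, 0, 0, [8, 4, 1, 2]), (24, 70, 0, 0, [6, 8, 2, 1]),
   (66, 260, 0, 0, [8, 4, 3, 2]), (256, 14, 0, 0, [4, 3, 1, 2, 6]), (20, 66, 0, 0, [6, 8, 3, 1]),
   (256, 76, 0, 0, [6, 4, 3, 2, 1]), (80, 258, 0, 0, [8, 3, 1, 2]), (8, 6, 342, 34083032, []),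
   (4, 64, 0, 0, [6, 8, 4, 3, 1]), (16, 2, 334, 34080024, []), (2, 4, 332, 34079936, [4]),
   (64, 256, 0, 0, [4, 8, 3, 1, 2])])

def e51 : Entry := (414, 71308896,
  [(20, 394, 0, 0, [7, 3, 8, 1]), (24, 386, 0, 0, [7, 2, 8, 1]), (132, 266, 0, 0, [4, 3, 1, 8]),
   (272, 130, 0, 0, [7, 2, 3, 1]), (130, 264, 0, 0, [2, 3, 8, 4]), (4, 266, 410, 54531096, []),
   (8, 384, 0, 0, [7, 2, 8, 4, 1]), (8, 258, 0, 0, [4, 2, 1, 8, 7]),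
   (144, 10, 0, 0, [2, 3, 1, 8]), (256, 128, 0, 0, [7, 4, 2, 3, 1]),
   (256, 2, 0, 0, [4, 2, 1, 3, 7]), (16, 2, 398, 71304792, []), (128, 8, 0, 0, [4, 2, 3, 1, 8]),
   (2, 128, 0, 0, [2, 7, 3, 8, 4])])

def e52 : Entry := (427, 54560787,
  [(34, 393, 0, 0, [7, 8, 3, 0]), (40, 385, 0, 0, [7, 8, 1, 0]), (130, 265, 0, 0, [5, 0, 8, 3]),
   (288, 131, 0, 0, [7, 1, 0, 3]), (129, 264, 0, 0, [5, 8, 1, 3]), (257, 10, 0, 0, [5, 7, 1, 3]),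
   (128, 264, 299, 33588755, []), (2, 264, 0, 0, [5, 7, 8, 3, 0]), (32, 129, 395, 52430866, []),
   (2, 9, 0, 0, [5, 7, 0, 3, 8]), (8, 256, 0, 0, [5, 7, 8, 1, 0]), (8, 1, 0, 0, [5, 7, 0, 1, 8]),
   (256, 2, 0, 0, [5, 7, 1, 0, 3]), (1, 256, 0, 0, [5, 7, 8, 1, 3])])

def e53 : Entry := (95, 272028,
  [(88, 7, 0, 0, [2, 1, 0]), (66, 21, 0, 0, [4, 2, 0, 3]), (66, 13, 0, 0, [2, 3, 0, 4]),
   (20, 11, 0, 0, [6, 3, 1, 0]), (65, 20, 0, 0, [4, 2, 1, 3]), (65, 12, 0, 0, [2, 3, 1, 4]),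
   (24, 3, 0, 0, [6, 2, 1, 0]), (4, 11, 27, 9235, [6]), (80, 12, 0, 0, [2, 3, 1, 0]),
   (72, 20, 0, 0, [2, 4, 1, 0]), (2, 17, 0, 0, [6, 4, 2, 0, 3]), (2, 9, 0, 0, [6, 2, 3, 0, 4]),
   (64, 4, 31, 9820, []), (1, 16, 0, 0, [6, 4, 2, 1, 3]), (1, 8, 0, 0, [6, 2, 3, 1, 4]),
   (16, 8, 0, 0, [6, 2, 3, 1, 0]), (8, 16, 0, 0, [6, 2, 4, 1, 0])])

def e54 : Entry := (411, 37754403,
  [(272, 139, 0, 0, [7, 3, 0, 1]), (257, 138, 0, 0, [7, 4, 3, 1]), (144, 11, 267, 33555482, []),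
   (130, 264, 0, 0, [8, 4, 3, 0]), (130, 9, 0, 0, [4, 0, 3, 8]), (24, 259, 0, 0, [8, 7, 1, 0]),
   (256, 136, 0, 0, [7, 4, 3, 0, 1]), (8, 258, 0, 0, [8, 7, 4, 1, 0]),
   (8, 129, 0, 0, [7, 8, 4, 0, 1]), (16, 3, 395, 37750298, []), (8, 3, 0, 0, [4, 0, 1, 8, 7]),
   (2, 256, 0, 0, [8, 7, 4, 3, 0]), (1, 128, 0, 0, [7, 8, 4, 3, 1]), (1, 2, 410, 37754392, []),
   (128, 8, 283, 33559587, [])])

def e55 : Entry := (411, 54531618,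
  [(24, 387, 0, 0, [7, 8, 0, 1]), (272, 131, 0, 0, [7, 0, 3, 1]), (257, 138, 0, 0, [7, 4, 3, 1]),
   (130, 264, 0, 0, [4, 0, 3, 8]), (144, 11, 0, 0, [0, 3, 1, 8]), (129, 10, 0, 0, [4, 3, 1, 8]),
   (8, 384, 0, 0, [7, 8, 4, 0, 1]), (8, 258, 0, 0, [4, 0, 1, 8, 7]), (16, 3, 395, 54527513, []),
   (1, 10, 410, 54531096, []), (256, 128, 0, 0, [7, 4, 0, 3, 1]),
   (256, 2, 0, 0, [4, 0, 1, 3, 7]), (128, 8, 0, 0, [4, 0, 3, 1, 8]),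
   (2, 128, 0, 0, [4, 0, 7, 3, 8])])

def e56 : Entry := (461, 71567105,
  [(65, 396, 0, 0, [7, 3, 8, 2]), (192, 268, 0, 0, [0, 3, 2, 8]), (257, 140, 0, 0, [7, 6, 3, 2]),
   (132, 264, 0, 0, [6, 0, 3, 8]), (72, 388, 0, 0, [0, 7, 8, 2]), (129, 12, 0, 0, [6, 3, 2, 8]),
   (8, 384, 0, 0, [7, 6, 8, 0, 2]), (64, 260, 397, 54527681, []),
   (8, 260, 0, 0, [6, 0, 2, 8, 7]), (1, 12, 460, 71566528, []),
   (256, 128, 0, 0, [7, 6, 0, 3, 2]), (256, 4, 0, 0, [6, 0, 2, 3, 7]),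
   (128, 8, 0, 0, [6, 0, 3, 2, 8]), (4, 128, 0, 0, [6, 0, 7, 3, 8])])

def e57 : Entry := (343, 50602203,
  [(66, 277, 0, 0, [4, 0, 2, 8]), (80, 261, 263, 33554586, []), (20, 259, 0, 0, [6, 8, 1, 0]),
   (65, 260, 0, 0, [8, 2, 1, 4]), (257, 18, 0, 0, [6, 4, 1, 2]), (257, 6, 0, 0, [6, 2, 1, 4]),
   (64, 260, 279, 33562779, []), (2, 272, 0, 0, [6, 8, 4, 2, 0]),
   (4, 258, 0, 0, [6, 8, 1, 4, 0]), (2, 17, 0, 0, [6, 4, 0, 2, 8]),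
   (2, 5, 0, 0, [6, 2, 8, 0, 4]), (16, 256, 0, 0, [6, 8, 2, 1, 0]), (16, 1, 327, 50594010, []),
   (1, 4, 0, 0, [6, 2, 8, 1, 4]), (256, 1, 87, 270554, [])])

def e58 : Entry := (461, 54789890,
  [(72, 389, 0, 0, [7, 8, 0, 2]), (65, 388, 0, 0, [7, 8, 3, 2]), (257, 140, 0, 0, [7, 6, 3, 2]),
   (192, 268, 269, 33555650, []), (132, 264, 0, 0, [6, 8, 3, 0]), (132, 9, 0, 0, [6, 0, 3, 8]),
   (256, 136, 0, 0, [7, 6, 3, 0, 2]), (64, 260, 397, 37750466, []),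
   (8, 260, 0, 0, [6, 8, 7, 2, 0]), (8, 129, 0, 0, [7, 6, 8, 0, 2]),
   (8, 5, 0, 0, [6, 0, 2, 8, 7]), (4, 256, 0, 0, [6, 8, 7, 3, 0]),
   (1, 128, 0, 0, [7, 6, 8, 3, 2]), (1, 4, 460, 54789824, []), (128, 4, 333, 50595522, [])])

def e59 : Entry := (461, 69470402,
  [(192, 269, 0, 0, [0, 2, 3, 8]), (132, 265, 0, 0, [6, 0, 8, 3]), (72, 261, 0, 0, [7, 0, 2, 8]),
   (129, 264, 0, 0, [6, 8, 2, 3]), (65, 260, 0, 0, [7, 8, 2, 3]), (257, 12, 0, 0, [7, 6, 2, 3]),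
   (128, 264, 333, 50595522, []), (64, 260, 397, 52430978, []), (4, 264, 0, 0, [7, 6, 8, 3, 0]),
   (4, 9, 0, 0, [7, 6, 0, 3, 8]), (8, 256, 0, 0, [7, 6, 8, 2, 0]), (8, 1, 0, 0, [7, 6, 0, 2, 8]),
   (256, 4, 0, 0, [7, 6, 2, 0, 3]), (1, 256, 0, 0, [7, 6, 8, 2, 3])])

def e60 : Entry := (411, 52438555,
  [(130, 281, 0, 0, [4, 0, 3, 8]), (144, 265, 267, 33555482, []), (24, 259, 0, 0, [7, 8, 1, 0]),
   (129, 264, 0, 0, [8, 3, 1, 4]), (257, 18, 0, 0, [7, 4, 1, 3]), (257, 10, 0, 0, [7, 3, 1, 4]),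
   (128, 264, 283, 33563675, []), (2, 272, 0, 0, [7, 8, 4, 3, 0]),
   (8, 258, 0, 0, [7, 8, 1, 4, 0]), (2, 17, 0, 0, [7, 4, 0, 3, 8]),
   (2, 9, 0, 0, [7, 3, 8, 0, 4]), (16, 256, 0, 0, [7, 8, 3, 1, 0]), (16, 1, 395, 52430362, []),
   (1, 8, 0, 0, [7, 3, 8, 1, 4]), (256, 1, 155, 2106906, [])])

def e61 : Entry := (159, 2107540,
  [(130, 29, 0, 0, [4, 2, 0, 3]), (132, 25, 0, 0, [4, 1, 0, 3]), (20, 11, 0, 0, [7, 1, 3, 0]),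
   (129, 24, 0, 0, [4, 1, 2, 3]), (24, 3, 0, 0, [7, 1, 2, 0]), (2, 13, 0, 0, [7, 2, 3, 0, 4]),
   (144, 12, 0, 0, [2, 1, 3, 0]), (2, 21, 0, 0, [7, 4, 2, 0, 3]), (4, 9, 155, 2106899, []),
   (128, 8, 31, 9876, []), (1, 16, 0, 0, [7, 4, 1, 2, 3]), (8, 1, 23, 8339, [7]),
   (16, 4, 0, 0, [7, 2, 1, 3, 0])])

def e62 : Entry := (411, 52434971,
  [(144, 267, 267, 33555986, []), (130, 265, 0, 0, [4, 0, 8, 3]), (24, 259, 0, 0, [7, 8, 1, 0]),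
   (129, 264, 0, 0, [4, 8, 1, 3]), (272, 3, 0, 0, [7, 1, 0, 3]), (257, 10, 0, 0, [7, 4, 1, 3]),
   (128, 264, 283, 33560091, []), (2, 264, 0, 0, [7, 8, 4, 3, 0]), (16, 3, 395, 52430866, []),
   (2, 9, 0, 0, [7, 4, 0, 3, 8]), (8, 256, 0, 0, [7, 8, 4, 1, 0]), (8, 1, 0, 0, [7, 4, 0, 1, 8]),
   (256, 2, 0, 0, [7, 4, 1, 0, 3]), (1, 256, 0, 0, [7, 4, 8, 1, 3])])

def e63 : Entry := (315, 33596956,
  [(34, 281, 0, 0, [8, 4, 3, 0]), (40, 273, 0, 0, [8, 4, 1, 0]), (24, 259, 0, 0, [8, 5, 1, 0]),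
   (288, 19, 0, 0, [4, 1, 0, 3]), (272, 3, 0, 0, [5, 1, 0, 3]), (257, 10, 0, 0, [5, 4, 1, 3]),
   (2, 264, 0, 0, [8, 5, 4, 3, 0]), (32, 17, 283, 33560091, []), (16, 3, 299, 33588755, []),
   (2, 9, 0, 0, [5, 4, 0, 3, 8]), (8, 256, 0, 0, [8, 5, 4, 1, 0]), (8, 1, 0, 0, [5, 4, 0, 1, 8]),
   (256, 2, 0, 0, [5, 4, 1, 0, 3]), (1, 256, 0, 0, [5, 4, 8, 1, 3])])

def e64 : Entry := (111, 591004,
  [(36, 75, 0, 0, [6, 3, 1, 0]), (40, 67, 0, 0, [6, 2, 1, 0]), (72, 7, 0, 0, [2, 1, 0, 5]),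
   (34, 65, 0, 0, [6, 2, 3, 0]), (66, 5, 0, 0, [2, 3, 0, 5]), (4, 11, 0, 0, [3, 1, 0, 5, 6]),
   (65, 40, 0, 0, [5, 3, 2, 1]), (4, 73, 0, 0, [6, 5, 3, 0, 1]), (8, 3, 103, 589971, []),
   (32, 64, 0, 0, [6, 2, 3, 1, 0]), (1, 32, 0, 0, [5, 6, 2, 3, 1]), (2, 1, 109, 590979, []),
   (64, 8, 0, 0, [3, 2, 1, 0, 5])])

def e65 : Entry := (119, 626844,
  [(80, 39, 0, 0, [2, 1, 0, 5]), (36, 67, 0, 0, [6, 4, 1, 0]), (20, 99, 0, 0, [6, 5, 1, 0]),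
   (66, 33, 0, 0, [4, 5, 0, 2]), (66, 5, 0, 0, [4, 2, 0, 5]), (16, 35, 103, 589971, []),
   (65, 36, 0, 0, [4, 5, 2, 1]), (34, 65, 0, 0, [4, 6, 2, 0]), (4, 3, 0, 0, [4, 1, 0, 5, 6]),
   (32, 64, 0, 0, [6, 4, 2, 1, 0]), (64, 4, 0, 0, [4, 2, 1, 0, 5]),
   (1, 32, 0, 0, [4, 5, 6, 2, 1]), (2, 1, 117, 626819, [])])

def e66 : Entry := (414, 71309008,
  [(148, 266, 0, 0, [1, 3, 8]), (24, 386, 0, 0, [7, 1, 8, 2]), (130, 268, 0, 0, [3, 2, 8, 4]),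
   (24, 262, 0, 0, [1, 2, 8, 7]), (272, 130, 0, 0, [7, 1, 3, 2]), (132, 264, 0, 0, [4, 1, 3, 8]),
   (272, 6, 0, 0, [1, 2, 3, 7]), (2, 268, 396, 54527104, [4]), (8, 384, 0, 0, [7, 4, 1, 8, 2]),
   (8, 260, 0, 0, [4, 1, 2, 8, 7]), (144, 10, 0, 0, [1, 3, 2, 8]), (20, 130, 0, 0, [1, 7, 3, 8]),
   (256, 128, 0, 0, [7, 4, 1, 3, 2]), (256, 4, 0, 0, [4, 1, 2, 3, 7]),
   (16, 2, 398, 71304904, []), (128, 8, 0, 0, [4, 1, 3, 2, 8]), (4, 128, 0, 0, [4, 1, 7, 3, 8])])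

def e67 : Entry := (350, 50861840,
  [(88, 262, 0, 0, [1, 8, 2]), (272, 70, 0, 0, [6, 1, 2, 3]), (66, 268, 0, 0, [4, 8, 3, 2]),
   (272, 14, 0, 0, [1, 3, 2, 6]), (72, 260, 0, 0, [4, 1, 8, 2]), (2, 268, 332, 34079936, [4]),
   (20, 66, 0, 0, [6, 1, 8, 3]), (20, 10, 0, 0, [1, 3, 8, 6]), (256, 68, 0, 0, [6, 4, 1, 2, 3]),
   (256, 12, 0, 0, [4, 1, 3, 2, 6]), (80, 258, 0, 0, [1, 8, 3, 2]),
   (24, 258, 0, 0, [1, 8, 6, 2]), (4, 64, 0, 0, [6, 4, 1, 8, 3]), (16, 2, 334, 50857736, []),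
   (4, 8, 0, 0, [4, 1, 3, 8, 6]), (64, 256, 0, 0, [4, 1, 8, 3, 2]),
   (8, 256, 0, 0, [4, 1, 8, 6, 2])])

def e68 : Entry := (95, 272098,
  [(88, 7, 0, 0, [0, 2, 1]), (65, 22, 0, 0, [4, 2, 1, 3]), (65, 14, 0, 0, [3, 2, 1, 4]),
   (20, 11, 0, 0, [6, 0, 3, 1]), (66, 20, 0, 0, [4, 0, 2, 3]), (72, 6, 23, 8346, []),
   (24, 3, 0, 0, [6, 0, 2, 1]), (1, 14, 0, 0, [6, 2, 3, 1, 4]), (80, 4, 0, 0, [2, 0, 3, 1]),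
   (1, 22, 0, 0, [6, 4, 2, 1, 3]), (4, 10, 27, 9242, [6]), (64, 4, 31, 9890, []),
   (2, 16, 0, 0, [6, 4, 0, 2, 3]), (8, 2, 87, 270554, []), (16, 4, 0, 0, [6, 2, 0, 3, 1])])

def e69 : Entry := (159, 2107554,
  [(129, 30, 0, 0, [4, 2, 1, 3]), (132, 26, 0, 0, [4, 0, 1, 3]), (20, 11, 0, 0, [7, 0, 3, 1]),
   (130, 24, 0, 0, [4, 0, 2, 3]), (24, 3, 0, 0, [7, 0, 2, 1]), (1, 14, 0, 0, [7, 2, 3, 1, 4]),
   (144, 12, 0, 0, [2, 0, 3, 1]), (1, 22, 0, 0, [7, 4, 2, 1, 3]), (4, 10, 155, 2106906, []),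
   (128, 8, 31, 9890, []), (2, 16, 0, 0, [7, 4, 0, 2, 3]), (8, 2, 23, 8346, [7]),
   (16, 4, 0, 0, [7, 2, 0, 3, 1])])

def e70 : Entry := (271, 50333458,
  [(257, 14, 0, 0, [1, 3, 2]), (2, 268, 269, 33555650, []), (2, 13, 0, 0, [0, 3, 2, 8]),
   (8, 260, 263, 33554642, []), (8, 5, 0, 0, [0, 1, 2, 8]), (4, 256, 267, 33555986, []),
   (4, 1, 0, 0, [0, 1, 3, 8]), (256, 2, 0, 0, [1, 0, 3, 2]), (1, 258, 0, 0, [1, 8, 3, 2])])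

def e71 : Entry := (459, 54789658,
  [(194, 265, 0, 0, [0, 3, 8]), (72, 385, 0, 0, [7, 8, 0, 1]), (257, 138, 0, 0, [7, 6, 3, 1]),
   (72, 259, 0, 0, [0, 1, 8, 7]), (65, 384, 0, 0, [7, 8, 3, 1]), (130, 264, 0, 0, [6, 8, 3, 0]),
   (65, 258, 394, 37750288, []), (130, 9, 0, 0, [6, 0, 3, 8]), (192, 264, 267, 33555482, []),
   (256, 136, 0, 0, [7, 6, 3, 0, 1]), (66, 256, 0, 0, [8, 7, 3, 0]),
   (8, 258, 0, 0, [6, 8, 7, 1, 0]), (8, 129, 0, 0, [7, 6, 8, 0, 1]),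
   (8, 3, 0, 0, [6, 0, 1, 8, 7]), (64, 256, 395, 37750298, []), (2, 256, 0, 0, [6, 8, 7, 3, 0]),
   (1, 128, 0, 0, [7, 6, 8, 3, 1]), (1, 2, 458, 54789648, []), (128, 8, 331, 50594842, [])])

def e72 : Entry := (347, 50598947,
  [(88, 259, 0, 0, [8, 1, 0]), (80, 259, 267, 33555482, []), (72, 259, 0, 0, [4, 0, 1, 8]),
   (272, 11, 0, 0, [6, 3, 0, 1]), (66, 257, 0, 0, [4, 0, 3, 8]), (257, 10, 0, 0, [6, 4, 3, 1]),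
   (24, 259, 0, 0, [6, 8, 1, 0]), (65, 256, 0, 0, [4, 8, 3, 1]), (8, 258, 0, 0, [6, 8, 4, 1, 0]),
   (16, 3, 331, 50594842, []), (8, 3, 0, 0, [6, 4, 0, 1, 8]), (64, 256, 283, 33559587, []),
   (2, 256, 0, 0, [6, 8, 4, 3, 0]), (2, 1, 0, 0, [6, 4, 0, 3, 8]),
   (256, 8, 0, 0, [6, 4, 3, 0, 1]), (1, 256, 0, 0, [6, 4, 8, 3, 1])])

def e73 : Entry := (349, 50861251,
  [(88, 261, 0, 0, [8, 2, 0]), (20, 321, 0, 0, [6, 8, 3, 0]), (72, 261, 0, 0, [4, 0, 2, 8]),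
   (20, 265, 0, 0, [3, 8, 6, 0]), (80, 257, 269, 33555650, []), (257, 68, 0, 0, [6, 4, 2, 3]),
   (272, 9, 0, 0, [3, 0, 2, 6]), (257, 12, 0, 0, [3, 2, 6, 4]), (4, 320, 0, 0, [6, 8, 4, 3, 0]),
   (4, 264, 0, 0, [3, 8, 6, 4, 0]), (65, 12, 0, 0, [3, 2, 8, 4]), (24, 321, 0, 0, [6, 8, 2, 0]),
   (8, 5, 0, 0, [4, 0, 2, 6, 8]), (64, 256, 285, 33559747, []), (256, 8, 0, 0, [4, 3, 0, 2, 6]),
   (16, 1, 333, 50857154, []), (1, 4, 332, 50857088, [4])])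

def e74 : Entry := (413, 54531778,
  [(148, 265, 0, 0, [0, 3, 8]), (24, 385, 0, 0, [7, 8, 0, 2]), (257, 140, 0, 0, [7, 4, 3, 2]),
   (24, 261, 0, 0, [0, 2, 8, 7]), (272, 129, 0, 0, [7, 0, 3, 2]), (132, 264, 0, 0, [4, 0, 3, 8]),
   (272, 5, 0, 0, [0, 2, 3, 7]), (129, 12, 0, 0, [3, 2, 8, 4]), (8, 384, 0, 0, [7, 8, 4, 0, 2]),
   (8, 260, 0, 0, [4, 0, 2, 8, 7]), (144, 9, 0, 0, [0, 3, 2, 8]), (20, 129, 0, 0, [0, 7, 3, 8]),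
   (1, 12, 396, 54527104, [4]), (256, 128, 0, 0, [7, 4, 0, 3, 2]),
   (256, 4, 0, 0, [4, 0, 2, 3, 7]), (16, 1, 397, 54527681, []), (128, 8, 0, 0, [4, 0, 3, 2, 8]),
   (4, 128, 0, 0, [4, 0, 7, 3, 8])])

def e75 : Entry := (271, 33556131,
  [(257, 14, 0, 0, [2, 3, 1]), (4, 266, 0, 0, [8, 3, 1, 0]), (4, 11, 267, 33555482, []),
   (8, 258, 0, 0, [8, 2, 1, 0]), (8, 3, 263, 33554586, []), (2, 256, 0, 0, [8, 2, 3, 0]),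
   (2, 1, 269, 33556098, []), (256, 12, 0, 0, [2, 3, 0, 1]), (1, 256, 0, 0, [8, 2, 3, 1])])

def e76 : Entry := (349, 50599619,
  [(88, 261, 0, 0, [8, 2, 0]), (80, 261, 269, 33556098, []), (72, 261, 0, 0, [4, 0, 2, 8]),
   (20, 265, 0, 0, [6, 8, 3, 0]), (65, 260, 0, 0, [4, 8, 2, 3]), (24, 257, 0, 0, [6, 8, 2, 0]),
   (257, 12, 0, 0, [6, 4, 2, 3]), (64, 260, 285, 33560195, []), (272, 5, 0, 0, [6, 2, 0, 3]),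
   (4, 264, 0, 0, [6, 8, 4, 3, 0]), (4, 9, 0, 0, [6, 4, 0, 3, 8]),
   (8, 256, 0, 0, [6, 8, 4, 2, 0]), (16, 1, 333, 50595522, []), (8, 1, 0, 0, [6, 4, 0, 2, 8]),
   (256, 4, 0, 0, [6, 4, 2, 0, 3]), (1, 256, 0, 0, [6, 4, 8, 2, 3])])

def e77 : Entry := (413, 52435075,
  [(148, 265, 0, 0, [8, 3, 0]), (144, 265, 269, 33556098, []), (132, 265, 0, 0, [4, 0, 8, 3]),
   (20, 265, 0, 0, [7, 8, 3, 0]), (129, 264, 0, 0, [4, 8, 2, 3]), (24, 257, 0, 0, [7, 8, 2, 0]),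
   (257, 12, 0, 0, [7, 4, 2, 3]), (128, 264, 285, 33560195, []), (272, 5, 0, 0, [7, 2, 0, 3]),
   (4, 264, 0, 0, [7, 8, 4, 3, 0]), (4, 9, 0, 0, [7, 4, 0, 3, 8]),
   (8, 256, 0, 0, [7, 8, 4, 2, 0]), (16, 1, 397, 52430978, []), (8, 1, 0, 0, [7, 4, 0, 2, 8]),
   (256, 4, 0, 0, [7, 4, 2, 0, 3]), (1, 256, 0, 0, [7, 4, 8, 2, 3])])

def e78 : Entry := (407, 52437147,
  [(148, 259, 0, 0, [8, 1, 0]), (130, 273, 0, 0, [4, 0, 2, 8]), (130, 261, 0, 0, [2, 8, 0, 4]),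
   (20, 259, 0, 0, [7, 8, 1, 0]), (144, 257, 263, 33554586, []), (132, 273, 0, 0, [4, 0, 1, 8]),
   (257, 18, 0, 0, [7, 4, 1, 2]), (257, 6, 0, 0, [7, 2, 1, 4]), (129, 256, 0, 0, [8, 2, 1, 4]),
   (2, 272, 0, 0, [7, 8, 4, 2, 0]), (4, 258, 0, 0, [7, 8, 1, 4, 0]),
   (2, 17, 0, 0, [7, 4, 0, 2, 8]), (2, 5, 0, 0, [7, 2, 8, 0, 4]), (128, 256, 279, 33562779, []),
   (16, 256, 0, 0, [7, 8, 2, 1, 0]), (16, 1, 391, 52428954, []), (1, 4, 0, 0, [7, 2, 8, 1, 4]),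
   (256, 2, 23, 8339, [7])])

def e79 : Entry := (363, 50660883,
  [(66, 297, 0, 0, [5, 0, 3, 8]), (72, 289, 0, 0, [5, 0, 1, 8]), (34, 265, 0, 0, [6, 8, 3, 0]),
   (65, 288, 0, 0, [5, 8, 1, 3]), (40, 257, 0, 0, [6, 8, 1, 0]), (257, 10, 0, 0, [6, 5, 1, 3]),
   (64, 288, 299, 33588755, []), (288, 3, 0, 0, [6, 1, 0, 3]), (2, 264, 0, 0, [6, 8, 5, 3, 0]),
   (2, 9, 0, 0, [6, 5, 0, 3, 8]), (8, 256, 0, 0, [6, 8, 5, 1, 0]), (32, 1, 331, 50595346, []),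
   (8, 1, 0, 0, [6, 5, 0, 1, 8]), (256, 2, 0, 0, [6, 5, 1, 0, 3]),
   (1, 256, 0, 0, [6, 5, 8, 1, 3])])

def e80 : Entry := (489, 38372866,
  [(193, 296, 0, 0, [8, 3, 5]), (288, 200, 0, 0, [7, 6, 3, 0]), (257, 168, 0, 0, [7, 5, 6, 3]),
   (257, 104, 0, 0, [6, 5, 7, 3]), (192, 296, 0, 0, [8, 3, 0, 5]),
   (129, 296, 0, 0, [8, 6, 5, 3]), (72, 33, 0, 0, [0, 5, 7, 8]),
   (256, 136, 0, 0, [7, 3, 0, 5, 6]), (72, 288, 0, 0, [8, 7, 5, 0]),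
   (40, 129, 0, 0, [7, 8, 6, 0]), (65, 288, 0, 0, [8, 7, 5, 3]),
   (64, 256, 0, 0, [8, 7, 3, 0, 5]), (128, 288, 0, 0, [8, 6, 5, 0, 3]),
   (8, 128, 0, 0, [7, 8, 6, 5, 0]), (32, 64, 0, 0, [6, 8, 7, 3, 0]), (1, 32, 480, 38338560, [3]),
   (8, 1, 481, 38371329, [])])

def e81 : Entry := (485, 38371522,
  [(193, 292, 0, 0, [8, 2, 5]), (288, 196, 0, 0, [7, 6, 2, 0]), (257, 164, 0, 0, [7, 5, 6, 2]),
   (65, 292, 0, 0, [8, 7, 5, 2]), (192, 292, 0, 0, [8, 2, 0, 5]), (132, 33, 0, 0, [0, 5, 6, 8]),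
   (132, 288, 0, 0, [8, 6, 5, 0]), (256, 68, 0, 0, [6, 2, 0, 5, 7]),
   (129, 288, 0, 0, [8, 6, 5, 2]), (36, 65, 0, 0, [6, 8, 7, 0]),
   (128, 256, 0, 0, [8, 6, 2, 0, 5]), (32, 128, 0, 0, [7, 8, 6, 2, 0]),
   (64, 288, 0, 0, [8, 7, 5, 0, 2]), (4, 64, 0, 0, [6, 8, 7, 5, 0]), (1, 32, 480, 38338560, [2]),
   (4, 1, 481, 38371329, [])])

def e82 : Entry := (413, 37754563,
  [(148, 265, 0, 0, [8, 3, 0]), (272, 137, 0, 0, [7, 3, 0, 2]), (257, 140, 0, 0, [7, 4, 3, 2]),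
   (24, 261, 0, 0, [8, 7, 2, 0]), (132, 264, 0, 0, [8, 4, 3, 0]), (20, 257, 0, 0, [8, 7, 3, 0]),
   (144, 9, 269, 33555650, []), (132, 9, 0, 0, [4, 0, 3, 8]), (256, 136, 0, 0, [7, 4, 3, 0, 2]),
   (8, 260, 0, 0, [8, 7, 4, 2, 0]), (8, 129, 0, 0, [7, 8, 4, 0, 2]),
   (8, 5, 0, 0, [4, 0, 2, 8, 7]), (4, 256, 0, 0, [8, 7, 4, 3, 0]),
   (1, 128, 0, 0, [7, 8, 4, 3, 2]), (16, 1, 397, 37750466, []), (1, 4, 396, 37750400, [4]),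
   (128, 8, 285, 33559747, [])])

def e83 : Entry := (271, 50332954,
  [(257, 14, 0, 0, [3, 1, 2]), (8, 262, 263, 33554642, []), (8, 7, 0, 0, [0, 1, 2, 8]),
   (2, 260, 269, 33555650, []), (2, 5, 0, 0, [0, 3, 2, 8]), (4, 256, 267, 33555482, []),
   (4, 1, 0, 0, [0, 3, 1, 8]), (256, 8, 0, 0, [3, 0, 1, 2]), (1, 264, 0, 0, [3, 8, 1, 2])])

def e84 : Entry := (347, 50603035,
  [(88, 259, 0, 0, [8, 1, 0]), (66, 273, 0, 0, [4, 0, 3, 8]), (66, 265, 0, 0, [3, 8, 0, 4]),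
   (24, 259, 0, 0, [6, 8, 1, 0]), (80, 257, 267, 33555482, []), (72, 273, 0, 0, [4, 0, 1, 8]),
   (257, 18, 0, 0, [6, 4, 1, 3]), (257, 10, 0, 0, [6, 3, 1, 4]), (65, 256, 0, 0, [8, 3, 1, 4]),
   (2, 272, 0, 0, [6, 8, 4, 3, 0]), (8, 258, 0, 0, [6, 8, 1, 4, 0]),
   (2, 17, 0, 0, [6, 4, 0, 3, 8]), (2, 9, 0, 0, [6, 3, 8, 0, 4]), (64, 256, 283, 33563675, []),
   (16, 256, 0, 0, [6, 8, 3, 1, 0]), (16, 1, 331, 50594842, []), (1, 8, 0, 0, [6, 3, 8, 1, 4]),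
   (256, 2, 27, 9235, [6])])

def e85 : Entry := (271, 33556243,
  [(257, 14, 0, 0, [1, 3, 2]), (2, 268, 0, 0, [8, 3, 2, 0]), (2, 13, 269, 33555650, []),
   (8, 260, 0, 0, [8, 1, 2, 0]), (8, 5, 263, 33554642, []), (4, 256, 0, 0, [8, 1, 3, 0]),
   (4, 1, 267, 33555986, []), (256, 10, 0, 0, [1, 3, 0, 2]), (1, 256, 0, 0, [8, 1, 3, 2])])

def e86 : Entry := (459, 69469722,
  [(194, 265, 0, 0, [0, 3, 8]), (192, 265, 0, 0, [0, 3, 1, 8]), (130, 265, 0, 0, [6, 0, 3, 8]),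
   (72, 259, 0, 0, [7, 0, 1, 8]), (129, 264, 0, 0, [6, 8, 3, 1]), (66, 257, 0, 0, [7, 0, 3, 8]),
   (257, 10, 0, 0, [7, 6, 3, 1]), (128, 264, 331, 50594842, []), (65, 256, 0, 0, [7, 8, 3, 1]),
   (8, 258, 0, 0, [7, 6, 8, 1, 0]), (8, 3, 0, 0, [7, 6, 0, 1, 8]), (64, 256, 395, 52430362, []),
   (2, 256, 0, 0, [7, 6, 8, 3, 0]), (2, 1, 0, 0, [7, 6, 0, 3, 8]),
   (256, 8, 0, 0, [7, 6, 3, 0, 1]), (1, 256, 0, 0, [7, 6, 8, 3, 1])])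

def e87 : Entry := (455, 69468378,
  [(194, 261, 0, 0, [0, 2, 8]), (192, 261, 0, 0, [0, 2, 1, 8]), (132, 259, 0, 0, [6, 0, 1, 8]),
   (66, 261, 0, 0, [7, 0, 2, 8]), (130, 257, 0, 0, [6, 0, 2, 8]), (65, 260, 0, 0, [7, 8, 2, 1]),
   (257, 6, 0, 0, [7, 6, 2, 1]), (129, 256, 0, 0, [6, 8, 2, 1]), (64, 260, 391, 52428954, []),
   (4, 258, 0, 0, [7, 6, 8, 1, 0]), (4, 3, 0, 0, [7, 6, 0, 1, 8]), (128, 256, 327, 50594010, []),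
   (2, 256, 0, 0, [7, 6, 8, 2, 0]), (2, 1, 0, 0, [7, 6, 0, 2, 8]),
   (256, 4, 0, 0, [7, 6, 2, 0, 1]), (1, 256, 0, 0, [7, 6, 8, 2, 1])])

def e88 : Entry := (125, 631939,
  [(88, 37, 0, 0, [2, 0, 5]), (65, 52, 0, 0, [4, 5, 2, 3]), (36, 73, 0, 0, [6, 3, 0, 4]),
   (20, 41, 0, 0, [3, 0, 5, 6]), (80, 36, 0, 0, [2, 3, 0, 5]), (40, 65, 0, 0, [6, 2, 0, 4]),
   (72, 5, 0, 0, [2, 0, 4, 5]), (24, 33, 101, 589954, []), (1, 48, 0, 0, [4, 5, 6, 2, 3]),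
   (4, 9, 0, 0, [3, 0, 4, 5, 6]), (32, 64, 0, 0, [6, 2, 3, 0, 4]),
   (64, 4, 0, 0, [2, 3, 0, 4, 5]), (16, 32, 109, 590979, []), (1, 40, 0, 0, [3, 2, 6, 5, 4]),
   (8, 16, 117, 626819, [])])

def e89 : Entry := (486, 71893136,
  [(194, 292, 0, 0, [5, 2, 8]), (192, 292, 0, 0, [2, 1, 8, 5]), (132, 290, 0, 0, [5, 6, 1, 8]),
   (66, 292, 0, 0, [5, 7, 2, 8]), (288, 130, 0, 0, [7, 1, 2, 6]), (36, 320, 0, 0, [6, 8, 7, 1]),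
   (34, 260, 0, 0, [2, 6, 8, 7]), (130, 320, 0, 0, [6, 2, 8, 5]), (288, 192, 0, 0, [6, 2, 1, 7]),
   (64, 260, 0, 0, [2, 1, 8, 7, 5]), (4, 258, 482, 55115784, []), (130, 288, 0, 0, [5, 6, 2, 8]),
   (256, 128, 0, 0, [7, 5, 6, 2, 1]), (256, 2, 0, 0, [1, 2, 6, 5, 7]),
   (128, 32, 0, 0, [5, 6, 2, 1, 8]), (32, 64, 0, 0, [6, 2, 1, 8, 7]),
   (2, 128, 0, 0, [7, 5, 6, 2, 8])])

def e90 : Entry := (459, 69470226,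
  [(194, 265, 0, 0, [0, 3, 8]), (192, 265, 0, 0, [0, 1, 3, 8]), (130, 265, 0, 0, [6, 0, 8, 3]),
   (66, 265, 0, 0, [7, 0, 3, 8]), (129, 264, 0, 0, [6, 8, 1, 3]), (72, 257, 0, 0, [7, 0, 1, 8]),
   (257, 10, 0, 0, [7, 6, 1, 3]), (128, 264, 331, 50595346, []), (65, 256, 0, 0, [7, 8, 1, 3]),
   (2, 264, 0, 0, [7, 6, 8, 3, 0]), (2, 9, 0, 0, [7, 6, 0, 3, 8]), (64, 256, 395, 52430866, []),
   (8, 256, 0, 0, [7, 6, 8, 1, 0]), (8, 1, 0, 0, [7, 6, 0, 1, 8]),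
   (256, 2, 0, 0, [7, 6, 1, 0, 3]), (1, 256, 0, 0, [7, 6, 8, 1, 3])])

def e91 : Entry := (347, 50599451,
  [(88, 259, 0, 0, [8, 1, 0]), (80, 259, 267, 33555986, []), (66, 265, 0, 0, [4, 0, 3, 8]),
   (24, 259, 0, 0, [6, 8, 1, 0]), (72, 257, 0, 0, [4, 0, 1, 8]), (272, 3, 0, 0, [6, 1, 0, 3]),
   (257, 10, 0, 0, [6, 4, 1, 3]), (65, 256, 0, 0, [4, 8, 1, 3]), (2, 264, 0, 0, [6, 8, 4, 3, 0]),
   (16, 3, 331, 50595346, []), (2, 9, 0, 0, [6, 4, 0, 3, 8]), (64, 256, 283, 33560091, []),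
   (8, 256, 0, 0, [6, 8, 4, 1, 0]), (8, 1, 0, 0, [6, 4, 0, 1, 8]),
   (256, 2, 0, 0, [6, 4, 1, 0, 3]), (1, 256, 0, 0, [6, 4, 8, 1, 3])])

def e92 : Entry := (237, 2721411,
  [(132, 105, 0, 0, [6, 5, 0, 3]), (129, 104, 0, 0, [6, 5, 2, 3]), (36, 73, 0, 0, [7, 6, 3, 0]),
   (192, 40, 0, 0, [3, 2, 0, 5]), (72, 33, 0, 0, [7, 5, 0, 2]), (72, 5, 0, 0, [7, 2, 0, 5]),
   (128, 40, 109, 590979, []), (65, 40, 0, 0, [7, 5, 3, 2]), (4, 65, 0, 0, [7, 6, 5, 0, 3]),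
   (40, 65, 0, 0, [7, 6, 2, 0]), (4, 9, 0, 0, [7, 3, 0, 5, 6]), (32, 64, 0, 0, [7, 6, 2, 3, 0]),
   (1, 32, 0, 0, [7, 5, 6, 2, 3]), (1, 8, 0, 0, [7, 3, 2, 6, 5]), (64, 8, 0, 0, [7, 3, 2, 0, 5]),
   (8, 64, 0, 0, [7, 6, 5, 2, 0])])

def e93 : Entry := (271, 33555739,
  [(257, 14, 0, 0, [3, 1, 2]), (8, 262, 0, 0, [8, 1, 2, 0]), (8, 7, 263, 33554642, []),
   (2, 260, 0, 0, [8, 3, 2, 0]), (2, 5, 269, 33555650, []), (4, 256, 0, 0, [8, 3, 1, 0]),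
   (4, 1, 267, 33555482, []), (256, 10, 0, 0, [3, 1, 0, 2]), (1, 256, 0, 0, [8, 3, 1, 2])])

def e94 : Entry := (271, 50333899,
  [(2, 269, 269, 33556098, []), (257, 12, 0, 0, [1, 2, 3]), (4, 264, 0, 0, [1, 8, 3, 0]),
   (4, 9, 0, 0, [1, 0, 3, 8]), (8, 256, 0, 0, [1, 8, 2, 0]), (8, 1, 0, 0, [1, 0, 2, 8]),
   (256, 4, 0, 0, [1, 2, 0, 3]), (1, 256, 0, 0, [1, 8, 2, 3])])

def e95 : Entry := (470, 69734552,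
  [(208, 262, 0, 0, [2, 1, 8]), (132, 322, 0, 0, [6, 4, 1, 8]), (148, 322, 0, 0, [6, 8, 1]),
   (20, 322, 0, 0, [7, 6, 8, 1]), (192, 258, 0, 0, [4, 1, 2, 8]), (144, 258, 326, 50856080, []),
   (272, 66, 0, 0, [7, 6, 2, 1]), (66, 260, 0, 0, [7, 2, 8, 4]), (130, 320, 0, 0, [6, 2, 8, 4]),
   (4, 320, 0, 0, [7, 6, 8, 4, 1]), (4, 258, 0, 0, [7, 4, 1, 8, 6]), (80, 6, 0, 0, [7, 2, 1, 8]),
   (128, 256, 342, 50860184, []), (256, 64, 0, 0, [7, 6, 4, 2, 1]),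
   (256, 2, 0, 0, [7, 4, 1, 2, 6]), (16, 2, 454, 69730448, []), (64, 4, 0, 0, [7, 4, 2, 1, 8]),
   (2, 64, 0, 0, [7, 6, 2, 8, 4])])

def e96 : Entry := (231, 2719891,
  [(194, 37, 0, 0, [2, 0, 5]), (132, 97, 0, 0, [6, 5, 0, 1]), (132, 35, 0, 0, [1, 0, 5, 6]),
   (36, 67, 0, 0, [7, 6, 1, 0]), (129, 96, 0, 0, [6, 5, 2, 1]), (130, 33, 101, 589954, []),
   (66, 33, 0, 0, [7, 5, 0, 2]), (66, 5, 0, 0, [7, 2, 0, 5]), (192, 36, 0, 0, [2, 1, 0, 5]),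
   (65, 36, 0, 0, [7, 5, 2, 1]), (34, 65, 0, 0, [7, 6, 2, 0]), (4, 3, 0, 0, [7, 1, 0, 5, 6]),
   (128, 32, 103, 589971, []), (32, 64, 0, 0, [7, 6, 2, 1, 0]), (64, 4, 0, 0, [7, 2, 1, 0, 5]),
   (1, 32, 0, 0, [7, 5, 6, 2, 1]), (1, 2, 0, 0, [7, 1, 2, 6, 5]), (2, 64, 0, 0, [7, 6, 5, 2, 0])])

def e97 : Entry := (31, 9820,
  [(20, 11, 0, 0, [3, 1, 0]), (24, 3, 0, 0, [2, 1, 0]), (4, 11, 27, 9235, []),
   (2, 17, 0, 0, [4, 2, 0, 3]), (2, 9, 0, 0, [2, 3, 0, 4]), (1, 16, 0, 0, [4, 2, 1, 3]),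
   (1, 8, 0, 0, [2, 3, 1, 4]), (16, 8, 0, 0, [2, 3, 1, 0]), (8, 16, 0, 0, [2, 4, 1, 0])])

def e98 : Entry := (334, 67634328,
  [(72, 262, 0, 0, [2, 1, 8]), (66, 260, 0, 0, [2, 3, 8]), (4, 266, 0, 0, [3, 1, 8, 6]),
   (4, 320, 0, 0, [6, 8, 3, 1]), (8, 258, 326, 50856080, []), (256, 64, 0, 0, [6, 2, 3, 1]),
   (2, 256, 332, 50857088, []), (64, 8, 0, 0, [3, 2, 1, 8])])

def e99 : Entry := (398, 71304904,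
  [(130, 268, 0, 0, [3, 2, 8]), (132, 264, 0, 0, [1, 3, 8]), (2, 268, 396, 54527104, []),
   (8, 384, 0, 0, [7, 1, 8, 2]), (8, 260, 0, 0, [1, 2, 8, 7]), (256, 128, 0, 0, [7, 1, 3, 2]),
   (256, 4, 0, 0, [1, 2, 3, 7]), (128, 8, 0, 0, [1, 3, 2, 8]), (4, 128, 0, 0, [1, 7, 3, 8])])

def e100 : Entry := (334, 50856728,
  [(72, 262, 0, 0, [8, 1, 2]), (66, 260, 0, 0, [3, 8, 2]), (8, 262, 326, 34078928, []),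
   (256, 68, 0, 0, [6, 3, 2, 1]), (256, 6, 0, 0, [3, 1, 2, 6]), (4, 64, 0, 0, [6, 3, 8, 1]),
   (4, 2, 0, 0, [3, 1, 8, 6]), (64, 256, 0, 0, [3, 8, 1, 2]), (2, 256, 0, 0, [3, 8, 6, 2])])

def e101 : Entry := (483, 55148554,
  [(194, 289, 0, 0, [0, 5, 8]), (193, 288, 0, 0, [1, 8, 5]), (130, 289, 0, 0, [0, 5, 6, 8]),
   (66, 289, 0, 0, [0, 5, 7, 8]), (288, 192, 0, 0, [7, 6, 1, 0]), (257, 160, 0, 0, [7, 5, 6, 1]),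
   (65, 288, 0, 0, [1, 8, 7, 5]), (34, 257, 0, 0, [8, 7, 6, 0]), (192, 288, 0, 0, [1, 8, 0, 5]),
   (2, 257, 481, 38371329, []), (129, 288, 0, 0, [1, 8, 6, 5]),
   (256, 128, 0, 0, [7, 1, 0, 5, 6]), (64, 256, 0, 0, [1, 8, 7, 0, 5]),
   (128, 32, 0, 0, [1, 0, 5, 6, 8]), (32, 64, 0, 0, [6, 1, 8, 7, 0]), (1, 32, 482, 55115784, [])])

def e102 : Entry := (334, 67634888,
  [(66, 268, 0, 0, [3, 2, 8]), (72, 260, 0, 0, [1, 2, 8]), (2, 268, 332, 50857088, []),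
   (4, 320, 0, 0, [6, 1, 8, 3]), (4, 264, 0, 0, [1, 3, 8, 6]), (256, 64, 0, 0, [6, 1, 2, 3]),
   (256, 8, 0, 0, [1, 3, 2, 6]), (64, 8, 0, 0, [1, 3, 2, 8]), (8, 64, 0, 0, [1, 6, 2, 8])])

def e103 : Entry := (498, 55152656,
  [(208, 290, 0, 0, [1, 8, 5]), (194, 288, 0, 0, [4, 5, 8]), (272, 162, 0, 0, [7, 5, 6, 1]),
   (80, 290, 0, 0, [1, 8, 7, 5]), (288, 192, 0, 0, [7, 6, 4, 1]), (130, 288, 0, 0, [4, 5, 6, 8]),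
   (66, 288, 0, 0, [4, 5, 7, 8]), (144, 290, 0, 0, [1, 8, 6, 5]), (192, 288, 0, 0, [4, 1, 8, 5]),
   (34, 256, 0, 0, [8, 7, 6, 4]), (16, 34, 482, 55115784, []), (256, 128, 0, 0, [7, 4, 5, 6, 1]),
   (64, 256, 0, 0, [4, 1, 8, 7, 5]), (2, 256, 496, 38375424, []),
   (128, 32, 0, 0, [4, 5, 6, 1, 8]), (32, 64, 0, 0, [6, 4, 1, 8, 7])])

def e104 : Entry := (497, 38408194,
  [(208, 289, 0, 0, [8, 0, 5]), (193, 288, 0, 0, [8, 4, 5]), (272, 161, 0, 0, [7, 0, 5, 6]),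
   (80, 289, 0, 0, [8, 7, 0, 5]), (288, 192, 0, 0, [7, 6, 4, 0]), (257, 160, 0, 0, [7, 4, 5, 6]),
   (65, 288, 0, 0, [8, 7, 4, 5]), (144, 289, 0, 0, [8, 6, 0, 5]), (192, 288, 0, 0, [8, 4, 0, 5]),
   (129, 288, 0, 0, [8, 6, 4, 5]), (16, 33, 481, 38371329, []),
   (256, 128, 0, 0, [7, 4, 0, 5, 6]), (64, 256, 0, 0, [8, 7, 4, 0, 5]),
   (128, 32, 0, 0, [4, 0, 5, 6, 8]), (32, 64, 0, 0, [6, 8, 7, 4, 0]), (1, 32, 496, 38375424, [])])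

def e105 : Entry := (497, 38412289,
  [(193, 304, 0, 0, [8, 4, 5]), (208, 288, 0, 0, [8, 0, 5]), (257, 176, 0, 0, [7, 4, 5, 6]),
   (65, 304, 0, 0, [8, 7, 4, 5]), (288, 192, 0, 0, [7, 6, 0, 4]), (272, 160, 0, 0, [7, 0, 5, 6]),
   (80, 288, 0, 0, [8, 7, 0, 5]), (129, 304, 0, 0, [8, 6, 4, 5]), (192, 288, 0, 0, [8, 0, 4, 5]),
   (144, 288, 0, 0, [8, 6, 0, 5]), (1, 48, 496, 38375424, []), (256, 128, 0, 0, [7, 0, 4, 5, 6]),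
   (64, 256, 0, 0, [8, 7, 0, 4, 5]), (128, 32, 0, 0, [0, 4, 5, 6, 8]),
   (32, 64, 0, 0, [6, 8, 7, 0, 4]), (16, 32, 481, 38371329, [])])

def e106 : Entry := (474, 54793752,
  [(88, 386, 0, 0, [7, 8, 1]), (208, 258, 0, 0, [8, 1, 3]), (194, 264, 0, 0, [4, 8, 3]),
   (272, 138, 0, 0, [7, 6, 3, 1]), (72, 384, 0, 0, [7, 8, 4, 1]), (130, 264, 0, 0, [6, 8, 4, 3]),
   (80, 258, 394, 37750288, []), (72, 258, 0, 0, [4, 1, 8, 7]), (24, 130, 0, 0, [7, 6, 8, 1]),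
   (192, 256, 0, 0, [4, 8, 1, 3]), (256, 136, 0, 0, [7, 6, 4, 3, 1]),
   (66, 256, 0, 0, [8, 7, 4, 3]), (256, 10, 0, 0, [4, 1, 3, 7, 6]),
   (144, 258, 0, 0, [6, 8, 1, 3]), (64, 256, 410, 37754392, []), (8, 128, 0, 0, [7, 6, 8, 4, 1]),
   (16, 2, 458, 54789648, []), (8, 2, 0, 0, [6, 4, 1, 8, 7]), (128, 256, 0, 0, [6, 4, 8, 1, 3]),
   (2, 256, 0, 0, [6, 8, 7, 4, 3])])

def e107 : Entry := (31, 9890,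
  [(20, 11, 0, 0, [0, 3, 1]), (24, 3, 0, 0, [0, 2, 1]), (1, 14, 0, 0, [2, 3, 1, 4]),
   (1, 22, 0, 0, [4, 2, 1, 3]), (4, 10, 27, 9242, []), (2, 16, 0, 0, [4, 0, 2, 3]),
   (8, 2, 23, 8346, []), (16, 4, 0, 0, [2, 0, 3, 1])])

def e108 : Entry := (245, 2728067,
  [(208, 37, 0, 0, [2, 0, 5]), (193, 36, 0, 0, [5, 4, 2]), (148, 97, 0, 0, [6, 5, 0]),
   (36, 81, 0, 0, [7, 6, 4, 0]), (132, 96, 0, 0, [6, 5, 4, 0]), (144, 33, 101, 589954, []),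
   (129, 36, 0, 0, [2, 6, 5, 4]), (80, 33, 0, 0, [7, 5, 0, 2]), (20, 65, 0, 0, [7, 6, 5, 0]),
   (192, 32, 0, 0, [5, 4, 0, 2]), (32, 65, 0, 0, [7, 6, 2, 0, 4]), (65, 36, 0, 0, [7, 5, 4, 2]),
   (32, 17, 0, 0, [7, 4, 0, 2, 6]), (128, 32, 117, 598147, []), (4, 64, 0, 0, [7, 6, 5, 4, 0]),
   (1, 16, 0, 0, [7, 4, 5, 6, 2]), (1, 4, 0, 0, [7, 2, 6, 5, 4]),
   (64, 32, 0, 0, [7, 5, 4, 0, 2]), (16, 64, 0, 0, [7, 6, 5, 2, 0])])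

def e109 : Entry := (238, 4785808,
  [(194, 44, 0, 0, [5, 2, 3]), (36, 200, 0, 0, [7, 6, 3, 1]), (132, 42, 0, 0, [5, 6, 1, 3]),
   (36, 74, 0, 0, [1, 3, 7, 6]), (40, 192, 0, 0, [7, 6, 2, 1]), (72, 132, 0, 0, [7, 5, 2, 1]),
   (130, 40, 0, 0, [5, 6, 2, 3]), (66, 40, 0, 0, [5, 7, 3, 2]), (66, 12, 0, 0, [2, 3, 7, 5]),
   (192, 36, 0, 0, [5, 2, 1, 3]), (34, 136, 0, 0, [7, 3, 2, 6]), (4, 10, 0, 0, [1, 3, 7, 5, 6]),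
   (128, 32, 0, 0, [5, 6, 2, 1, 3]), (8, 128, 0, 0, [7, 5, 6, 2, 1]),
   (32, 64, 0, 0, [6, 2, 1, 3, 7]), (64, 4, 0, 0, [2, 1, 3, 7, 5]),
   (8, 2, 0, 0, [1, 2, 6, 5, 7]), (2, 128, 0, 0, [7, 5, 6, 2, 3])])

def e110 : Entry := (398, 71304792,
  [(132, 266, 0, 0, [3, 1, 8]), (130, 264, 0, 0, [2, 3, 8]), (4, 266, 394, 54526992, []),
   (8, 384, 0, 0, [7, 2, 8, 1]), (8, 258, 0, 0, [2, 1, 8, 7]), (256, 128, 0, 0, [7, 2, 3, 1]),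
   (256, 2, 0, 0, [2, 1, 3, 7]), (128, 8, 0, 0, [2, 3, 1, 8]), (2, 128, 0, 0, [2, 7, 3, 8])])

def e111 : Entry := (334, 34080528,
  [(66, 268, 0, 0, [8, 3, 2]), (72, 260, 0, 0, [8, 1, 2]), (256, 14, 0, 0, [1, 3, 2, 6]),
   (256, 68, 0, 0, [6, 2, 1, 3]), (2, 12, 332, 34079936, []), (4, 64, 0, 0, [6, 8, 1, 3]),
   (8, 4, 326, 34078928, []), (64, 256, 0, 0, [8, 1, 3, 2])])

def e112 : Entry := (334, 50857736,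
  [(66, 268, 0, 0, [8, 3, 2]), (72, 260, 0, 0, [1, 8, 2]), (2, 268, 332, 34079936, []),
   (256, 68, 0, 0, [6, 1, 2, 3]), (256, 12, 0, 0, [1, 3, 2, 6]), (4, 64, 0, 0, [6, 1, 8, 3]),
   (4, 8, 0, 0, [1, 3, 8, 6]), (64, 256, 0, 0, [1, 8, 3, 2]), (8, 256, 0, 0, [1, 8, 6, 2])])

def e113 : Entry := (334, 34080024,
  [(72, 262, 0, 0, [8, 1, 2]), (66, 260, 0, 0, [8, 3, 2]), (256, 14, 0, 0, [3, 1, 2, 6]),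
   (256, 76, 0, 0, [6, 3, 2, 1]), (8, 6, 326, 34078928, []), (4, 64, 0, 0, [6, 8, 3, 1]),
   (2, 4, 332, 34079936, []), (64, 256, 0, 0, [8, 3, 1, 2])])

def e114 : Entry := (31, 9876,
  [(20, 11, 0, 0, [1, 3, 0]), (24, 3, 0, 0, [1, 2, 0]), (2, 13, 0, 0, [2, 3, 0, 4]),
   (2, 21, 0, 0, [4, 2, 0, 3]), (4, 9, 27, 9235, []), (1, 16, 0, 0, [4, 1, 2, 3]),
   (8, 1, 23, 8339, []), (16, 4, 0, 0, [2, 1, 3, 0])])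

def e115 : Entry := (460, 52954816,
  [(132, 328, 0, 0, [6, 8, 3]), (192, 264, 0, 0, [8, 3, 2]), (72, 260, 0, 0, [7, 8, 2]),
   (128, 264, 332, 34079936, []), (256, 68, 0, 0, [7, 6, 2, 3]), (256, 12, 0, 0, [7, 3, 2, 6]),
   (4, 64, 0, 0, [7, 6, 8, 3]), (4, 8, 0, 0, [7, 3, 8, 6]), (64, 256, 0, 0, [7, 8, 3, 2]),
   (8, 256, 0, 0, [7, 8, 6, 2])])

def e116 : Entry := (460, 54789824,
  [(72, 388, 0, 0, [7, 8, 2]), (192, 260, 0, 0, [8, 2, 3]), (132, 264, 0, 0, [6, 8, 3]),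
   (256, 136, 0, 0, [7, 6, 3, 2]), (64, 260, 396, 37750400, []), (256, 12, 0, 0, [6, 2, 3, 7]),
   (8, 128, 0, 0, [7, 6, 8, 2]), (8, 4, 0, 0, [6, 2, 8, 7]), (128, 256, 0, 0, [6, 8, 2, 3]),
   (4, 256, 0, 0, [6, 8, 7, 3])])

def e117 : Entry := (327, 34078938,
  [(257, 70, 0, 0, [6, 2, 1]), (66, 260, 0, 0, [8, 2, 0]), (66, 5, 0, 0, [0, 2, 8]),
   (256, 68, 0, 0, [6, 2, 0, 1]), (4, 258, 0, 0, [8, 6, 1, 0]), (4, 65, 0, 0, [6, 8, 0, 1]),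
   (4, 3, 0, 0, [0, 1, 8, 6]), (2, 256, 0, 0, [8, 6, 2, 0]), (1, 64, 0, 0, [6, 8, 2, 1]),
   (1, 2, 326, 34078928, []), (64, 4, 263, 33554586, [])])

def e118 : Entry := (395, 37750298,
  [(257, 138, 0, 0, [7, 3, 1]), (130, 264, 0, 0, [8, 3, 0]), (130, 9, 0, 0, [0, 3, 8]),
   (256, 136, 0, 0, [7, 3, 0, 1]), (8, 258, 0, 0, [8, 7, 1, 0]), (8, 129, 0, 0, [7, 8, 0, 1]),
   (8, 3, 0, 0, [0, 1, 8, 7]), (2, 256, 0, 0, [8, 7, 3, 0]), (1, 128, 0, 0, [7, 8, 3, 1]),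
   (1, 2, 394, 37750288, []), (128, 8, 267, 33555482, [])])

def e119 : Entry := (283, 33559587,
  [(272, 11, 0, 0, [3, 0, 1]), (257, 10, 0, 0, [4, 3, 1]), (24, 259, 0, 0, [8, 1, 0]),
   (8, 258, 0, 0, [8, 4, 1, 0]), (16, 3, 267, 33555482, []), (8, 3, 0, 0, [4, 0, 1, 8]),
   (2, 256, 0, 0, [8, 4, 3, 0]), (2, 1, 0, 0, [4, 0, 3, 8]), (256, 8, 0, 0, [4, 3, 0, 1]),
   (1, 256, 0, 0, [4, 8, 3, 1])])

def e120 : Entry := (279, 33558747,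
  [(20, 259, 0, 0, [8, 1, 0]), (272, 3, 0, 0, [1, 0, 2]), (257, 6, 0, 0, [4, 1, 2]),
   (2, 260, 0, 0, [8, 4, 2, 0]), (16, 3, 263, 33554642, []), (2, 5, 0, 0, [4, 0, 2, 8]),
   (4, 256, 0, 0, [8, 4, 1, 0]), (4, 1, 0, 0, [4, 0, 1, 8]), (256, 2, 0, 0, [4, 1, 0, 2]),
   (1, 256, 0, 0, [4, 8, 1, 2])])

def e121 : Entry := (333, 50857154,
  [(72, 261, 0, 0, [0, 2, 8]), (257, 68, 0, 0, [6, 2, 3]), (257, 12, 0, 0, [3, 2, 6]),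
   (4, 320, 0, 0, [6, 8, 3, 0]), (4, 264, 0, 0, [3, 8, 6, 0]), (65, 12, 0, 0, [3, 2, 8]),
   (8, 5, 0, 0, [0, 2, 6, 8]), (64, 256, 269, 33555650, []), (256, 8, 0, 0, [3, 0, 2, 6]),
   (1, 4, 332, 50857088, [])])

def e122 : Entry := (397, 54527618,
  [(132, 265, 0, 0, [0, 3, 8]), (257, 136, 0, 0, [7, 3, 2]), (257, 12, 0, 0, [2, 3, 7]),
   (8, 384, 0, 0, [7, 8, 2, 0]), (8, 260, 0, 0, [2, 8, 7, 0]), (129, 8, 0, 0, [3, 2, 8]),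
   (4, 9, 0, 0, [0, 3, 7, 8]), (128, 256, 269, 33556098, []), (256, 4, 0, 0, [2, 0, 3, 7]),
   (1, 8, 396, 54527104, [])])

def e123 : Entry := (327, 50856146,
  [(66, 261, 0, 0, [0, 2, 8]), (257, 68, 0, 0, [6, 2, 1]), (257, 6, 0, 0, [1, 2, 6]),
   (4, 320, 0, 0, [6, 8, 1, 0]), (4, 258, 0, 0, [1, 8, 6, 0]), (65, 4, 0, 0, [2, 1, 8]),
   (2, 5, 0, 0, [0, 2, 6, 8]), (64, 256, 263, 33554642, []), (256, 2, 0, 0, [1, 0, 2, 6]),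
   (1, 4, 326, 50856080, [])])

def e124 : Entry := (395, 54527506,
  [(130, 265, 0, 0, [0, 3, 8]), (257, 136, 0, 0, [7, 3, 1]), (257, 10, 0, 0, [1, 3, 7]),
   (8, 384, 0, 0, [7, 8, 1, 0]), (8, 258, 0, 0, [1, 8, 7, 0]), (129, 8, 0, 0, [3, 1, 8]),
   (2, 9, 0, 0, [0, 3, 7, 8]), (128, 256, 267, 33555986, []), (256, 2, 0, 0, [1, 0, 3, 7]),
   (1, 8, 394, 54526992, [])])

def e125 : Entry := (279, 33562779,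
  [(20, 259, 0, 0, [8, 1, 0]), (257, 18, 0, 0, [4, 1, 2]), (257, 6, 0, 0, [2, 1, 4]),
   (2, 272, 0, 0, [8, 4, 2, 0]), (4, 258, 0, 0, [8, 1, 4, 0]), (2, 17, 0, 0, [4, 0, 2, 8]),
   (2, 5, 0, 0, [2, 8, 0, 4]), (16, 256, 0, 0, [8, 2, 1, 0]), (16, 1, 263, 33554586, []),
   (1, 4, 0, 0, [2, 8, 1, 4]), (256, 2, 23, 8339, [])])

def e126 : Entry := (333, 50595522,
  [(72, 261, 0, 0, [0, 2, 8]), (65, 260, 0, 0, [8, 2, 3]), (257, 12, 0, 0, [6, 2, 3]),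
   (64, 260, 269, 33556098, []), (4, 264, 0, 0, [6, 8, 3, 0]), (4, 9, 0, 0, [6, 0, 3, 8]),
   (8, 256, 0, 0, [6, 8, 2, 0]), (8, 1, 0, 0, [6, 0, 2, 8]), (256, 4, 0, 0, [6, 2, 0, 3]),
   (1, 256, 0, 0, [6, 8, 2, 3])])

def e127 : Entry := (397, 52430978,
  [(132, 265, 0, 0, [0, 8, 3]), (129, 264, 0, 0, [8, 2, 3]), (257, 12, 0, 0, [7, 2, 3]),
   (128, 264, 269, 33556098, []), (4, 264, 0, 0, [7, 8, 3, 0]), (4, 9, 0, 0, [7, 0, 3, 8]),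
   (8, 256, 0, 0, [7, 8, 2, 0]), (8, 1, 0, 0, [7, 0, 2, 8]), (256, 4, 0, 0, [7, 2, 0, 3]),
   (1, 256, 0, 0, [7, 8, 2, 3])])

def e128 : Entry := (460, 55051456,
  [(72, 388, 0, 0, [7, 8, 2]), (132, 320, 0, 0, [6, 8, 3]), (132, 264, 0, 0, [3, 8, 6]),
   (256, 192, 0, 0, [7, 6, 3, 2]), (8, 384, 0, 0, [7, 8, 6, 2]), (256, 68, 0, 0, [6, 2, 3, 7]),
   (256, 12, 0, 0, [3, 7, 2, 6]), (64, 128, 0, 0, [7, 3, 8, 2]), (64, 4, 396, 54527104, []),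
   (4, 8, 0, 0, [3, 7, 8, 6]), (128, 256, 332, 34079936, [])])

def e129 : Entry := (395, 52430866,
  [(130, 265, 0, 0, [0, 8, 3]), (129, 264, 0, 0, [8, 1, 3]), (257, 10, 0, 0, [7, 1, 3]),
   (128, 264, 267, 33555986, []), (2, 264, 0, 0, [7, 8, 3, 0]), (2, 9, 0, 0, [7, 0, 3, 8]),
   (8, 256, 0, 0, [7, 8, 1, 0]), (8, 1, 0, 0, [7, 0, 1, 8]), (256, 2, 0, 0, [7, 1, 0, 3]),
   (1, 256, 0, 0, [7, 8, 1, 3])])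

def e130 : Entry := (395, 52430362,
  [(130, 265, 0, 0, [0, 3, 8]), (129, 264, 0, 0, [8, 3, 1]), (257, 10, 0, 0, [7, 3, 1]),
   (128, 264, 267, 33555482, []), (8, 258, 0, 0, [7, 8, 1, 0]), (8, 3, 0, 0, [7, 0, 1, 8]),
   (2, 256, 0, 0, [7, 8, 3, 0]), (2, 1, 0, 0, [7, 0, 3, 8]), (256, 8, 0, 0, [7, 3, 0, 1]),
   (1, 256, 0, 0, [7, 8, 3, 1])])

def e131 : Entry := (327, 50594010,
  [(66, 261, 0, 0, [0, 2, 8]), (65, 260, 0, 0, [8, 2, 1]), (257, 6, 0, 0, [6, 2, 1]),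
   (64, 260, 263, 33554586, []), (4, 258, 0, 0, [6, 8, 1, 0]), (4, 3, 0, 0, [6, 0, 1, 8]),
   (2, 256, 0, 0, [6, 8, 2, 0]), (2, 1, 0, 0, [6, 0, 2, 8]), (256, 4, 0, 0, [6, 2, 0, 1]),
   (1, 256, 0, 0, [6, 8, 2, 1])])

def e132 : Entry := (397, 54527681,
  [(257, 140, 0, 0, [7, 3, 2]), (132, 264, 0, 0, [0, 3, 8]), (129, 12, 0, 0, [3, 2, 8]),
   (8, 384, 0, 0, [7, 8, 0, 2]), (8, 260, 0, 0, [0, 2, 8, 7]), (1, 12, 396, 54527104, []),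
   (256, 128, 0, 0, [7, 0, 3, 2]), (256, 4, 0, 0, [0, 2, 3, 7]), (128, 8, 0, 0, [0, 3, 2, 8]),
   (4, 128, 0, 0, [0, 7, 3, 8])])

def e133 : Entry := (460, 71566528,
  [(192, 268, 0, 0, [3, 2, 8]), (132, 264, 0, 0, [6, 3, 8]), (72, 388, 0, 0, [7, 8, 2]),
   (8, 384, 0, 0, [7, 6, 8, 2]), (64, 260, 396, 54527104, []), (8, 260, 0, 0, [6, 2, 8, 7]),
   (256, 128, 0, 0, [7, 6, 3, 2]), (256, 4, 0, 0, [6, 2, 3, 7]), (128, 8, 0, 0, [6, 3, 2, 8]),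
   (4, 128, 0, 0, [6, 7, 3, 8])])

def e134 : Entry := (397, 37750466,
  [(257, 140, 0, 0, [7, 3, 2]), (132, 264, 0, 0, [8, 3, 0]), (132, 9, 0, 0, [0, 3, 8]),
   (256, 136, 0, 0, [7, 3, 0, 2]), (8, 260, 0, 0, [8, 7, 2, 0]), (8, 129, 0, 0, [7, 8, 0, 2]),
   (8, 5, 0, 0, [0, 2, 8, 7]), (4, 256, 0, 0, [8, 7, 3, 0]), (1, 128, 0, 0, [7, 8, 3, 2]),
   (1, 4, 396, 37750400, []), (128, 8, 269, 33555650, [])])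

def e135 : Entry := (395, 54527513,
  [(257, 138, 0, 0, [7, 3, 1]), (130, 264, 0, 0, [0, 3, 8]), (129, 10, 0, 0, [3, 1, 8]),
   (8, 384, 0, 0, [7, 8, 0, 1]), (8, 258, 0, 0, [0, 1, 8, 7]), (1, 10, 394, 54526992, []),
   (256, 128, 0, 0, [7, 0, 3, 1]), (256, 2, 0, 0, [0, 1, 3, 7]), (128, 8, 0, 0, [0, 3, 1, 8]),
   (2, 128, 0, 0, [0, 7, 3, 8])])

def e136 : Entry := (283, 33563675,
  [(24, 259, 0, 0, [8, 1, 0]), (257, 18, 0, 0, [4, 1, 3]), (257, 10, 0, 0, [3, 1, 4]),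
   (2, 272, 0, 0, [8, 4, 3, 0]), (8, 258, 0, 0, [8, 1, 4, 0]), (2, 17, 0, 0, [4, 0, 3, 8]),
   (2, 9, 0, 0, [3, 8, 0, 4]), (16, 256, 0, 0, [8, 3, 1, 0]), (16, 1, 267, 33555482, []),
   (1, 8, 0, 0, [3, 8, 1, 4]), (256, 2, 27, 9235, [])])

def e137 : Entry := (460, 69731968,
  [(192, 268, 0, 0, [2, 3, 8]), (132, 328, 0, 0, [6, 8, 3]), (72, 260, 0, 0, [7, 2, 8]),
   (128, 264, 332, 50857088, []), (4, 320, 0, 0, [7, 6, 8, 3]), (4, 264, 0, 0, [7, 3, 8, 6]),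
   (256, 64, 0, 0, [7, 6, 2, 3]), (256, 8, 0, 0, [7, 3, 2, 6]), (64, 8, 0, 0, [7, 3, 2, 8]),
   (8, 64, 0, 0, [7, 6, 2, 8])])

def e138 : Entry := (283, 33560091,
  [(24, 259, 0, 0, [8, 1, 0]), (272, 3, 0, 0, [1, 0, 3]), (257, 10, 0, 0, [4, 1, 3]),
   (2, 264, 0, 0, [8, 4, 3, 0]), (16, 3, 267, 33555986, []), (2, 9, 0, 0, [4, 0, 3, 8]),
   (8, 256, 0, 0, [8, 4, 1, 0]), (8, 1, 0, 0, [4, 0, 1, 8]), (256, 2, 0, 0, [4, 1, 0, 3]),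
   (1, 256, 0, 0, [4, 8, 1, 3])])

def e139 : Entry := (331, 50594842,
  [(72, 259, 0, 0, [0, 1, 8]), (66, 257, 0, 0, [0, 3, 8]), (257, 10, 0, 0, [6, 3, 1]),
   (65, 256, 0, 0, [8, 3, 1]), (8, 258, 0, 0, [6, 8, 1, 0]), (8, 3, 0, 0, [6, 0, 1, 8]),
   (64, 256, 267, 33555482, []), (2, 256, 0, 0, [6, 8, 3, 0]), (2, 1, 0, 0, [6, 0, 3, 8]),
   (256, 8, 0, 0, [6, 3, 0, 1]), (1, 256, 0, 0, [6, 8, 3, 1])])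

def e140 : Entry := (117, 626819,
  [(80, 37, 0, 0, [2, 0, 5]), (65, 36, 0, 0, [4, 5, 2]), (20, 97, 0, 0, [6, 5, 0]),
   (36, 65, 0, 0, [6, 4, 0]), (16, 33, 101, 589954, []), (64, 32, 0, 0, [4, 5, 0, 2]),
   (4, 64, 0, 0, [6, 4, 5, 0]), (32, 1, 0, 0, [4, 0, 2, 6]), (1, 4, 0, 0, [2, 6, 4, 5])])

def e141 : Entry := (342, 50860184,
  [(20, 322, 0, 0, [6, 8, 1]), (272, 66, 0, 0, [6, 2, 1]), (66, 260, 0, 0, [2, 8, 4]),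
   (4, 320, 0, 0, [6, 8, 4, 1]), (4, 258, 0, 0, [4, 1, 8, 6]), (80, 6, 0, 0, [2, 1, 8]),
   (256, 64, 0, 0, [6, 4, 2, 1]), (256, 2, 0, 0, [4, 1, 2, 6]), (16, 2, 326, 50856080, []),
   (64, 4, 0, 0, [4, 2, 1, 8]), (2, 64, 0, 0, [6, 2, 8, 4])])

def e142 : Entry := (285, 33559747,
  [(24, 261, 0, 0, [8, 2, 0]), (20, 257, 0, 0, [8, 3, 0]), (257, 12, 0, 0, [4, 3, 2]),
   (272, 9, 0, 0, [3, 0, 2]), (8, 260, 0, 0, [8, 4, 2, 0]), (8, 5, 0, 0, [4, 0, 2, 8]),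
   (4, 256, 0, 0, [8, 4, 3, 0]), (16, 1, 269, 33555650, []), (4, 1, 0, 0, [4, 0, 3, 8]),
   (256, 8, 0, 0, [4, 3, 0, 2]), (1, 256, 0, 0, [4, 8, 3, 2])])

def e143 : Entry := (285, 33560195,
  [(20, 265, 0, 0, [8, 3, 0]), (24, 257, 0, 0, [8, 2, 0]), (257, 12, 0, 0, [4, 2, 3]),
   (272, 5, 0, 0, [2, 0, 3]), (4, 264, 0, 0, [8, 4, 3, 0]), (4, 9, 0, 0, [4, 0, 3, 8]),
   (8, 256, 0, 0, [8, 4, 2, 0]), (16, 1, 269, 33556098, []), (8, 1, 0, 0, [4, 0, 2, 8]),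
   (256, 4, 0, 0, [4, 2, 0, 3]), (1, 256, 0, 0, [4, 8, 2, 3])])

def e144 : Entry := (391, 52428954,
  [(132, 259, 0, 0, [0, 1, 8]), (130, 257, 0, 0, [0, 2, 8]), (257, 6, 0, 0, [7, 2, 1]),
   (129, 256, 0, 0, [8, 2, 1]), (4, 258, 0, 0, [7, 8, 1, 0]), (4, 3, 0, 0, [7, 0, 1, 8]),
   (128, 256, 263, 33554586, []), (2, 256, 0, 0, [7, 8, 2, 0]), (2, 1, 0, 0, [7, 0, 2, 8]),
   (256, 4, 0, 0, [7, 2, 0, 1]), (1, 256, 0, 0, [7, 8, 2, 1])])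

def e145 : Entry := (299, 33588755,
  [(34, 265, 0, 0, [8, 3, 0]), (40, 257, 0, 0, [8, 1, 0]), (257, 10, 0, 0, [5, 1, 3]),
   (288, 3, 0, 0, [1, 0, 3]), (2, 264, 0, 0, [8, 5, 3, 0]), (2, 9, 0, 0, [5, 0, 3, 8]),
   (8, 256, 0, 0, [8, 5, 1, 0]), (32, 1, 267, 33555986, []), (8, 1, 0, 0, [5, 0, 1, 8]),
   (256, 2, 0, 0, [5, 1, 0, 3]), (1, 256, 0, 0, [5, 8, 1, 3])])

def e146 : Entry := (103, 589971,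
  [(36, 67, 0, 0, [6, 1, 0]), (66, 33, 0, 0, [5, 0, 2]), (66, 5, 0, 0, [2, 0, 5]),
   (65, 36, 0, 0, [5, 2, 1]), (34, 65, 0, 0, [6, 2, 0]), (4, 3, 0, 0, [1, 0, 5, 6]),
   (32, 64, 0, 0, [6, 2, 1, 0]), (64, 4, 0, 0, [2, 1, 0, 5]), (1, 32, 0, 0, [5, 6, 2, 1]),
   (2, 1, 101, 589954, [])])

def e147 : Entry := (109, 590979,
  [(36, 73, 0, 0, [6, 3, 0]), (72, 33, 0, 0, [5, 0, 2]), (72, 5, 0, 0, [2, 0, 5]),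
   (65, 40, 0, 0, [5, 3, 2]), (4, 65, 0, 0, [6, 5, 0, 3]), (40, 65, 0, 0, [6, 2, 0]),
   (4, 9, 0, 0, [3, 0, 5, 6]), (32, 64, 0, 0, [6, 2, 3, 0]), (1, 32, 0, 0, [5, 6, 2, 3]),
   (8, 1, 101, 589954, []), (64, 8, 0, 0, [3, 2, 0, 5])])

def e148 : Entry := (410, 37754392,
  [(272, 138, 0, 0, [7, 3, 1]), (130, 264, 0, 0, [8, 4, 3]), (24, 130, 0, 0, [7, 8, 1]),
   (256, 136, 0, 0, [7, 4, 3, 1]), (256, 10, 0, 0, [4, 1, 3, 7]), (144, 258, 0, 0, [8, 1, 3]),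
   (8, 128, 0, 0, [7, 8, 4, 1]), (16, 2, 394, 37750288, []), (8, 2, 0, 0, [4, 1, 8, 7]),
   (128, 256, 0, 0, [4, 8, 1, 3]), (2, 256, 0, 0, [8, 7, 4, 3])])

def e149 : Entry := (155, 2106906,
  [(129, 26, 0, 0, [4, 1, 3]), (130, 24, 0, 0, [4, 0, 3]), (24, 3, 0, 0, [7, 0, 1]),
   (144, 8, 0, 0, [3, 0, 1]), (1, 18, 0, 0, [7, 4, 1, 3]), (1, 10, 0, 0, [7, 3, 1, 4]),
   (128, 8, 27, 9242, []), (2, 16, 0, 0, [7, 4, 0, 3]), (2, 8, 0, 0, [7, 3, 0, 4]),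
   (16, 8, 0, 0, [7, 3, 0, 1]), (8, 16, 0, 0, [7, 4, 0, 1])])

def e150 : Entry := (87, 270554,
  [(65, 22, 0, 0, [4, 1, 2]), (66, 20, 0, 0, [4, 0, 2]), (20, 3, 0, 0, [6, 0, 1]),
   (80, 4, 0, 0, [2, 0, 1]), (1, 18, 0, 0, [6, 4, 1, 2]), (1, 6, 0, 0, [6, 2, 1, 4]),
   (64, 4, 23, 8346, []), (2, 16, 0, 0, [6, 4, 0, 2]), (2, 4, 0, 0, [6, 2, 0, 4]),
   (16, 4, 0, 0, [6, 2, 0, 1]), (4, 16, 0, 0, [6, 4, 0, 1])])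

def e151 : Entry := (331, 50595346,
  [(66, 265, 0, 0, [0, 3, 8]), (72, 257, 0, 0, [0, 1, 8]), (257, 10, 0, 0, [6, 1, 3]),
   (65, 256, 0, 0, [8, 1, 3]), (2, 264, 0, 0, [6, 8, 3, 0]), (2, 9, 0, 0, [6, 0, 3, 8]),
   (64, 256, 267, 33555986, []), (8, 256, 0, 0, [6, 8, 1, 0]), (8, 1, 0, 0, [6, 0, 1, 8]),
   (256, 2, 0, 0, [6, 1, 0, 3]), (1, 256, 0, 0, [6, 8, 1, 3])])

def e152 : Entry := (458, 54789648,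
  [(194, 264, 0, 0, [8, 3]), (72, 384, 0, 0, [7, 8, 1]), (130, 264, 0, 0, [6, 8, 3]),
   (72, 258, 0, 0, [1, 8, 7]), (192, 256, 0, 0, [8, 1, 3]), (256, 136, 0, 0, [7, 6, 3, 1]),
   (66, 256, 0, 0, [8, 7, 3]), (256, 10, 0, 0, [1, 3, 7, 6]), (64, 256, 394, 37750288, []),
   (8, 128, 0, 0, [7, 6, 8, 1]), (8, 2, 0, 0, [6, 1, 8, 7]), (128, 256, 0, 0, [6, 8, 1, 3]),
   (2, 256, 0, 0, [6, 8, 7, 3])])

def e153 : Entry := (410, 54531096,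
  [(24, 386, 0, 0, [7, 8, 1]), (272, 130, 0, 0, [7, 3, 1]), (130, 264, 0, 0, [3, 8, 4]),
   (8, 384, 0, 0, [7, 8, 4, 1]), (8, 258, 0, 0, [4, 1, 8, 7]), (144, 10, 0, 0, [3, 1, 8]),
   (256, 128, 0, 0, [7, 4, 3, 1]), (256, 2, 0, 0, [4, 1, 3, 7]), (16, 2, 394, 54526992, []),
   (128, 8, 0, 0, [4, 3, 1, 8]), (2, 128, 0, 0, [7, 3, 8, 4])])

def e154 : Entry := (342, 34083032,
  [(272, 70, 0, 0, [6, 2, 1]), (66, 260, 0, 0, [8, 4, 2]), (20, 66, 0, 0, [6, 8, 1]),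
   (256, 68, 0, 0, [6, 4, 2, 1]), (256, 6, 0, 0, [4, 1, 2, 6]), (80, 258, 0, 0, [8, 1, 2]),
   (4, 64, 0, 0, [6, 8, 4, 1]), (16, 2, 326, 34078928, []), (4, 2, 0, 0, [4, 1, 8, 6]),
   (64, 256, 0, 0, [4, 8, 1, 2]), (2, 256, 0, 0, [8, 6, 4, 2])])

def e155 : Entry := (155, 2106899,
  [(130, 25, 0, 0, [4, 0, 3]), (129, 24, 0, 0, [4, 1, 3]), (24, 3, 0, 0, [7, 1, 0]),
   (144, 8, 0, 0, [3, 1, 0]), (2, 17, 0, 0, [7, 4, 0, 3]), (2, 9, 0, 0, [7, 3, 0, 4]),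
   (128, 8, 27, 9235, []), (1, 16, 0, 0, [7, 4, 1, 3]), (1, 8, 0, 0, [7, 3, 1, 4]),
   (16, 8, 0, 0, [7, 3, 1, 0]), (8, 16, 0, 0, [7, 4, 1, 0])])

def e156 : Entry := (117, 598147,
  [(36, 81, 0, 0, [6, 4, 0]), (80, 33, 0, 0, [5, 0, 2]), (20, 65, 0, 0, [6, 5, 0]),
   (32, 65, 0, 0, [6, 2, 0, 4]), (65, 36, 0, 0, [5, 4, 2]), (32, 17, 0, 0, [4, 0, 2, 6]),
   (4, 64, 0, 0, [6, 5, 4, 0]), (16, 1, 101, 589954, []), (1, 4, 0, 0, [2, 6, 5, 4]),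
   (64, 32, 0, 0, [5, 4, 0, 2])])

def e157 : Entry := (454, 69730448,
  [(132, 322, 0, 0, [6, 1, 8]), (192, 258, 0, 0, [1, 2, 8]), (66, 260, 0, 0, [7, 2, 8]),
   (130, 320, 0, 0, [6, 2, 8]), (4, 320, 0, 0, [7, 6, 8, 1]), (4, 258, 0, 0, [7, 1, 8, 6]),
   (128, 256, 326, 50856080, []), (256, 64, 0, 0, [7, 6, 2, 1]), (256, 2, 0, 0, [7, 1, 2, 6]),
   (64, 4, 0, 0, [7, 2, 1, 8]), (2, 64, 0, 0, [7, 6, 2, 8])])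

def e158 : Entry := (496, 38375424,
  [(208, 288, 0, 0, [8, 5]), (288, 192, 0, 0, [7, 6, 4]), (272, 160, 0, 0, [7, 5, 6]),
   (80, 288, 0, 0, [8, 7, 5]), (192, 288, 0, 0, [8, 4, 5]), (144, 288, 0, 0, [8, 6, 5]),
   (256, 128, 0, 0, [7, 4, 5, 6]), (64, 256, 0, 0, [8, 7, 4, 5]), (128, 32, 0, 0, [4, 5, 6, 8]),
   (32, 64, 0, 0, [6, 8, 7, 4]), (16, 32, 480, 38338560, [])])

def e159 : Entry := (481, 38371329,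
  [(193, 288, 0, 0, [8, 5]), (288, 192, 0, 0, [7, 6, 0]), (257, 160, 0, 0, [7, 5, 6]),
   (65, 288, 0, 0, [8, 7, 5]), (192, 288, 0, 0, [8, 0, 5]), (129, 288, 0, 0, [8, 6, 5]),
   (256, 128, 0, 0, [7, 0, 5, 6]), (64, 256, 0, 0, [8, 7, 0, 5]), (128, 32, 0, 0, [0, 5, 6, 8]),
   (32, 64, 0, 0, [6, 8, 7, 0]), (1, 32, 480, 38338560, [])])

def e160 : Entry := (482, 55115784,
  [(194, 288, 0, 0, [5, 8]), (288, 192, 0, 0, [7, 6, 1]), (130, 288, 0, 0, [5, 6, 8]),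
   (66, 288, 0, 0, [5, 7, 8]), (192, 288, 0, 0, [1, 8, 5]), (34, 256, 0, 0, [8, 7, 6]),
   (256, 128, 0, 0, [7, 5, 6, 1]), (64, 256, 0, 0, [1, 8, 7, 5]), (2, 256, 480, 38338560, []),
   (128, 32, 0, 0, [5, 6, 1, 8]), (32, 64, 0, 0, [6, 1, 8, 7])])

def e161 : Entry := (326, 50856080,
  [(66, 260, 0, 0, [2, 8]), (4, 320, 0, 0, [6, 8, 1]), (4, 258, 0, 0, [1, 8, 6]),
   (256, 64, 0, 0, [6, 2, 1]), (256, 2, 0, 0, [1, 2, 6]), (64, 4, 0, 0, [2, 1, 8]),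
   (2, 64, 0, 0, [6, 2, 8])])

def e162 : Entry := (27, 9235,
  [(24, 3, 0, 0, [1, 0]), (2, 17, 0, 0, [4, 0, 3]), (2, 9, 0, 0, [3, 0, 4]),
   (1, 16, 0, 0, [4, 1, 3]), (1, 8, 0, 0, [3, 1, 4]), (16, 8, 0, 0, [3, 1, 0]),
   (8, 16, 0, 0, [4, 1, 0])])

def e163 : Entry := (23, 8339,
  [(20, 3, 0, 0, [1, 0]), (2, 17, 0, 0, [4, 0, 2]), (2, 5, 0, 0, [2, 0, 4]),
   (1, 16, 0, 0, [4, 1, 2]), (1, 4, 0, 0, [2, 1, 4]), (16, 4, 0, 0, [2, 1, 0]),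
   (4, 16, 0, 0, [4, 1, 0])])

def e164 : Entry := (267, 33555482,
  [(257, 10, 0, 0, [3, 1]), (8, 258, 0, 0, [8, 1, 0]), (8, 3, 0, 0, [0, 1, 8]),
   (2, 256, 0, 0, [8, 3, 0]), (2, 1, 0, 0, [0, 3, 8]), (256, 8, 0, 0, [3, 0, 1]),
   (1, 256, 0, 0, [8, 3, 1])])

def e165 : Entry := (263, 33554586,
  [(257, 6, 0, 0, [2, 1]), (4, 258, 0, 0, [8, 1, 0]), (4, 3, 0, 0, [0, 1, 8]),
   (2, 256, 0, 0, [8, 2, 0]), (2, 1, 0, 0, [0, 2, 8]), (256, 4, 0, 0, [2, 0, 1]),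
   (1, 256, 0, 0, [8, 2, 1])])

def e166 : Entry := (269, 33555650,
  [(257, 12, 0, 0, [3, 2]), (8, 260, 0, 0, [8, 2, 0]), (8, 5, 0, 0, [0, 2, 8]),
   (4, 256, 0, 0, [8, 3, 0]), (4, 1, 0, 0, [0, 3, 8]), (256, 8, 0, 0, [3, 0, 2]),
   (1, 256, 0, 0, [8, 3, 2])])

def e167 : Entry := (263, 33554642,
  [(257, 6, 0, 0, [1, 2]), (2, 260, 0, 0, [8, 2, 0]), (2, 5, 0, 0, [0, 2, 8]),
   (4, 256, 0, 0, [8, 1, 0]), (4, 1, 0, 0, [0, 1, 8]), (256, 2, 0, 0, [1, 0, 2]),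
   (1, 256, 0, 0, [8, 1, 2])])

def e168 : Entry := (332, 34079936,
  [(72, 260, 0, 0, [8, 2]), (256, 68, 0, 0, [6, 2, 3]), (256, 12, 0, 0, [3, 2, 6]),
   (4, 64, 0, 0, [6, 8, 3]), (4, 8, 0, 0, [3, 8, 6]), (64, 256, 0, 0, [8, 3, 2]),
   (8, 256, 0, 0, [8, 6, 2])])

def e169 : Entry := (326, 34078928,
  [(66, 260, 0, 0, [8, 2]), (256, 68, 0, 0, [6, 2, 1]), (256, 6, 0, 0, [1, 2, 6]),
   (4, 64, 0, 0, [6, 8, 1]), (4, 2, 0, 0, [1, 8, 6]), (64, 256, 0, 0, [8, 1, 2]),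
   (2, 256, 0, 0, [8, 6, 2])])

def e170 : Entry := (394, 37750288,
  [(130, 264, 0, 0, [8, 3]), (256, 136, 0, 0, [7, 3, 1]), (256, 10, 0, 0, [1, 3, 7]),
   (8, 128, 0, 0, [7, 8, 1]), (8, 2, 0, 0, [1, 8, 7]), (128, 256, 0, 0, [8, 1, 3]),
   (2, 256, 0, 0, [8, 7, 3])])

def e171 : Entry := (23, 8346,
  [(20, 3, 0, 0, [0, 1]), (1, 18, 0, 0, [4, 1, 2]), (1, 6, 0, 0, [2, 1, 4]),
   (2, 16, 0, 0, [4, 0, 2]), (2, 4, 0, 0, [2, 0, 4]), (16, 4, 0, 0, [2, 0, 1]),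
   (4, 16, 0, 0, [4, 0, 1])])

def e172 : Entry := (269, 33556098,
  [(257, 12, 0, 0, [2, 3]), (4, 264, 0, 0, [8, 3, 0]), (4, 9, 0, 0, [0, 3, 8]),
   (8, 256, 0, 0, [8, 2, 0]), (8, 1, 0, 0, [0, 2, 8]), (256, 4, 0, 0, [2, 0, 3]),
   (1, 256, 0, 0, [8, 2, 3])])

def e173 : Entry := (332, 50857088,
  [(72, 260, 0, 0, [2, 8]), (4, 320, 0, 0, [6, 8, 3]), (4, 264, 0, 0, [3, 8, 6]),
   (256, 64, 0, 0, [6, 2, 3]), (256, 8, 0, 0, [3, 2, 6]), (64, 8, 0, 0, [3, 2, 8]),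
   (8, 64, 0, 0, [6, 2, 8])])

def e174 : Entry := (394, 54526992,
  [(130, 264, 0, 0, [3, 8]), (8, 384, 0, 0, [7, 8, 1]), (8, 258, 0, 0, [1, 8, 7]),
   (256, 128, 0, 0, [7, 3, 1]), (256, 2, 0, 0, [1, 3, 7]), (128, 8, 0, 0, [3, 1, 8]),
   (2, 128, 0, 0, [7, 3, 8])])

def e175 : Entry := (27, 9242,
  [(24, 3, 0, 0, [0, 1]), (1, 18, 0, 0, [4, 1, 3]), (1, 10, 0, 0, [3, 1, 4]),
   (2, 16, 0, 0, [4, 0, 3]), (2, 8, 0, 0, [3, 0, 4]), (16, 8, 0, 0, [3, 0, 1]),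
   (8, 16, 0, 0, [4, 0, 1])])

def e176 : Entry := (396, 54527104,
  [(132, 264, 0, 0, [3, 8]), (8, 384, 0, 0, [7, 8, 2]), (8, 260, 0, 0, [2, 8, 7]),
   (256, 128, 0, 0, [7, 3, 2]), (256, 4, 0, 0, [2, 3, 7]), (128, 8, 0, 0, [3, 2, 8]),
   (4, 128, 0, 0, [7, 3, 8])])

def e177 : Entry := (267, 33555986,
  [(257, 10, 0, 0, [1, 3]), (2, 264, 0, 0, [8, 3, 0]), (2, 9, 0, 0, [0, 3, 8]),
   (8, 256, 0, 0, [8, 1, 0]), (8, 1, 0, 0, [0, 1, 8]), (256, 2, 0, 0, [1, 0, 3]),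
   (1, 256, 0, 0, [8, 1, 3])])

def e178 : Entry := (396, 37750400,
  [(132, 264, 0, 0, [8, 3]), (256, 136, 0, 0, [7, 3, 2]), (256, 12, 0, 0, [2, 3, 7]),
   (8, 128, 0, 0, [7, 8, 2]), (8, 4, 0, 0, [2, 8, 7]), (128, 256, 0, 0, [8, 2, 3]),
   (4, 256, 0, 0, [8, 7, 3])])

def e179 : Entry := (480, 38338560,
  [(288, 192, 0, 0, [7, 6]), (192, 288, 0, 0, [8, 5]), (256, 128, 0, 0, [7, 5, 6]),
   (64, 256, 0, 0, [8, 7, 5]), (128, 32, 0, 0, [5, 6, 8]), (32, 64, 0, 0, [6, 8, 7])])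

def e180 : Entry := (101, 589954,
  [(65, 36, 0, 0, [5, 2]), (36, 65, 0, 0, [6, 0]), (64, 32, 0, 0, [5, 0, 2]),
   (4, 64, 0, 0, [6, 5, 0]), (32, 1, 0, 0, [0, 2, 6]), (1, 4, 0, 0, [2, 6, 5])])

def table : List Entry :=
  [e0, e1, e2, e3, e4, e5, e6, e7, e8, e9, e10, e11, e12, e13, e14, e15, e16, e17, e18, e19,
   e20, e21, e22, e23, e24, e25, e26, e27, e28, e29, e30, e31, e32, e33, e34, e35, e36,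
   e37, e38, e39, e40, e41, e42, e43, e44, e45, e46, e47, e48, e49, e50, e51, e52, e53,
   e54, e55, e56, e57, e58, e59, e60, e61, e62, e63, e64, e65, e66, e67, e68, e69, e70,
   e71, e72, e73, e74, e75, e76, e77, e78, e79, e80, e81, e82, e83, e84, e85, e86, e87,
   e88, e89, e90, e91, e92, e93, e94, e95, e96, e97, e98, e99, e100, e101, e102, e103,
   e104, e105, e106, e107, e108, e109, e110, e111, e112, e113, e114, e115, e116, e117,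
   e118, e119, e120, e121, e122, e123, e124, e125, e126, e127, e128, e129, e130, e131,
   e132, e133, e134, e135, e136, e137, e138, e139, e140, e141, e142, e143, e144, e145,
   e146, e147, e148, e149, e150, e151, e152, e153, e154, e155, e156, e157, e158, e159,
   e160, e161, e162, e163, e164, e165, e166, e167, e168, e169, e170, e171, e172, e173,
   e174, e175, e176, e177, e178, e179, e180]

end Pool.Agent.R987.Paint
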