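import Mathlib
import Pool.Agent.R987.PaintCore
import Pool.Agent.R987.PaintTable

set_option autoImplicit false

namespace Pool.Agent.R987.Paint

/-- neighbourhood masks of the gadget -/
def am : ℕ → ℕ
  | 0 => 62
  | 1 => 285
  | 2 => 331
  | 3 => 391
  | 4 => 35
  | 5 => 209
  | 6 => 292
  | 7 => 296
  | 8 => 206
  | _ => 0

/-- the gadget -/
def D : SimpleGraph (Fin 9) where
  Adj u v := (am u).testBit v = true
  symm := ⟨by decide⟩
  loopless := ⟨by decide⟩

instance : DecidableRel D.Adj := fun u v => inferInstanceAs (Decidable ((am u).testBit v = true))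

/-- the tokens of vertex `v` in the code `s` -/
def tk (s v : ℕ) : ℕ := (s >>> (3 * v)) % 8

def bt (R v : ℕ) : ℕ := (R.testBit v).toNat

def L9 : List ℕ := [0, 1, 2, 3, 4, 5, 6, 7, 8]

theorem mem_L9 (v : ℕ) (h : v < 9) : v ∈ L9 := by
  interval_cases v <;> simp [L9]

/-- number of neighbours of `x` in the set `cur` -/
def nbs (x cur : ℕ) : ℕ :=
  bt (am x &&& cur) 0 + bt (am x &&& cur) 1 + bt (am x &&& cur) 2 + bt (am x &&& cur) 3 +
  bt (am x &&& cur) 4 + bt (am x &&& cur) 5 + bt (am x &&& cur) 6 + bt (am x &&& cur) 7 +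
  bt (am x &&& cur) 8

def tkf (s : ℕ) : Fin 9 → ℕ := fun v => tk s v

def ndf (R : ℕ) : Fin 9 → ℕ := fun v => bt R v

theorem nbs_eq (x cur : ℕ) :
    ∑ u ∈ Finset.univ.filter (fun u : Fin 9 => (am x).testBit u = true), ndf cur u =
      nbs x cur := by
  have e : ∀ i : ℕ, (if (am x).testBit i = true then bt cur i else 0) = bt (am x &&& cur) i := by
    intro i
    unfold bt
    rw [Nat.testBit_and]
    cases (am x).testBit i <;> simp
  rw [Finset.sum_filter]
  unfold nbs ndf
  simp only [Fin.sum_univ_succ, Fin.val_zero, Fin.val_succ, e, Finset.univ_eq_empty,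
    Finset.sum_empty]
  ring

def chain (s I A : ℕ) : List ℕ → ℕ → ℕ → Bool
  | [], cur, tgt => Nat.beq cur tgt
  | x :: xs, cur, tgt => Nat.ble (x + 1) 9 && !(cur.testBit x) && !(I.testBit x) &&
      Nat.ble (nbs x cur + 1 + bt A x) (tk s x) && chain s I A xs (cur ||| 2 ^ x) tgt

theorem chain_sound (s I A U : ℕ)
    (hU : ∀ v < 9, U.testBit v = true → I.testBit v = false → A.testBit v = true) :
    ∀ (xs : List ℕ) (cur tgt : ℕ), chain s I A xs cur tgt = true →
      Win D (fun v => tk s v - bt U v) (ndf cur) → Win D (fun v => tk s v - bt U v) (ndf tgt) := by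
  intro xs
  induction xs with
  | nil =>
    intro cur tgt h hw
    have : cur = tgt := Nat.eq_of_beq_eq_true h
    rw [← this]
    exact hw
  | cons x xs ih =>
    intro cur tgt h hw
    simp only [chain, Bool.and_eq_true, Bool.not_eq_true'] at h
    obtain ⟨⟨⟨⟨hx, hc⟩, hI⟩, hle⟩, hch⟩ := h
    have hx9 : x < 9 := Nat.le_of_ble_eq_true hx
    have hle' := Nat.le_of_ble_eq_true hle
    refine ih _ _ hch ?_
    have e : ndf (cur ||| 2 ^ x) = Function.update (ndf cur) (⟨x, hx9⟩ : Fin 9) 1 := by
      funext u
      by_cases hu : u = ⟨x, hx9⟩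
      · subst hu
        simp [ndf, bt, Nat.testBit_or]
      · rw [Function.update_of_ne hu]
        have : x ≠ (u : ℕ) := fun h => hu (Fin.ext h.symm)
        simp [ndf, bt, Nat.testBit_or, this]
    rw [e]
    refine win_add (⟨x, hx9⟩ : Fin 9)
      (Finset.univ.filter (fun u : Fin 9 => (am x).testBit u = true)) ?_ hw ?_ _ ?_ ?_
    · intro u hu
      exact Finset.mem_filter.mpr ⟨Finset.mem_univ _, hu⟩
    · simp [ndf, bt, hc]
    · intro u _ _
      exact le_rfl
    · rw [nbs_eq]
      have hb : bt U x ≤ bt A x := by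
        unfold bt
        cases hUx : U.testBit x
        · simp
        · rw [hU x hx9 hUx hI]
      show 1 + nbs x cur ≤ tk s x - bt U x
      omega

def ruleOK (R s : ℕ) (rest : List Entry) (r : Rule) : Bool :=
  Nat.beq (r.1 &&& R) r.1 &&
  L9.all (fun v => !(r.1.testBit v) || Nat.beq (am v &&& r.1) 0) &&
  L9.all (fun v => !(r.2.2.1.testBit v) ||
    (!(r.1.testBit v) && Nat.ble (tk r.2.2.2.1 v + bt r.2.1 v) (tk s v))) &&
  chain s r.1 r.2.1 r.2.2.2.2 r.2.2.1 (R ^^^ r.1) &&
  (Nat.beq r.2.2.1 0 || rest.any (fun e => Nat.beq e.1 r.2.2.1 && Nat.beq e.2.1 r.2.2.2.1))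

theorem ruleOK_sound (R s : ℕ) (rest : List Entry)
    (hrest : ∀ e ∈ rest, Win D (tkf e.2.1) (ndf e.1)) (r : Rule)
    (h : ruleOK R s rest r = true) (U : ℕ)
    (h1 : ∀ v < 9, r.1.testBit v = true → U.testBit v = true)
    (h2 : ∀ v < 9, U.testBit v = true → r.1.testBit v = false → r.2.1.testBit v = true) :
    D.IsIndepSet {v : Fin 9 | r.1.testBit v = true} ∧
    Win D (fun v => tk s v - bt U v) (fun v => bt R v - bt r.1 v) := by
  obtain ⟨I, A, Rm, sm, xs⟩ := r
  simp only [ruleOK, Bool.and_eq_true, Bool.or_eq_true, List.all_eq_true, Bool.not_eq_true',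
    List.any_eq_true] at h
  simp only at h1 h2 ⊢
  obtain ⟨⟨⟨⟨hIR, hind⟩, hmem⟩, hch⟩, htgt⟩ := h
  have hIR' : ∀ v, I.testBit v = true → R.testBit v = true := by
    intro v hv
    have h3 : I &&& R = I := Nat.eq_of_beq_eq_true hIR
    rw [← h3, Nat.testBit_and] at hv
    simp only [Bool.and_eq_true] at hv
    exact hv.2
  constructor
  · intro u hu v hv huv hadj
    have h3 := hind u (mem_L9 _ u.2)
    rcases h3 with h3 | h3
    · rw [Set.mem_ofPred_eq] at hu
      rw [hu] at h3
      exact Bool.noConfusion h3
    · have h4 : am u &&& I = 0 := Nat.eq_of_beq_eq_true h3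
      have h5 : (am u &&& I).testBit v = true := by
        rw [Nat.testBit_and]
        rw [Set.mem_ofPred_eq] at hv
        rw [hv]
        have : (am u).testBit v = true := hadj
        rw [this]
        rfl
      rw [h4] at h5
      simp at h5
  · have e : (fun v : Fin 9 => bt R v - bt I v) = ndf (R ^^^ I) := by
      funext v
      unfold ndf bt
      rw [Nat.testBit_xor]
      have h6 := hIR' v
      cases hI : I.testBit v
      · simp
      · rw [h6 hI]
        simp
    rw [e]
    refine chain_sound s I A U h2 xs Rm _ hch ?_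
    have hbase : ∀ v : Fin 9, 0 < ndf Rm v → tk sm v ≤ tk s v - bt U v := by
      intro v hv
      have hRv : Rm.testBit v = true := by
        by_contra hne
        simp only [Bool.not_eq_true] at hne
        simp [ndf, bt, hne] at hv
      rcases hmem v (mem_L9 _ v.2) with h7 | ⟨h7, h8⟩
      · rw [hRv] at h7
        exact Bool.noConfusion h7
      · have h9 := Nat.le_of_ble_eq_true h8
        have hb : bt U v ≤ bt A v := by
          unfold bt
          cases hUx : U.testBit v
          · simp
          · rw [h2 v v.2 hUx h7]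
        omega
    rcases htgt with h10 | ⟨e', he', h11, h12⟩
    · have h13 : Rm = 0 := Nat.eq_of_beq_eq_true h10
      refine win_zero _ _ _ fun v => ?_
      rw [h13]
      simp [ndf, bt]
    · have h13 : e'.1 = Rm := Nat.eq_of_beq_eq_true h11
      have h14 : e'.2.1 = sm := Nat.eq_of_beq_eq_true h12
      have h15 := hrest e' he'
      rw [h13, h14] at h15
      exact win_congr h15 _ hbase

def allB : ℕ → ℕ → (ℕ → Bool) → Bool
  | 0, U, p => p U
  | k + 1, U, p => allB k U p && allB k (U + 2 ^ k) p

theorem allB_sound : ∀ (k U : ℕ) (p : ℕ → Bool), allB k U p = true →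
    ∀ j < 2 ^ k, p (U + j) = true := by
  intro k
  induction k with
  | zero =>
    intro U p h j hj
    have : j = 0 := by
      simp at hj
      omega
    subst this
    exact h
  | succ k ih =>
    intro U p h j hj
    simp only [allB, Bool.and_eq_true] at h
    by_cases hj' : j < 2 ^ k
    · exact ih U p h.1 j hj'
    · have h3 := ih (U + 2 ^ k) p h.2 (j - 2 ^ k) (by rw [pow_succ] at hj; omega)
      have h4 : U + 2 ^ k + (j - 2 ^ k) = U + j := by omega
      rwa [h4] at h3

def covp (R : ℕ) (rs : List Rule) (U : ℕ) : Bool :=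
  Nat.beq U 0 || !(Nat.beq (U &&& R) U) ||
    rs.any (fun r => Nat.beq (U &&& r.1) r.1 && Nat.beq (U ||| (r.1 ||| r.2.1)) (r.1 ||| r.2.1))

def checkAll : List Entry → Bool
  | [] => true
  | e :: rest => L9.all (fun v => !(e.1.testBit v) || Nat.ble 1 (tk e.2.1 v)) &&
      e.2.2.all (ruleOK e.1 e.2.1 rest) && allB 9 0 (covp e.1 e.2.2) && checkAll rest

theorem checkAll_sound : ∀ L : List Entry, checkAll L = true →
    ∀ e ∈ L, Win D (tkf e.2.1) (ndf e.1) := by
  intro L
  induction L with
  | nil =>
    intro _ e he
    simp at he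
  | cons e rest ih =>
    intro h
    simp only [checkAll, Bool.and_eq_true] at h
    obtain ⟨⟨⟨hbase, hrules⟩, hcov⟩, hrest⟩ := h
    have hr := ih hrest
    intro e' he'
    rcases List.mem_cons.mp he' with rfl | he'
    swap
    · exact hr e' he'
    rw [List.all_eq_true] at hbase hrules
    refine win_closed D _ _ ?_ ?_
    · intro v
      have h3 := hbase v (mem_L9 _ v.2)
      simp only [Bool.or_eq_true, Bool.not_eq_true'] at h3
      unfold ndf tkf bt
      rcases h3 with h3 | h3
      · rw [h3]
        simp
      · have := Nat.le_of_ble_eq_true h3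
        cases e'.1.testBit v <;> simp <;> omega
    · intro M hM hn
      classical
      set U : ℕ := Nat.ofBits (fun v : Fin 9 => decide (v ∈ M)) with hUdef
      have hU : ∀ v : Fin 9, U.testBit v = decide (v ∈ M) := by
        intro v
        rw [hUdef, Nat.testBit_ofBits_lt _ _ v.2]
      have hU9 : U < 2 ^ 9 := Nat.ofBits_lt_two_pow _
      have hcov' := allB_sound 9 0 _ hcov U hU9
      rw [Nat.zero_add] at hcov'
      simp only [covp, Bool.or_eq_true, Bool.not_eq_true', List.any_eq_true,
        Bool.and_eq_true] at hcov'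
      have hU0 : ¬ (Nat.beq U 0 = true) := by
        intro h4
        have h5 : U = 0 := Nat.eq_of_beq_eq_true h4
        obtain ⟨v, hv⟩ := hM
        have h6 := hU v
        rw [h5] at h6
        simp [hv] at h6
      have hUR : ¬ (Nat.beq (U &&& e'.1) U = false) := by
        intro h4
        have h5 : U &&& e'.1 = U := by
          refine Nat.eq_of_testBit_eq fun i => ?_
          rw [Nat.testBit_and]
          by_cases hi : i < 9
          · have h6 := hU ⟨i, hi⟩
            simp only at h6
            by_cases hiM : (⟨i, hi⟩ : Fin 9) ∈ M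
            · have h7 := hn _ hiM
              have h8 : e'.1.testBit i = true := by
                by_contra hne
                simp only [Bool.not_eq_true] at hne
                simp [ndf, bt, hne] at h7
              rw [h8]
              simp
            · rw [h6]
              simp [hiM]
          · have h9 : U.testBit i = false :=
              Nat.testBit_lt_two_pow (lt_of_lt_of_le hU9 (Nat.pow_le_pow_right (by norm_num)
                (by omega)))
            rw [h9]
            rfl
        rw [h5] at h4
        have h10 : Nat.beq U U = true := Nat.beq_refl U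
        rw [h10] at h4
        exact Bool.noConfusion h4
      obtain ⟨r, hr1, hr2, hr3⟩ : ∃ r ∈ e'.2.2, Nat.beq (U &&& r.1) r.1 = true ∧
          Nat.beq (U ||| (r.1 ||| r.2.1)) (r.1 ||| r.2.1) = true := by
        rcases hcov' with (h4 | h4) | h4
        · exact absurd h4 hU0
        · exact absurd h4 hUR
        · exact h4
      have hs1 : U &&& r.1 = r.1 := Nat.eq_of_beq_eq_true hr2
      have hs2 : U ||| (r.1 ||| r.2.1) = r.1 ||| r.2.1 := Nat.eq_of_beq_eq_true hr3
      have hk1 : ∀ v < 9, r.1.testBit v = true → U.testBit v = true := by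
        intro v _ hv
        rw [← hs1, Nat.testBit_and] at hv
        simp only [Bool.and_eq_true] at hv
        exact hv.1
      have hk2 : ∀ v < 9, U.testBit v = true → r.1.testBit v = false →
          r.2.1.testBit v = true := by
        intro v _ hv hv'
        have h5 : (U ||| (r.1 ||| r.2.1)).testBit v = true := by
          rw [Nat.testBit_or, hv]
          rfl
        rw [hs2, Nat.testBit_or, hv'] at h5
        simpa using h5
      obtain ⟨hind, hwin⟩ := ruleOK_sound e'.1 e'.2.1 rest hr r (hrules r hr1) U hk1 hk2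
      refine ⟨{v : Fin 9 | r.1.testBit v = true}, ?_, hind, ?_⟩
      · intro v hv
        have h5 := hk1 v v.2 hv
        rw [hU v] at h5
        simpa using h5
      · have e1 : (tkf e'.2.1 - M.indicator (fun _ => (1 : ℕ))) =
            fun v : Fin 9 => tk e'.2.1 v - bt U v := by
          funext v
          simp only [Pi.sub_apply, tkf, bt]
          rw [hU v]
          by_cases hvM : v ∈ M
          · simp [hvM]
          · simp [hvM]
        have e2 : (ndf e'.1 - ({v : Fin 9 | r.1.testBit v = true}).indicator
            (fun _ => (1 : ℕ))) = fun v : Fin 9 => bt e'.1 v - bt r.1 v := by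
          funext v
          simp only [Pi.sub_apply, ndf, bt]
          cases hv : r.1.testBit v
          · simp [hv]
          · simp [hv]
        rw [e1, e2]
        exact hwin

end Pool.Agent.R987.Paint
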