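import Mathlib
import Pool.Agent.R987.PaintCheck

set_option autoImplicit false

namespace Pool.Agent.R987.Paint

theorem table_ok : checkAll table = true := by decide +kernel

theorem start_mem : ∃ e ∈ table, e.1 = 511 ∧ e.2.1 = 71969060 := by
  refine ⟨e0, ?_, rfl, rfl⟩
  unfold table
  exact List.mem_cons_self

/-- the token numbers of the gadget -/
def fD (v : Fin 9) : ℕ := if v = 4 ∨ v = 6 ∨ v = 7 then 2 else 4

theorem gadget_win : Win D fD (fun _ => 1) := by
  obtain ⟨e, he, h1, h2⟩ := start_mem
  have h := checkAll_sound table table_ok e he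
  rw [h1, h2] at h
  have e1 : tkf 71969060 = fD := by
    funext v
    revert v
    decide
  have e2 : ndf 511 = fun _ => 1 := by
    funext v
    revert v
    decide
  rwa [e1, e2] at h

end Pool.Agent.R987.Paint
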