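import Mathlib
import Pool.Agent.R987.PaintCert

set_option autoImplicit false

namespace Pool.Agent.R987.Paint

/-- the vertices of the gadget joined to the two roots -/
def isA (v : Fin 9) : Prop := v = 4 ∨ v = 6 ∨ v = 7

instance (v : Fin 9) : Decidable (isA v) := inferInstanceAs (Decidable (_ ∨ _ ∨ _))

/-- adjacency: two roots and one copy of the gadget for every `c : C` -/
def adjG (C : Type) : Bool ⊕ (C × Fin 9) → Bool ⊕ (C × Fin 9) → Prop
  | Sum.inl _, Sum.inl _ => False
  | Sum.inl _, Sum.inr (_, v) => isA v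
  | Sum.inr (_, v), Sum.inl _ => isA v
  | Sum.inr (c, u), Sum.inr (c', v) => c = c' ∧ D.Adj u v

def Gr (C : Type) : SimpleGraph (Bool ⊕ (C × Fin 9)) where
  Adj := adjG C
  symm := ⟨by
    rintro (r | ⟨s, u⟩) (r' | ⟨t, v⟩) h
    · exact h
    · exact h
    · exact h
    · exact ⟨h.1.symm, h.2.symm⟩⟩
  loopless := ⟨by
    rintro (r | ⟨s, u⟩) h
    · exact h
    · exact D.loopless.irrefl _ h.2⟩

theorem ind_le {α : Type} (M : Set α) (x : α) : M.indicator (fun _ => (1 : ℕ)) x ≤ 1 := by
  by_cases h : x ∈ M
  · rw [Set.indicator_of_mem h]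
  · rw [Set.indicator_of_notMem h]
    exact Nat.zero_le _

theorem painter_aux (C : Type) [Fintype C] : ∀ (N : ℕ) (t n : Bool ⊕ (C × Fin 9) → ℕ),
    (∑ x, t x = N) → (∀ r, n (Sum.inl r) ≤ 1 ∧ n (Sum.inl r) ≤ t (Sum.inl r)) →
    (∀ c, Win D (fun v => t (Sum.inr (c, v)) -
      (if isA v then n (Sum.inl false) + n (Sum.inl true) else 0))
      (fun v => n (Sum.inr (c, v)))) → Win (Gr C) t n := by
  classical
  intro N
  induction N using Nat.strong_induction_on with
  | _ N ih =>
  intro t n hN hr hc
  have hnt : ∀ x, n x ≤ t x := by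
    rintro (r | ⟨c, v⟩)
    · exact (hr r).2
    · have := (win_inv (hc c)).1 v
      omega
  refine win_closed _ _ _ hnt fun M hM hn => ?_
  have hcop : ∀ c, ∃ J : Set (Fin 9),
      J ⊆ {v | Sum.inr (c, v) ∈ M ∧ ¬ (isA v ∧ ∃ r, Sum.inl r ∈ M)} ∧ D.IsIndepSet J ∧
      Win D ((fun v => t (Sum.inr (c, v)) -
        (if isA v then n (Sum.inl false) + n (Sum.inl true) else 0)) -
        Set.indicator {v | Sum.inr (c, v) ∈ M ∧ ¬ (isA v ∧ ∃ r, Sum.inl r ∈ M)}
          (fun _ => (1 : ℕ)))
        ((fun v => n (Sum.inr (c, v))) - J.indicator (fun _ => (1 : ℕ))) := by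
    intro c
    by_cases hne : Set.Nonempty {v | Sum.inr (c, v) ∈ M ∧ ¬ (isA v ∧ ∃ r, Sum.inl r ∈ M)}
    · obtain ⟨J, h1, h2, h3⟩ := (win_inv (hc c)).2 _ hne (fun v hv => hn _ hv.1)
      exact ⟨J, h1, h2, h3⟩
    · rw [Set.not_nonempty_iff_eq_empty] at hne
      refine ⟨∅, Set.empty_subset _, Set.pairwise_empty _, ?_⟩
      rw [hne, Set.indicator_empty]
      have e0 : ∀ f : Fin 9 → ℕ, f - (fun _ => (0 : ℕ)) = f := by
        intro f
        funext v
        simp
      rw [e0, e0]
      exact hc c
  choose J hJ1 hJ2 hJ3 using hcop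
  let I : Set (Bool ⊕ (C × Fin 9)) := {x | match x with
    | Sum.inl r => Sum.inl r ∈ M
    | Sum.inr (c, v) => v ∈ J c}
  have hIl : ∀ r, (Sum.inl r ∈ I ↔ Sum.inl r ∈ M) := fun r => Iff.rfl
  have hIr : ∀ c v, (Sum.inr (c, v) ∈ I ↔ v ∈ J c) := fun c v => Iff.rfl
  have hIM : I ⊆ M := by
    rintro (r | ⟨c, v⟩) hx
    · exact hx
    · exact (hJ1 c hx).1
  refine ⟨I, hIM, ?_, ?_⟩
  · rintro (r | ⟨c, u⟩) hx (r' | ⟨c', v⟩) hy hxy hadj
    · exact hadj
    · exact (hJ1 c' hy).2 ⟨hadj, r, hx⟩
    · exact (hJ1 c hx).2 ⟨hadj, r', hy⟩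
    · obtain ⟨h1, h2⟩ := hadj
      subst h1
      exact hJ2 c hx hy (fun h => hxy (by rw [h])) h2
  · refine ih (∑ x, (t - M.indicator (fun _ => (1 : ℕ))) x) ?_ _ _ rfl ?_ ?_
    · rw [← hN]
      obtain ⟨x, hx⟩ := hM
      refine Finset.sum_lt_sum (fun y _ => by simp only [Pi.sub_apply]; omega)
        ⟨x, Finset.mem_univ _, ?_⟩
      have h1 := hn x hx
      have h2 := hnt x
      simp only [Pi.sub_apply, Set.indicator_of_mem hx]
      omega
    · intro r
      have h1 := hr r
      simp only [Pi.sub_apply]
      by_cases hrM : Sum.inl r ∈ M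
      · rw [Set.indicator_of_mem hrM, Set.indicator_of_mem ((hIl r).mpr hrM)]
        omega
      · rw [Set.indicator_of_notMem hrM, Set.indicator_of_notMem (fun h => hrM ((hIl r).mp h))]
        omega
    · intro c
      have e : (fun v => (n - I.indicator (fun _ => (1 : ℕ))) (Sum.inr (c, v))) =
          (fun v => n (Sum.inr (c, v))) - (J c).indicator (fun _ => (1 : ℕ)) := by
        funext v
        simp only [Pi.sub_apply]
        by_cases hv : v ∈ J c
        · rw [Set.indicator_of_mem hv, Set.indicator_of_mem ((hIr c v).mpr hv)]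
        · rw [Set.indicator_of_notMem hv, Set.indicator_of_notMem (fun h => hv ((hIr c v).mp h))]
      rw [e]
      refine win_mono (hJ3 c) _ fun v => ?_
      simp only [Pi.sub_apply]
      have hroot : ∀ r, I.indicator (fun _ => (1 : ℕ)) (Sum.inl r) ≤ n (Sum.inl r) ∧
          (Sum.inl r ∈ M → I.indicator (fun _ => (1 : ℕ)) (Sum.inl r) = 1) := by
        intro r
        by_cases hrM : Sum.inl r ∈ M
        · rw [Set.indicator_of_mem ((hIl r).mpr hrM)]
          exact ⟨hn _ hrM, fun _ => rfl⟩
        · rw [Set.indicator_of_notMem (fun h => hrM ((hIl r).mp h))]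
          exact ⟨Nat.zero_le _, fun h => absurd h hrM⟩
      have h0 := hroot false
      have h1 := hroot true
      have hm := ind_le M (Sum.inr (c, v))
      by_cases hA : isA v
      · rw [if_pos hA, if_pos hA]
        by_cases hex : ∃ r, (Sum.inl r : Bool ⊕ (C × Fin 9)) ∈ M
        · rw [Set.indicator_of_notMem (a := v) (fun h => h.2 ⟨hA, hex⟩)]
          obtain ⟨r, hrM⟩ := hex
          cases r
          · have h2 := h0.2 hrM
            omega
          · have h2 := h1.2 hrM
            omega
        · have h3 : I.indicator (fun _ => (1 : ℕ)) (Sum.inl false) = 0 :=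
            Set.indicator_of_notMem (fun h => hex ⟨_, (hIl _).mp h⟩) _
          have h4 : I.indicator (fun _ => (1 : ℕ)) (Sum.inl true) = 0 :=
            Set.indicator_of_notMem (fun h => hex ⟨_, (hIl _).mp h⟩) _
          by_cases hv : Sum.inr (c, v) ∈ M
          · rw [Set.indicator_of_mem (a := v)
              (show v ∈ {v | Sum.inr (c, v) ∈ M ∧ ¬ (isA v ∧ ∃ r, Sum.inl r ∈ M)} from
                ⟨hv, fun h => hex h.2⟩), Set.indicator_of_mem hv]
            omega
          · rw [Set.indicator_of_notMem hv]
            omega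
      · rw [if_neg hA, if_neg hA]
        by_cases hv : Sum.inr (c, v) ∈ M
        · rw [Set.indicator_of_mem (a := v)
            (show v ∈ {v | Sum.inr (c, v) ∈ M ∧ ¬ (isA v ∧ ∃ r, Sum.inl r ∈ M)} from
              ⟨hv, fun h => hA h.1⟩), Set.indicator_of_mem hv]
          omega
        · rw [Set.indicator_of_notMem hv]
          omega

theorem painter_big (C : Type) [Fintype C] :
    Win (Gr C) (fun _ => 4) (fun _ => 1) := by
  refine painter_aux C _ _ _ rfl (fun r => ⟨le_rfl, by norm_num⟩) fun c => ?_
  have e : (fun v : Fin 9 => 4 - (if isA v then 1 + 1 else 0)) = fD := by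
    funext v
    revert v
    decide
  rw [e]
  exact gadget_win

/-- Lister plays the root `r`. -/
theorem root_play (C : Type) (r : Bool) (a b : ℕ) (hb : 0 < b) (S : C → Finset ℕ)
    (good : C → Prop) (τ : Fin 9 → ℕ) (t₀ n₀ : Bool ⊕ (C × Fin 9) → ℕ)
    (hw : Win (Gr C) t₀ n₀) (ht : t₀ (Sum.inl r) = a) (hn : n₀ (Sum.inl r) = b)
    (hg : ∀ c, good c → ∀ v, n₀ (Sum.inr (c, v)) = b ∧ t₀ (Sum.inr (c, v)) = τ v) :
    ∀ i ≤ a, ∃ (t n : Bool ⊕ (C × Fin 9) → ℕ) (T : Finset ℕ), Win (Gr C) t n ∧
      T ⊆ Finset.range i ∧ n (Sum.inl r) + T.card = b ∧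
      (t (Sum.inl r) + i = a ∨ n (Sum.inl r) = 0) ∧
      (t (Sum.inl (!r)) = t₀ (Sum.inl (!r)) ∧ n (Sum.inl (!r)) = n₀ (Sum.inl (!r))) ∧
      ∀ c, good c → S c ∩ Finset.range i = T → ∀ v, n (Sum.inr (c, v)) = b ∧
        t (Sum.inr (c, v)) + (if isA v then T.card else 0) = τ v := by
  classical
  intro i
  induction i with
  | zero =>
    intro _
    refine ⟨t₀, n₀, ∅, hw, Finset.empty_subset _, by simpa using hn, Or.inl (by simpa using ht),
      ⟨rfl, rfl⟩, ?_⟩
    intro c hc _ v
    have := hg c hc v
    simpa using this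
  | succ i ih =>
    intro hi
    obtain ⟨t, n, T, hw, hT, hcard, hti, hoth, hcop⟩ := ih (by omega)
    have hiT : i ∉ T := fun h => by
      have := Finset.mem_range.mp (hT h)
      omega
    by_cases hn0 : n (Sum.inl r) = 0
    · refine ⟨t, n, T, hw, hT.trans (Finset.range_subset_range.mpr (by omega)), hcard,
        Or.inr hn0, hoth, ?_⟩
      intro c hc hSc v
      refine hcop c hc ?_ v
      rw [← hSc]
      ext x
      simp only [Finset.mem_inter, Finset.mem_range]
      constructor
      · rintro ⟨h1, h2⟩
        exact ⟨h1, by omega⟩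
      · rintro ⟨h1, h2⟩
        refine ⟨h1, ?_⟩
        have h3 : x ∈ T := by
          rw [← hSc]
          exact Finset.mem_inter.mpr ⟨h1, Finset.mem_range.mpr h2⟩
        exact Finset.mem_range.mp (hT h3)
    · have hti' : t (Sum.inl r) + i = a := by
        rcases hti with h | h
        · exact h
        · exact absurd h hn0
      obtain ⟨hnt, hresp⟩ := win_inv hw
      let M : Set (Bool ⊕ (C × Fin 9)) := {x | match x with
        | Sum.inl r' => r' = r
        | Sum.inr (c, v) => (good c ∧ S c ∩ Finset.range i = T) ∧ i ∈ S c ∧ isA v}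
      have hMl : ∀ r', (Sum.inl r' ∈ M ↔ r' = r) := fun r' => Iff.rfl
      have hMr : ∀ c v, (Sum.inr (c, v) ∈ M ↔
        (good c ∧ S c ∩ Finset.range i = T) ∧ i ∈ S c ∧ isA v) := fun c v => Iff.rfl
      obtain ⟨I, hIM, hind, hw'⟩ := hresp M ⟨Sum.inl r, rfl⟩ (by
        rintro (r' | ⟨c, v⟩) hx
        · rw [(hMl r').mp hx]
          omega
        · have h1 := (hMr c v).mp hx
          rw [(hcop c h1.1.1 h1.1.2 v).1]
          exact hb)
      have hrM : Sum.inl r ∈ M := rfl
      have hrM' : Sum.inl (!r) ∉ M := by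
        intro h
        have := (hMl _).mp h
        cases r <;> simp at this
      have hrt := hnt (Sum.inl r)
      have key : ∀ c, good c → S c ∩ Finset.range (i + 1) = T →
          S c ∩ Finset.range i = T ∧ i ∉ S c := by
        intro c _ hSc
        have h1 : i ∉ S c := by
          intro h
          apply hiT
          rw [← hSc]
          exact Finset.mem_inter.mpr ⟨h, Finset.mem_range.mpr (by omega)⟩
        refine ⟨?_, h1⟩
        rw [← hSc]
        ext x
        simp only [Finset.mem_inter, Finset.mem_range]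
        constructor
        · rintro ⟨h1, h2⟩
          exact ⟨h1, by omega⟩
        · rintro ⟨h2, h3⟩
          refine ⟨h2, ?_⟩
          rcases Nat.lt_succ_iff_lt_or_eq.mp h3 with h4 | h4
          · exact h4
          · rw [h4] at h2
            exact absurd h2 h1
      have key' : ∀ c, good c → S c ∩ Finset.range (i + 1) = insert i T →
          S c ∩ Finset.range i = T ∧ i ∈ S c := by
        intro c _ hSc
        have h1 : i ∈ S c := by
          have : i ∈ S c ∩ Finset.range (i + 1) := by
            rw [hSc]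
            exact Finset.mem_insert_self _ _
          exact (Finset.mem_inter.mp this).1
        refine ⟨?_, h1⟩
        ext x
        constructor
        · intro hx
          obtain ⟨h2, h3⟩ := Finset.mem_inter.mp hx
          rw [Finset.mem_range] at h3
          have h4 : x ∈ insert i T := by
            rw [← hSc]
            exact Finset.mem_inter.mpr ⟨h2, Finset.mem_range.mpr (by omega)⟩
          rcases Finset.mem_insert.mp h4 with h5 | h5
          · omega
          · exact h5
        · intro hx
          have h4 : x ∈ S c ∩ Finset.range (i + 1) := by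
            rw [hSc]
            exact Finset.mem_insert_of_mem hx
          exact Finset.mem_inter.mpr ⟨(Finset.mem_inter.mp h4).1, hT hx⟩
      by_cases hrI : Sum.inl r ∈ I
      · refine ⟨_, _, insert i T, hw', ?_, ?_, Or.inl ?_, ?_, ?_⟩
        · intro x hx
          rcases Finset.mem_insert.mp hx with rfl | hx
          · exact Finset.mem_range.mpr (by omega)
          · have := Finset.mem_range.mp (hT hx)
            exact Finset.mem_range.mpr (by omega)
        · rw [Finset.card_insert_of_notMem hiT]
          simp only [Pi.sub_apply, Set.indicator_of_mem hrI]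
          omega
        · simp only [Pi.sub_apply, Set.indicator_of_mem hrM]
          omega
        · simp only [Pi.sub_apply, Set.indicator_of_notMem hrM',
            Set.indicator_of_notMem (fun h => hrM' (hIM h))]
          simpa using hoth
        · intro c hc hSc v
          obtain ⟨h1, h2⟩ := key' c hc hSc
          obtain ⟨h3, h4⟩ := hcop c hc h1 v
          by_cases hA : isA v
          · have hvM : Sum.inr (c, v) ∈ M := (hMr c v).mpr ⟨⟨hc, h1⟩, h2, hA⟩
            have hvI : Sum.inr (c, v) ∉ I := by
              intro h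
              exact hind hrI h (by simp) hA
            rw [if_pos hA] at h4 ⊢
            rw [Finset.card_insert_of_notMem hiT]
            simp only [Pi.sub_apply, Set.indicator_of_mem hvM, Set.indicator_of_notMem hvI]
            have h5 := hnt (Sum.inr (c, v))
            omega
          · have hvM : Sum.inr (c, v) ∉ M := fun h => hA ((hMr c v).mp h).2.2
            rw [if_neg hA] at h4 ⊢
            simp only [Pi.sub_apply, Set.indicator_of_notMem hvM,
              Set.indicator_of_notMem (fun h => hvM (hIM h))]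
            omega
      · refine ⟨_, _, T, hw', ?_, ?_, Or.inl ?_, ?_, ?_⟩
        · exact hT.trans (Finset.range_subset_range.mpr (by omega))
        · simp only [Pi.sub_apply, Set.indicator_of_notMem hrI]
          omega
        · simp only [Pi.sub_apply, Set.indicator_of_mem hrM]
          omega
        · simp only [Pi.sub_apply, Set.indicator_of_notMem hrM',
            Set.indicator_of_notMem (fun h => hrM' (hIM h))]
          simpa using hoth
        · intro c hc hSc v
          obtain ⟨h1, h2⟩ := key c hc hSc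
          obtain ⟨h3, h4⟩ := hcop c hc h1 v
          have hvM : Sum.inr (c, v) ∉ M := fun h => h2 ((hMr c v).mp h).2.1
          simp only [Pi.sub_apply, Set.indicator_of_notMem hvM,
            Set.indicator_of_notMem (fun h => hvM (hIM h))]
          exact ⟨by omega, by omega⟩

/-- Lister presents a fixed sequence of sets inside one copy. -/
theorem seq_play (C : Type) (c : C) : ∀ (L : List (Finset (Fin 9) × ℕ)),
    (∀ p ∈ L, ∀ J : Finset (Fin 9), J ⊆ p.1 →
      (∀ u ∈ J, ∀ v ∈ J, u ≠ v → ¬ D.Adj u v) → J.card ≤ p.2) →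
    ∀ t n : Bool ⊕ (C × Fin 9) → ℕ, Win (Gr C) t n →
    (∀ v, 0 < n (Sum.inr (c, v)) →
      t (Sum.inr (c, v)) ≤ L.countP (fun p => decide (v ∈ p.1))) →
    (L.map Prod.snd).sum < ∑ v : Fin 9, n (Sum.inr (c, v)) → False := by
  classical
  intro L
  induction L with
  | nil =>
    intro _ t n hw ht hs
    simp only [List.map_nil, List.sum_nil] at hs
    obtain ⟨v, _, hv⟩ : ∃ v ∈ (Finset.univ : Finset (Fin 9)), n (Sum.inr (c, v)) ≠ 0 := by
      by_contra hne
      push Not at hne
      rw [Finset.sum_eq_zero hne] at hs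
      exact lt_irrefl _ hs
    have h1 := ht v (Nat.pos_of_ne_zero hv)
    have h2 := (win_inv hw).1 (Sum.inr (c, v))
    simp only [List.countP_nil] at h1
    omega
  | cons p L ih =>
    intro hind t n hw ht hs
    simp only [List.map_cons, List.sum_cons] at hs
    have ih' := ih (fun q hq => hind q (List.mem_cons_of_mem _ hq))
    let M : Set (Bool ⊕ (C × Fin 9)) := {x | ∃ v ∈ p.1, x = Sum.inr (c, v) ∧ 0 < n x}
    have hMr : ∀ v, (Sum.inr (c, v) ∈ M ↔ v ∈ p.1 ∧ 0 < n (Sum.inr (c, v))) := by
      intro v
      constructor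
      · rintro ⟨w, hw1, hw2, hw3⟩
        have : v = w := by
          have := Sum.inr.inj hw2
          exact (Prod.mk.inj this).2
        rw [this]
        rw [this] at hw3
        exact ⟨hw1, hw3⟩
      · rintro ⟨h1, h2⟩
        exact ⟨v, h1, rfl, h2⟩
    by_cases hM : M.Nonempty
    · obtain ⟨I, hIM, hI, hw'⟩ := (win_inv hw).2 M hM (by
        rintro x ⟨v, _, _, h⟩
        exact h)
      set J : Finset (Fin 9) := p.1.filter (fun v => Sum.inr (c, v) ∈ I) with hJ
      have hJc : J.card ≤ p.2 := by
        refine hind p List.mem_cons_self J (Finset.filter_subset _ _) ?_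
        intro u hu v hv huv hadj
        exact hI (Finset.mem_filter.mp hu).2 (Finset.mem_filter.mp hv).2
          (fun h => huv (Prod.mk.inj (Sum.inr.inj h)).2) ⟨rfl, hadj⟩
      refine ih' _ _ hw' ?_ ?_
      · intro v hv
        simp only [Pi.sub_apply] at hv ⊢
        have hv' : 0 < n (Sum.inr (c, v)) := by omega
        have h1 := ht v hv'
        rw [List.countP_cons] at h1
        by_cases hvp : v ∈ p.1
        · have hvM : Sum.inr (c, v) ∈ M := (hMr v).mpr ⟨hvp, hv'⟩
          rw [Set.indicator_of_mem hvM]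
          simp only [hvp, decide_true, if_true] at h1
          omega
        · simp only [hvp, decide_false, Bool.false_eq_true, if_false] at h1
          omega
      · have h2 : ∑ v : Fin 9, n (Sum.inr (c, v)) ≤
            ∑ v : Fin 9, (n - I.indicator (fun _ => (1 : ℕ))) (Sum.inr (c, v)) + J.card := by
          rw [Finset.card_eq_sum_ones, hJ, Finset.sum_filter]
          have h3 : (∑ v ∈ p.1, if Sum.inr (c, v) ∈ I then 1 else 0) =
              ∑ v : Fin 9, if Sum.inr (c, v) ∈ I then 1 else 0 := by
            refine Finset.sum_subset (Finset.subset_univ _) ?_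
            intro v _ hv
            rw [if_neg]
            intro h
            exact hv ((hMr v).mp (hIM h)).1
          rw [h3, ← Finset.sum_add_distrib]
          refine Finset.sum_le_sum fun v _ => ?_
          simp only [Pi.sub_apply]
          by_cases hvI : Sum.inr (c, v) ∈ I
          · rw [Set.indicator_of_mem hvI, if_pos hvI]
            omega
          · rw [Set.indicator_of_notMem hvI, if_neg hvI]
            omega
        omega
    · refine ih' t n hw ?_ (by omega)
      intro v hv
      have h1 := ht v hv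
      rw [List.countP_cons] at h1
      have hvp : v ∉ p.1 := by
        intro h
        exact hM ⟨_, (hMr v).mpr ⟨h, hv⟩⟩
      simpa [hvp] using h1

end Pool.Agent.R987.Paint
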