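import Mathlib
import Pool.Agent.R987.Win2

/-! Edge-connectivity of vertex-transitive graphs and spanning trees of maximum degree three. -/

namespace Pool.Agent.R987.VT

open Finset Classical
open Pool.Agent.R987

set_option linter.unusedSectionVars false

variable {V : Type*} [Fintype V]

/-- number of ordered edges leaving `U` -/
noncomputable def bd (Γ : SimpleGraph V) (U : Finset V) : ℕ :=
  ((univ : Finset (V × V)).filter (fun p => p.1 ∈ U ∧ p.2 ∉ U ∧ Γ.Adj p.1 p.2)).card

theorem bd_submod (Γ : SimpleGraph V) (U W : Finset V) :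
    bd Γ (U ∩ W) + bd Γ (U ∪ W) ≤ bd Γ U + bd Γ W := by
  unfold bd
  simp only [Finset.card_filter]
  rw [← Finset.sum_add_distrib, ← Finset.sum_add_distrib]
  apply Finset.sum_le_sum
  intro p _
  by_cases h1 : p.1 ∈ U <;> by_cases h2 : p.1 ∈ W <;> by_cases h3 : p.2 ∈ U <;>
    by_cases h4 : p.2 ∈ W <;> by_cases h5 : Γ.Adj p.1 p.2 <;> simp [h1, h2, h3, h4, h5]

theorem bd_compl (Γ : SimpleGraph V) (U : Finset V) : bd Γ Uᶜ = bd Γ U := by
  unfold bd
  refine Finset.card_bij' (fun p _ => (p.2, p.1)) (fun p _ => (p.2, p.1)) ?_ ?_ ?_ ?_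
  · rintro ⟨x, y⟩ h
    simp only [Finset.mem_filter, Finset.mem_univ, true_and, Finset.mem_compl, not_not] at h ⊢
    exact ⟨h.2.1, h.1, h.2.2.symm⟩
  · rintro ⟨x, y⟩ h
    simp only [Finset.mem_filter, Finset.mem_univ, true_and, Finset.mem_compl, not_not] at h ⊢
    exact ⟨h.2.1, h.1, h.2.2.symm⟩
  · rintro ⟨x, a⟩ _; rfl
  · rintro ⟨x, a⟩ _; rfl

variable {G : Type*} [Group G] [MulAction G V]

theorem bd_smul (Γ : SimpleGraph V) (hinv : ∀ (g : G) x y, Γ.Adj x y → Γ.Adj (g • x) (g • y))
    (g : G) (U : Finset V) : bd Γ (U.image (fun x => g • x)) = bd Γ U := by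
  unfold bd
  refine Finset.card_bij' (fun p _ => (g⁻¹ • p.1, g⁻¹ • p.2)) (fun p _ => (g • p.1, g • p.2))
    ?_ ?_ ?_ ?_
  · rintro ⟨x, y⟩ h
    simp only [Finset.mem_filter, Finset.mem_univ, true_and, Finset.mem_image] at h ⊢
    obtain ⟨⟨x', hx', rfl⟩, h2, h3⟩ := h
    refine ⟨by simpa using hx', fun h4 => h2 ⟨_, h4, by simp⟩, ?_⟩
    exact hinv g⁻¹ _ _ h3
  · rintro ⟨x, y⟩ h
    simp only [Finset.mem_filter, Finset.mem_univ, true_and, Finset.mem_image] at h ⊢
    obtain ⟨h1, h2, h3⟩ := h
    refine ⟨⟨x, h1, rfl⟩, ?_, hinv g _ _ h3⟩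
    rintro ⟨y', hy', h4⟩
    exact h2 ((smul_left_cancel g h4) ▸ hy')
  · rintro ⟨x, y⟩ _; simp
  · rintro ⟨x, y⟩ _; simp

/-- **Edge-connectivity of vertex-transitive graphs** (Mader). -/
theorem deg_le_bd [MulAction.IsPretransitive G V] (Γ : SimpleGraph V) (hc : Γ.Connected)
    (hinv : ∀ (g : G) x y, Γ.Adj x y → Γ.Adj (g • x) (g • y)) (v : V)
    (W : Finset V) (hW : W.Nonempty) (hW' : W ≠ univ) :
    (univ.filter (fun y => Γ.Adj v y)).card ≤ bd Γ W := by
  have hinv' : ∀ (g : G) x y, Γ.Adj (g • x) (g • y) ↔ Γ.Adj x y := by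
    intro g x y
    refine ⟨fun h => ?_, hinv g x y⟩
    have := hinv g⁻¹ _ _ h
    simpa using this
  obtain ⟨U₁, hU₁, hmin₁⟩ := Finset.exists_min_image
    (univ.filter (fun U : Finset V => U.Nonempty ∧ U ≠ univ)) (bd Γ) ⟨W, by simp [hW, hW']⟩
  simp only [Finset.mem_filter, Finset.mem_univ, true_and] at hU₁ hmin₁
  obtain ⟨U, hU₂, hmin₂⟩ := Finset.exists_min_image
    (univ.filter (fun U : Finset V => (U.Nonempty ∧ U ≠ univ) ∧ bd Γ U = bd Γ U₁))
    (fun U => U.card) ⟨U₁, by simp [hU₁]⟩
  simp only [Finset.mem_filter, Finset.mem_univ, true_and] at hU₂ hmin₂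
  obtain ⟨hUne, hUbd⟩ := hU₂
  have hminU : ∀ W : Finset V, W.Nonempty → W ≠ univ → bd Γ U ≤ bd Γ W := by
    intro W h h'; rw [hUbd]; exact hmin₁ W ⟨h, h'⟩
  have hminc : ∀ W : Finset V, W.Nonempty → W ≠ univ → bd Γ W = bd Γ U → U.card ≤ W.card := by
    intro W h h' h''; exact hmin₂ W ⟨⟨h, h'⟩, by rw [h'', hUbd]⟩
  have hhalf : 2 * U.card ≤ Fintype.card V := by
    have h := hminc Uᶜ (by
      rw [Finset.nonempty_iff_ne_empty, Ne, Finset.compl_eq_empty_iff]; exact hUne.2)
      (by rw [Ne, Finset.compl_eq_univ_iff]; exact hUne.1.ne_empty) (bd_compl Γ U)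
    rw [Finset.card_compl] at h
    have := Finset.card_le_univ U
    omega
  have hinj : ∀ g : G, Function.Injective (fun y : V => g • y) := fun g => MulAction.injective g
  have hblock : ∀ g : G, ∀ x ∈ U, g • x ∈ U → U.image (fun y => g • y) = U := by
    intro g x hx hgx
    by_contra hne
    set W := U.image (fun y => g • y) with hWdef
    have hVc : W.card = U.card := Finset.card_image_of_injective _ (hinj _)
    have hgV : g • x ∈ W := by rw [hWdef]; exact Finset.mem_image.mpr ⟨x, hx, rfl⟩
    have hint : (U ∩ W).Nonempty := ⟨g • x, Finset.mem_inter.mpr ⟨hgx, hgV⟩⟩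
    have hlt : (U ∩ W).card < U.card := by
      apply Finset.card_lt_card
      refine Finset.ssubset_iff_subset_ne.mpr ⟨Finset.inter_subset_left, ?_⟩
      intro h
      apply hne
      have h2 : U ⊆ W := by rw [← h]; exact Finset.inter_subset_right
      exact (Finset.eq_of_subset_of_card_le h2 (by rw [hVc])).symm
    have hintne : U ∩ W ≠ univ := by
      intro h; rw [h, Finset.card_univ] at hlt
      have := Finset.card_le_univ U; omega
    have hun : U ∪ W ≠ univ := by
      intro h
      have h3 := Finset.card_union_add_card_inter U W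
      rw [h, Finset.card_univ] at h3
      have h4 : 0 < (U ∩ W).card := Finset.card_pos.mpr hint
      omega
    have hsm := bd_submod Γ U W
    have hVb : bd Γ W = bd Γ U := bd_smul Γ hinv g U
    have h5 := hminU (U ∪ W) (hUne.1.mono Finset.subset_union_left) hun
    have h6 := hminU (U ∩ W) hint hintne
    have h7 : bd Γ (U ∩ W) = bd Γ U := by omega
    have h8 := hminc (U ∩ W) hint hintne h7
    omega
  -- degrees
  set d := (univ.filter (fun y => Γ.Adj v y)).card with hd
  have hreg : ∀ x, (univ.filter (fun y => Γ.Adj x y)).card = d := by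
    intro x
    obtain ⟨g, rfl⟩ := MulAction.exists_smul_eq G v x
    rw [hd]
    refine Finset.card_bij' (fun y _ => g⁻¹ • y) (fun y _ => g • y) ?_ ?_ ?_ ?_
    · intro y hy
      simp only [Finset.mem_filter, Finset.mem_univ, true_and] at hy ⊢
      rw [← hinv' g]; simpa using hy
    · intro y hy
      simp only [Finset.mem_filter, Finset.mem_univ, true_and] at hy ⊢
      exact hinv g _ _ hy
    · intro y _; simp
    · intro y _; simp
  obtain ⟨u₀, hu₀⟩ := hUne.1
  set j := (U.filter (fun y => Γ.Adj u₀ y)).card with hj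
  have hin : ∀ x ∈ U, (U.filter (fun y => Γ.Adj x y)).card = j := by
    intro x hx
    obtain ⟨g, hg⟩ := MulAction.exists_smul_eq G u₀ x
    have hgU := hblock g u₀ hu₀ (by rw [hg]; exact hx)
    have hmem : ∀ y, g • y ∈ U ↔ y ∈ U := by
      intro y
      constructor
      · intro h
        rw [← hgU] at h
        obtain ⟨z, hz, hz'⟩ := Finset.mem_image.mp h
        exact (smul_left_cancel g hz') ▸ hz
      · intro h
        rw [← hgU]; exact Finset.mem_image.mpr ⟨y, h, rfl⟩
    rw [hj]
    symm
    refine Finset.card_bij' (fun y _ => g • y) (fun y _ => g⁻¹ • y) ?_ ?_ ?_ ?_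
    · intro y hy
      rw [Finset.mem_filter] at hy ⊢
      refine ⟨(hmem y).2 hy.1, ?_⟩
      rw [← hg]; exact hinv g _ _ hy.2
    · intro y hy
      rw [Finset.mem_filter] at hy ⊢
      refine ⟨(hmem _).1 (by simpa using hy.1), ?_⟩
      rw [← hinv' g, hg]; simpa using hy.2
    · intro y _; simp
    · intro y _; simp
  have hjU : j + 1 ≤ U.card := by
    have : insert u₀ (U.filter (fun y => Γ.Adj u₀ y)) ⊆ U := by
      intro y hy
      rcases Finset.mem_insert.mp hy with rfl | h
      · exact hu₀
      · exact (Finset.mem_filter.mp h).1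
    have h9 := Finset.card_le_card this
    rwa [Finset.card_insert_of_notMem (by simp)] at h9
  have hout : ∀ x ∈ U, (Uᶜ.filter (fun y => Γ.Adj x y)).card + j = d := by
    intro x hx
    rw [← hreg x, ← hin x hx, ← Finset.card_union_of_disjoint]
    · congr 1
      ext y
      simp only [Finset.mem_union, Finset.mem_filter, Finset.mem_compl, Finset.mem_univ, true_and]
      tauto
    · rw [Finset.disjoint_left]
      intro y h1 h2
      rw [Finset.mem_filter, Finset.mem_compl] at h1
      rw [Finset.mem_filter] at h2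
      exact h1.1 h2.1
  have hbdU : bd Γ U = U.card * (d - j) := by
    unfold bd
    rw [Finset.card_eq_sum_card_fiberwise (f := Prod.fst) (t := U)]
    · rw [Finset.sum_congr rfl (g := fun _ => d - j)]
      · rw [Finset.sum_const, smul_eq_mul]
      · intro x hx
        have h1 := hout x hx
        have h2 : (((univ : Finset (V × V)).filter
            (fun p => p.1 ∈ U ∧ p.2 ∉ U ∧ Γ.Adj p.1 p.2)).filter (fun p => p.1 = x)).card =
            (Uᶜ.filter (fun y => Γ.Adj x y)).card := by
          refine Finset.card_bij' (fun p _ => p.2) (fun y _ => (x, y)) ?_ ?_ ?_ ?_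
          · rintro ⟨a, b⟩ h
            simp only [Finset.mem_filter, Finset.mem_univ, true_and, Finset.mem_compl] at h ⊢
            obtain ⟨⟨h1, h2, h3⟩, rfl⟩ := h
            exact ⟨h2, h3⟩
          · intro y h
            simp only [Finset.mem_filter, Finset.mem_univ, true_and, Finset.mem_compl] at h ⊢
            exact ⟨⟨hx, h.1, h.2⟩, trivial⟩
          · rintro ⟨a, b⟩ h
            simp only [Finset.mem_filter, Finset.mem_univ, true_and] at h
            rw [h.2]
          · intro y _; rfl
        rw [h2]; omega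
    · intro p hp
      exact (Finset.mem_filter.mp hp).2.1
  -- the boundary of U is not empty
  have hpos : 1 ≤ d - j := by
    by_contra hcon
    have h0 : bd Γ U = 0 := by rw [hbdU]; have : d - j = 0 := by omega
                               rw [this]; simp
    have hcl : ∀ x ∈ U, ∀ y, Γ.Adj x y → y ∈ U := by
      intro x hx y hxy
      by_contra hy
      unfold bd at h0
      rw [Finset.card_eq_zero, Finset.filter_eq_empty_iff] at h0
      exact h0 (Finset.mem_univ (x, y)) ⟨hx, hy, hxy⟩
    apply hUne.2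
    rw [Finset.eq_univ_iff_forall]
    intro y
    obtain ⟨p⟩ := hc.preconnected u₀ y
    have : ∀ {a b : V} (q : Γ.Walk a b), a ∈ U → b ∈ U := by
      intro a b q
      induction q with
      | nil => exact fun h => h
      | cons h _ ih => exact fun ha => ih (hcl _ ha _ h)
    exact this p hu₀
  calc d = j + (d - j) := by omega
    _ ≤ U.card * (d - j) := by nlinarith
    _ = bd Γ U := hbdU.symm
    _ ≤ bd Γ W := hminU W hW hW'

/-- **Rooted spanning trees with at most three tree neighbours in vertex-transitive graphs.** -/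
theorem rooted_tree [MulAction.IsPretransitive G V] (Γ : SimpleGraph V) (hc : Γ.Connected)
    (hinv : ∀ (g : G) x y, Γ.Adj x y → Γ.Adj (g • x) (g • y)) (r : V) :
    ∃ (par : V → V) (rk : V → ℕ),
      (∀ w, w ≠ r → rk (par w) < rk w ∧ Γ.Adj (par w) w) ∧
      ∀ w, (univ.filter (fun w' => w' ≠ r ∧ par w' = w)).card + (if w = r then 0 else 1) ≤ 3 := by
  by_cases htriv : Subsingleton V
  · refine ⟨id, fun _ => 0, fun w hw => absurd (Subsingleton.elim w r) hw, fun w => ?_⟩
    have : (univ.filter (fun w' : V => w' ≠ r ∧ id w' = w)) = ∅ := by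
      rw [Finset.filter_eq_empty_iff]
      rintro x - ⟨hx, -⟩
      exact hx (Subsingleton.elim x r)
    rw [this, if_pos (Subsingleton.elim w r)]; simp
  · have hnt : Nontrivial V := not_subsingleton_iff_nontrivial.mp htriv
    set d := (univ.filter (fun y => Γ.Adj r y)).card with hd
    have hdpos : 1 ≤ d := by
      obtain ⟨y, hy⟩ := exists_ne r
      obtain ⟨p⟩ := hc.preconnected r y
      cases p with
      | nil => exact absurd rfl hy
      | @cons _ z _ h _ => exact Finset.card_pos.mpr ⟨z, by simpa using h⟩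
    have : Nonempty V := ⟨r⟩
    obtain ⟨F, hFΓ, hFc, hFd⟩ := Win.main Γ d hdpos
      (by
        intro x
        obtain ⟨g, rfl⟩ := MulAction.exists_smul_eq G r x
        refine Finset.card_le_card_of_injOn (fun y => g⁻¹ • y) ?_ ?_
        · intro y hy
          simp only [Finset.coe_filter, Set.mem_ofPred_eq, Finset.mem_univ, true_and] at hy ⊢
          have := hinv g⁻¹ _ _ hy.symm
          simpa using this
        · intro y _ z _ hyz
          exact smul_left_cancel _ hyz)
      (fun U hU hU' => deg_le_bd Γ hc hinv r U hU hU')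
    have hgood : Win.Good Γ F univ := ⟨hFΓ, fun _ _ _ => ⟨Finset.mem_univ _, Finset.mem_univ _⟩,
      fun x _ y _ => hFc.preconnected x y, hFd⟩
    obtain ⟨T, par, rk, hT, hpar, hadj⟩ := Win.rooted hgood (Finset.mem_univ r)
    have hrk : ∀ w, w ≠ r → rk (par w) < rk w := fun w hw => (hpar w (Finset.mem_univ _) hw).2
    have hTpar : ∀ w, w ≠ r → T.Adj w (par w) := fun w hw =>
      (hadj w (par w)).2 (Or.inl ⟨Finset.mem_univ _, hw, rfl⟩)
    refine ⟨par, rk, fun w hw => ⟨hrk w hw, hT.le (hTpar w hw).symm⟩, ?_⟩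
    intro w
    refine le_trans ?_ (hT.deg w)
    by_cases hw : w = r
    · rw [if_pos hw, add_zero]
      apply Finset.card_le_card
      intro y hy
      rw [Finset.mem_filter] at hy ⊢
      exact ⟨Finset.mem_univ _, (hadj w y).2 (Or.inr ⟨Finset.mem_univ _, hy.2.1, hy.2.2⟩)⟩
    · rw [if_neg hw]
      have hnot : par w ∉ univ.filter (fun w' => w' ≠ r ∧ par w' = w) := by
        intro h
        obtain ⟨-, h1, h2⟩ := Finset.mem_filter.mp h
        have h3 := hrk _ h1
        have h4 := hrk w hw
        rw [h2] at h3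
        omega
      rw [← Finset.card_insert_of_notMem hnot]
      apply Finset.card_le_card
      intro y hy
      rw [Finset.mem_filter]
      rcases Finset.mem_insert.mp hy with rfl | h
      · exact ⟨Finset.mem_univ _, hTpar w hw⟩
      · obtain ⟨-, h1, h2⟩ := Finset.mem_filter.mp h
        exact ⟨Finset.mem_univ _, (hadj w y).2 (Or.inr ⟨Finset.mem_univ _, h1, h2⟩)⟩

end Pool.Agent.R987.VT
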