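import Mathlib
import Pool.Agent.R987.NormCay
import Pool.Agent.R987.VT

/-! Cayley graphs whose connection set is normalized by some of its own elements. -/

namespace Pool.Agent.R987.SelfNorm

open Equiv Equiv.Perm Finset
open Pool.Agent.R987.CycMerge Pool.Agent.R987.Glue Pool.Agent.R987.NormCay

/-- **Main theorem.** -/
theorem ham_selfnorm {G : Type*} [Group G] [Finite G] (A C : Set G) (hinv : ∀ a ∈ A, a⁻¹ ∈ A)
    (hgen : Subgroup.closure A = ⊤) (hCA : C ⊆ A) (hnorm : ∀ c ∈ C, ∀ a ∈ A, c⁻¹ * a * c ∈ A)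
    (hcard : 3 ≤ Nat.card (Subgroup.closure C)) : Ham G A := by
  classical
  have := Fintype.ofFinite G
  set M : Subgroup G := Subgroup.closure C with hM
  -- M normalizes A
  have hMnorm : ∀ m ∈ M, ∀ a ∈ A, m⁻¹ * a * m ∈ A := by
    intro m hm
    have hm' : m ∈ Submonoid.closure C := by
      rw [← Subgroup.closure_toSubmonoid_of_finite]; exact hm
    induction hm' using Submonoid.closure_induction with
    | mem x hx => exact hnorm x hx
    | one => intro a ha; simpa using ha
    | mul x y hx hy ihx ihy =>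
      intro a ha
      have hx' : x ∈ M := by
        rw [← Subgroup.closure_toSubmonoid_of_finite] at hx; exact hx
      have hy' : y ∈ M := by
        rw [← Subgroup.closure_toSubmonoid_of_finite] at hy; exact hy
      have := ihy hy' _ (ihx hx' a ha)
      have e : (x * y)⁻¹ * a * (x * y) = y⁻¹ * (x⁻¹ * a * x) * y := by group
      rw [e]; exact this
  have hMnorm' : ∀ m ∈ M, ∀ a ∈ A, m * a * m⁻¹ ∈ A := by
    intro m hm a ha
    have := hMnorm m⁻¹ (M.inv_mem hm) a ha
    simpa using this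
  -- hamiltonicity of M
  have hamM : Ham M (Subtype.val ⁻¹' A) := by
    refine ham_of_conj (G := M) (Subtype.val ⁻¹' A) (fun a ha => hinv _ ha)
      (fun a ha g => hMnorm g g.2 _ ha) ?_ ?_
    · rw [← top_le_iff]
      have h1 : Subgroup.closure (((↑) : M → G) ⁻¹' C) = ⊤ := by
        rw [hM]; exact Subgroup.closure_closure_coe_preimage
      rw [← h1]
      apply Subgroup.closure_mono
      intro x hx
      exact hCA hx
    · rw [← Finite.one_lt_card_iff_nontrivial]; omega
  obtain ⟨τ, hτ, hl⟩ := hamM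
  have hlab : ∀ k : M, (k : G)⁻¹ * (τ k : G) ∈ A := fun k => hl k
  have : Fintype (G ⧸ M) := Fintype.ofFinite _
  have : Fintype M := Fintype.ofFinite _
  -- the coset graph
  let Γ : SimpleGraph (G ⧸ M) :=
    { Adj := fun w w' => w ≠ w' ∧ ∃ g : G, ∃ a ∈ A, (g : G ⧸ M) = w ∧ ((g * a : G) : G ⧸ M) = w'
      symm := ⟨fun w w' h => by
        obtain ⟨hne, g, a, ha, h1, h2⟩ := h
        exact ⟨hne.symm, g * a, a⁻¹, hinv a ha, h2, by simpa using h1⟩⟩
      loopless := ⟨fun w h => h.1 rfl⟩ }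
  have hΓinv : ∀ (g : G) x y, Γ.Adj x y → Γ.Adj (g • x) (g • y) := by
    rintro g x y ⟨hne, h, a, ha, rfl, rfl⟩
    refine ⟨fun h' => hne (smul_left_cancel g h'), g * h, a, ha, rfl, ?_⟩
    rw [mul_assoc]; rfl
  have hΓc : Γ.Connected := by
    have key : ∀ g : G, Γ.Reachable ((1 : G) : G ⧸ M) (g : G ⧸ M) := by
      intro g
      have hg : g ∈ Submonoid.closure A := by
        rw [← Subgroup.closure_toSubmonoid_of_finite, hgen]; trivial
      induction hg using Submonoid.closure_induction_right with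
      | one => exact SimpleGraph.Reachable.refl _
      | mul_right x hx y hy ih =>
        by_cases h : ((x : G) : G ⧸ M) = ((x * y : G) : G ⧸ M)
        · rw [← h]; exact ih
        · exact ih.trans (SimpleGraph.Adj.reachable
            (show Γ.Adj _ _ from ⟨h, x, y, hy, rfl, rfl⟩))
    rw [SimpleGraph.connected_iff]
    refine ⟨?_, ⟨((1 : G) : G ⧸ M)⟩⟩
    intro x y
    obtain ⟨x, rfl⟩ := QuotientGroup.mk_surjective x
    obtain ⟨y, rfl⟩ := QuotientGroup.mk_surjective y
    exact (key x).symm.trans (key y)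
  obtain ⟨par, rk, hpar, hdeg⟩ := VT.rooted_tree (G := G) Γ hΓc hΓinv ((1 : G) : G ⧸ M)
  refine glue (V := G) (K := M) (Ω := G ⧸ M) (fun x y => x⁻¹ * y ∈ A) ?_
    (fun x => (x : G ⧸ M)) τ hτ
    (fun w f => ∃ g : G, (∀ k, f k = g * k) ∧ (g : G ⧸ M) = w) ?_ ?_ ((1 : G) : G ⧸ M) par rk
    (fun w hw => (hpar w hw).1) ?_ ?_ ?_
  · intro x y h
    have := hinv _ h
    simpa using this
  · rintro w f ⟨g, hf, rfl⟩ x
    constructor
    · intro h
      have h' : (g : G ⧸ M) = (x : G ⧸ M) := h.symm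
      rw [QuotientGroup.eq] at h'
      exact ⟨⟨g⁻¹ * x, h'⟩, by rw [hf]; simp⟩
    · rintro ⟨k, rfl⟩
      rw [hf]
      symm
      rw [QuotientGroup.eq]
      simp
  · rintro w f ⟨g, hf, -⟩ k
    rw [hf, hf]
    have := hlab k
    convert this using 1
    group
  · exact ⟨⟨fun k => (k : G), Subtype.val_injective⟩, 1, by simp, rfl⟩
  · rintro w hw f ⟨g, hf, hg⟩
    obtain ⟨-, -, g₀, a, ha, h1, h2⟩ := hpar w hw
    -- g₀ = g * m₀
    have hm : g⁻¹ * g₀ ∈ M := by
      rw [← QuotientGroup.eq, hg, h1]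
    set m := g⁻¹ * g₀ with hmdef
    have hg₀ : g₀ = g * m := by rw [hmdef]; group
    have ha' : m * a * m⁻¹ ∈ A := hMnorm' m hm a ha
    refine ⟨⟨fun k => g * (m * a * m⁻¹) * k, fun x y h => ?_⟩,
      ⟨g * (m * a * m⁻¹), fun k => rfl, ?_⟩, ?_⟩
    · have : g * (m * a * m⁻¹) * (x : G) = g * (m * a * m⁻¹) * y := h
      exact Subtype.ext (mul_left_cancel this)
    · rw [← h2, hg₀, QuotientGroup.eq]
      have e : (g * (m * a * m⁻¹))⁻¹ * (g * m * a) = m := by group
      rw [e]; exact hm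
    · intro k
      change (f k)⁻¹ * (g * (m * a * m⁻¹) * k) ∈ A
      rw [hf]
      have := hMnorm k k.2 _ ha'
      convert this using 1
      group
  · intro w
    rw [← Nat.card_eq_fintype_card]
    refine le_trans (le_of_eq ?_) ((hdeg w).trans hcard)
    congr!

end Pool.Agent.R987.SelfNorm
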