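import Mathlib

/-!
# Regular trees are isomorphic, with prescribed roots
-/

set_option autoImplicit false

namespace Pool.Agent.R987.Tree

open SimpleGraph Set

universe u v

variable {V : Type u} {W : Type v} {G : SimpleGraph V} {H : SimpleGraph W}

theorem parent_unique (hG : G.IsTree) (o : V) {v p p' : V} (h1 : G.Adj v p) (h1' : G.Adj v p')
    (h2 : G.dist o v = G.dist o p + 1) (h2' : G.dist o v = G.dist o p' + 1) : p = p' := by
  classical
  obtain ⟨q, hq, _⟩ := (hG.connected o v).exists_path_of_dist
  have key : ∀ x : V, G.Adj v x → G.dist o v = G.dist o x + 1 → x = q.penultimate := by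
    intro x hx hd
    obtain ⟨r, hr, hr'⟩ := (hG.connected o x).exists_path_of_dist
    have hv : v ∉ r.support := by
      intro hv
      have h3 := SimpleGraph.dist_le (r.takeUntil v hv)
      have h4 := r.length_takeUntil_le_length hv
      omega
    exact hG.isAcyclic.eq_penultimate_of_adj_end hq hx
      (hG.isAcyclic.mem_support_of_ne_mem_support_of_adj_of_isPath hq hr hx hv)
  rw [key p h1 h2, key p' h1' h2']

theorem exists_parent (hG : G.IsTree) (o : V) {v : V} (h : v ≠ o) :
    ∃ p, G.Adj v p ∧ G.dist o v = G.dist o p + 1 := by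
  obtain ⟨q, hq⟩ := (hG.connected v o).exists_walk_length_eq_dist
  cases q with
  | nil => exact absurd rfl h
  | @cons _ p _ hadj r =>
    refine ⟨p, hadj, ?_⟩
    rw [Walk.length_cons] at hq
    rcases hG.dist_eq_dist_add_one_of_adj o hadj with h1 | h1
    · exact h1
    · have h2 := SimpleGraph.dist_le r
      rw [SimpleGraph.dist_comm (u := v)] at hq
      rw [SimpleGraph.dist_comm] at h2
      omega

open Classical in
/-- The parent of `v`, for the root `o`. -/
noncomputable def par (G : SimpleGraph V) (o v : V) : V :=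
  if h : ∃ p, G.Adj v p ∧ G.dist o v = G.dist o p + 1 then h.choose else v

theorem par_spec (hG : G.IsTree) (o : V) {v : V} (h : v ≠ o) :
    G.Adj v (par G o v) ∧ G.dist o v = G.dist o (par G o v) + 1 := by
  have h2 := exists_parent hG o h
  rw [par, dif_pos h2]
  exact h2.choose_spec

theorem par_eq (hG : G.IsTree) (o : V) {v p : V} (h : G.Adj v p)
    (h2 : G.dist o v = G.dist o p + 1) : par G o v = p := by
  have hv : v ≠ o := by
    rintro rfl
    rw [SimpleGraph.dist_self] at h2
    omega
  exact parent_unique hG o (par_spec hG o hv).1 h (par_spec hG o hv).2 h2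

theorem adj_cases (hG : G.IsTree) (o : V) {v w : V} (h : G.Adj v w) :
    (w ≠ o ∧ par G o w = v) ∨ (v ≠ o ∧ par G o v = w) := by
  rcases hG.dist_eq_dist_add_one_of_adj o h with h1 | h1
  · right
    refine ⟨?_, par_eq hG o h h1⟩
    rintro rfl
    rw [SimpleGraph.dist_self] at h1
    omega
  · left
    refine ⟨?_, par_eq hG o h.symm h1⟩
    rintro rfl
    rw [SimpleGraph.dist_self] at h1
    omega

/-- A matching of the neighbours of `p` and of `q` which maps `a` to `b`. -/
theorem exists_beta (hd : ∀ v w, Nonempty (G.neighborSet v ≃ H.neighborSet w)) (p : V) (q : W)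
    (a : V) (b : W) :
    ∃ β : V → W, BijOn β (G.neighborSet p) (H.neighborSet q) ∧
      (a ∈ G.neighborSet p → b ∈ H.neighborSet q → β a = b) := by
  classical
  obtain ⟨e⟩ := hd p q
  have ext : ∀ e : G.neighborSet p ≃ H.neighborSet q,
      BijOn (fun x => if h : x ∈ G.neighborSet p then (e ⟨x, h⟩ : W) else q)
        (G.neighborSet p) (H.neighborSet q) := by
    intro e
    refine ⟨fun x hx => ?_, fun x hx y hy hxy => ?_, fun y hy => ?_⟩
    · simp only [hx, dif_pos]; exact (e ⟨x, hx⟩).2
    · simp only [hx, hy, dif_pos] at hxy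
      have := e.injective (Subtype.ext hxy)
      exact congrArg Subtype.val this
    · refine ⟨e.symm ⟨y, hy⟩, (e.symm ⟨y, hy⟩).2, ?_⟩
      simp
  by_cases h : a ∈ G.neighborSet p ∧ b ∈ H.neighborSet q
  · refine ⟨_, ext (e.trans (Equiv.swap (e ⟨a, h.1⟩) ⟨b, h.2⟩)), fun _ _ => ?_⟩
    simp [h.1]
  · exact ⟨_, ext e, fun h1 h2 => absurd ⟨h1, h2⟩ h⟩

section

variable (G H) (o : V) (o' : W) (β : V → W → V → W → V → W)

/-- The images of the parent and of the vertex, for vertices at distance `n` from `o`. -/
noncomputable def g : ℕ → V → W × W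
  | 0, _ => (o', o')
  | n + 1, v => let p := par G o v
    let q := g n p
    (q.2, β p q.2 (par G o p) q.1 v)

/-- The map. -/
noncomputable def f (v : V) : W := (g G o o' β (G.dist o v) v).2

/-- The image of the parent. -/
noncomputable def f1 (v : V) : W := (g G o o' β (G.dist o v) v).1

end

variable {o : V} {o' : W} {β : V → W → V → W → V → W}

theorem f_root : f G o o' β o = o' := by
  rw [f, SimpleGraph.dist_self]; rfl

theorem f_step (hG : G.IsTree) {v : V} (h : v ≠ o) :
    f1 G o o' β v = f G o o' β (par G o v) ∧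
    f G o o' β v = β (par G o v) (f G o o' β (par G o v)) (par G o (par G o v))
      (f1 G o o' β (par G o v)) v := by
  have h1 := (par_spec hG o h).2
  have e : g G o o' β (G.dist o v) v = (f G o o' β (par G o v),
      β (par G o v) (f G o o' β (par G o v)) (par G o (par G o v))
        (f1 G o o' β (par G o v)) v) := by
    rw [h1]; rfl
  exact ⟨congrArg Prod.fst e, congrArg Prod.snd e⟩

theorem cover (hG : G.IsTree) (hβ : ∀ p q a b, BijOn (β p q a b) (G.neighborSet p)
    (H.neighborSet q) ∧ (p ≠ o → a ∈ G.neighborSet p → b ∈ H.neighborSet q → β p q a b a = b))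
    (p : V) :
    BijOn (f G o o' β) (G.neighborSet p) (H.neighborSet (f G o o' β p)) := by
  have hadj : ∀ n : ℕ, ∀ v, G.dist o v = n → v ≠ o →
      H.Adj (f G o o' β (par G o v)) (f G o o' β v) := by
    intro n v _ hv
    have h1 := par_spec hG o hv
    rw [(f_step hG hv).2]
    exact (hβ _ _ _ _).1.mapsTo h1.1.symm
  have hEq : EqOn (β p (f G o o' β p) (par G o p) (f1 G o o' β p)) (f G o o' β)
      (G.neighborSet p) := by
    intro u hu
    rw [SimpleGraph.mem_neighborSet] at hu
    rcases adj_cases hG o hu with ⟨h1, h2⟩ | ⟨h1, h2⟩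
    · rw [(f_step hG h1).2, h2]
    · rw [← h2, ← (f_step hG h1).1]
      refine (hβ _ _ _ _).2 h1 ?_ ?_
      · exact (par_spec hG o h1).1
      · rw [(f_step hG h1).1]
        exact (hadj _ p rfl h1).symm
  exact (hβ _ _ _ _).1.congr hEq

theorem chain_map (F : G →g H) (hF : ∀ p, InjOn F (G.neighborSet p)) {u v : V} (p : G.Walk u v)
    (hp : List.IsChain (· ≠ ·) p.edges) : List.IsChain (· ≠ ·) (p.map F).edges := by
  induction p with
  | nil => simp
  | @cons a b c hab q ih =>
    cases q with
    | nil => simp
    | @cons _ d _ hbd r =>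
      simp only [Walk.edges_cons, List.isChain_cons_cons, Walk.map_cons] at hp ih ⊢
      refine ⟨?_, ih hp.2⟩
      intro he
      apply hp.1
      rw [Sym2.eq_iff] at he ⊢
      right
      rcases he with ⟨h1, h2⟩ | ⟨h1, _⟩
      · exact absurd h1 (F.map_adj hab).ne
      · have : a = d := hF b hab.symm hbd h1
        exact ⟨this, rfl⟩

/-- A covering map between trees is an isomorphism. -/
theorem iso_of_cover (hG : G.IsTree) (hH : H.IsTree) (F : V → W)
    (hF : ∀ p, BijOn F (G.neighborSet p) (H.neighborSet (F p))) :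
    ∃ φ : G ≃g H, ∀ v, φ v = F v := by
  have hhom : ∀ a b, G.Adj a b → H.Adj (F a) (F b) := fun a b h => (hF a).mapsTo h
  let FH : G →g H := ⟨F, fun {a b} h => hhom a b h⟩
  have hinj : Function.Injective F := by
    intro a b hab
    obtain ⟨p, hp, _⟩ := (hG.connected a b).exists_path_of_dist
    have h1 : (p.map FH).IsPath := by
      rw [hH.isAcyclic.isPath_iff_isChain]
      exact chain_map FH (fun p => (hF p).injOn) p ((hG.isAcyclic.isPath_iff_isChain p).1 hp)
    have h2 : ∀ (x y : W) (q : H.Walk x y), q.IsPath → x = y → q.length = 0 := by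
      rintro x _ q hq rfl
      exact Walk.nil_iff_length_eq.1 (Walk.isPath_iff_nil.1 hq)
    have h3 := h2 _ _ _ h1 hab
    rw [Walk.length_map] at h3
    exact Walk.eq_of_length_eq_zero h3
  have hsurj : Function.Surjective F := by
    have hstep : ∀ {x y : W} (q : H.Walk x y), x ∈ range F → y ∈ range F := by
      intro x y q
      induction q with
      | nil => exact id
      | cons h _ ih =>
        rintro ⟨a, rfl⟩
        apply ih
        obtain ⟨b, _, hb⟩ := (hF a).surjOn h
        exact ⟨b, hb⟩
    intro w
    have := hG.connected.nonempty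
    obtain ⟨a⟩ := this
    obtain ⟨q⟩ := hH.connected (F a) w
    exact hstep q ⟨a, rfl⟩
  refine ⟨⟨Equiv.ofBijective F ⟨hinj, hsurj⟩, ?_⟩, fun v => rfl⟩
  intro a b
  change H.Adj (F a) (F b) ↔ G.Adj a b
  constructor
  · intro h
    obtain ⟨c, hc, hcb⟩ := (hF a).surjOn h
    rw [← hinj hcb]
    exact hc
  · exact hhom a b

/-- Two trees whose vertices all have the same degree are isomorphic, by an isomorphism which maps
a given vertex to a given vertex. -/
theorem exists_iso (hG : G.IsTree) (hH : H.IsTree)
    (hd : ∀ v w, Nonempty (G.neighborSet v ≃ H.neighborSet w)) (o : V) (o' : W) :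
    ∃ φ : G ≃g H, φ o = o' := by
  choose β hβ using fun p q a b => exists_beta hd p q a b
  obtain ⟨φ, hφ⟩ := iso_of_cover hG hH (f G o o' β)
    (fun p => cover hG (fun p q a b => ⟨(hβ p q a b).1, fun _ => (hβ p q a b).2⟩) p)
  exact ⟨φ, by rw [hφ, f_root]⟩

/-- Two trees whose vertices all have the same degree are isomorphic, by an isomorphism which maps
a given oriented edge to a given oriented edge. -/
theorem exists_iso_arc (hG : G.IsTree) (hH : H.IsTree)
    (hd : ∀ v w, Nonempty (G.neighborSet v ≃ H.neighborSet w)) {o x : V} {o' x' : W}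
    (hx : G.Adj o x) (hx' : H.Adj o' x') :
    ∃ φ : G ≃g H, φ o = o' ∧ φ x = x' := by
  classical
  choose β hβ using fun p q a b => exists_beta hd p q a b
  let β' : V → W → V → W → V → W := fun p q a b => if p = o then β p q x x' else β p q a b
  have hβ' : ∀ p q a b, BijOn (β' p q a b) (G.neighborSet p) (H.neighborSet q) ∧
      (p ≠ o → a ∈ G.neighborSet p → b ∈ H.neighborSet q → β' p q a b a = b) := by
    intro p q a b
    by_cases hp : p = o
    · simp only [β', hp, if_true]
      exact ⟨(hβ _ _ _ _).1, fun h => absurd rfl h⟩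
    · simp only [β', hp, if_false]
      exact ⟨(hβ _ _ _ _).1, fun _ => (hβ _ _ _ _).2⟩
  obtain ⟨φ, hφ⟩ := iso_of_cover hG hH (f G o o' β') (fun p => cover hG hβ' p)
  refine ⟨φ, by rw [hφ, f_root], ?_⟩
  have hdx : G.dist o x = G.dist o o + 1 := by
    rw [SimpleGraph.dist_self, zero_add]
    exact SimpleGraph.dist_eq_one_iff_adj.2 hx
  have hpar : par G o x = o := par_eq hG o hx.symm hdx
  rw [hφ, (f_step hG hx.ne').2, hpar, f_root]
  simp only [β', if_true]
  exact (hβ _ _ _ _).2 hx hx'

/-- Regular trees are vertex-transitive. -/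
theorem transitive {d : ℕ} (hd0 : d ≠ 0) (hG : G.IsTree)
    (hd : ∀ v, (G.neighborSet v).ncard = d) (o o' : V) : ∃ φ : G ≃g G, φ o = o' := by
  refine exists_iso hG hG (fun v w => ?_) o o'
  have fin : ∀ v, Finite (G.neighborSet v) := fun v =>
    (Set.finite_of_ncard_ne_zero (by rw [hd v]; exact hd0)).to_subtype
  have := fin v
  have := fin w
  refine Finite.card_eq.1 ?_
  change (G.neighborSet v).ncard = (G.neighborSet w).ncard
  rw [hd v, hd w]

/-- Regular trees are transitive on oriented edges. -/
theorem transitive_arc {d : ℕ} (hd0 : d ≠ 0) (hG : G.IsTree)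
    (hd : ∀ v, (G.neighborSet v).ncard = d) {o x o' x' : V} (hx : G.Adj o x) (hx' : G.Adj o' x') :
    ∃ φ : G ≃g G, φ o = o' ∧ φ x = x' := by
  refine exists_iso_arc hG hG (fun v w => ?_) hx hx'
  have fin : ∀ v, Finite (G.neighborSet v) := fun v =>
    (Set.finite_of_ncard_ne_zero (by rw [hd v]; exact hd0)).to_subtype
  have := fin v
  have := fin w
  refine Finite.card_eq.1 ?_
  change (G.neighborSet v).ncard = (G.neighborSet w).ncard
  rw [hd v, hd w]

/-- Balls of a connected locally finite graph are finite. -/
theorem finite_ball (hG : G.Connected) (hf : ∀ v, (G.neighborSet v).Finite) (o : V) (n : ℕ) :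
    {v | G.dist o v ≤ n}.Finite := by
  induction n with
  | zero =>
    refine (Set.finite_singleton o).subset fun v hv => ?_
    have : G.dist o v = 0 := by simpa using hv
    rw [hG.dist_eq_zero_iff] at this
    exact this.symm
  | succ n ih =>
    refine (ih.union (ih.biUnion fun u _ => hf u)).subset fun v hv => ?_
    by_cases h : G.dist o v ≤ n
    · exact Or.inl h
    · right
      obtain ⟨q, hq⟩ := (hG v o).exists_walk_length_eq_dist
      cases q with
      | nil => simp at h
      | @cons _ p _ hadj r =>
        rw [Walk.length_cons, SimpleGraph.dist_comm] at hq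
        have h2 := SimpleGraph.dist_le r
        rw [SimpleGraph.dist_comm] at h2
        have h3 : G.dist o v ≤ n + 1 := hv
        simp only [Set.mem_iUnion]
        exact ⟨p, by change G.dist o p ≤ n; omega, hadj.symm⟩

theorem countable (hG : G.Connected) (hf : ∀ v, (G.neighborSet v).Finite) : Countable V := by
  obtain ⟨o⟩ := hG.nonempty
  have : (Set.univ : Set V) = ⋃ n : ℕ, {v | G.dist o v ≤ n} := by
    ext v
    simp only [Set.mem_univ, Set.mem_iUnion, true_iff]
    exact ⟨G.dist o v, le_refl (G.dist o v)⟩
  rw [← Set.countable_univ_iff, this]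
  exact Set.countable_iUnion fun n => (finite_ball hG hf o n).countable

theorem dist_iso (φ : G ≃g H) (a b : V) : H.dist (φ a) (φ b) = G.dist a b := by
  by_cases h : G.Reachable a b
  · apply le_antisymm
    · obtain ⟨p, hp⟩ := h.exists_walk_length_eq_dist
      rw [← hp, ← Walk.length_map (f := φ.toHom) p]
      exact SimpleGraph.dist_le _
    · have h' : H.Reachable (φ a) (φ b) := h.map φ.toHom
      obtain ⟨p, hp⟩ := h'.exists_walk_length_eq_dist
      rw [← hp, ← Walk.length_map (f := φ.symm.toHom) p]
      have := SimpleGraph.dist_le (p.map φ.symm.toHom)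
      simpa using this
  · have h' : ¬ H.Reachable (φ a) (φ b) := by
      intro h'
      apply h
      have := h'.map φ.symm.toHom
      simpa using this
    rw [SimpleGraph.dist_eq_zero_of_not_reachable h, SimpleGraph.dist_eq_zero_of_not_reachable h']

end Pool.Agent.R987.Tree
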